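import Pool.Agent.Work.MP_0d206b_gt.M.Stmts

/-! MP_0d206b_gt, module M: items, part 2 -/

/-! ### from I_ActGlueA.lean -/

section

/-!
# MP_0d206b_gt, module M: the action preserves the gluing relation of flow a
-/

set_option autoImplicit false

noncomputable section

namespace Pool.Agent.Work.MP_0d206b_gt.MActGlueA

open Pool.Agent.Work.MP_0d206b_gt

theorem sg_smul_mem (s : Bool) {m : P2} (hm : m ∈ Gam) : sg s • m ∈ Gam := by
  cases s
  · have : sg false • m = -m := by simp [sg]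
    rw [this]
    exact neg_mem hm
  · have : sg true • m = m := by simp [sg]
    rw [this]
    exact hm

theorem Lz_smul (j : ℤ) (r : ℝ) (m : P2) : Lz j (r • m) = r • Lz j m := by
  ext
  · simp only [Lz, Prod.smul_fst, smul_eq_mul]; ring
  · simp only [Lz, Prod.smul_snd, smul_eq_mul]; ring

theorem sg_ne (s : Bool) : sg s ≠ 0 := by cases s <;> simp [sg]

theorem stepRA (D : DA) (F : Facts D) (a : Grp) (s : Bool) (e e' : E) (h : glueRA D s e e') :
    glueRA D s (actA D a .R e) (actA D a (.A s) e') := by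
  obtain ⟨m, hm, v, hv, h1, h2, h3⟩ := h
  have hl : (0 : ℝ) < lam ^ a.j := zpow_pos lam_pos _
  have hv2 : v.2 ≠ 0 := by
    rintro h0
    rw [h0, mul_zero] at hv
    exact lt_irrefl _ hv
  have hsv : (sg s • v).2 ≠ 0 := by
    rw [Prod.smul_snd, smul_eq_mul]
    exact mul_ne_zero (sg_ne s) hv2
  have hg : gmap (sg s • (lam ^ a.j • v)) = lam ^ a.j • gmap (sg s • v) := by
    rw [smul_comm, F.g.gmap_smul _ _ hsv hl.ne']
  refine ⟨Lz a.j m + a.n, add_mem (Lz_mem _ hm) a.n.2, lam ^ a.j • v, ?_, ?_, ?_, ?_⟩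
  · rw [Prod.smul_snd, smul_eq_mul]
    have h4 : sg s * (lam ^ a.j * v.2) = lam ^ a.j * (sg s * v.2) := by ring
    rw [h4]
    exact mul_pos hl hv
  · show (D.Fe ^ a.j) e.1 + (a.n : P2) = _
    rw [h1, F.pow.psi _ _ hm]
    abel
  · show (D.Fe ^ a.j) e'.1 + sg s • (a.n : P2) = _
    rw [h2, F.pow.psi _ _ (sg_smul_mem s hm), hg, Lz_smul, smul_add]
    abel
  · show e'.2 - a.j = e.2 + a.j - llog (nsq (gmap (sg s • (lam ^ a.j • v))))
    rw [hg, F.log.llog_nsq _ _ (F.g.gmap_ne _ hsv), h3]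
    ring

theorem stepRg (D : DA) (F : Facts D) (a : Grp) (m : Gam) (e e' : E) (h : glueRg D m e e') :
    glueRg D (Grp.LG a.j m + a.n) (actA D a .R e) (actA D a (.g m) e') := by
  obtain ⟨v, hv, h1, h2, h3⟩ := h
  have hl : (0 : ℝ) < lam ^ a.j := zpow_pos lam_pos _
  refine ⟨lam ^ a.j • v, ?_, ?_, ?_, ?_⟩
  · rw [Prod.smul_snd, Prod.smul_fst, smul_eq_mul, smul_eq_mul, abs_mul, abs_mul]
    exact mul_lt_mul_of_pos_left hv (abs_pos.mpr hl.ne')
  · show (D.Fe ^ a.j) e.1 + (a.n : P2) = (Lz a.j m + a.n) + _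
    rw [h1, F.pow.psi _ _ m.2]
    abel
  · show (lam ^ (-a.j) * e'.1.1, lam ^ a.j * e'.1.2) = _
    rw [h2, zpow_neg]
    have h4 : v.1 ^ 2 - v.2 ^ 2 ≠ 0 := by
      have := sq_lt_sq.mpr hv
      exact (sub_pos.mpr this).ne'
    ext
    · simp only [Prod.smul_fst, Prod.smul_snd, smul_eq_mul]
      have h5 : (lam ^ a.j * v.1) ^ 2 - (lam ^ a.j * v.2) ^ 2 =
          lam ^ a.j * (lam ^ a.j * (v.1 ^ 2 - v.2 ^ 2)) := by ring
      rw [h5, mul_div_mul_left _ _ hl.ne']
      field_simp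
    · simp only [Prod.smul_fst, smul_eq_mul]
      ring
  · show e'.2 + a.j = e.2 + a.j
    rw [h3]

theorem stepAg (D : DA) (F : Facts D) (a : Grp) (s : Bool) (m : Gam) (e e' : E)
    (h : glueAg D s m e e') :
    glueAg D s (Grp.LG a.j m + a.n) (actA D a (.A s) e) (actA D a (.g m) e') := by
  obtain ⟨w, hw, h1, h2, h3⟩ := h
  have hl : (0 : ℝ) < lam ^ a.j := zpow_pos lam_pos _
  have hw0 : w ≠ 0 := by
    rintro rfl
    exact lt_irrefl _ hw
  refine ⟨lam ^ a.j • w, ?_, ?_, ?_, ?_⟩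
  · rw [Prod.smul_fst, smul_eq_mul]
    exact mul_pos hl hw
  · show (D.Fe ^ a.j) e.1 + sg s • (a.n : P2) = sg s • (Lz a.j m + a.n) + _
    rw [h1, F.pow.psi _ _ (sg_smul_mem s m.2), Lz_smul, smul_add]
    abel
  · show (lam ^ (-a.j) * e'.1.1, lam ^ a.j * e'.1.2) = _
    rw [h2, zpow_neg]
    ext
    · simp only [Prod.smul_fst, smul_eq_mul]
      field_simp
    · simp only [Prod.smul_snd, smul_eq_mul]
      ring
  · show e'.2 + a.j = e.2 - a.j + llog (nsq (lam ^ a.j • w))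
    rw [F.log.llog_nsq _ _ hw0, h3]
    ring

theorem prf : StActGlueA := by
  intro D F i j a e e' h
  rcases i with _ | s | m <;> rcases j with _ | s' | m'
  · exact congrArg (actA D a .R) h
  · exact stepRA D F a s' e e' h
  · exact stepRg D F a m' e e' h
  · exact stepRA D F a s e' e h
  · obtain ⟨rfl, rfl⟩ := h
    exact ⟨rfl, rfl⟩
  · exact stepAg D F a s m' e e' h
  · exact stepRg D F a m e' e h
  · exact stepAg D F a s' m e' e h
  · obtain ⟨rfl, rfl⟩ := h
    exact ⟨rfl, rfl⟩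

end Pool.Agent.Work.MP_0d206b_gt.MActGlueA

end
end

/-! ### from I_Alg0.lean -/

section

/-!
# MP_0d206b_gt, module M: algebra of the gluing relation of flow 0
-/

set_option autoImplicit false

open Set Filter Topology
open scoped ContDiff

noncomputable section

namespace Pool.Agent.Work.MP_0d206b_gt.MAlg0

open MP0d206b.Et (shift)

theorem swap_ne {v : P2} (hv : v ≠ 0) : ((v.2, v.1) : P2) ≠ 0 := by
  intro h
  apply hv
  have h1 := congrArg Prod.fst h
  have h2 := congrArg Prod.snd h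
  ext
  · exact h2
  · exact h1

theorem dom_right {D : DA} (hD : Facts D) {e e' : E} (h : glue0RA D e e') : e'.1 ∉ Gam := by
  obtain ⟨m, hm, v, hv, h1, h2, h3⟩ := h
  rw [h2, hD.psi.mem_gam m hm]
  exact swap_ne hv

theorem dom_left {D : DA} (hD : Facts D) {e e' : E} (h : glue0RA D e e') : e.1 ∉ Gam := by
  obtain ⟨m, hm, v, hv, h1, h2, h3⟩ := h
  rw [h1, hD.psi.mem_gam m hm]
  exact hv

theorem shiftRA {D : DA} {e e' : E} (s : ℝ) (h : glue0RA D e e') :
    glue0RA D (shift s e) (shift s e') := by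
  obtain ⟨m, hm, v, hv, h1, h2, h3⟩ := h
  refine ⟨m, hm, v, hv, h1, h2, ?_⟩
  show e'.2 + s = e.2 + s - llog (nsq v)
  rw [h3]
  ring

theorem prf : StAlg0 := by
  intro D hD
  refine ⟨?_, ?_, ?_, ?_, ?_, ?_⟩
  · intro i
    have : IsClosed {e : E | e.1 ∈ (Gam : Set P2)} := hD.gam.closed.preimage continuous_fst
    exact this.isOpen_compl
  · intro i e s he
    exact he
  · intro i e e'
    cases i
    · exact Iff.rfl
    · exact Iff.rfl
  · intro i e j e' he h
    cases i <;> cases j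
    · have h' : e = e' := h
      subst h'
      exact he
    · exact dom_right hD h
    · exact dom_left hD h
    · have h' : e = e' := h
      subst h'
      exact he
  · intro i e j e' h
    cases i <;> cases j
    · exact (Eq.symm h : e' = e)
    · exact h
    · exact h
    · exact (Eq.symm h : e' = e)
  · intro i e j e' s h
    cases i <;> cases j
    · exact (congrArg (shift s) h : shift s e = shift s e')
    · exact shiftRA s h
    · exact shiftRA s h
    · exact (congrArg (shift s) h : shift s e = shift s e')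

end Pool.Agent.Work.MP_0d206b_gt.MAlg0

end
end

/-! ### from I_ClosedRA.lean -/

section

/-!
# MP_0d206b_gt, module M, item ClosedRA: the gluing relation of flow a between the repeller piece and an attractor
piece is closed
-/

set_option autoImplicit false

open Set Filter Topology
open scoped ContDiff

noncomputable section

namespace Pool.Agent.Work.MP_0d206b_gt.MClosedRA

open Pool.Agent.Work.MP_0d206b_gt

theorem sg_sq (s : Bool) : sg s * sg s = 1 := by cases s <;> simp [sg]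

theorem sg_ne (s : Bool) : sg s ≠ 0 := by cases s <;> simp [sg]

theorem sg_mem (s : Bool) {m : P2} (hm : m ∈ Gam) : sg s • m ∈ Gam := by
  cases s
  · simpa [sg] using hm
  · simpa [sg] using hm

theorem sg_smul (s : Bool) (m : P2) : sg s • sg s • m = m := by
  rw [smul_smul, sg_sq, one_smul]

theorem nsq_cont : Continuous nsq := by unfold nsq; fun_prop

theorem nsq_sg (s : Bool) (v : P2) : nsq (sg s • v) = nsq v := by
  cases s <;> simp [sg, nsq]

theorem llog_nsq_tendsto (F : LogFacts) {w : ℕ → P2} {v : P2} (hv : v ≠ 0)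
    (h : Tendsto w atTop (𝓝 v)) : Tendsto (fun n => llog (nsq (w n))) atTop (𝓝 (llog (nsq v))) := by
  have h1 : Tendsto (fun n => nsq (w n)) atTop (𝓝 (nsq v)) := (nsq_cont.tendsto v).comp h
  have h2 : Tendsto (fun n => Real.log (nsq (w n))) atTop (𝓝 (Real.log (nsq v))) :=
    h1.log (F.nsq_pos v hv).ne'
  exact h2.div_const _

theorem gmap_tendsto {u : ℕ → P2} {v : P2} (hv : v.2 ≠ 0) (h : Tendsto u atTop (𝓝 v)) :
    Tendsto (fun n => gmap (u n)) atTop (𝓝 (gmap v)) := by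
  have h1 : Tendsto (fun n => (u n).1) atTop (𝓝 v.1) := (continuous_fst.tendsto _).comp h
  have h2 : Tendsto (fun n => (u n).2) atTop (𝓝 v.2) := (continuous_snd.tendsto _).comp h
  exact (((h1.pow 2).sub (h2.pow 2)).div h2 hv).prodMk_nhds (h1.const_mul 2)

/-- a bound for `w` from a bound for the logarithm -/
theorem nsq_bdd (F : LogFacts) (b : ℝ) :
    ∃ R > 0, (∀ w : P2, w ≠ 0 → llog (nsq w) ≤ b → nsq w ≤ R ^ 2) ∧ ∀ w : P2, nsq w ≤ R ^ 2 → ‖w‖ ≤ R := by
  obtain ⟨R, hR, h⟩ := F.llog_lt b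
  refine ⟨R + 1, by linarith, fun w hw hb => ?_, fun w hw => ?_⟩
  · have h1 := h (nsq w) (F.nsq_pos w hw) hb
    nlinarith
  · have h2 := F.le_nsq w
    exact (abs_le_of_sq_le_sq' (h2.trans hw) (by linarith)).2

theorem prf : StClosedRA := by
  intro D F s e e' x y he he' hx hy hg
  have he1 : e.1 ∉ Gam := he
  have he1' : e'.1 ∉ Gam := he'
  have hg' : ∀ n, ∃ m ∈ Gam, ∃ v : P2, 0 < sg s * v.2 ∧ (x n).1 = m + D.Psi v ∧
    (y n).1 = sg s • m + D.Psi (gmap (sg s • v)) ∧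
    (y n).2 = (x n).2 - llog (nsq (gmap (sg s • v))) := hg
  choose m hm v hv hvx hvy hvt using hg'
  have hs2 : ∀ n, 0 < (sg s • v n).2 := fun n => hv n
  have hx1 : Tendsto (fun n => (x n).1) atTop (𝓝 e.1) := (continuous_fst.tendsto _).comp hx
  have hx2 : Tendsto (fun n => (x n).2) atTop (𝓝 e.2) := (continuous_snd.tendsto _).comp hx
  have hy1 : Tendsto (fun n => (y n).1) atTop (𝓝 e'.1) := (continuous_fst.tendsto _).comp hy
  have hy2 : Tendsto (fun n => (y n).2) atTop (𝓝 e'.2) := (continuous_snd.tendsto _).comp hy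
  have hwne : ∀ n, gmap (sg s • v n) ≠ 0 := fun n => F.g.gmap_ne _ (hs2 n).ne'
  -- bounds
  have hlim : Tendsto (fun n => llog (nsq (gmap (sg s • v n)))) atTop (𝓝 (e.2 - e'.2)) := by
    have h1 : (fun n => llog (nsq (gmap (sg s • v n)))) = fun n => (x n).2 - (y n).2 := by
      funext n; rw [hvt n]; ring
    rw [h1]
    exact hx2.sub hy2
  obtain ⟨b, hb⟩ := hlim.bddAbove_range
  obtain ⟨R, hR, hR1, hR2⟩ := nsq_bdd F.log b
  have hwR' : ∀ n, nsq (gmap (sg s • v n)) ≤ R ^ 2 := fun n => hR1 _ (hwne n) (hb ⟨n, rfl⟩)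
  have hwR : ∀ n, ‖gmap (sg s • v n)‖ ≤ R := fun n => hR2 _ (hwR' n)
  have hvR : ∀ n, ‖v n‖ ≤ R := fun n => by
    refine hR2 _ ?_
    rw [← nsq_sg s]
    exact (F.g.nsq_le _ (hs2 n).ne').trans (hwR' n)
  -- limits
  obtain ⟨m0, hm0, v0, hev, hmm, hvv⟩ := F.proper.proper e.1 (fun n => (x n).1) m v R hx1
    (fun n => ⟨hm n, hvx n⟩) hvR
  obtain ⟨m1, hm1, w0, hew, hmm', hww⟩ := F.proper.proper e'.1 (fun n => (y n).1)
    (fun n => sg s • m n) (fun n => gmap (sg s • v n)) R hy1 (fun n => ⟨sg_mem s (hm n), hvy n⟩) hwR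
  have hm01 : m1 = sg s • m0 := by
    obtain ⟨n, h1, h2⟩ := (hmm.and hmm').exists
    rw [← h2, h1]
  subst hm01
  have hv0 : v0 ≠ 0 := fun h => he1 (by rw [hev]; exact (F.psi.mem_gam _ hm0 v0).2 h)
  have hw0 : w0 ≠ 0 := fun h => he1' (by rw [hew]; exact (F.psi.mem_gam _ hm1 w0).2 h)
  have hsv : Tendsto (fun n => sg s • v n) atTop (𝓝 (sg s • v0)) := hvv.const_smul _
  have hginv : sg s • v0 = gminv w0 := by
    have h1 : Tendsto (fun n => gminv (gmap (sg s • v n))) atTop (𝓝 (gminv w0)) :=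
      (F.g.gminv_cont.tendsto _).comp hww
    have h2 : (fun n => gminv (gmap (sg s • v n))) = fun n => sg s • v n := by
      funext n
      exact F.g.gminv_gmap _ (hs2 n)
    rw [h2] at h1
    exact tendsto_nhds_unique hsv h1
  have hpos : 0 < (sg s • v0).2 := by
    have h0 : 0 ≤ (sg s • v0).2 :=
      ge_of_tendsto' ((continuous_snd.tendsto _).comp hsv) (fun n => (hs2 n).le)
    rcases h0.lt_or_eq with h | h
    · exact h
    · exfalso
      have h3 : (gminv w0).2 = 0 := by rw [← hginv]; exact h.symm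
      have h4 : Real.sqrt (nsq w0) = w0.1 := by
        have : (Real.sqrt (nsq w0) - w0.1) / 2 = 0 := h3
        linarith
      have h5 : nsq w0 = w0.1 ^ 2 := by
        rw [← h4, Real.sq_sqrt (F.log.nsq_pos _ hw0).le]
      have h6 : w0.2 = 0 := by
        unfold nsq at h5
        have : w0.2 ^ 2 = 0 := by linarith
        simpa using this
      have h7 : (sg s • v0).1 = 0 := by
        rw [hginv]
        show w0.2 / 2 = 0
        rw [h6, zero_div]
      refine hv0 ?_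
      have h8 : sg s • v0 = 0 := Prod.ext h7 h.symm
      exact (smul_eq_zero.1 h8).resolve_left (sg_ne s)
  have hwg : w0 = gmap (sg s • v0) := tendsto_nhds_unique hww (gmap_tendsto hpos.ne' hsv)
  refine ⟨m0, hm0, v0, hpos, hev, ?_, ?_⟩
  · rw [← hwg]; exact hew
  · have h1 : Tendsto (fun n => (y n).2) atTop (𝓝 (e.2 - llog (nsq (gmap (sg s • v0))))) := by
      have h2 : (fun n => (y n).2) = fun n => (x n).2 - llog (nsq (gmap (sg s • v n))) := by
        funext n; rw [hvt n]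
      rw [h2, ← hwg]
      exact hx2.sub (llog_nsq_tendsto F.log hw0 hww)
    exact tendsto_nhds_unique hy2 h1

end Pool.Agent.Work.MP_0d206b_gt.MClosedRA

end
end

/-! ### from I_ClosedRg.lean -/

section

/-!
# MP_0d206b_gt, module M, item ClosedRg: the gluing relation of flow a between the repeller piece and a saddle
piece is closed
-/

set_option autoImplicit false

open Set Filter Topology
open scoped ContDiff

noncomputable section

namespace Pool.Agent.Work.MP_0d206b_gt.MClosedRg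

open Pool.Agent.Work.MP_0d206b_gt

theorem prf : StClosedRg := by
  intro D F m e e' x y he he' hx hy hg
  have he1 : e.1 ∉ Gam := he
  have hg' : ∀ n, ∃ v : P2, |v.2| < |v.1| ∧ (x n).1 = (m : P2) + D.Psi v ∧
    (y n).1 = (v.2 / (v.1 ^ 2 - v.2 ^ 2), 2 * v.1) ∧ (y n).2 = (x n).2 := hg
  choose v hv hvx hvy hvt using hg'
  have hx1 : Tendsto (fun n => (x n).1) atTop (𝓝 e.1) := (continuous_fst.tendsto _).comp hx
  have hx2 : Tendsto (fun n => (x n).2) atTop (𝓝 e.2) := (continuous_snd.tendsto _).comp hx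
  have hy1 : Tendsto (fun n => (y n).1) atTop (𝓝 e'.1) := (continuous_fst.tendsto _).comp hy
  have hy2 : Tendsto (fun n => (y n).2) atTop (𝓝 e'.2) := (continuous_snd.tendsto _).comp hy
  have hy11 : Tendsto (fun n => (y n).1.1) atTop (𝓝 e'.1.1) := (continuous_fst.tendsto _).comp hy1
  have hy12 : Tendsto (fun n => (y n).1.2) atTop (𝓝 e'.1.2) := (continuous_snd.tendsto _).comp hy1
  -- `v n` is bounded
  obtain ⟨B, hB⟩ := hy12.abs.bddAbove_range
  have hvB : ∀ n, ‖v n‖ ≤ B := by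
    intro n
    have h1 := hB ⟨n, rfl⟩
    simp only at h1
    rw [hvy n] at h1
    simp only at h1
    rw [abs_mul, abs_two] at h1
    have h2 := abs_nonneg (v n).1
    have h3 := hv n
    rw [Prod.norm_def, Real.norm_eq_abs, Real.norm_eq_abs]
    exact max_le (by linarith) (by linarith)
  obtain ⟨m0, hm0, v0, hev, hm, hvv⟩ := F.proper.proper e.1 (fun n => (x n).1)
    (fun _ => (m : P2)) v B hx1 (fun n => ⟨m.2, hvx n⟩) hvB
  obtain ⟨_, hm⟩ := hm.exists
  subst hm
  have hv0 : v0 ≠ 0 := fun h => he1 (by rw [hev]; exact (F.psi.mem_gam _ hm0 v0).2 h)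
  have hv1 : Tendsto (fun n => (v n).1) atTop (𝓝 v0.1) := (continuous_fst.tendsto _).comp hvv
  have hv2 : Tendsto (fun n => (v n).2) atTop (𝓝 v0.2) := (continuous_snd.tendsto _).comp hvv
  have hle : |v0.2| ≤ |v0.1| := le_of_tendsto_of_tendsto' hv2.abs hv1.abs fun n => (hv n).le
  have hsq : ∀ n, (v n).1 ^ 2 - (v n).2 ^ 2 ≠ 0 := fun n => by
    have := sq_lt_sq.2 (hv n)
    exact (sub_pos.2 this).ne'
  have hprod : e'.1.1 * (v0.1 ^ 2 - v0.2 ^ 2) = v0.2 := by
    have h1 : Tendsto (fun n => (y n).1.1 * ((v n).1 ^ 2 - (v n).2 ^ 2)) atTop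
        (𝓝 (e'.1.1 * (v0.1 ^ 2 - v0.2 ^ 2))) := hy11.mul ((hv1.pow 2).sub (hv2.pow 2))
    have h2 : (fun n => (y n).1.1 * ((v n).1 ^ 2 - (v n).2 ^ 2)) = fun n => (v n).2 := by
      funext n
      rw [hvy n]
      exact div_mul_cancel₀ _ (hsq n)
    rw [h2] at h1
    exact tendsto_nhds_unique h1 hv2
  have hlt : |v0.2| < |v0.1| := by
    rcases hle.lt_or_eq with h | h
    · exact h
    · have h1 : v0.2 ^ 2 = v0.1 ^ 2 := (sq_eq_sq_iff_abs_eq_abs _ _).2 h
      rw [h1, sub_self, mul_zero] at hprod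
      refine absurd ?_ hv0
      rw [← hprod] at h1
      ext
      · have : v0.1 ^ 2 = 0 := by rw [← h1]; ring
        simpa using this
      · exact hprod.symm
  have hne : v0.1 ^ 2 - v0.2 ^ 2 ≠ 0 := (sub_pos.2 (sq_lt_sq.2 hlt)).ne'
  refine ⟨v0, hlt, hev, ?_, ?_⟩
  · ext
    · exact (eq_div_iff hne).2 hprod
    · have h1 : Tendsto (fun n => (y n).1.2) atTop (𝓝 (2 * v0.1)) := by
        have h2 : (fun n => (y n).1.2) = fun n => 2 * (v n).1 := by
          funext n; rw [hvy n]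
        rw [h2]
        exact hv1.const_mul _
      exact tendsto_nhds_unique hy12 h1
  · have h1 : Tendsto (fun n => (y n).2) atTop (𝓝 e.2) := by
      have h2 : (fun n => (y n).2) = fun n => (x n).2 := by
        funext n; rw [hvt n]
      rw [h2]
      exact hx2
    exact tendsto_nhds_unique hy2 h1

end Pool.Agent.Work.MP_0d206b_gt.MClosedRg

end
end

/-! ### from I_CompR.lean -/

section

/-! Item CompR: compactness, the points of the repeller piece. -/

set_option autoImplicit false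

open Set Filter Topology
open scoped ContDiff

noncomputable section

namespace Pool.Agent.Work.MP_0d206b_gt.MCompR

lemma sg_smul_mem (s : Bool) {m : P2} (hm : m ∈ Gam) : sg s • m ∈ Gam := by
  cases s
  · have : sg false • m = -m := by simp [sg]
    rw [this]
    exact Gam.neg_mem hm
  · have : sg true • m = m := by simp [sg]
    rw [this]
    exact hm

lemma sg_mul_self (s : Bool) : sg s * sg s = 1 := by
  cases s <;> simp [sg]

lemma lam_lt_three : lam < 3 := by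
  rw [lam_mul_phi]
  linarith [Real.goldenRatio_lt_two]

lemma exists_sg {x : ℝ} (hx : x ≠ 0) : ∃ s, 0 < sg s * x := by
  rcases lt_or_gt_of_ne hx with h | h
  · exact ⟨false, by simpa [sg] using h⟩
  · exact ⟨true, by simpa [sg] using h⟩

/-- the estimates in the saddle region -/
lemma saddle_est {a b ρ : ℝ} (hρ : 0 < ρ) (hρ1 : ρ ≤ 1 / 100) (hab : a ≠ 0 ∨ b ≠ 0)
    (ha : |a| < ρ) (hb : |b| < ρ) (h : |b| < 2 * ρ * lam * (a ^ 2 + b ^ 2)) :
    |b| < |a| ∧ |b / (a ^ 2 - b ^ 2)| ≤ 1 := by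
  have hl := lam_lt_three
  have hl0 := lam_pos
  have hV : 0 < a ^ 2 + b ^ 2 := by
    rcases hab with h | h
    · positivity
    · positivity
  have h1 : |b| < 6 / 100 * (a ^ 2 + b ^ 2) := by
    have : 2 * ρ * lam ≤ 6 / 100 := by nlinarith
    exact h.trans_le (mul_le_mul_of_nonneg_right this hV.le)
  have hb0 := abs_nonneg b
  have ha0 := abs_nonneg a
  have ha2 : a ^ 2 = |a| ^ 2 := (sq_abs a).symm
  have hb2 : b ^ 2 = |b| ^ 2 := (sq_abs b).symm
  rw [ha2, hb2] at h1 hV ⊢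
  have hbb : |b / (|a| ^ 2 - |b| ^ 2)| = |b| / |(|a| ^ 2 - |b| ^ 2)| := abs_div _ _
  rw [hbb]
  generalize |a| = x at *
  generalize |b| = y at *
  have h2 : 2 * y ≤ x := by
    by_contra hcon
    push Not at hcon
    have h3 : x ^ 2 ≤ 4 * y ^ 2 := by nlinarith
    have h4 : y < 3 / 10 * y ^ 2 := by linarith
    nlinarith
  have hx : 0 < x := by
    by_contra hcon
    have hx0 : x = 0 := le_antisymm (not_lt.mp hcon) ha0
    have hy0 : y = 0 := by linarith
    rw [hx0, hy0] at hV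
    norm_num at hV
  refine ⟨by linarith, ?_⟩
  have h5 : 4 * y ^ 2 ≤ x ^ 2 := by nlinarith
  have h6 : 0 < x ^ 2 - y ^ 2 := by nlinarith [sq_nonneg y, pow_pos hx 2]
  rw [abs_of_pos h6, div_le_one h6]
  nlinarith [sq_nonneg y, pow_pos hx 2]

lemma one_lt_of_llog (hL : LogFacts) {r : ℝ} (hr : 0 < r) (h : 0 < llog r) : 1 < r := by
  unfold llog at h
  have h1 : 0 < Real.log r := by
    rcases (div_pos_iff.mp h) with h2 | h2
    · exact h2.1
    · exact absurd h2.2 (not_lt.mpr hL.log_pos.le)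
  exact (Real.log_pos_iff hr.le).mp h1

/-- the size of the normalised point -/
lemma size_est (hL : LogFacts) {ρ t : ℝ} (hρ : 0 < ρ) {w : P2} (hw : w ≠ 0) (j : ℤ)
    (ht : 0 ≤ t) (hj : t - llog (nsq w) < j + 1)
    (hbig : 4 * ρ ^ 2 * lam ^ 2 * nsq w ≤ 1) : ρ ≤ ‖lam ^ j • w‖ := by
  have hl0 := lam_pos
  have hN := hL.nsq_pos w hw
  have hlj : 0 < lam ^ j := zpow_pos hl0 j
  have h1 : 0 < llog (lam ^ (j + 1) * nsq w) := by
    rw [hL.llog_zpow _ _ hN]
    push_cast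
    linarith
  have h2 : 1 < lam ^ (j + 1) * nsq w := one_lt_of_llog hL (by positivity) h1
  rw [zpow_add_one₀ hl0.ne'] at h2
  -- `1 < lam ^ j * lam * nsq w`
  have h3 : nsq (lam ^ j • w) = (lam ^ j) ^ 2 * nsq w := hL.nsq_smul _ _
  have h4 := hL.nsq_le (lam ^ j • w)
  rw [h3] at h4
  have h5 : 1 < (lam ^ j * lam * nsq w) ^ 2 := by
    have := pow_lt_pow_left₀ h2 zero_le_one two_ne_zero
    simpa using this
  have h6 : 4 * ρ ^ 2 < (lam ^ j) ^ 2 * nsq w := by
    have h7 : (lam ^ j * lam * nsq w) ^ 2 = ((lam ^ j) ^ 2 * nsq w) * (lam ^ 2 * nsq w) := by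
      ring
    rw [h7] at h5
    have h8 : 0 < lam ^ 2 * nsq w := by positivity
    by_contra hcon
    push Not at hcon
    have h9 := mul_le_mul_of_nonneg_right hcon h8.le
    linarith
  have h10 : ρ ^ 2 ≤ ‖lam ^ j • w‖ ^ 2 := by nlinarith [sq_nonneg ρ]
  exact (pow_le_pow_iff_left₀ hρ.le (norm_nonneg _) two_ne_zero).mp h10

theorem prf (hAct : StActA) (hGlue : StActGlueA) : StCompR := by
  intro D hD
  obtain ⟨C1, hC1, hcov⟩ := hD.gam.cover
  obtain ⟨r1, hr1, hr1h, hnear⟩ := hD.proper.near_gam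
  obtain ⟨r2, hr2, hdist⟩ := hD.proper.dist_gam
  refine ⟨min (min r1 r2) (1 / 100), by positivity, max C1 1, ?_⟩
  intro ρ hρ hρ0 C hC e he
  have hρ1 : ρ ≤ r1 := hρ0.trans ((min_le_left _ _).trans (min_le_left _ _))
  have hρ2 : ρ ≤ r2 := hρ0.trans ((min_le_left _ _).trans (min_le_right _ _))
  have hρ3 : ρ ≤ 1 / 100 := hρ0.trans (min_le_right _ _)
  have hCC1 : C1 ≤ C := (le_max_left _ _).trans hC
  have hCC2 : 1 ≤ C := (le_max_right _ _).trans hC
  -- normalise
  obtain ⟨n0, hn0, hn0b⟩ := hcov ((D.Fe ^ (-⌊e.2⌋)) e.1)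
  have hdom : actA D ⟨⟨n0, hn0⟩, -⌊e.2⌋⟩ .R e ∈ domA .R :=
    (hAct D hD).act_dom ⟨⟨n0, hn0⟩, -⌊e.2⌋⟩ .R e he
  have h11 : (actA D ⟨⟨n0, hn0⟩, -⌊e.2⌋⟩ .R e).1 = (D.Fe ^ (-⌊e.2⌋)) e.1 + n0 := rfl
  have h12 : (actA D ⟨⟨n0, hn0⟩, -⌊e.2⌋⟩ .R e).2 = e.2 + ((-⌊e.2⌋ : ℤ) : ℝ) := rfl
  have hmul := (hAct D hD).act_mul
  generalize ha0 : (⟨⟨n0, hn0⟩, -⌊e.2⌋⟩ : Grp) = a0 at hdom h11 h12
  generalize he1 : actA D a0 .R e = e1 at hdom h11 h12
  have hnorm : ‖e1.1‖ ≤ C := by
    rw [h11]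
    exact hn0b.trans hCC1
  have ht0 : 0 ≤ e1.2 := by
    rw [h12]
    push_cast
    linarith [Int.floor_le e.2]
  have ht1 : e1.2 ≤ 1 := by
    rw [h12]
    push_cast
    linarith [Int.lt_floor_add_one e.2]
  by_cases hfar : ∀ m ∈ Gam, ρ ≤ dist e1.1 m
  · exact ⟨a0, .R, e1, ⟨hnorm, hfar, ht0, ht1⟩, he1⟩
  · push Not at hfar
    obtain ⟨m, hm, hmd⟩ := hfar
    have hv := hnear e1.1 m hm (hmd.trans_le hρ1)
    have hvn : ‖e1.1 - m‖ < ρ := by rwa [← dist_eq_norm]
    have hv0 : e1.1 - m ≠ 0 := by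
      intro h0
      apply hdom
      rw [sub_eq_zero.mp h0]
      exact hm
    generalize e1.1 - m = v at hv hvn hv0
    have hl0 := lam_pos
    have hVp := hD.log.nsq_pos v hv0
    by_cases hcase : 2 * ρ * lam * nsq v ≤ |v.2|
    · -- attractor
      have hv2 : v.2 ≠ 0 := by
        intro h0
        rw [h0, abs_zero] at hcase
        have : 0 < 2 * ρ * lam * nsq v := by positivity
        linarith
      obtain ⟨s, hs⟩ := exists_sg hv2
      have hsv : (sg s • v).2 = sg s * v.2 := rfl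
      have hsv0 : (sg s • v).2 ≠ 0 := by
        rw [hsv]
        exact hs.ne'
      have hw0 := hD.g.gmap_ne (sg s • v) hsv0
      have hwN := hD.g.nsq_gmap (sg s • v) hsv0
      have hss : (sg s) ^ 2 = 1 := by
        rw [sq]
        exact sg_mul_self s
      rw [hD.log.nsq_smul, hsv, hss, mul_pow (sg s) v.2, hss, one_mul, one_mul] at hwN
      have hg : glueA D .R e1 (.A s) (sg s • m + D.Psi (gmap (sg s • v)),
          e1.2 - llog (nsq (gmap (sg s • v)))) := ⟨m, hm, v, hs, hv, rfl, rfl⟩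
      generalize gmap (sg s • v) = w at hw0 hwN hg
      have hsize : ∀ j : ℤ, e1.2 - llog (nsq w) < j + 1 → ρ ≤ ‖lam ^ j • w‖ := by
        intro j hj
        refine size_est hD.log hρ hw0 j ht0 hj ?_
        rw [hwN, mul_div_assoc', div_le_one (by positivity)]
        have h1 : (2 * ρ * lam * nsq v) ^ 2 ≤ |v.2| ^ 2 :=
          pow_le_pow_left₀ (by positivity) hcase 2
        rw [sq_abs] at h1
        linarith
      have hfl1 := Int.floor_le (e1.2 - llog (nsq w))
      have hfl2 := Int.lt_floor_add_one (e1.2 - llog (nsq w))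
      obtain ⟨n1, hn1, hn1b⟩ := hcov ((D.Fe ^ ⌊e1.2 - llog (nsq w)⌋) (sg s • m + D.Psi w))
      have hsz := hsize _ hfl2
      have hpsi := hD.pow.psi ⌊e1.2 - llog (nsq w)⌋ (sg s • m) (sg_smul_mem s hm) w
      have hg2 := hGlue D hD .R (.A s) ⟨⟨sg s • n1, sg_smul_mem s hn1⟩,
        ⌊e1.2 - llog (nsq w)⌋⟩ _ _ hg
      generalize ⌊e1.2 - llog (nsq w)⌋ = j at *
      refine ⟨⟨⟨sg s • n1, sg_smul_mem s hn1⟩, j⟩ * a0, .A s,
        actA D ⟨⟨sg s • n1, sg_smul_mem s hn1⟩, j⟩ (.A s) (sg s • m + D.Psi w,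
          e1.2 - llog (nsq w)), ⟨?_, ?_, ?_, ?_⟩, ?_⟩
      · show ‖(D.Fe ^ j) (sg s • m + D.Psi w) + sg s • (sg s • n1)‖ ≤ C
        rw [smul_smul, sg_mul_self, one_smul]
        exact hn1b.trans hCC1
      · intro m' hm'
        show ρ ≤ dist ((D.Fe ^ j) (sg s • m + D.Psi w) + sg s • (sg s • n1)) m'
        rw [smul_smul, sg_mul_self, one_smul, hpsi]
        have h1 := hdist ρ hρ hρ2 (Lz j (sg s • m)) (Lz_mem j (sg_smul_mem s hm))
          (lam ^ j • w) hsz (m' - n1) (Gam.sub_mem hm' hn1)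
        have h2 : dist (Lz j (sg s • m) + D.Psi (lam ^ j • w) + n1) m' =
            dist (Lz j (sg s • m) + D.Psi (lam ^ j • w)) (m' - n1) := by
          rw [dist_eq_norm, dist_eq_norm]
          congr 1
          abel
        rw [h2]
        exact h1
      · show 0 ≤ e1.2 - llog (nsq w) - (j : ℝ)
        linarith
      · show e1.2 - llog (nsq w) - (j : ℝ) ≤ 1
        linarith
      · show glueA D .R (actA D (⟨⟨sg s • n1, sg_smul_mem s hn1⟩, j⟩ * a0) .R e) (.A s) _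
        rw [hmul]
        show glueA D .R (actA D ⟨⟨sg s • n1, sg_smul_mem s hn1⟩, j⟩ .R (actA D a0 .R e)) (.A s) _
        rw [he1]
        exact hg2
    · -- saddle
      push Not at hcase
      have hvb : |v.1| < ρ ∧ |v.2| < ρ := by
        rw [Prod.norm_def, max_lt_iff] at hvn
        exact hvn
      have hab : v.1 ≠ 0 ∨ v.2 ≠ 0 := by
        by_contra hcon
        push Not at hcon
        exact hv0 (Prod.ext hcon.1 hcon.2)
      obtain ⟨h1, h2⟩ := saddle_est hρ hρ3 hab hvb.1 hvb.2 hcase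
      have hg : glueA D .R e1 (.g ⟨m, hm⟩) ((v.2 / (v.1 ^ 2 - v.2 ^ 2), 2 * v.1), e1.2) :=
        ⟨v, h1, hv, rfl, rfl⟩
      have hg2 := hGlue D hD .R (.g ⟨m, hm⟩) ⟨-⟨m, hm⟩, 0⟩ _ _ hg
      refine ⟨⟨-⟨m, hm⟩, 0⟩ * a0, .g (Grp.LG 0 ⟨m, hm⟩ + -⟨m, hm⟩),
        actA D ⟨-⟨m, hm⟩, 0⟩ (.g ⟨m, hm⟩) ((v.2 / (v.1 ^ 2 - v.2 ^ 2), 2 * v.1), e1.2),
        ⟨?_, ?_, ?_, ?_⟩, ?_⟩
      · rw [Grp.LG_zero, add_neg_cancel]
      · show ‖((lam ^ (-(0 : ℤ)) * (v.2 / (v.1 ^ 2 - v.2 ^ 2)),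
          lam ^ (0 : ℤ) * (2 * v.1)) : P2)‖ ≤ C
        rw [neg_zero, zpow_zero, one_mul, one_mul, Prod.norm_def]
        refine max_le ?_ ?_
        · exact h2.trans hCC2
        · show |2 * v.1| ≤ C
          rw [abs_mul, abs_two]
          linarith [hvb.1]
      · show 0 ≤ e1.2 + ((0 : ℤ) : ℝ)
        rw [Int.cast_zero, add_zero]
        exact ht0
      · show e1.2 + ((0 : ℤ) : ℝ) ≤ 1
        rw [Int.cast_zero, add_zero]
        exact ht1
      · show glueA D .R (actA D (⟨-⟨m, hm⟩, 0⟩ * a0) .R e) (.g _) _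
        rw [hmul]
        show glueA D .R (actA D ⟨-⟨m, hm⟩, 0⟩ .R (actA D a0 .R e)) (.g _) _
        rw [he1]
        exact hg2

end Pool.Agent.Work.MP_0d206b_gt.MCompR

end
end

/-! ### from I_Compat0.lean -/

section

/-!
# MP_0d206b_gt, item M Compat0: the gluing map of flow 0 preserves the line fields
-/

set_option autoImplicit false

open Set Filter Topology
open scoped ContDiff

noncomputable section

namespace Pool.Agent.Work.MP_0d206b_gt.MCompat0

/-- the swap of the two coordinates -/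
def sw : P2 →L[ℝ] P2 := (ContinuousLinearMap.snd ℝ ℝ ℝ).prod (ContinuousLinearMap.fst ℝ ℝ ℝ)

theorem sw_apply (v : P2) : sw v = (v.2, v.1) := rfl

/-- the derivative of `nsq` -/
def dn (v : P2) : P2 →L[ℝ] ℝ :=
  (2 * v.1) • ContinuousLinearMap.fst ℝ ℝ ℝ + (2 * v.2) • ContinuousLinearMap.snd ℝ ℝ ℝ

theorem dn_apply (v w : P2) : dn v w = 2 * v.1 * w.1 + 2 * v.2 * w.2 := by
  simp [dn]

theorem hasFDerivAt_nsq (v : P2) : HasFDerivAt nsq (dn v) v := by
  have h1 : HasFDerivAt (fun w : P2 => w.1) (ContinuousLinearMap.fst ℝ ℝ ℝ) v := hasFDerivAt_fst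
  have h2 : HasFDerivAt (fun w : P2 => w.2) (ContinuousLinearMap.snd ℝ ℝ ℝ) v := hasFDerivAt_snd
  have h3 := (h1.pow 2).add (h2.pow 2)
  have h4 : HasFDerivAt (fun w : P2 => w.1 ^ 2 + w.2 ^ 2) (dn v) v := by
    refine h3.congr_fderiv ?_
    ext <;> simp [dn]
  exact h4

theorem nsq_smooth : ContDiff ℝ ∞ nsq := by
  unfold nsq
  fun_prop

/-- the derivative of `llog ∘ nsq` -/
def dN (v : P2) : P2 →L[ℝ] ℝ := (Real.log lam)⁻¹ • ((nsq v)⁻¹ • dn v)

theorem dN_apply (v w : P2) :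
    dN v w = (Real.log lam)⁻¹ * ((nsq v)⁻¹ * (2 * v.1 * w.1 + 2 * v.2 * w.2)) := by
  simp [dN, dn_apply]

theorem hasFDerivAt_llog (v : P2) (hv : nsq v ≠ 0) :
    HasFDerivAt (fun w => llog (nsq w)) (dN v) v := by
  have h1 := (hasFDerivAt_nsq v).log hv
  have h2 := h1.const_mul (Real.log lam)⁻¹
  refine (h2.congr_of_eventuallyEq (Filter.Eventually.of_forall fun w => ?_))
  simp only [llog, div_eq_inv_mul]

/-- the gluing map -/
def gg (D : DA) (m : P2) (z : E) : E :=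
  (m + D.Psi (sw (D.lin z.1)), z.2 - llog (nsq (D.lin z.1)))

/-- its derivative -/
def dG (D : DA) (L : P2 →L[ℝ] P2) (v : P2) : E →L[ℝ] E :=
  ((fderiv ℝ D.Psi (sw v)).comp (sw.comp (L.comp (ContinuousLinearMap.fst ℝ P2 ℝ)))).prod
    (ContinuousLinearMap.snd ℝ P2 ℝ - (dN v).comp (L.comp (ContinuousLinearMap.fst ℝ P2 ℝ)))

theorem dG_apply (D : DA) (L : P2 →L[ℝ] P2) (v : P2) (a : P2) (t : ℝ) :
    dG D L v (a, t) = (fderiv ℝ D.Psi (sw v) (sw (L a)), t - dN v (L a)) := rfl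

theorem hasFDerivAt_gg (D : DA) (m : P2) (e : E) (v : P2) (L : P2 →L[ℝ] P2)
    (hlin : HasFDerivAt D.lin L e.1) (hv : D.lin e.1 = v) (hn : nsq v ≠ 0) :
    HasFDerivAt (gg D m) (dG D L v) e := by
  have h1 : HasFDerivAt (fun z : E => D.lin z.1) (L.comp (ContinuousLinearMap.fst ℝ P2 ℝ)) e :=
    hlin.comp e hasFDerivAt_fst
  have h2 : HasFDerivAt (fun z : E => sw (D.lin z.1))
      (sw.comp (L.comp (ContinuousLinearMap.fst ℝ P2 ℝ))) e :=
    sw.hasFDerivAt.comp e h1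
  have hPsi : HasFDerivAt D.Psi (fderiv ℝ D.Psi (sw v)) (sw (D.lin e.1)) := by
    rw [hv]
    exact ((D.Psi_smooth.differentiable (by simp)) (sw v)).hasFDerivAt
  have h3 : HasFDerivAt (fun z : E => D.Psi (sw (D.lin z.1)))
      ((fderiv ℝ D.Psi (sw v)).comp (sw.comp (L.comp (ContinuousLinearMap.fst ℝ P2 ℝ)))) e :=
    hPsi.comp e h2
  have h4 : HasFDerivAt (fun z : E => m + D.Psi (sw (D.lin z.1)))
      ((fderiv ℝ D.Psi (sw v)).comp (sw.comp (L.comp (ContinuousLinearMap.fst ℝ P2 ℝ)))) e :=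
    h3.const_add m
  have hN : HasFDerivAt (fun w => llog (nsq w)) (dN v) (D.lin e.1) := by
    rw [hv]
    exact hasFDerivAt_llog v hn
  have h5 : HasFDerivAt (fun z : E => llog (nsq (D.lin z.1)))
      ((dN v).comp (L.comp (ContinuousLinearMap.fst ℝ P2 ℝ))) e :=
    HasFDerivAt.comp (g := fun w => llog (nsq w)) (f := fun z : E => D.lin z.1) e hN h1
  have h6 : HasFDerivAt (fun z : E => z.2 - llog (nsq (D.lin z.1)))
      (ContinuousLinearMap.snd ℝ P2 ℝ -
        (dN v).comp (L.comp (ContinuousLinearMap.fst ℝ P2 ℝ))) e :=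
    hasFDerivAt_snd.sub h5
  exact h4.prodMk h6

theorem contDiffAt_gg (D : DA) (m : P2) (e : E) (hlin : ContDiffAt ℝ ∞ D.lin e.1)
    (hn : nsq (D.lin e.1) ≠ 0) : ContDiffAt ℝ ∞ (gg D m) e := by
  have h1 : ContDiffAt ℝ ∞ (fun z : E => D.lin z.1) e := hlin.comp e contDiffAt_fst
  have h2 : ContDiffAt ℝ ∞ (fun z : E => m + D.Psi (sw (D.lin z.1))) e :=
    contDiffAt_const.add ((D.Psi_smooth.contDiffAt).comp e (sw.contDiff.contDiffAt.comp e h1))
  have h3 : ContDiffAt ℝ ∞ (fun z : E => nsq (D.lin z.1)) e := nsq_smooth.contDiffAt.comp e h1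
  have h4 : ContDiffAt ℝ ∞ (fun z : E => llog (nsq (D.lin z.1))) e := (h3.log hn).div_const _
  exact h2.prodMk (contDiffAt_snd.sub h4)

theorem prf : StCompat0 := by
  intro D hF e e' _ hg
  obtain ⟨m, hm, v, hv, he1, he'1, he'2⟩ := hg
  have hlin : D.lin e.1 = v := by rw [he1]; exact hF.psi.lin_eq m hm v
  have hn : 0 < nsq v := hF.log.nsq_pos v hv
  have hlog : Real.log lam ≠ 0 := hF.log.log_pos.ne'
  have hsm : ContDiffAt ℝ ∞ D.lin e.1 := by rw [he1]; exact hF.psi.lin_smooth m hm v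
  have hder : HasFDerivAt (gg D m) (dG D (fderiv ℝ D.lin e.1) v) e :=
    hasFDerivAt_gg D m e v _ ((hsm.differentiableAt (by simp)).hasFDerivAt) hlin hn.ne'
  refine ⟨gg D m, contDiffAt_gg D m e hsm (by rw [hlin]; exact hn.ne'), ?_, ?_, ?_, ?_⟩
  · have h : gg D m e = (m + D.Psi (sw v), e.2 - llog (nsq v)) := by
      unfold gg
      rw [hlin]
    rw [h]
    refine Prod.ext ?_ ?_
    · exact he'1.symm
    · exact he'2.symm
  · have h1 : ∀ᶠ z in 𝓝 e.1, z = m + D.Psi (D.lin z) := by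
      have := hF.psi.near m hm v
      rwa [← he1] at this
    have h2 : ∀ᶠ z in 𝓝 e.1, D.lin z ≠ 0 := by
      have hc : ContinuousAt D.lin e.1 := hsm.continuousAt
      exact hc.eventually_ne (by rw [hlin]; exact hv)
    have h3 : Tendsto (fun z : E => z.1) (𝓝 e) (𝓝 e.1) := continuous_fst.continuousAt
    filter_upwards [h3.eventually h1, h3.eventually h2] with z hz1 hz2
    exact ⟨m, hm, D.lin z.1, hz2, hz1, rfl, rfl⟩
  · refine ⟨dy D.Psi (sw v), (D.dyPsi_pos _).ne', ?_⟩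
    rw [hder.fderiv]
    have hL : fderiv ℝ D.lin e.1 (1, D.S e.1) = (1, 0) := by
      have := hF.psi.dlin_fst m hm v 0
      rw [← he1, zero_mul, add_zero] at this
      exact this
    have hK : D.K0 e.1 = 2 * v.1 / (Real.log lam * nsq v) := by
      rw [he1]; exact hF.sig.K0_psi m hm v
    show dG D (fderiv ℝ D.lin e.1) v ((1, D.S e.1), D.K0 e.1) = _
    rw [dG_apply, hL, sw_apply (1, 0), hF.psi.dPsi_snd, dN_apply, hK]
    show ((((0 : ℝ), dy D.Psi (sw v)) : P2), _) = dy D.Psi (sw v) • (((0 : ℝ), (1 : ℝ)), (0 : ℝ))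
    refine Prod.ext ?_ ?_
    · refine Prod.ext ?_ ?_
      · simp
      · simp
    · simp only [mul_one, mul_zero, add_zero, Prod.smul_mk, smul_eq_mul]
      field_simp
      ring
  · refine ⟨(dy D.Psi v)⁻¹, (inv_pos.mpr (D.dyPsi_pos v)).ne', ?_⟩
    rw [hder.fderiv]
    have hL : fderiv ℝ D.lin e.1 (0, 1) = (0, (dy D.Psi v)⁻¹) := by
      rw [he1]; exact hF.psi.dlin_snd m hm v
    have hP : fderiv ℝ D.Psi (sw v) (1, 0) = (1, D.S e'.1) := by
      have := hF.psi.dPsi_fst (sw v) m hm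
      rw [this]
      rw [he'1]
      rfl
    have hP' : fderiv ℝ D.Psi (sw v) ((dy D.Psi v)⁻¹, 0) =
        (dy D.Psi v)⁻¹ • ((1 : ℝ), D.S e'.1) := by
      have h : (((dy D.Psi v)⁻¹, 0) : P2) = (dy D.Psi v)⁻¹ • ((1 : ℝ), (0 : ℝ)) := by
        simp
      rw [h, map_smul, hP]
    have hK : D.K0 e'.1 = 2 * v.2 / (Real.log lam * nsq v) := by
      rw [he'1]
      have := hF.sig.K0_psi m hm (v.2, v.1)
      rw [this]
      have hs : nsq (v.2, v.1) = nsq v := by unfold nsq; ring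
      rw [hs]
    show dG D (fderiv ℝ D.lin e.1) v ((0, 1), 0) = _
    rw [dG_apply, hL, sw_apply (0, (dy D.Psi v)⁻¹), hP', dN_apply]
    show _ = (dy D.Psi v)⁻¹ • (((1 : ℝ), D.S e'.1), - D.K0 e'.1)
    rw [hK]
    refine Prod.ext rfl ?_
    simp only [mul_zero, zero_add, Prod.smul_mk, smul_eq_mul]
    field_simp
    ring

end Pool.Agent.Work.MP_0d206b_gt.MCompat0

end
end

/-! ### from I_CompatAg.lean -/

section

/-!
# MP_0d206b_gt, item CompatAg: the gluing map `A s → g m` of flow a preserves the line fields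
-/

set_option autoImplicit false

open Set Filter Topology
open scoped ContDiff

noncomputable section

namespace Pool.Agent.Work.MP_0d206b_gt.MCompatAg

theorem sg_sq (s : Bool) : sg s ^ 2 = 1 := by
  cases s <;> simp [sg]

theorem sg_ne (s : Bool) : sg s ≠ 0 := by
  cases s <;> simp [sg]

theorem sg_mem (s : Bool) (m : Gam) : sg s • (m : P2) ∈ Gam := by
  cases s
  · have : sg false • (m : P2) = -(m : P2) := by simp [sg]
    rw [this]
    exact Gam.neg_mem m.2
  · have : sg true • (m : P2) = (m : P2) := by simp [sg]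
    rw [this]
    exact m.2

/-- the outer map -/
def G (s : ℝ) (p : E) : E := ((s / p.1.1, s * p.1.2), p.2 + llog (nsq p.1))

theorem G_hasFDerivAt (s : ℝ) (w : P2) (τ : ℝ) (hw : 0 < w.1) :
    HasFDerivAt (G s)
      ((((-(s / w.1 ^ 2)) • (ContinuousLinearMap.fst ℝ ℝ ℝ).comp (ContinuousLinearMap.fst ℝ P2 ℝ)).prod
        (s • (ContinuousLinearMap.snd ℝ ℝ ℝ).comp (ContinuousLinearMap.fst ℝ P2 ℝ))).prod
       ((ContinuousLinearMap.snd ℝ P2 ℝ) +
        ((2 * w.1 / (Real.log lam * nsq w)) • (ContinuousLinearMap.fst ℝ ℝ ℝ).comp (ContinuousLinearMap.fst ℝ P2 ℝ) +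
         (2 * w.2 / (Real.log lam * nsq w)) • (ContinuousLinearMap.snd ℝ ℝ ℝ).comp
          (ContinuousLinearMap.fst ℝ P2 ℝ)))) (w, τ) := by
  have hn : 0 < nsq w := by unfold nsq; positivity
  have h11 : HasFDerivAt (fun p : E => p.1.1)
      ((ContinuousLinearMap.fst ℝ ℝ ℝ).comp (ContinuousLinearMap.fst ℝ P2 ℝ)) (w, τ) :=
    ((ContinuousLinearMap.fst ℝ ℝ ℝ).comp (ContinuousLinearMap.fst ℝ P2 ℝ)).hasFDerivAt
  have h12 : HasFDerivAt (fun p : E => p.1.2)
      ((ContinuousLinearMap.snd ℝ ℝ ℝ).comp (ContinuousLinearMap.fst ℝ P2 ℝ)) (w, τ) :=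
    ((ContinuousLinearMap.snd ℝ ℝ ℝ).comp (ContinuousLinearMap.fst ℝ P2 ℝ)).hasFDerivAt
  have h2 : HasFDerivAt (fun p : E => p.2) (ContinuousLinearMap.snd ℝ P2 ℝ) (w, τ) :=
    (ContinuousLinearMap.snd ℝ P2 ℝ).hasFDerivAt
  have ha : HasFDerivAt (fun p : E => s / p.1.1)
      ((-(s / w.1 ^ 2)) • (ContinuousLinearMap.fst ℝ ℝ ℝ).comp (ContinuousLinearMap.fst ℝ P2 ℝ)) (w, τ) := by
    have hd : HasDerivAt (fun t : ℝ => s / t) (-(s / w.1 ^ 2)) w.1 := by
      have h0 : HasDerivAt (fun t : ℝ => s * t⁻¹) (s * -(w.1 ^ 2)⁻¹) w.1 :=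
        (hasDerivAt_inv hw.ne').const_mul s
      exact h0.congr_deriv (by rw [mul_neg, ← div_eq_mul_inv])
    exact HasDerivAt.comp_hasFDerivAt (f := fun p : E => p.1.1) (w, τ) hd h11
  have hb : HasFDerivAt (fun p : E => s * p.1.2)
      (s • (ContinuousLinearMap.snd ℝ ℝ ℝ).comp (ContinuousLinearMap.fst ℝ P2 ℝ)) (w, τ) :=
    h12.const_mul s
  have hN : HasFDerivAt (fun p : E => llog (nsq p.1))
      ((2 * w.1 / (Real.log lam * nsq w)) • (ContinuousLinearMap.fst ℝ ℝ ℝ).comp (ContinuousLinearMap.fst ℝ P2 ℝ) +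
         (2 * w.2 / (Real.log lam * nsq w)) • (ContinuousLinearMap.snd ℝ ℝ ℝ).comp
          (ContinuousLinearMap.fst ℝ P2 ℝ)) (w, τ) := by
    have hsum : HasFDerivAt (fun p : E => nsq p.1)
      ((2 * w.1) • (ContinuousLinearMap.fst ℝ ℝ ℝ).comp (ContinuousLinearMap.fst ℝ P2 ℝ) +
         (2 * w.2) • (ContinuousLinearMap.snd ℝ ℝ ℝ).comp
          (ContinuousLinearMap.fst ℝ P2 ℝ)) (w, τ) := by
      have h := (h11.pow 2).add (h12.pow 2)
      exact h.congr_fderiv (by simp)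
    have hd : HasDerivAt llog (1 / (Real.log lam * nsq w)) (nsq w) := by
      have h0 : HasDerivAt (fun t : ℝ => Real.log t / Real.log lam) ((nsq w)⁻¹ / Real.log lam) (nsq w) :=
        (Real.hasDerivAt_log hn.ne').div_const (Real.log lam)
      exact h0.congr_deriv (by rw [one_div, mul_inv, div_eq_mul_inv, mul_comm])
    have h3 := HasDerivAt.comp_hasFDerivAt (f := fun p : E => nsq p.1) (w, τ) hd hsum
    refine h3.congr_fderiv ?_
    rw [smul_add, smul_smul, smul_smul]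
    have e1 : 1 / (Real.log lam * nsq w) * (2 * w.1) = 2 * w.1 / (Real.log lam * nsq w) := by ring
    have e2 : 1 / (Real.log lam * nsq w) * (2 * w.2) = 2 * w.2 / (Real.log lam * nsq w) := by ring
    rw [e1, e2]
  exact (ha.prodMk hb).prodMk (h2.add hN)

theorem prf : StCompatAg := by
  intro D hF s m e e' _ hg
  obtain ⟨w, hw, he, he1, he2⟩ := hg
  have hm0 := sg_mem s m
  have hlin : D.lin e.1 = w := by rw [he]; exact hF.psi.lin_eq _ hm0 w
  have hsm : ContDiffAt ℝ ∞ D.lin e.1 := by rw [he]; exact hF.psi.lin_smooth _ hm0 w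
  have hnr : ∀ᶠ z in 𝓝 e.1, z = sg s • (m : P2) + D.Psi (D.lin z) := by
    have := hF.psi.near _ hm0 w
    rw [← he] at this
    exact this
  have hn : 0 < nsq w := by unfold nsq; positivity
  have hlog := hF.log.log_pos
  have hdl : HasFDerivAt D.lin (fderiv ℝ D.lin e.1) e.1 :=
    (hsm.differentiableAt (by simp)).hasFDerivAt
  let I : E → E := fun z => (D.lin z.1, z.2)
  have hI : HasFDerivAt I (((fderiv ℝ D.lin e.1).comp (ContinuousLinearMap.fst ℝ P2 ℝ)).prod
      (ContinuousLinearMap.snd ℝ P2 ℝ)) e :=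
    (HasFDerivAt.comp (g := D.lin) e hdl (ContinuousLinearMap.fst ℝ P2 ℝ).hasFDerivAt).prodMk
      (ContinuousLinearMap.snd ℝ P2 ℝ).hasFDerivAt
  have hIe : I e = (w, e.2) := by simp only [I, hlin]
  have hG := G_hasFDerivAt (sg s) w e.2 hw
  rw [← hIe] at hG
  have hcomp := hG.comp e hI
  have hfd := hcomp.fderiv
  have hIs : ContDiffAt ℝ ∞ I e :=
    (hsm.comp e contDiff_fst.contDiffAt).prodMk contDiff_snd.contDiffAt
  have hlog_sm : ContDiffAt ℝ ∞ (fun t : ℝ => llog t) (nsq w) :=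
    (Real.contDiffAt_log.2 hn.ne').div_const _
  have hGs : ContDiffAt ℝ ∞ (G (sg s)) (w, e.2) := by
    have h11 : ContDiffAt ℝ ∞ (fun p : E => p.1.1) (w, e.2) :=
      (contDiff_fst.comp contDiff_fst).contDiffAt
    have h12 : ContDiffAt ℝ ∞ (fun p : E => p.1.2) (w, e.2) :=
      (contDiff_snd.comp contDiff_fst).contDiffAt
    have hns : ContDiffAt ℝ ∞ (fun p : E => nsq p.1) (w, e.2) := (h11.pow 2).add (h12.pow 2)
    have h3 : ContDiffAt ℝ ∞ (fun p : E => llog (nsq p.1)) (w, e.2) :=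
      ContDiffAt.comp (g := fun t : ℝ => llog t) (f := fun p : E => nsq p.1) (w, e.2) hlog_sm hns
    exact ((contDiffAt_const.div h11 hw.ne').prodMk (contDiffAt_const.mul h12)).prodMk
      (contDiff_snd.contDiffAt.add h3)
  have hgs : ContDiffAt ℝ ∞ (G (sg s) ∘ I) e := by
    apply ContDiffAt.comp e _ hIs
    rw [hIe]
    exact hGs
  have hxi : 1 + (sg s / w.1) ^ 2 * (sg s * w.2) ^ 2 = nsq w / w.1 ^ 2 := by
    have h1 := sg_sq s
    have hw0 := hw.ne'
    unfold nsq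
    rw [div_pow, mul_pow, h1]
    field_simp
  refine ⟨G (sg s) ∘ I, hgs, ?_, ?_, ?_, ?_⟩
  · show G (sg s) (I e) = e'
    rw [hIe]
    exact Prod.ext he1.symm he2.symm
  · have hpos : ∀ᶠ z in 𝓝 e, 0 < (D.lin z.1).1 := by
      have hc : ContinuousAt (fun z : E => (D.lin z.1).1) e :=
        continuousAt_fst.comp (hsm.continuousAt.comp continuousAt_fst)
      have h0 : 0 < (D.lin e.1).1 := by rw [hlin]; exact hw
      exact hc.eventually (lt_mem_nhds h0)
    have hnr' : ∀ᶠ z in 𝓝 e, z.1 = sg s • (m : P2) + D.Psi (D.lin z.1) :=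
      continuousAt_fst.eventually hnr
    filter_upwards [hpos, hnr'] with z hz1 hz2
    exact ⟨D.lin z.1, hz1, hz2, rfl, rfl⟩
  · refine ⟨sg s / dy D.Psi w, div_ne_zero (sg_ne s) (D.dyPsi_pos w).ne', ?_⟩
    have hd := hF.psi.dlin_snd _ hm0 w
    rw [← he] at hd
    rw [hfd]
    have hs1 := sg_sq s
    have hw0 := hw.ne'
    have hdy := (D.dyPsi_pos w).ne'
    have hl0 := hlog.ne'
    have hn0 := hn.ne'
    simp only [esA, ContinuousLinearMap.comp_apply, ContinuousLinearMap.prod_apply,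
      ContinuousLinearMap.coe_fst', ContinuousLinearMap.coe_snd', hd, he1,
      ContinuousLinearMap.add_apply, ContinuousLinearMap.smul_apply, hxi]
    ext
    · simp
    · simp [div_eq_mul_inv]
    · simp only [smul_eq_mul, mul_zero, zero_add, Prod.smul_snd]
      rw [div_pow, hs1]
      field_simp
      rw [hs1]
      ring
  · refine ⟨-(sg s / w.1 ^ 2), neg_ne_zero.2 (div_ne_zero (sg_ne s) (pow_ne_zero 2 hw.ne')), ?_⟩
    have hd := hF.psi.dlin_fst _ hm0 w 0
    rw [zero_mul, add_zero, ← he] at hd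
    have hK := hF.sig.K0_psi _ hm0 w
    rw [← he] at hK
    rw [hfd]
    simp only [euA, ContinuousLinearMap.comp_apply, ContinuousLinearMap.prod_apply,
      ContinuousLinearMap.coe_fst', ContinuousLinearMap.coe_snd', hd, hK,
      ContinuousLinearMap.add_apply, ContinuousLinearMap.smul_apply]
    ext <;> simp

end Pool.Agent.Work.MP_0d206b_gt.MCompatAg

end
end

/-! ### from I_Conn0.lean -/

section

/-!
# MP_0d206b_gt, module M: connectedness of flow 0
-/

set_option autoImplicit false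

open Set Filter Topology

noncomputable section

namespace Pool.Agent.Work.MP_0d206b_gt

namespace MConn0

/-- The relation of the chain. -/
def Rel (D : DA) (i j : Idx0) : Prop := ∃ e ∈ dom0 i, ∃ e' ∈ dom0 j, glue0 D i e j e'

theorem psi_notMem {D : DA} (hF : Facts D) {v : P2} (hv : v ≠ 0) : D.Psi v ∉ Gam := by
  intro h
  have := (hF.psi.mem_gam 0 Gam.zero_mem v).1 (by rwa [zero_add])
  exact hv this

theorem base {D : DA} (hF : Facts D) :
    ((D.Psi (1, 0), 0) : E) ∈ dom0 .R ∧ ((D.Psi (0, 1), - llog (nsq (1, 0))) : E) ∈ dom0 .A ∧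
      glue0RA D (D.Psi (1, 0), 0) (D.Psi (0, 1), - llog (nsq (1, 0))) := by
  have h1 : ((1, 0) : P2) ≠ 0 := by
    intro h; have := congrArg Prod.fst h; simp at this
  have h2 : ((0, 1) : P2) ≠ 0 := by
    intro h; have := congrArg Prod.snd h; simp at this
  refine ⟨psi_notMem hF h1, psi_notMem hF h2, 0, Gam.zero_mem, (1, 0), h1, ?_, ?_, ?_⟩
  · simp
  · simp
  · simp

theorem relRA {D : DA} (hF : Facts D) : Rel D .R .A := by
  obtain ⟨h1, h2, h3⟩ := base hF
  exact ⟨_, h1, _, h2, h3⟩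

theorem relAR {D : DA} (hF : Facts D) : Rel D .A .R := by
  obtain ⟨h1, h2, h3⟩ := base hF
  exact ⟨_, h2, _, h1, h3⟩

theorem prf : StConn0 := by
  intro D hF
  refine ⟨⟨.R⟩, ?_, ?_⟩
  · intro i
    have h := hF.gam.path.prod (isPathConnected_univ (X := ℝ))
    have he : dom0 i = ((Gam : Set P2)ᶜ) ×ˢ (univ : Set ℝ) := by
      ext e
      simp [dom0]
    rw [he]
    exact h
  · intro i j
    change Relation.ReflTransGen (Rel D) i j
    cases i <;> cases j
    · exact Relation.ReflTransGen.refl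
    · exact Relation.ReflTransGen.single (relRA hF)
    · exact Relation.ReflTransGen.single (relAR hF)
    · exact Relation.ReflTransGen.refl

end MConn0

end Pool.Agent.Work.MP_0d206b_gt

end
end

/-! ### from I_FieldActA.lean -/

section

/-!
# MP_0d206b_gt, module M: flow a, the action preserves the line fields
-/

set_option autoImplicit false

open Set Filter Topology
open scoped ContDiff

noncomputable section

namespace Pool.Agent.Work.MP_0d206b_gt.MFieldActA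

open Pool.Agent.Work.MP_0d206b_gt

variable {D : DA}

theorem fd (hP : PowFacts D) (j : ℤ) (w : P2) (t : ℝ) (e : E) (x : P2) (s : ℝ) :
    fderiv ℝ (fun e : E => ((D.Fe ^ j) e.1 + w, e.2 + t)) e (x, s) =
      (fderiv ℝ (fun z => (D.Fe ^ j) z) e.1 x, s) := by
  have h1 : HasFDerivAt (fun z => (D.Fe ^ j) z) (fderiv ℝ (fun z => (D.Fe ^ j) z) e.1) e.1 :=
    ((hP.smooth j).differentiable (by simp) e.1).hasFDerivAt
  have h2 : HasFDerivAt (fun e : E => (D.Fe ^ j) e.1 + w)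
      ((fderiv ℝ (fun z => (D.Fe ^ j) z) e.1).comp (ContinuousLinearMap.fst ℝ P2 ℝ)) e := by
    have h3 : HasFDerivAt (fun e : E => e.1) (ContinuousLinearMap.fst ℝ P2 ℝ) e := hasFDerivAt_fst
    exact (HasFDerivAt.comp e h1 h3).add_const w
  have h4 : HasFDerivAt (fun e : E => e.2 + t) (ContinuousLinearMap.snd ℝ P2 ℝ) e :=
    hasFDerivAt_snd.add_const t
  rw [(h2.prodMk h4).fderiv]
  rfl

theorem lin_fd (a b t : ℝ) (e : E) (x : P2) (s : ℝ) :
    fderiv ℝ (fun e : E => (((a * e.1.1, b * e.1.2) : P2), e.2 + t)) e (x, s) =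
      (((a * x.1, b * x.2) : P2), s) := by
  have h1 : HasFDerivAt (fun e : E => e.1.1)
      ((ContinuousLinearMap.fst ℝ ℝ ℝ).comp (ContinuousLinearMap.fst ℝ P2 ℝ)) e :=
    ((ContinuousLinearMap.fst ℝ ℝ ℝ).comp (ContinuousLinearMap.fst ℝ P2 ℝ)).hasFDerivAt
  have h2 : HasFDerivAt (fun e : E => e.1.2)
      ((ContinuousLinearMap.snd ℝ ℝ ℝ).comp (ContinuousLinearMap.fst ℝ P2 ℝ)) e :=
    ((ContinuousLinearMap.snd ℝ ℝ ℝ).comp (ContinuousLinearMap.fst ℝ P2 ℝ)).hasFDerivAt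
  have h4 : HasFDerivAt (fun e : E => e.2 + t) (ContinuousLinearMap.snd ℝ P2 ℝ) e :=
    hasFDerivAt_snd.add_const t
  rw [(((h1.const_mul a).prodMk (h2.const_mul b)).prodMk h4).fderiv]
  rfl

theorem sg_smul_mem (s : Bool) {m : P2} (hm : m ∈ Gam) : sg s • m ∈ Gam := by
  unfold sg
  cases s
  · simpa using Gam.neg_mem hm
  · simpa using hm

theorem vert (hP : PowFacts D) (j : ℤ) (w : P2) (t : ℝ) (e : E) :
    ∃ c : ℝ, c ≠ 0 ∧ fderiv ℝ (fun e : E => ((D.Fe ^ j) e.1 + w, e.2 + t)) e (((0, 1) : P2), 0) =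
      c • ((((0, 1) : P2), 0) : E) := by
  obtain ⟨c, hc, h⟩ := hP.der_v j e.1
  refine ⟨c, hc.ne', ?_⟩
  rw [fd hP, h]
  ext <;> simp

theorem zpow_cancel (j : ℤ) (r : ℝ) : lam ^ j * (lam ^ (-j) * r) = r := by
  rw [← mul_assoc, ← zpow_add₀ lam_pos.ne', add_neg_cancel, zpow_zero, one_mul]

theorem prf : StFieldActA := by
  intro D hF
  have hlam : ∀ j : ℤ, lam ^ j ≠ 0 := fun j => zpow_ne_zero j lam_pos.ne'
  constructor
  · intro a i e he
    cases i with
    | R =>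
      have hz : (D.Fe ^ a.j) e.1 ∉ Gam := fun h => he ((hF.pow.gam a.j e.1).1 h)
      refine ⟨lam ^ a.j, hlam _, ?_⟩
      show fderiv ℝ (fun e : E => ((D.Fe ^ a.j) e.1 + (a.n : P2), e.2 + (a.j : ℝ))) e
        (((1, D.sigma e.1) : P2), D.Ka e.1) =
        lam ^ a.j • ((((1, D.sigma ((D.Fe ^ a.j) e.1 + (a.n : P2))) : P2),
          D.Ka ((D.Fe ^ a.j) e.1 + (a.n : P2))) : E)
      rw [fd hF.pow, hF.sig.der_sigma a.j e.1 he, hF.sig.sigma_add _ hz _ a.n.2,
        hF.sig.Ka_add _ hz _ a.n.2, hF.sig.Ka_F a.j e.1 he]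
      exact Prod.ext rfl (zpow_cancel _ _).symm
    | A s => exact vert hF.pow a.j (sg s • (a.n : P2)) (-(a.j : ℝ)) e
    | g m =>
      refine ⟨lam ^ a.j, hlam _, ?_⟩
      show fderiv ℝ (fun e : E => (((lam ^ (-a.j) * e.1.1, lam ^ a.j * e.1.2) : P2), e.2 + (a.j : ℝ)))
        e (((0, 1) : P2), 2 * e.1.2 * e.1.1 ^ 2 / (Real.log lam * (1 + e.1.1 ^ 2 * e.1.2 ^ 2))) =
        lam ^ a.j • ((((0, 1) : P2), 2 * (lam ^ a.j * e.1.2) * (lam ^ (-a.j) * e.1.1) ^ 2 /
          (Real.log lam * (1 + (lam ^ (-a.j) * e.1.1) ^ 2 * (lam ^ a.j * e.1.2) ^ 2))) : E)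
      rw [lin_fd, Prod.smul_mk, Prod.smul_mk]
      have h1 : lam ^ (-a.j) * lam ^ a.j = 1 := by
        rw [← zpow_add₀ lam_pos.ne', neg_add_cancel, zpow_zero]
      have h2 : (lam ^ (-a.j) * e.1.1) ^ 2 * (lam ^ a.j * e.1.2) ^ 2 = e.1.1 ^ 2 * e.1.2 ^ 2 := by
        calc _ = (lam ^ (-a.j) * lam ^ a.j) ^ 2 * (e.1.1 ^ 2 * e.1.2 ^ 2) := by ring
          _ = _ := by rw [h1]; ring
      have h3 : lam ^ a.j * (2 * (lam ^ a.j * e.1.2) * (lam ^ (-a.j) * e.1.1) ^ 2) =
          2 * e.1.2 * e.1.1 ^ 2 := by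
        calc _ = (lam ^ (-a.j) * lam ^ a.j) ^ 2 * (2 * e.1.2 * e.1.1 ^ 2) := by ring
          _ = _ := by rw [h1]; ring
      rw [h2, smul_eq_mul, smul_eq_mul, smul_eq_mul, ← mul_div_assoc, h3]
      simp
  · intro a i e he
    cases i with
    | R => exact vert hF.pow a.j (a.n : P2) (a.j : ℝ) e
    | A s =>
      have hz : (D.Fe ^ a.j) e.1 ∉ Gam := fun h => he ((hF.pow.gam a.j e.1).1 h)
      refine ⟨lam ^ a.j, hlam _, ?_⟩
      show fderiv ℝ (fun e : E => ((D.Fe ^ a.j) e.1 + sg s • (a.n : P2), e.2 + -(a.j : ℝ))) e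
        (((1, D.S e.1) : P2), -D.K0 e.1) =
        lam ^ a.j • ((((1, D.S ((D.Fe ^ a.j) e.1 + sg s • (a.n : P2))) : P2),
          -D.K0 ((D.Fe ^ a.j) e.1 + sg s • (a.n : P2))) : E)
      rw [fd hF.pow, hF.pow.der_S a.j e.1, D.S_add _ _ (sg_smul_mem s a.n.2),
        hF.sig.K0_add _ hz _ (sg_smul_mem s a.n.2), hF.sig.K0_F a.j e.1 he]
      refine Prod.ext rfl ?_
      show -D.K0 e.1 = lam ^ a.j * -(lam ^ (-a.j) * D.K0 e.1)
      rw [mul_neg, zpow_cancel]
    | g m =>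
      refine ⟨lam ^ (-a.j), hlam _, ?_⟩
      show fderiv ℝ (fun e : E => (((lam ^ (-a.j) * e.1.1, lam ^ a.j * e.1.2) : P2), e.2 + (a.j : ℝ)))
        e (((1, 0) : P2), 0) = lam ^ (-a.j) • ((((1, 0) : P2), 0) : E)
      rw [lin_fd, Prod.smul_mk, Prod.smul_mk]
      simp

end Pool.Agent.Work.MP_0d206b_gt.MFieldActA

end
end

/-! ### from I_FreeA.lean -/

section

/-! Item FreeA: freeness for flow a. -/

set_option autoImplicit false

open Set Filter Topology
open scoped ContDiff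

noncomputable section

namespace Pool.Agent.Work.MP_0d206b_gt.MFreeA

open Pool.Agent.Work.MP_0d206b_gt

theorem one_of {a : Grp} (hj : a.j = 0) (hn : a.n = 0) : a = 1 :=
  Grp.ext hn hj

theorem j_zero {t : ℝ} {j : ℤ} (h : t + (j : ℝ) = t) : j = 0 := by
  have : (j : ℝ) = 0 := by linarith
  exact_mod_cast this

theorem j_zero' {t : ℝ} {j : ℤ} (h : t - (j : ℝ) = t) : j = 0 := by
  have : (j : ℝ) = 0 := by linarith
  exact_mod_cast this

theorem prf : StFreeA := by
  intro D _ a i e _ hg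
  cases i with
  | R =>
    have h : (((D.Fe ^ a.j) e.1 + (a.n : P2), e.2 + (a.j : ℝ)) : E) = e := hg
    have h1 : (D.Fe ^ a.j) e.1 + (a.n : P2) = e.1 := congrArg Prod.fst h
    have h2 : e.2 + (a.j : ℝ) = e.2 := congrArg Prod.snd h
    have hj := j_zero h2
    rw [hj, zpow_zero, Equiv.Perm.one_apply] at h1
    exact one_of hj (Subtype.ext (add_eq_left.mp h1))
  | A s =>
    have h0 : s = s ∧ (((D.Fe ^ a.j) e.1 + sg s • (a.n : P2), e.2 - (a.j : ℝ)) : E) = e := hg
    have h := h0.2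
    have h1 : (D.Fe ^ a.j) e.1 + sg s • (a.n : P2) = e.1 := congrArg Prod.fst h
    have h2 : e.2 - (a.j : ℝ) = e.2 := congrArg Prod.snd h
    have hj := j_zero' h2
    rw [hj, zpow_zero, Equiv.Perm.one_apply] at h1
    have h3 : sg s • (a.n : P2) = 0 := add_eq_left.mp h1
    have hs : sg s ≠ 0 := by unfold sg; split_ifs <;> norm_num
    exact one_of hj (Subtype.ext ((smul_eq_zero.mp h3).resolve_left hs))
  | g m =>
    have h0 : Grp.LG a.j m + a.n = m ∧
      (((lam ^ (-a.j) * e.1.1, lam ^ a.j * e.1.2), e.2 + (a.j : ℝ)) : E) = e := hg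
    have h2 : e.2 + (a.j : ℝ) = e.2 := congrArg Prod.snd h0.2
    have hj := j_zero h2
    have h1 := h0.1
    rw [hj, Grp.LG_zero] at h1
    exact one_of hj (add_eq_left.mp h1)

end Pool.Agent.Work.MP_0d206b_gt.MFreeA

end
end

/-! ### from I_Gam.lean -/

section

/-! MP_0d206b_gt, module M: facts about the lattice `ℤ[φ]`. -/

set_option autoImplicit false

open Set Filter Topology

noncomputable section

namespace Pool.Agent.Work.MP_0d206b_gt.MGam

open Real

lemma add_eq : goldenRatio + goldenConj = 1 := goldenRatio_add_goldenConj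
lemma mul_eq : goldenRatio * goldenConj = -1 := goldenRatio_mul_goldenConj

lemma five : (2 : ℝ) ≤ goldenRatio - goldenConj := by
  rw [goldenRatio_sub_goldenConj]
  exact Real.le_sqrt_of_sq_le (by norm_num)

lemma abs_ratio : |goldenRatio| ≤ 2 := by
  rw [abs_of_pos goldenRatio_pos]
  exact goldenRatio_lt_two.le

lemma abs_conj : |goldenConj| ≤ 2 := by
  have h1 := goldenConj_neg
  have h2 := neg_one_lt_goldenConj
  rw [abs_of_neg h1]
  linarith

lemma norm_one {m : P2} (hm : m ∈ Gam) (h0 : m ≠ 0) : 1 ≤ |m.1 * m.2| := by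
  obtain ⟨i, j, rfl⟩ := hm
  have hk : ((i : ℝ) + j * goldenRatio) * ((i : ℝ) + j * goldenConj)
      = ((i ^ 2 + i * j - j ^ 2 : ℤ) : ℝ) := by
    push_cast
    linear_combination ((i : ℝ) * j) * add_eq + (j : ℝ) ^ 2 * mul_eq
  have hne : (i ^ 2 + i * j - j ^ 2 : ℤ) ≠ 0 := by
    intro hz
    rw [hz, Int.cast_zero] at hk
    by_cases hj : j = 0
    · subst hj
      have hi : i = 0 := by
        have : (i : ℝ) * i = 0 := by simpa using hk
        exact_mod_cast mul_self_eq_zero.mp this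
      subst hi
      exact h0 (by ext <;> simp)
    · have h1 : Irrational ((i : ℝ) + j * goldenRatio) :=
        (goldenRatio_irrational.intCast_mul hj).intCast_add i
      have h2 : Irrational ((i : ℝ) + j * goldenConj) :=
        (goldenConj_irrational.intCast_mul hj).intCast_add i
      rcases mul_eq_zero.mp hk with h | h
      · exact h1.ne_zero h
      · exact h2.ne_zero h
  show 1 ≤ |((i : ℝ) + j * goldenRatio) * ((i : ℝ) + j * goldenConj)|
  rw [hk, ← Int.cast_abs]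
  exact_mod_cast Int.one_le_abs hne

lemma sep {m m' : P2} (hm : m ∈ Gam) (hm' : m' ∈ Gam) (hne : m ≠ m') : 1 ≤ dist m m' := by
  by_contra hlt
  push Not at hlt
  have h1 := norm_one (Gam.sub_mem hm hm') (sub_ne_zero.mpr hne)
  rw [dist_eq_norm] at hlt
  have h2 : |(m - m').1| < 1 := lt_of_le_of_lt (norm_fst_le (m - m')) hlt
  have h3 : |(m - m').2| < 1 := lt_of_le_of_lt (norm_snd_le (m - m')) hlt
  rw [abs_mul] at h1
  have h4 := abs_nonneg (m - m').1
  have h5 := abs_nonneg (m - m').2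
  nlinarith

lemma finite_ball (R : ℝ) : {m : P2 | m ∈ Gam ∧ ‖m‖ ≤ R}.Finite := by
  refine Set.Finite.subset (((Set.finite_Icc (-⌈3 * R⌉) ⌈3 * R⌉).prod
    (Set.finite_Icc (-⌈3 * R⌉) ⌈3 * R⌉)).image
      (fun p : ℤ × ℤ => (((p.1 : ℝ) + p.2 * goldenRatio, (p.1 : ℝ) + p.2 * goldenConj) : P2))) ?_
  rintro m ⟨⟨i, j, rfl⟩, hR⟩
  have hR0 : 0 ≤ R := (norm_nonneg _).trans hR
  have h1 : |(i : ℝ) + j * goldenRatio| ≤ R := (norm_fst_le _).trans hR
  have h2 : |(i : ℝ) + j * goldenConj| ≤ R := (norm_snd_le _).trans hR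
  have h5 := five
  have hj : |(j : ℝ)| ≤ R := by
    have h3 : |(j : ℝ)| * (goldenRatio - goldenConj) ≤ 2 * R := by
      have : |(j : ℝ)| * (goldenRatio - goldenConj) = |(j : ℝ) * (goldenRatio - goldenConj)| := by
        rw [abs_mul, abs_of_pos (by linarith : 0 < goldenRatio - goldenConj)]
      rw [this]
      have e : (j : ℝ) * (goldenRatio - goldenConj)
          = ((i : ℝ) + j * goldenRatio) - ((i : ℝ) + j * goldenConj) := by ring
      rw [e]
      exact (abs_sub _ _).trans (by linarith)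
    nlinarith [abs_nonneg (j : ℝ)]
  have hi : |(i : ℝ)| ≤ 3 * R := by
    have e : (i : ℝ) = ((i : ℝ) + j * goldenRatio) - j * goldenRatio := by ring
    have h3 : |(j : ℝ) * goldenRatio| ≤ R * 2 := by
      rw [abs_mul]
      exact mul_le_mul hj abs_ratio (abs_nonneg _) hR0
    rw [e]
    exact (abs_sub _ _).trans (by linarith)
  have hj3 : |(j : ℝ)| ≤ 3 * R := by linarith
  have key : ∀ a : ℤ, |(a : ℝ)| ≤ 3 * R → a ∈ Icc (-⌈3 * R⌉) ⌈3 * R⌉ := by
    intro a ha
    have h6 : ((|a| : ℤ) : ℝ) ≤ (⌈3 * R⌉ : ℝ) := by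
      rw [Int.cast_abs]
      exact ha.trans (Int.le_ceil _)
    exact abs_le.mp (by exact_mod_cast h6)
  exact ⟨(i, j), ⟨key i hi, key j hj3⟩, rfl⟩

lemma cover (z : P2) : ∃ m ∈ Gam, ‖z + m‖ ≤ 2 := by
  have h5 := five
  have h50 : goldenRatio - goldenConj ≠ 0 := by linarith
  obtain ⟨j0, hj0⟩ : ∃ j0 : ℝ, j0 * (goldenRatio - goldenConj) = -z.1 + z.2 :=
    ⟨(-z.1 + z.2) / (goldenRatio - goldenConj), div_mul_cancel₀ _ h50⟩
  obtain ⟨i0, hi0⟩ : ∃ i0 : ℝ, i0 = -z.1 - j0 * goldenRatio := ⟨_, rfl⟩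
  have a1 : |(round i0 : ℝ) - i0| ≤ 1 / 2 := by
    rw [abs_sub_comm]; exact abs_sub_round i0
  have a2 : |(round j0 : ℝ) - j0| ≤ 1 / 2 := by
    rw [abs_sub_comm]; exact abs_sub_round j0
  refine ⟨((round i0 : ℝ) + (round j0 : ℝ) * goldenRatio,
    (round i0 : ℝ) + (round j0 : ℝ) * goldenConj), ⟨round i0, round j0, rfl⟩, ?_⟩
  have b1 : |z.1 + ((round i0 : ℝ) + (round j0 : ℝ) * goldenRatio)| ≤ 2 := by
    have e : z.1 + ((round i0 : ℝ) + (round j0 : ℝ) * goldenRatio)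
        = ((round i0 : ℝ) - i0) + ((round j0 : ℝ) - j0) * goldenRatio := by
      rw [hi0]; ring
    have h3 : |((round j0 : ℝ) - j0) * goldenRatio| ≤ 1 / 2 * 2 := by
      rw [abs_mul]
      exact mul_le_mul a2 abs_ratio (abs_nonneg _) (by norm_num)
    rw [e]
    exact (abs_add_le _ _).trans (by linarith)
  have b2 : |z.2 + ((round i0 : ℝ) + (round j0 : ℝ) * goldenConj)| ≤ 2 := by
    have e : z.2 + ((round i0 : ℝ) + (round j0 : ℝ) * goldenConj)
        = ((round i0 : ℝ) - i0) + ((round j0 : ℝ) - j0) * goldenConj := by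
      rw [hi0]; linear_combination -hj0
    have h3 : |((round j0 : ℝ) - j0) * goldenConj| ≤ 1 / 2 * 2 := by
      rw [abs_mul]
      exact mul_le_mul a2 abs_conj (abs_nonneg _) (by norm_num)
    rw [e]
    exact (abs_add_le _ _).trans (by linarith)
  exact max_le b1 b2

lemma countable : (Gam : Set P2).Countable := by
  refine (Set.countable_range
    (fun p : ℤ × ℤ => (((p.1 : ℝ) + p.2 * goldenRatio, (p.1 : ℝ) + p.2 * goldenConj) : P2))).mono ?_
  rintro m ⟨i, j, rfl⟩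
  exact ⟨(i, j), rfl⟩

theorem prf : StGam where
  norm := fun m hm h0 => norm_one hm h0
  sep := fun m hm m' hm' hne => sep hm hm' hne
  fin := finite_ball
  closed := Metric.isClosed_of_pairwise_le_dist one_pos (fun m hm m' hm' hne => sep hm hm' hne)
  cover := ⟨2, by norm_num, cover⟩
  path := by
    apply Set.Countable.isPathConnected_compl_of_one_lt_rank _ countable
    rw [← Module.finrank_eq_rank, Module.finrank_prod, Module.finrank_self]
    norm_num

end Pool.Agent.Work.MP_0d206b_gt.MGam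

end
end

/-! ### from I_Log.lean -/

section

set_option autoImplicit false

noncomputable section

namespace Pool.Agent.Work.MP_0d206b_gt.MLog

open Pool.Agent.Work.MP_0d206b_gt

theorem one_lt_lam : 1 < lam := by
  unfold lam
  have h := Real.one_lt_goldenRatio
  nlinarith

theorem log_lam_pos : 0 < Real.log lam := Real.log_pos one_lt_lam

theorem lam_pos : 0 < lam := lt_trans one_pos one_lt_lam

theorem llog_zpow (j : ℤ) (r : ℝ) (hr : 0 < r) : llog (lam ^ j * r) = j + llog r := by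
  unfold llog
  rw [Real.log_mul (zpow_pos lam_pos j).ne' hr.ne', Real.log_zpow, add_div,
    mul_div_assoc, div_self log_lam_pos.ne', mul_one]

theorem nsq_smul (r : ℝ) (v : P2) : nsq (r • v) = r ^ 2 * nsq v := by
  unfold nsq
  simp only [Prod.smul_fst, Prod.smul_snd, smul_eq_mul]
  ring

theorem nsq_pos (v : P2) (hv : v ≠ 0) : 0 < nsq v := by
  unfold nsq
  by_contra hcon
  have h1 : v.1 ^ 2 = 0 := by nlinarith [sq_nonneg v.1, sq_nonneg v.2]
  have h2 : v.2 ^ 2 = 0 := by nlinarith [sq_nonneg v.1, sq_nonneg v.2]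
  apply hv
  ext
  · exact pow_eq_zero_iff (two_ne_zero) |>.1 h1
  · exact pow_eq_zero_iff (two_ne_zero) |>.1 h2

theorem nsq_le (v : P2) : nsq v ≤ 2 * ‖v‖ ^ 2 := by
  unfold nsq
  have h1 : |v.1| ≤ ‖v‖ := by
    rw [Prod.norm_def, Real.norm_eq_abs, Real.norm_eq_abs]
    exact le_max_left _ _
  have h2 : |v.2| ≤ ‖v‖ := by
    rw [Prod.norm_def, Real.norm_eq_abs, Real.norm_eq_abs]
    exact le_max_right _ _
  have h3 := pow_le_pow_left₀ (abs_nonneg v.1) h1 2
  have h4 := pow_le_pow_left₀ (abs_nonneg v.2) h2 2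
  rw [sq_abs] at h3 h4
  linarith

theorem le_nsq (v : P2) : ‖v‖ ^ 2 ≤ nsq v := by
  unfold nsq
  rw [Prod.norm_def, Real.norm_eq_abs, Real.norm_eq_abs]
  rcases max_cases |v.1| |v.2| with ⟨h, -⟩ | ⟨h, -⟩
  · rw [h, sq_abs]
    linarith [sq_nonneg v.2]
  · rw [h, sq_abs]
    linarith [sq_nonneg v.1]

theorem prf : StLog where
  one_lt := one_lt_lam
  log_pos := log_lam_pos
  llog_zpow := llog_zpow
  nsq_smul := nsq_smul
  llog_nsq := by
    intro j v hv
    have h1 : (lam ^ j) ^ 2 = lam ^ (2 * j) := by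
      rw [← zpow_natCast, ← zpow_mul]
      congr 1
      push_cast
      ring
    rw [nsq_smul, h1, llog_zpow _ _ (nsq_pos v hv)]
    push_cast
    ring
  nsq_pos := nsq_pos
  nsq_le := nsq_le
  le_nsq := le_nsq
  llog_lt := by
    intro b
    refine ⟨Real.exp (b * Real.log lam), Real.exp_pos _, fun r hr h => ?_⟩
    unfold llog at h
    rw [div_le_iff₀ log_lam_pos] at h
    exact (Real.log_le_iff_le_exp hr).1 h
  lt_llog := by
    intro b
    refine ⟨Real.exp (b * Real.log lam), Real.exp_pos _, fun r hr h => ?_⟩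
    unfold llog at h
    rw [le_div_iff₀ log_lam_pos] at h
    exact (Real.le_log_iff_exp_le hr).1 h

end Pool.Agent.Work.MP_0d206b_gt.MLog

end
end

/-! ### from I_Sig.lean -/

section

/-!
# MP_0d206b_gt, module M: formulas and equivariance of `sigma`, `K0`, `Ka`
-/

set_option autoImplicit false

open Set Filter Topology
open scoped ContDiff

noncomputable section

namespace Pool.Agent.Work.MP_0d206b_gt.MSig

open Pool.Agent.Work.MP_0d206b_gt

lemma Lam_add (D : DA) {z m : P2} (hz : z ∈ D.Lam) (hm : m ∈ Gam) : z + m ∈ D.Lam := by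
  intro m' hm' v h
  refine hz (m' - m) (Gam.sub_mem hm' hm) v ?_
  rw [sub_add_eq_add_sub, ← h, add_sub_cancel_right]

lemma S0_smul {r : ℝ} (hr : r ≠ 0) (hn : ∀ (r : ℝ) (v : P2), nsq (r • v) = r ^ 2 * nsq v)
    (v : P2) : S0 (r • v) = S0 v := by
  unfold S0
  rw [hn]
  have h1 : 2 * (r • v).1 * (r • v).2 = r ^ 2 * (2 * v.1 * v.2) := by
    simp only [Prod.smul_fst, Prod.smul_snd, smul_eq_mul]
    ring
  rw [h1, mul_div_mul_left _ _ (pow_ne_zero 2 hr)]

theorem prf : StSig := by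
  intro D hG hL hPsi hPr hPow hcont
  have sl : ∀ z ∈ D.Lam, D.sigma z = D.S z := fun z hz => if_pos hz
  have kl : ∀ z ∈ D.Lam, D.K0 z = 0 := fun z hz => if_pos hz
  have al : ∀ z ∈ D.Lam, D.Ka z = 0 := fun z hz => if_pos hz
  have sp : ∀ m ∈ Gam, ∀ v, D.sigma (m + D.Psi v) = D.S (m + D.Psi v) + dy D.Psi v * S0 v := by
    intro m hm v
    unfold DA.sigma
    rw [if_neg (hPsi.inLam m hm v), hPsi.lin_eq m hm v]
  have kp : ∀ m ∈ Gam, ∀ v, D.K0 (m + D.Psi v) = 2 * v.1 / (Real.log lam * nsq v) := by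
    intro m hm v
    unfold DA.K0
    rw [if_neg (hPsi.inLam m hm v), hPsi.lin_eq m hm v]
  have ap : ∀ m ∈ Gam, ∀ v, D.Ka (m + D.Psi v) =
      8 * v.1 * v.2 ^ 2 / (Real.log lam * nsq v ^ 2) := by
    intro m hm v
    unfold DA.Ka
    rw [if_neg (hPsi.inLam m hm v), hPsi.lin_eq m hm v]
  have hlz : ∀ j : ℤ, lam ^ j ≠ 0 := fun j => zpow_ne_zero j lam_pos.ne'
  refine ⟨sl, kl, al, sp, kp, ap, hcont.1, hcont.2.1, hcont.2.2, ?_, ?_, ?_, ?_, ?_, ?_⟩
  · intro j z hz
    by_cases hzL : z ∈ D.Lam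
    · rw [kl z hzL, kl _ ((hPow.Lam j z).mpr hzL), mul_zero]
    · obtain ⟨m, hm, v, rfl⟩ := hPsi.notLam z hzL
      have hv : v ≠ 0 := fun h => hz ((hPsi.mem_gam m hm v).mpr h)
      have hn : nsq v ≠ 0 := (hL.nsq_pos v hv).ne'
      rw [hPow.psi j m hm v, kp _ (Lz_mem j hm), kp m hm, hL.nsq_smul, zpow_neg]
      have hl := hL.log_pos.ne'
      have h1 := hlz j
      simp only [Prod.smul_fst, smul_eq_mul]
      field_simp
  · intro j z hz
    by_cases hzL : z ∈ D.Lam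
    · rw [al z hzL, al _ ((hPow.Lam j z).mpr hzL), mul_zero]
    · obtain ⟨m, hm, v, rfl⟩ := hPsi.notLam z hzL
      have hv : v ≠ 0 := fun h => hz ((hPsi.mem_gam m hm v).mpr h)
      have hn : nsq v ≠ 0 := (hL.nsq_pos v hv).ne'
      rw [hPow.psi j m hm v, ap _ (Lz_mem j hm), ap m hm, hL.nsq_smul, zpow_neg]
      have hl := hL.log_pos.ne'
      have h1 := hlz j
      simp only [Prod.smul_fst, Prod.smul_snd, smul_eq_mul]
      field_simp
  · intro z hz m' hm'
    by_cases hzL : z ∈ D.Lam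
    · rw [kl z hzL, kl _ (Lam_add D hzL hm')]
    · obtain ⟨m, hm, v, rfl⟩ := hPsi.notLam z hzL
      rw [add_right_comm, kp _ (Gam.add_mem hm hm'), kp m hm]
  · intro z hz m' hm'
    by_cases hzL : z ∈ D.Lam
    · rw [al z hzL, al _ (Lam_add D hzL hm')]
    · obtain ⟨m, hm, v, rfl⟩ := hPsi.notLam z hzL
      rw [add_right_comm, ap _ (Gam.add_mem hm hm'), ap m hm]
  · intro z hz m' hm'
    by_cases hzL : z ∈ D.Lam
    · rw [sl z hzL, sl _ (Lam_add D hzL hm'), D.S_add z m' hm']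
    · obtain ⟨m, hm, v, rfl⟩ := hPsi.notLam z hzL
      have h1 : D.S (m + D.Psi v + m') = D.S (m + D.Psi v) := D.S_add _ m' hm'
      rw [add_right_comm] at h1 ⊢
      rw [sp _ (Gam.add_mem hm hm'), sp m hm, h1]
  · intro j z hz
    by_cases hzL : z ∈ D.Lam
    · rw [sl z hzL, sl _ ((hPow.Lam j z).mpr hzL)]
      exact hPow.der_S j z
    · obtain ⟨m, hm, v, rfl⟩ := hPsi.notLam z hzL
      obtain ⟨c, hc, hcv⟩ := hPow.der_v j (m + D.Psi v)
      set A := fderiv ℝ (fun z => (D.Fe ^ j) z) (m + D.Psi v) with hA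
      have hdA : HasFDerivAt (fun z => (D.Fe ^ j) z) A (m + D.Psi v) :=
        ((hPow.smooth j).differentiable (by simp) _).hasFDerivAt
      have hdP : ∀ w, HasFDerivAt D.Psi (fderiv ℝ D.Psi w) w := fun w =>
        (D.Psi_smooth.differentiable (by simp) _).hasFDerivAt
      -- chain rule
      have h1 : HasFDerivAt (fun w => (D.Fe ^ j) (m + D.Psi w)) (A.comp (fderiv ℝ D.Psi v)) v :=
        hdA.comp v ((hdP v).const_add m)
      have h2 : HasFDerivAt (fun w => (D.Fe ^ j) (m + D.Psi w))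
          ((fderiv ℝ D.Psi (lam ^ j • v)).comp (lam ^ j • ContinuousLinearMap.id ℝ P2)) v := by
        have h3 : HasFDerivAt (fun w : P2 => lam ^ j • w) (lam ^ j • ContinuousLinearMap.id ℝ P2) v :=
          (hasFDerivAt_id v).const_smul (lam ^ j)
        have h4 : HasFDerivAt (fun w => Lz j m + D.Psi (lam ^ j • w))
            ((fderiv ℝ D.Psi (lam ^ j • v)).comp (lam ^ j • ContinuousLinearMap.id ℝ P2)) v :=
          ((hdP (lam ^ j • v)).comp v h3).const_add (Lz j m)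
        refine h4.congr_of_eventuallyEq (Filter.Eventually.of_forall fun w => ?_)
        exact hPow.psi j m hm w
      have h3 := congrArg (fun T : P2 →L[ℝ] P2 => T (0, 1)) (h1.unique h2)
      have h4 : c * dy D.Psi v = lam ^ j * dy D.Psi (lam ^ j • v) := by
        have e1 : A (0, dy D.Psi v) = (0, c * dy D.Psi v) := by
          have : ((0, dy D.Psi v) : P2) = dy D.Psi v • ((0, 1) : P2) := by
            ext <;> simp
          rw [this, map_smul, hcv]
          ext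
          · simp
          · simp; ring
        have e2 : (fderiv ℝ D.Psi (lam ^ j • v)) (lam ^ j • ((0, 1) : P2)) =
            (0, lam ^ j * dy D.Psi (lam ^ j • v)) := by
          rw [map_smul, hPsi.dPsi_snd]
          ext
          · simp
          · simp
        have e3 : A (fderiv ℝ D.Psi v (0, 1)) =
            (fderiv ℝ D.Psi (lam ^ j • v)) (lam ^ j • ((0, 1) : P2)) := h3
        rw [hPsi.dPsi_snd, e1, e2] at e3
        exact congrArg Prod.snd e3
      have h5 : D.sigma ((D.Fe ^ j) (m + D.Psi v)) =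
          D.S ((D.Fe ^ j) (m + D.Psi v)) + dy D.Psi (lam ^ j • v) * S0 v := by
        rw [hPow.psi j m hm v, sp _ (Lz_mem j hm), S0_smul (hlz j) hL.nsq_smul]
      have h6 := hPow.der_S j (m + D.Psi v)
      rw [← hA] at h6
      have h7 : ((1, D.sigma (m + D.Psi v)) : P2) =
          (1, D.S (m + D.Psi v)) + (dy D.Psi v * S0 v) • ((0, 1) : P2) := by
        rw [sp m hm v]
        ext <;> simp
      rw [h5, h7, map_add, map_smul, h6, hcv]
      ext
      · simp
      · simp only [Prod.snd_add, Prod.smul_snd, smul_eq_mul]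
        linear_combination S0 v * h4

end Pool.Agent.Work.MP_0d206b_gt.MSig

end
end
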