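import Pool.Agent.Work.MP_0d206b_gt.M.Stmts

/-! MP_0d206b_gt, module M: items, part 3 -/

/-! ### from I_Act0.lean -/

section

/-!
# MP_0d206b_gt, module M: flow 0, the group action
-/

set_option autoImplicit false

open Set Filter Topology
open scoped ContDiff

noncomputable section

namespace Pool.Agent.Work.MP_0d206b_gt.MAct0

open MP0d206b.Et (shift)

theorem one_j : (1 : Grp).j = 0 := rfl

theorem one_n : (1 : Grp).n = 0 := rfl

theorem mul_j (a b : Grp) : (a * b).j = a.j + b.j := rfl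

theorem mul_n (a b : Grp) : (((a * b).n : Gam) : P2) = (a.n : P2) + Lz a.j (b.n : P2) := rfl

theorem plane_one (D : DA) (z : P2) : (D.Fe ^ (1 : Grp).j) z + ((1 : Grp).n : P2) = z := by
  rw [one_j, one_n, zpow_zero]
  simp

theorem plane_mul (D : DA) (hP : PowFacts D) (a b : Grp) (z : P2) :
    (D.Fe ^ (a * b).j) z + ((a * b).n : P2) =
      (D.Fe ^ a.j) ((D.Fe ^ b.j) z + (b.n : P2)) + (a.n : P2) := by
  rw [mul_j, mul_n, hP.add a.j _ _ b.n.2, zpow_add, Equiv.Perm.mul_apply]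
  abel

theorem mem_iff (D : DA) (hP : PowFacts D) (a : Grp) (z : P2) :
    (D.Fe ^ a.j) z + (a.n : P2) ∈ Gam ↔ z ∈ Gam := by
  rw [AddSubgroup.add_mem_cancel_right _ a.n.2, hP.gam]

theorem smooth_aux (D : DA) (hP : PowFacts D) (a : Grp) (c : ℝ) (e : E) :
    ContDiffAt ℝ ∞ (fun e : E => (((D.Fe ^ a.j) e.1 + (a.n : P2), e.2 + c) : E)) e := by
  have h1 : ContDiff ℝ ∞ (fun e : E => (D.Fe ^ a.j) e.1) := (hP.smooth a.j).comp contDiff_fst
  exact ((h1.add contDiff_const).prodMk (contDiff_snd.add contDiff_const)).contDiffAt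

theorem prf : StAct0 := by
  intro D hF
  have hP := hF.pow
  refine
    { act_dom := ?_
      act_smooth := ?_
      iact_one := fun _ => rfl
      act_one := ?_
      iact_mul := fun _ _ _ => rfl
      act_mul := ?_
      act_shift := ?_ }
  · intro a i e he
    cases i
    · exact fun h => he ((mem_iff D hP a e.1).1 h)
    · exact fun h => he ((mem_iff D hP a e.1).1 h)
  · intro a i e _
    cases i
    · exact smooth_aux D hP a a.j e
    · have := smooth_aux D hP a (-a.j) e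
      simp only [← sub_eq_add_neg] at this
      exact this
  · intro i e
    cases i
    · refine Prod.ext (plane_one D e.1) ?_
      show e.2 + (((1 : Grp).j : ℤ) : ℝ) = e.2
      rw [one_j, Int.cast_zero, add_zero]
    · refine Prod.ext (plane_one D e.1) ?_
      show e.2 - (((1 : Grp).j : ℤ) : ℝ) = e.2
      rw [one_j, Int.cast_zero, sub_zero]
  · intro a b i e
    cases i
    · refine Prod.ext (plane_mul D hP a b e.1) ?_
      show e.2 + (((a * b).j : ℤ) : ℝ) = e.2 + ((b.j : ℤ) : ℝ) + ((a.j : ℤ) : ℝ)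
      rw [mul_j, Int.cast_add]
      ring
    · refine Prod.ext (plane_mul D hP a b e.1) ?_
      show e.2 - (((a * b).j : ℤ) : ℝ) = e.2 - ((b.j : ℤ) : ℝ) - ((a.j : ℤ) : ℝ)
      rw [mul_j, Int.cast_add]
      ring
  · intro a i e s
    cases i
    · refine Prod.ext rfl ?_
      show e.2 + s + ((a.j : ℤ) : ℝ) = e.2 + ((a.j : ℤ) : ℝ) + s
      ring
    · refine Prod.ext rfl ?_
      show e.2 + s - ((a.j : ℤ) : ℝ) = e.2 - ((a.j : ℤ) : ℝ) + s
      ring

end Pool.Agent.Work.MP_0d206b_gt.MAct0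

end
end

/-! ### from I_ActA.lean -/

section

/-!
# MP_0d206b_gt, module M: flow a, the group action
-/

set_option autoImplicit false

open Set Filter Topology
open scoped ContDiff

noncomputable section

namespace Pool.Agent.Work.MP_0d206b_gt.MActA

open MP0d206b.Et (shift)

theorem one_j : (1 : Grp).j = 0 := rfl

theorem one_n : (1 : Grp).n = 0 := rfl

theorem mul_j (a b : Grp) : (a * b).j = a.j + b.j := rfl

theorem mul_n (a b : Grp) : (((a * b).n : Gam) : P2) = (a.n : P2) + Lz a.j (b.n : P2) := rfl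

theorem sg_mem (s : Bool) {m : P2} (hm : m ∈ Gam) : sg s • m ∈ Gam := by
  cases s
  · have : sg false • m = -m := by simp [sg]
    rw [this]
    exact Gam.neg_mem hm
  · have : sg true • m = m := by simp [sg]
    rw [this]
    exact hm

theorem Lz_smul (j : ℤ) (c : ℝ) (z : P2) : Lz j (c • z) = c • Lz j z := by
  ext <;> simp [Lz] <;> ring

theorem plane_one (D : DA) (z : P2) : (D.Fe ^ (1 : Grp).j) z + ((1 : Grp).n : P2) = z := by
  rw [one_j, one_n, zpow_zero]
  simp

theorem plane_one' (D : DA) (s : Bool) (z : P2) :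
    (D.Fe ^ (1 : Grp).j) z + sg s • ((1 : Grp).n : P2) = z := by
  rw [one_j, one_n, zpow_zero]
  simp

theorem plane_mul (D : DA) (hP : PowFacts D) (a b : Grp) (z : P2) :
    (D.Fe ^ (a * b).j) z + ((a * b).n : P2) =
      (D.Fe ^ a.j) ((D.Fe ^ b.j) z + (b.n : P2)) + (a.n : P2) := by
  rw [mul_j, mul_n, hP.add a.j _ _ b.n.2, zpow_add, Equiv.Perm.mul_apply]
  abel

theorem plane_mul' (D : DA) (hP : PowFacts D) (s : Bool) (a b : Grp) (z : P2) :
    (D.Fe ^ (a * b).j) z + sg s • ((a * b).n : P2) =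
      (D.Fe ^ a.j) ((D.Fe ^ b.j) z + sg s • (b.n : P2)) + sg s • (a.n : P2) := by
  rw [mul_j, mul_n, hP.add a.j _ _ (sg_mem s b.n.2), zpow_add, Equiv.Perm.mul_apply, Lz_smul,
    smul_add]
  abel

theorem mem_iff (D : DA) (hP : PowFacts D) (a : Grp) (z : P2) :
    (D.Fe ^ a.j) z + (a.n : P2) ∈ Gam ↔ z ∈ Gam := by
  rw [AddSubgroup.add_mem_cancel_right _ a.n.2, hP.gam]

theorem mem_iff' (D : DA) (hP : PowFacts D) (s : Bool) (a : Grp) (z : P2) :
    (D.Fe ^ a.j) z + sg s • (a.n : P2) ∈ Gam ↔ z ∈ Gam := by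
  rw [AddSubgroup.add_mem_cancel_right _ (sg_mem s a.n.2), hP.gam]

theorem smooth_aux (D : DA) (hP : PowFacts D) (a : Grp) (m : P2) (c : ℝ) (e : E) :
    ContDiffAt ℝ ∞ (fun e : E => (((D.Fe ^ a.j) e.1 + m, e.2 + c) : E)) e := by
  have h1 : ContDiff ℝ ∞ (fun e : E => (D.Fe ^ a.j) e.1) := (hP.smooth a.j).comp contDiff_fst
  exact ((h1.add contDiff_const).prodMk (contDiff_snd.add contDiff_const)).contDiffAt

theorem smooth_g (x y c : ℝ) (e : E) :
    ContDiffAt ℝ ∞ (fun e : E => (((x * e.1.1, y * e.1.2), e.2 + c) : E)) e := by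
  have h11 : ContDiff ℝ ∞ (fun e : E => e.1.1) := contDiff_fst.comp contDiff_fst
  have h12 : ContDiff ℝ ∞ (fun e : E => e.1.2) := contDiff_snd.comp contDiff_fst
  exact (((contDiff_const.mul h11).prodMk (contDiff_const.mul h12)).prodMk
    (contDiff_snd.add contDiff_const)).contDiffAt

theorem prf : StActA := by
  intro D hF
  have hP := hF.pow
  have hl : lam ≠ 0 := lam_pos.ne'
  refine
    { act_dom := ?_
      act_smooth := ?_
      iact_one := ?_
      act_one := ?_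
      iact_mul := ?_
      act_mul := ?_
      act_shift := ?_ }
  · intro a i e he
    cases i with
    | R => exact fun h => he ((mem_iff D hP a e.1).1 h)
    | A s => exact fun h => he ((mem_iff' D hP s a e.1).1 h)
    | g m => exact mem_univ _
  · intro a i e _
    cases i with
    | R => exact smooth_aux D hP a (a.n : P2) a.j e
    | A s =>
      have := smooth_aux D hP a (sg s • (a.n : P2)) (-a.j) e
      simp only [← sub_eq_add_neg] at this
      exact this
    | g m => exact smooth_g (lam ^ (-a.j)) (lam ^ a.j) a.j e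
  · intro i
    cases i with
    | R => rfl
    | A s => rfl
    | g m =>
      show IdxA.g (Grp.LG 0 m + 0) = IdxA.g m
      rw [Grp.LG_zero, add_zero]
  · intro i e
    cases i with
    | R =>
      refine Prod.ext (plane_one D e.1) ?_
      show e.2 + (((1 : Grp).j : ℤ) : ℝ) = e.2
      rw [one_j, Int.cast_zero, add_zero]
    | A s =>
      refine Prod.ext (plane_one' D s e.1) ?_
      show e.2 - (((1 : Grp).j : ℤ) : ℝ) = e.2
      rw [one_j, Int.cast_zero, sub_zero]
    | g m =>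
      refine Prod.ext (Prod.ext ?_ ?_) ?_
      · show lam ^ (-(1 : Grp).j) * e.1.1 = e.1.1
        rw [one_j, neg_zero, zpow_zero, one_mul]
      · show lam ^ (1 : Grp).j * e.1.2 = e.1.2
        rw [one_j, zpow_zero, one_mul]
      · show e.2 + (((1 : Grp).j : ℤ) : ℝ) = e.2
        rw [one_j, Int.cast_zero, add_zero]
  · intro a b i
    cases i with
    | R => rfl
    | A s => rfl
    | g m =>
      show IdxA.g (Grp.LG (a.j + b.j) m + (a.n + Grp.LG a.j b.n)) =
        IdxA.g (Grp.LG a.j (Grp.LG b.j m + b.n) + a.n)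
      rw [Grp.LG_add, Grp.LG_LG]
      congr 1
      abel
  · intro a b i e
    cases i with
    | R =>
      refine Prod.ext (plane_mul D hP a b e.1) ?_
      show e.2 + (((a * b).j : ℤ) : ℝ) = e.2 + ((b.j : ℤ) : ℝ) + ((a.j : ℤ) : ℝ)
      rw [mul_j, Int.cast_add]
      ring
    | A s =>
      refine Prod.ext (plane_mul' D hP s a b e.1) ?_
      show e.2 - (((a * b).j : ℤ) : ℝ) = e.2 - ((b.j : ℤ) : ℝ) - ((a.j : ℤ) : ℝ)
      rw [mul_j, Int.cast_add]
      ring
    | g m =>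
      refine Prod.ext (Prod.ext ?_ ?_) ?_
      · show lam ^ (-(a * b).j) * e.1.1 = lam ^ (-a.j) * (lam ^ (-b.j) * e.1.1)
        rw [mul_j, neg_add, zpow_add₀ hl, mul_assoc]
      · show lam ^ (a * b).j * e.1.2 = lam ^ a.j * (lam ^ b.j * e.1.2)
        rw [mul_j, zpow_add₀ hl, mul_assoc]
      · show e.2 + (((a * b).j : ℤ) : ℝ) = e.2 + ((b.j : ℤ) : ℝ) + ((a.j : ℤ) : ℝ)
        rw [mul_j, Int.cast_add]
        ring
  · intro a i e s
    cases i with
    | R =>
      refine Prod.ext rfl ?_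
      show e.2 + s + ((a.j : ℤ) : ℝ) = e.2 + ((a.j : ℤ) : ℝ) + s
      ring
    | A s' =>
      refine Prod.ext rfl ?_
      show e.2 + s - ((a.j : ℤ) : ℝ) = e.2 - ((a.j : ℤ) : ℝ) + s
      ring
    | g m =>
      refine Prod.ext rfl ?_
      show e.2 + s + ((a.j : ℤ) : ℝ) = e.2 + ((a.j : ℤ) : ℝ) + s
      ring

end Pool.Agent.Work.MP_0d206b_gt.MActA

end
end

/-! ### from I_Compg.lean -/

section

/-!
# MP_0d206b_gt, module M: compactness for flow a, points of the pieces `g m`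
-/

set_option autoImplicit false

open Set Filter Topology
open scoped ContDiff

noncomputable section

namespace Pool.Agent.Work.MP_0d206b_gt.MCompg

open MP0d206b.Et (shift)

theorem sg_cases (s : Bool) : sg s = 1 ∨ sg s = -1 := by
  cases s <;> simp [sg]

theorem sg_mul_self (s : Bool) : sg s * sg s = 1 := by
  rcases sg_cases s with h | h <;> rw [h] <;> norm_num

theorem exists_sg (x : ℝ) : ∃ s, sg s * x = |x| := by
  rcases le_or_gt 0 x with h | h
  · exact ⟨true, by simp [sg, abs_of_nonneg h]⟩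
  · exact ⟨false, by simp [sg, abs_of_neg h]⟩

theorem sg_smul_mem (s : Bool) {m : P2} (hm : m ∈ Gam) : sg s • m ∈ Gam := by
  rcases sg_cases s with h | h
  · rw [h, one_smul]; exact hm
  · rw [h, neg_one_smul]; exact Gam.neg_mem hm

theorem norm_P2_le {z : P2} {C : ℝ} (h1 : |z.1| ≤ C) (h2 : |z.2| ≤ C) : ‖z‖ ≤ C := by
  rw [Prod.norm_def]
  exact max_le h1 h2

/-- the solution `v₂` of `ξ = v₂ / (v₁² - v₂²)`, `|v₂| < |v₁|` -/
theorem exists_v2 (xi v1 : ℝ) (hv : v1 ≠ 0) :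
    ∃ v2 : ℝ, |v2| < |v1| ∧ xi = v2 / (v1 ^ 2 - v2 ^ 2) := by
  set q := Real.sqrt (1 + 4 * xi ^ 2 * v1 ^ 2) with hq
  have hq0 : 0 ≤ q := Real.sqrt_nonneg _
  have hqq : q ^ 2 = 1 + 4 * xi ^ 2 * v1 ^ 2 := Real.sq_sqrt (by positivity)
  have h1 : 0 < 1 + q := by linarith
  refine ⟨2 * xi * v1 ^ 2 / (1 + q), ?_, ?_⟩
  · -- |v2| < |v1|
    have hlt : |2 * xi * v1| < 1 + q := by
      have : |2 * xi * v1| ≤ q := by
        apply Real.abs_le_sqrt
        nlinarith
      linarith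
    have h2 : |2 * xi * v1 ^ 2 / (1 + q)| = |2 * xi * v1| * |v1| / (1 + q) := by
      rw [abs_div, abs_of_pos h1, ← abs_mul]
      congr 2
      ring
    rw [h2, div_lt_iff₀ h1]
    have hv' : 0 < |v1| := abs_pos.mpr hv
    nlinarith
  · have hne : v1 ^ 2 - (2 * xi * v1 ^ 2 / (1 + q)) ^ 2 ≠ 0 := by
      have hv2 : 0 < v1 ^ 2 := by positivity
      have h3 : v1 ^ 2 - (2 * xi * v1 ^ 2 / (1 + q)) ^ 2 = v1 ^ 2 * (2 / (1 + q)) := by
        field_simp
        nlinarith [hqq]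
      rw [h3]
      positivity
    have hv2 : 0 < v1 ^ 2 := by positivity
    have h3 : v1 ^ 2 - (2 * xi * v1 ^ 2 / (1 + q)) ^ 2 = v1 ^ 2 * (2 / (1 + q)) := by
      field_simp
      nlinarith [hqq]
    rw [h3]
    field_simp

theorem prf : StCompg := by
  intro D hF
  obtain ⟨C₁, hC₁, hcov⟩ := hF.gam.cover
  obtain ⟨r0, hr0, hdist⟩ := hF.proper.dist_gam
  refine ⟨max C₁ 2, fun C hC => ?_⟩
  have hCC₁ : C₁ ≤ C := le_trans (le_max_left _ _) hC
  have hC2 : 2 ≤ C := le_trans (le_max_right _ _) hC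
  have hC0 : 0 < C := by linarith
  obtain ⟨R, hR, hRl⟩ := hF.log.lt_llog (-2 - llog (2 * C ^ 2))
  refine ⟨min r0 (min 1 (Real.sqrt (R / 2))), ?_, ?_⟩
  · have : 0 < Real.sqrt (R / 2) := Real.sqrt_pos.mpr (by linarith)
    exact lt_min hr0 (lt_min one_pos this)
  intro ρ hρ hρ0 m e _
  have hρr : ρ ≤ r0 := le_trans hρ0 (min_le_left _ _)
  have hρ1 : ρ ≤ 1 := le_trans hρ0 (le_trans (min_le_right _ _) (min_le_left _ _))
  have hρR : ρ ≤ Real.sqrt (R / 2) := le_trans hρ0 (le_trans (min_le_right _ _) (min_le_right _ _))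
  have hρR2 : ρ ^ 2 ≤ R / 2 := by
    have h1 := Real.sq_sqrt (show (0 : ℝ) ≤ R / 2 by linarith)
    have h2 := Real.sqrt_nonneg (R / 2)
    nlinarith
  -- normalised time
  set j : ℤ := -⌊e.2⌋ with hj
  have ht0 : 0 ≤ e.2 + (j : ℝ) := by
    have := Int.floor_le e.2
    rw [hj]; push_cast; linarith
  have ht1 : e.2 + (j : ℝ) < 1 := by
    have := Int.lt_floor_add_one e.2
    rw [hj]; push_cast; linarith
  set xi : ℝ := lam ^ (-j) * e.1.1 with hxi
  set eta : ℝ := lam ^ j * e.1.2 with heta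
  rcases le_or_gt |eta| C with hη | hη
  swap
  · -- large `eta`
    have heta0 : eta ≠ 0 := by
      intro h; rw [h, abs_zero] at hη; linarith
    obtain ⟨v2, hv2, hv2e⟩ := exists_v2 xi (eta / 2) (by simpa using heta0)
    obtain ⟨n', hn', hn'C⟩ := hcov (D.Psi (eta / 2, v2))
    refine ⟨⟨⟨n', hn'⟩ - Grp.LG j m, j⟩, .R, (n' + D.Psi (eta / 2, v2), e.2 + j), ?_, ?_⟩
    · refine ⟨?_, ?_, ht0, ht1.le⟩
      · show ‖n' + D.Psi (eta / 2, v2)‖ ≤ C
        rw [add_comm]; linarith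
      · intro m' hm'
        refine hdist ρ hρ hρr n' hn' (eta / 2, v2) ?_ m' hm'
        have h1 : |eta / 2| ≤ ‖((eta / 2, v2) : P2)‖ := by
          rw [Prod.norm_def]; exact le_max_left _ _
        have h2 : |eta / 2| = |eta| / 2 := by rw [abs_div]; norm_num
        linarith
    · show glueRg D (Grp.LG j m + (⟨n', hn'⟩ - Grp.LG j m)) _ _
      have hidx : Grp.LG j m + (⟨n', hn'⟩ - Grp.LG j m) = ⟨n', hn'⟩ := by abel
      rw [hidx]
      refine ⟨(eta / 2, v2), hv2, rfl, ?_, rfl⟩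
      show (lam ^ (-j) * e.1.1, lam ^ j * e.1.2) =
        (v2 / ((eta / 2) ^ 2 - v2 ^ 2), 2 * (eta / 2))
      rw [← hv2e, ← hxi, ← heta]
      congr 1
      ring
  rcases le_or_gt |xi| C with hξ | hξ
  · -- both small
    refine ⟨⟨- Grp.LG j m, j⟩, .g 0, ((xi, eta), e.2 + j), ⟨rfl, norm_P2_le hξ hη, ht0, ht1.le⟩, ?_⟩
    show Grp.LG j m + - Grp.LG j m = 0 ∧ _
    exact ⟨add_neg_cancel _, rfl⟩
  · -- large `xi`, small `eta`
    have hxi0 : 0 < |xi| := lt_trans hC0 hξ
    obtain ⟨s, hs⟩ := exists_sg xi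
    have hss := sg_mul_self s
    set w : P2 := (1 / |xi|, sg s * eta) with hw
    have hw0 : w ≠ 0 := by
      intro h
      have : w.1 = 0 := by rw [h]; rfl
      have h2 : 0 < w.1 := by rw [hw]; positivity
      linarith
    have hnw : 0 < nsq w := hF.log.nsq_pos w hw0
    have hnw2 : nsq w ≤ 2 * C ^ 2 := by
      have h1 : (1 / |xi|) ^ 2 ≤ C ^ 2 := by
        have h2 : 1 / |xi| ≤ 1 := by
          rw [div_le_one hxi0]; linarith
        have h3 : 0 ≤ 1 / |xi| := by positivity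
        nlinarith
      have h2 : (sg s * eta) ^ 2 ≤ C ^ 2 := by
        have : (sg s * eta) ^ 2 = eta ^ 2 := by
          calc (sg s * eta) ^ 2 = (sg s * sg s) * eta ^ 2 := by ring
            _ = eta ^ 2 := by rw [hss, one_mul]
        rw [this, ← sq_abs]
        have := abs_nonneg eta
        nlinarith
      show (1 / |xi|) ^ 2 + (sg s * eta) ^ 2 ≤ 2 * C ^ 2
      linarith
    have hll : llog (nsq w) ≤ llog (2 * C ^ 2) := by
      unfold llog
      exact div_le_div_of_nonneg_right (Real.log_le_log hnw hnw2) hF.log.log_pos.le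
    set τ : ℝ := e.2 + (j : ℝ) with hτ
    set j' : ℤ := ⌊τ - llog (nsq w)⌋ with hj'
    have hj1 : (j' : ℝ) ≤ τ - llog (nsq w) := Int.floor_le _
    have hj2 : τ - llog (nsq w) < j' + 1 := Int.lt_floor_add_one _
    set w' : P2 := lam ^ j' • w with hw'
    have hlam : 0 < lam := lam_pos
    have hlj : 0 < lam ^ j' := zpow_pos hlam _
    have hw'0 : w' ≠ 0 := smul_ne_zero hlj.ne' hw0
    have hlw' : llog (nsq w') = 2 * j' + llog (nsq w) := hF.log.llog_nsq j' w hw0
    have hRw : R ≤ nsq w' := by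
      refine hRl _ (hF.log.nsq_pos w' hw'0) ?_
      rw [hlw']
      linarith
    have hρw : ρ ≤ ‖w'‖ := by
      have h1 := hF.log.nsq_le w'
      have h2 : 0 ≤ ‖w'‖ := norm_nonneg _
      by_contra h3
      push Not at h3
      nlinarith
    obtain ⟨n', hn', hn'C⟩ := hcov (D.Psi w')
    have hsn : sg s • n' ∈ Gam := sg_smul_mem s hn'
    have hssn : sg s • sg s • n' = n' := by rw [smul_smul, hss, one_smul]
    refine ⟨⟨⟨sg s • n', hsn⟩ - Grp.LG (j + j') m, j + j'⟩, .A s,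
      (sg s • (sg s • n') + D.Psi w', τ - llog (nsq w) - j'), ?_, ?_⟩
    · refine ⟨?_, ?_, ?_, ?_⟩
      · show ‖sg s • (sg s • n') + D.Psi w'‖ ≤ C
        rw [hssn, add_comm]; linarith
      · intro m' hm'
        show ρ ≤ dist (sg s • (sg s • n') + D.Psi w') m'
        rw [hssn]
        exact hdist ρ hρ hρr n' hn' w' hρw m' hm'
      · show 0 ≤ τ - llog (nsq w) - j'
        linarith
      · show τ - llog (nsq w) - j' ≤ 1
        linarith
    · show glueAg D s (Grp.LG (j + j') m + (⟨sg s • n', hsn⟩ - Grp.LG (j + j') m)) _ _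
      have hidx : Grp.LG (j + j') m + (⟨sg s • n', hsn⟩ - Grp.LG (j + j') m) =
        ⟨sg s • n', hsn⟩ := by abel
      rw [hidx]
      have hw'1 : w'.1 = lam ^ j' * (1 / |xi|) := rfl
      have hw'2 : w'.2 = lam ^ j' * (sg s * eta) := rfl
      refine ⟨w', ?_, rfl, ?_, ?_⟩
      · rw [hw'1]; positivity
      · show (lam ^ (-(j + j')) * e.1.1, lam ^ (j + j') * e.1.2) = (sg s / w'.1, sg s * w'.2)
        rw [hw'1, hw'2]
        have hne : lam ≠ 0 := hlam.ne'
        have hsx : sg s * |xi| = xi := by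
          rw [← hs, ← mul_assoc, hss, one_mul]
        congr 1
        · have h1 : lam ^ (-(j + j')) * e.1.1 = lam ^ (-j') * xi := by
            rw [hxi, neg_add, zpow_add₀ hne]; ring
          rw [h1, zpow_neg]
          have h2 : sg s / (lam ^ j' * (1 / |xi|)) = (lam ^ j')⁻¹ * (sg s * |xi|) := by
            field_simp
          rw [h2, hsx]
        · have h1 : lam ^ (j + j') * e.1.2 = lam ^ j' * eta := by
            rw [heta, zpow_add₀ hne]; ring
          rw [h1]
          linear_combination (-(lam ^ j' * eta)) * hss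
      · show e.2 + ((j + j' : ℤ) : ℝ) = τ - llog (nsq w) - j' + llog (nsq w')
        rw [hlw', hτ]
        push_cast
        ring

end Pool.Agent.Work.MP_0d206b_gt.MCompg

end
end

/-! ### from I_ContrS0.lean -/

section

/-! MP_0d206b_gt, module M: flow 0, pointwise contraction of `E^s`. -/

set_option autoImplicit false

open Set Filter Topology
open scoped ContDiff

noncomputable section

namespace Pool.Agent.Work.MP_0d206b_gt.MContrS0

open MP0d206b.Et (shift)

lemma der (g : P2 → P2) (hg : Differentiable ℝ g) (m : P2) (s : ℝ) (p u : E) :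
    fderiv ℝ (fun e : E => ((g e.1 + m, e.2 + s) : E)) p u = (fderiv ℝ g p.1 u.1, u.2) := by
  have h1 : HasFDerivAt (fun e : E => g e.1 + m)
      ((fderiv ℝ g p.1).comp (ContinuousLinearMap.fst ℝ P2 ℝ)) p :=
    (((hg p.1).hasFDerivAt).comp p hasFDerivAt_fst).add_const m
  have h2 : HasFDerivAt (fun e : E => e.2 + s) (ContinuousLinearMap.snd ℝ P2 ℝ) p :=
    hasFDerivAt_snd.add_const s
  rw [(h1.prodMk h2).fderiv]
  rfl

lemma diff {D : DA} (P : PowFacts D) (j : ℤ) : Differentiable ℝ (fun z => (D.Fe ^ j) z) :=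
  (P.smooth j).differentiable (by simp)

lemma caseA (D : DA) (F : Facts D) (e : E) (he : e.1 ∉ Gam) :
    ∃ (j : Idx0) (K : Set E), IsCompact K ∧ K ⊆ dom0 j ∧ ∀ δ > 0, ∃ t > 0, ∃ a : Grp,
      iact0 a Idx0.A = j ∧ act0 D a Idx0.A (shift (1 * t) e) ∈ K ∧
        ∃ c : ℝ, |c| < δ ∧ fderiv ℝ (act0 D a Idx0.A) (shift (1 * t) e) (es0 D Idx0.A e) =
          c • es0 D j (act0 D a Idx0.A (shift (1 * t) e)) := by
  obtain ⟨K1, hc, hs, hK⟩ := F.orb.fwd e.1 he
  refine ⟨Idx0.A, K1 ×ˢ {e.2}, hc.prod isCompact_singleton, fun x hx => hs hx.1, ?_⟩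
  intro δ hδ
  have h1 := (Metric.tendsto_nhds.mp (D.contr e.1 he) δ hδ).and (eventually_ge_atTop 1)
  obtain ⟨n, hn, hn1⟩ := h1.exists
  obtain ⟨m, hm⟩ := hK n
  refine ⟨n, by exact_mod_cast hn1, ⟨m, n⟩, rfl, ?_, ?_⟩
  · refine ⟨hm, ?_⟩
    show e.2 + 1 * (n : ℝ) - (((n : ℤ) : ℝ)) = e.2
    push_cast
    ring
  · refine ⟨∏ k ∈ Finset.range n, dy D.F (D.F^[k] e.1), ?_, ?_⟩
    · rwa [Real.dist_eq, sub_zero] at hn
    · have hfun : act0 D ⟨m, n⟩ Idx0.A
          = fun x : E => ((D.Fe ^ (n : ℤ)) x.1 + (m : P2), x.2 + -(((n : ℤ) : ℝ))) := by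
        funext x
        show ((D.Fe ^ (n : ℤ)) x.1 + (m : P2), x.2 - (((n : ℤ) : ℝ))) = _
        rw [sub_eq_add_neg]
      have h2 := der (fun z => (D.Fe ^ (n : ℤ)) z) (diff F.pow n) (m : P2) (-(((n : ℤ) : ℝ)))
        (shift (1 * (n : ℝ)) e) (es0 D Idx0.A e)
      rw [hfun, h2]
      show (fderiv ℝ (fun z => (D.Fe ^ (n : ℤ)) z) e.1 (0, 1), (0 : ℝ)) = _
      rw [F.pow.der_v_nat n e.1]
      show _ = (∏ k ∈ Finset.range n, dy D.F (D.F^[k] e.1)) • (((0, 1), 0) : E)
      simp [Prod.smul_mk]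

lemma caseR (D : DA) (F : Facts D) (e : E) (he : e.1 ∈ D.Lam) :
    ∃ (j : Idx0) (K : Set E), IsCompact K ∧ K ⊆ dom0 j ∧ ∀ δ > 0, ∃ t > 0, ∃ a : Grp,
      iact0 a Idx0.R = j ∧ act0 D a Idx0.R (shift (1 * t) e) ∈ K ∧
        ∃ c : ℝ, |c| < δ ∧ fderiv ℝ (act0 D a Idx0.R) (shift (1 * t) e) (es0 D Idx0.R e) =
          c • es0 D j (act0 D a Idx0.R (shift (1 * t) e)) := by
  obtain ⟨K2, hc, hs, hK⟩ := F.orb.bwd
  refine ⟨Idx0.R, K2 ×ˢ {e.2}, hc.prod isCompact_singleton, fun x hx => hs hx.1, ?_⟩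
  intro δ hδ
  have hl := F.log.one_lt
  have hl0 : (0 : ℝ) < lam := zero_lt_one.trans hl
  have h1 := (Metric.tendsto_nhds.mp (tendsto_pow_atTop_nhds_zero_of_lt_one
    (inv_nonneg.mpr hl0.le) (inv_lt_one_of_one_lt₀ hl)) δ hδ).and (eventually_ge_atTop 1)
  obtain ⟨n, hn, hn1⟩ := h1.exists
  obtain ⟨m, hm⟩ := hK e.1 he (-(n : ℤ))
  refine ⟨n, by exact_mod_cast hn1, ⟨m, -(n : ℤ)⟩, rfl, ?_, ?_⟩
  · refine ⟨hm, ?_⟩
    show e.2 + 1 * (n : ℝ) + (((-(n : ℤ) : ℤ) : ℝ)) = e.2
    push_cast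
    ring
  · refine ⟨lam ^ (-(n : ℤ)), ?_, ?_⟩
    · rw [zpow_neg, zpow_natCast, ← inv_pow]
      simpa [Real.dist_eq] using hn
    · have hfun : act0 D ⟨m, -(n : ℤ)⟩ Idx0.R
          = fun x : E => ((D.Fe ^ (-(n : ℤ))) x.1 + (m : P2), x.2 + (((-(n : ℤ) : ℤ) : ℝ))) := rfl
      have h2 := der (fun z => (D.Fe ^ (-(n : ℤ))) z) (diff F.pow _) (m : P2)
        (((-(n : ℤ) : ℤ) : ℝ)) (shift (1 * (n : ℝ)) e) (es0 D Idx0.R e)
      rw [hfun, h2]
      have hL : (D.Fe ^ (-(n : ℤ))) e.1 ∈ D.Lam := (F.pow.Lam _ _).mpr he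
      have hG := F.psi.Lam_gam _ hL
      show (fderiv ℝ (fun z => (D.Fe ^ (-(n : ℤ))) z) e.1 (1, D.S e.1), D.K0 e.1)
        = lam ^ (-(n : ℤ)) • (((1, D.S ((D.Fe ^ (-(n : ℤ))) e.1 + (m : P2))),
          D.K0 ((D.Fe ^ (-(n : ℤ))) e.1 + (m : P2))) : E)
      rw [F.pow.der_S, F.sig.K0_lam _ he, F.sig.K0_add _ hG _ m.2, F.sig.K0_lam _ hL,
        D.S_add _ _ m.2]
      simp [Prod.smul_mk]

theorem prf : StContrS0 := by
  intro D F i e he
  rcases i with _ | _
  · by_cases hL : e.1 ∈ D.Lam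
    · exact ⟨Idx0.R, e, rfl, caseR D F e hL⟩
    · obtain ⟨m, hm, v, hv⟩ := F.psi.notLam _ hL
      have hv0 : v ≠ 0 := by
        intro h
        exact he (show e.1 ∈ Gam by rw [hv]; exact (F.psi.mem_gam m hm v).mpr h)
      have hv1 : ((v.2, v.1) : P2) ≠ 0 := by
        intro h
        apply hv0
        have ha : v.2 = 0 := congrArg Prod.fst h
        have hb : v.1 = 0 := congrArg Prod.snd h
        exact Prod.ext hb ha
      have hG : (m + D.Psi (v.2, v.1)) ∉ Gam := fun h => hv1 ((F.psi.mem_gam m hm _).mp h)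
      exact ⟨Idx0.A, (m + D.Psi (v.2, v.1), e.2 - llog (nsq v)),
        ⟨m, hm, v, hv0, hv, rfl, rfl⟩, caseA D F _ hG⟩
  · exact ⟨Idx0.A, e, rfl, caseA D F e he⟩

end Pool.Agent.Work.MP_0d206b_gt.MContrS0

end
end

/-! ### from I_Field0.lean -/

section

/-!
# MP_0d206b_gt, module M: line fields of flow 0
-/

set_option autoImplicit false

open Set Filter Topology
open scoped ContDiff

noncomputable section

namespace Pool.Agent.Work.MP_0d206b_gt.MField0

theorem prf : StField0 := by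
  intro D hD
  have hm : MapsTo (fun e : E => e.1) {e : E | e.1 ∉ Gam} (Gam : Set P2)ᶜ := fun e he => he
  have hS : ContinuousOn (fun e : E => D.S e.1) {e : E | e.1 ∉ Gam} :=
    (D.S_cont.comp continuous_fst).continuousOn
  have hK : ContinuousOn (fun e : E => D.K0 e.1) {e : E | e.1 ∉ Gam} :=
    hD.sig.K0_cont.comp continuous_fst.continuousOn hm
  refine ⟨?_, ?_, ?_, ?_, ?_⟩
  · rintro (_ | _)
    · exact (continuousOn_const.prodMk hS).prodMk hK
    · exact continuousOn_const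
  · rintro (_ | _)
    · exact continuousOn_const
    · exact (continuousOn_const.prodMk hS).prodMk hK.neg
  · rintro (_ | _) e s <;> rfl
  · rintro (_ | _) e s <;> rfl
  · rintro (_ | _) e _
    · show (1 : ℝ) * 1 - D.S e.1 * 0 ≠ 0
      norm_num
    · show (0 : ℝ) * D.S e.1 - 1 * 1 ≠ 0
      norm_num

end Pool.Agent.Work.MP_0d206b_gt.MField0

end
end

/-! ### from I_Free0.lean -/

section

/-!
# MP_0d206b_gt, module M: freeness for flow 0
-/

set_option autoImplicit false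

open Set Filter Topology
open scoped ContDiff

noncomputable section

namespace Pool.Agent.Work.MP_0d206b_gt.MFree0

theorem aux (D : DA) (a : Grp) (z : P2) (hj : a.j = 0) (h : (D.Fe ^ a.j) z + (a.n : P2) = z) :
    a = 1 := by
  rw [hj, zpow_zero, Equiv.Perm.one_apply] at h
  have h1 : (a.n : P2) = 0 := by
    have h2 : z + (a.n : P2) = z + 0 := by rw [h, add_zero]
    exact add_left_cancel h2
  apply Grp.ext
  · exact Subtype.ext h1
  · exact hj

theorem prf : StFree0 := by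
  rintro D hD a (_ | _) e he h
  · have h1 : ((D.Fe ^ a.j) e.1 + (a.n : P2), e.2 + (a.j : ℝ)) = e := h
    have h2 := congrArg Prod.snd h1
    have h3 : (a.j : ℝ) = 0 := by
      have h4 : e.2 + (a.j : ℝ) = e.2 := h2
      linarith
    exact aux D a e.1 (by exact_mod_cast h3) (congrArg Prod.fst h1)
  · have h1 : ((D.Fe ^ a.j) e.1 + (a.n : P2), e.2 - (a.j : ℝ)) = e := h
    have h2 := congrArg Prod.snd h1
    have h3 : (a.j : ℝ) = 0 := by
      have h4 : e.2 - (a.j : ℝ) = e.2 := h2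
      linarith
    exact aux D a e.1 (by exact_mod_cast h3) (congrArg Prod.fst h1)

end Pool.Agent.Work.MP_0d206b_gt.MFree0

end
end

/-! ### from I_G.lean -/

section

/-!
# MP_0d206b_gt, item M G: the gluing map of flow a and its inverse
-/

set_option autoImplicit false

open Set Filter Topology
open scoped ContDiff

noncomputable section

namespace Pool.Agent.Work.MP_0d206b_gt.MG

lemma nsq_gmap (v : P2) (h : v.2 ≠ 0) : nsq (gmap v) = nsq v ^ 2 / v.2 ^ 2 := by
  unfold nsq gmap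
  simp only []
  field_simp
  ring

lemma gmap_ne (v : P2) (h : v.2 ≠ 0) : gmap v ≠ 0 := by
  intro h0
  have h1 : (v.1 ^ 2 - v.2 ^ 2) / v.2 = 0 := congrArg Prod.fst h0
  have h2 : 2 * v.1 = 0 := congrArg Prod.snd h0
  have h3 : v.1 = 0 := by linarith
  rw [h3, div_eq_zero_iff] at h1
  rcases h1 with h1 | h1
  · have : v.2 ^ 2 = 0 := by linarith
    exact h (pow_eq_zero_iff two_ne_zero |>.1 this)
  · exact h h1

lemma gminv_gmap (v : P2) (h : 0 < v.2) : gminv (gmap v) = v := by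
  have h1 : Real.sqrt (nsq (gmap v)) = nsq v / v.2 := by
    rw [nsq_gmap v h.ne', ← div_pow, Real.sqrt_sq]
    apply div_nonneg _ h.le
    unfold nsq
    positivity
  unfold gminv
  rw [h1]
  ext
  · simp only [gmap]
    ring
  · simp only [gmap, nsq]
    field_simp
    ring

lemma gmap_gminv (w : P2) (h : w.2 ≠ 0 ∨ w.1 < 0) : 0 < (gminv w).2 ∧ gmap (gminv w) = w := by
  set r : ℝ := Real.sqrt (nsq w) with hr
  have hn : 0 ≤ nsq w := by unfold nsq; positivity
  have hr2 : r ^ 2 = w.1 ^ 2 + w.2 ^ 2 := Real.sq_sqrt hn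
  have hr0 : 0 ≤ r := Real.sqrt_nonneg _
  have hlt : w.1 < r := by
    rcases h with h | h
    · have h1 : w.1 ^ 2 < r ^ 2 := by
        have : 0 < w.2 ^ 2 := by positivity
        linarith
      exact lt_of_pow_lt_pow_left₀ 2 hr0 h1
    · exact h.trans_le hr0
  have hpos : 0 < (gminv w).2 := by
    show 0 < (r - w.1) / 2
    linarith
  refine ⟨hpos, ?_⟩
  have h1 : (gminv w).2 = (r - w.1) / 2 := rfl
  have h2 : (gminv w).1 = w.2 / 2 := rfl
  unfold gmap
  rw [h1, h2]
  ext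
  · show ((w.2 / 2) ^ 2 - ((r - w.1) / 2) ^ 2) / ((r - w.1) / 2) = w.1
    have h3 : (r - w.1) / 2 ≠ 0 := by
      have : 0 < (r - w.1) / 2 := by linarith
      exact this.ne'
    rw [div_eq_iff h3]
    nlinarith
  · show 2 * (w.2 / 2) = w.2
    ring

lemma nsq_le (v : P2) (h : v.2 ≠ 0) : nsq v ≤ nsq (gmap v) := by
  rw [nsq_gmap v h]
  have h2 : 0 < v.2 ^ 2 := by positivity
  rw [le_div_iff₀ h2]
  unfold nsq
  nlinarith [sq_nonneg v.1, sq_nonneg (v.1 ^ 2), mul_nonneg (sq_nonneg v.1) h2.le]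

theorem prf : StG where
  nsq_gmap := nsq_gmap
  gmap_smul := by
    intro r v h hr
    unfold gmap
    ext
    · simp only [Prod.smul_fst, Prod.smul_snd, smul_eq_mul]
      field_simp
    · simp only [Prod.smul_fst, Prod.smul_snd, smul_eq_mul]
      ring
  gmap_ne := gmap_ne
  slit := by
    intro v h
    by_cases h1 : v.1 = 0
    · right
      show (v.1 ^ 2 - v.2 ^ 2) / v.2 < 0
      rw [h1]
      apply div_neg_of_neg_of_pos _ h
      nlinarith
    · left
      show 2 * v.1 ≠ 0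
      exact mul_ne_zero two_ne_zero h1
  gminv_gmap := gminv_gmap
  gmap_gminv := gmap_gminv
  nsq_le := nsq_le
  gminv_cont := by
    unfold gminv nsq
    fun_prop

end Pool.Agent.Work.MP_0d206b_gt.MG

end
end

/-! ### from I_Orb.lean -/

section

/-!
# MP_0d206b_gt, module M: orbits in compact sets modulo the lattice
-/

set_option autoImplicit false

open Set Filter Topology
open scoped ContDiff

noncomputable section

namespace Pool.Agent.Work.MP_0d206b_gt.MOrb

open Pool.Agent.Work.MP_0d206b_gt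

lemma Lam_add (D : DA) {z m : P2} (hz : z ∈ D.Lam) (hm : m ∈ Gam) : z + m ∈ D.Lam := by
  intro m' hm' v h
  refine hz (m' - m) (Gam.sub_mem hm' hm) v ?_
  rw [sub_add_eq_add_sub, ← h, add_sub_cancel_right]

theorem prf : StOrb := by
  intro D hG hPsi hPow
  obtain ⟨C, hC, hcov⟩ := hG.cover
  refine ⟨?_, ?_⟩
  · intro z hz
    obtain ⟨r, hr, haway⟩ := D.away z hz
    have hcl : IsClosed {w : P2 | ∀ m ∈ Gam, r ≤ dist w m} := by
      have h1 : {w : P2 | ∀ m ∈ Gam, r ≤ dist w m} = ⋂ m ∈ (Gam : Set P2), {w | r ≤ dist w m} := by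
        ext w
        simp
      rw [h1]
      exact isClosed_biInter fun m _ => isClosed_le continuous_const (continuous_id.dist continuous_const)
    refine ⟨Metric.closedBall 0 C ∩ {w : P2 | ∀ m ∈ Gam, r ≤ dist w m},
      (isCompact_closedBall 0 C).inter_right hcl, ?_, ?_⟩
    · rintro w ⟨-, hw⟩ hwG
      have h1 := hw w hwG
      rw [dist_self] at h1
      exact absurd h1 (not_le.mpr hr)
    · intro n
      rw [hPow.nat]
      obtain ⟨m, hm, hmC⟩ := hcov (D.F^[n] z)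
      refine ⟨⟨m, hm⟩, ?_, ?_⟩
      · rw [mem_closedBall_zero_iff]
        exact hmC
      · intro m' hm'
        have h1 := haway n (m' - m) (Gam.sub_mem hm' hm)
        have h2 : dist (D.F^[n] z + m) m' = dist (D.F^[n] z) (m' - m) := by
          rw [dist_eq_norm, dist_eq_norm]
          congr 1
          abel
        show r ≤ dist (D.F^[n] z + m) m'
        rw [h2]
        exact h1
  · refine ⟨Metric.closedBall 0 C ∩ D.Lam, (isCompact_closedBall 0 C).inter_right hPsi.Lam_closed,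
      ?_, ?_⟩
    · rintro w ⟨-, hw⟩
      exact hPsi.Lam_gam w hw
    · intro z hz j
      obtain ⟨m, hm, hmC⟩ := hcov ((D.Fe ^ j) z)
      refine ⟨⟨m, hm⟩, ?_, ?_⟩
      · rw [mem_closedBall_zero_iff]
        exact hmC
      · exact Lam_add D ((hPow.Lam j z).mpr hz) hm

end Pool.Agent.Work.MP_0d206b_gt.MOrb

end
end

/-! ### from I_PdAg.lean -/

section

/-!
# MP_0d206b_gt, module M, item PdAg: proper discontinuity of the action of flow a between an attractor piece and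
a saddle piece
-/

set_option autoImplicit false

open Set Filter Topology
open scoped ContDiff

noncomputable section

namespace Pool.Agent.Work.MP_0d206b_gt.MPdAg

open Pool.Agent.Work.MP_0d206b_gt

theorem sg_sq (s : Bool) : sg s * sg s = 1 := by cases s <;> simp [sg]

theorem sg_ne (s : Bool) : sg s ≠ 0 := by cases s <;> simp [sg]

theorem sg_abs (s : Bool) : |sg s| = 1 := by cases s <;> simp [sg]

theorem sg_mem (s : Bool) {m : P2} (hm : m ∈ Gam) : sg s • m ∈ Gam := by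
  cases s
  · simpa [sg] using hm
  · simpa [sg] using hm

theorem finite_range {α : Type} (a : ℕ → α) (T : Set α) (hT : T.Finite) (h : ∀ᶠ n in atTop, a n ∈ T) :
    (range a).Finite := by
  obtain ⟨N, hN⟩ := eventually_atTop.1 h
  refine (((Finset.range N).finite_toSet.image a).union hT).subset ?_
  rintro _ ⟨n, rfl⟩
  by_cases hn : n < N
  · left; exact ⟨n, by simpa using hn, rfl⟩
  · right; exact hN n (not_lt.1 hn)

theorem llog_mono (F : LogFacts) {r r' : ℝ} (h : 0 < r) (h' : r ≤ r') : llog r ≤ llog r' :=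
  div_le_div_of_nonneg_right (Real.log_le_log h h') F.log_pos.le

/-- a bound for `w` from a bound for the logarithm -/
theorem norm_bdd (F : LogFacts) (b : ℝ) :
    ∃ R > 0, ∀ w : P2, w ≠ 0 → llog (nsq w) ≤ b → ‖w‖ ≤ R := by
  obtain ⟨R, hR, h⟩ := F.llog_lt b
  refine ⟨R + 1, by linarith, fun w hw hb => ?_⟩
  have h1 := h (nsq w) (F.nsq_pos w hw) hb
  have h2 := F.le_nsq w
  by_contra hc
  push Not at hc
  nlinarith [norm_nonneg w]

theorem psi_norm (D : DA) (v : P2) : ‖D.Psi v‖ ≤ ‖v‖ + 1 := by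
  rw [Prod.norm_def (D.Psi v)]
  refine max_le ?_ ?_
  · rw [D.Psi_fst]
    have := norm_fst_le v
    linarith
  · have h1 := D.Psi_bdd v
    have h2 := norm_nonneg v
    rw [Real.norm_eq_abs]
    linarith

/-- the powers of `F` with exponent in a bounded interval are bounded along a convergent sequence -/
theorem pow_bdd (D : DA) (F : PowFacts D) (z : P2) (x : ℕ → P2) (hx : Tendsto x atTop (𝓝 z)) (J : ℤ) :
    ∃ M : ℝ, ∀ j ∈ Finset.Icc (-J) J, ∀ n, ‖(D.Fe ^ j) (x n)‖ ≤ M := by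
  have hK : IsCompact (insert z (range x)) := hx.isCompact_insert_range
  have h1 : ∀ j : ℤ, ∃ M : ℝ, ∀ n, ‖(D.Fe ^ j) (x n)‖ ≤ M := by
    intro j
    obtain ⟨M, hM⟩ := hK.exists_bound_of_continuousOn (F.smooth j).continuous.continuousOn
    exact ⟨M, fun n => hM _ (Or.inr ⟨n, rfl⟩)⟩
  choose M hM using h1
  refine ⟨∑ j ∈ Finset.Icc (-J) J, |M j|, fun j hj n => (hM j n).trans ((le_abs_self _).trans ?_)⟩
  exact Finset.single_le_sum (f := fun j => |M j|) (fun i _ => abs_nonneg (M i)) hj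

theorem prf : StPdAg := by
  intro D F s m e e' x y a he he' hx hy hg
  have he1 : e.1 ∉ Gam := he
  have hg' : ∀ n, ∃ w : P2, 0 < w.1 ∧
      (D.Fe ^ (a n).j) (x n).1 + sg s • ((a n).n : P2) = sg s • (m : P2) + D.Psi w ∧
    (y n).1 = (sg s / w.1, sg s * w.2) ∧ (y n).2 = ((x n).2 - ((a n).j : ℝ)) + llog (nsq w) := hg
  choose w hw1 hwx hwy hwt using hg'
  have hwne : ∀ n, w n ≠ 0 := fun n h => by
    have := hw1 n
    rw [h] at this
    exact lt_irrefl _ this
  have hx1 : Tendsto (fun n => (x n).1) atTop (𝓝 e.1) := (continuous_fst.tendsto _).comp hx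
  have hx2 : Tendsto (fun n => (x n).2) atTop (𝓝 e.2) := (continuous_snd.tendsto _).comp hx
  have hy1 : Tendsto (fun n => (y n).1) atTop (𝓝 e'.1) := (continuous_fst.tendsto _).comp hy
  have hy2 : Tendsto (fun n => (y n).2) atTop (𝓝 e'.2) := (continuous_snd.tendsto _).comp hy
  have hy11 : Tendsto (fun n => (y n).1.1) atTop (𝓝 e'.1.1) := (continuous_fst.tendsto _).comp hy1
  have hlam : lam ≠ 0 := lam_pos.ne'
  -- the point `x n` in the strip coordinates
  have hz : ∀ n, (x n).1 = Lz (-(a n).j) (sg s • (m : P2) - sg s • ((a n).n : P2)) +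
      D.Psi (lam ^ (-(a n).j) • w n) := by
    intro n
    have h1 : (D.Fe ^ (a n).j) (x n).1 =
        (sg s • (m : P2) - sg s • ((a n).n : P2)) + D.Psi (w n) := by
      have := hwx n
      rw [sub_add_eq_add_sub, ← this, add_sub_cancel_right]
    have h2 : (D.Fe ^ (-(a n).j)) ((D.Fe ^ (a n).j) (x n).1) = (x n).1 := by
      rw [← Equiv.Perm.mul_apply, ← zpow_add]
      simp
    rw [← h2, h1]
    exact F.pow.psi _ _ (sub_mem (sg_mem s m.2) (sg_mem s (a n).n.2)) _
  have hmem : ∀ n, Lz (-(a n).j) (sg s • (m : P2) - sg s • ((a n).n : P2)) ∈ Gam := fun n =>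
    Lz_mem _ (sub_mem (sg_mem s m.2) (sg_mem s (a n).n.2))
  -- upper bound
  obtain ⟨c, hc, hfar⟩ := F.proper.far e.1 he1
  have hfar' : ∀ᶠ n in atTop, c ≤ nsq (lam ^ (-(a n).j) • w n) :=
    (hx1.eventually hfar).mono fun n hn => hn _ (hmem n) _ (hz n)
  have hll : ∀ n, llog (nsq (lam ^ (-(a n).j) • w n)) = -2 * ((a n).j : ℝ) + llog (nsq (w n)) := by
    intro n
    rw [F.log.llog_nsq _ _ (hwne n)]
    push_cast
    ring
  have hd : Tendsto (fun n => (y n).2 - (x n).2) atTop (𝓝 (e'.2 - e.2)) := hy2.sub hx2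
  obtain ⟨b1, hb1⟩ := hd.bddAbove_range
  obtain ⟨b2, hb2⟩ := hd.bddBelow_range
  have hub : ∀ᶠ n in atTop, ((a n).j : ℝ) ≤ b1 - llog c := by
    refine hfar'.mono fun n hn => ?_
    have h1 := llog_mono F.log hc hn
    rw [hll n] at h1
    have h2 := hwt n
    have h3 := hb1 ⟨n, rfl⟩
    simp only at h3
    linarith
  -- lower bound
  obtain ⟨B, hB⟩ := hy11.abs.bddAbove_range
  have hB' : ∀ n, 1 ≤ (B + 1) * (w n).1 := by
    intro n
    have h1 := hB ⟨n, rfl⟩
    simp only at h1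
    rw [hwy n] at h1
    simp only at h1
    rw [abs_div, sg_abs, abs_of_pos (hw1 n), div_le_iff₀ (hw1 n)] at h1
    nlinarith [hw1 n]
  have hBpos : 0 < B + 1 := by
    have h1 := hB' 0
    by_contra hcon
    push Not at hcon
    nlinarith [hw1 0]
  have hnsq : ∀ n, ((B + 1) ^ 2)⁻¹ ≤ nsq (w n) := by
    intro n
    have h1 : (B + 1)⁻¹ ≤ (w n).1 := by
      rw [inv_le_iff_one_le_mul₀ hBpos]
      have := hB' n
      linarith
    have h2 : (0 : ℝ) < (B + 1)⁻¹ := inv_pos.2 hBpos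
    rw [← inv_pow]
    unfold nsq
    nlinarith [sq_nonneg (w n).2]
  have hlb : ∀ n, -b1 + llog (((B + 1) ^ 2)⁻¹) ≤ ((a n).j : ℝ) := by
    intro n
    have h1 := llog_mono F.log (by positivity) (hnsq n)
    have h2 := hwt n
    have h3 := hb1 ⟨n, rfl⟩
    simp only at h3
    linarith
  -- the exponent is bounded
  obtain ⟨J, hJ⟩ : ∃ J : ℤ, ∀ᶠ n in atTop, (a n).j ∈ Finset.Icc (-J) J := by
    refine ⟨max ⌈b1 - llog c⌉ ⌈-(-b1 + llog (((B + 1) ^ 2)⁻¹))⌉, hub.mono fun n hn => ?_⟩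
    rw [Finset.mem_Icc]
    constructor
    · have h1 := hlb n
      have h2 : (-(a n).j : ℤ) ≤ ⌈-(-b1 + llog (((B + 1) ^ 2)⁻¹))⌉ := by
        have h3 : ((-(a n).j : ℤ) : ℝ) ≤ -(-b1 + llog (((B + 1) ^ 2)⁻¹)) := by
          push_cast; linarith
        exact_mod_cast h3.trans (Int.le_ceil _)
      have h3 := h2.trans (le_max_right ⌈b1 - llog c⌉ _)
      linarith
    · refine le_trans ?_ (le_max_left _ _)
      exact_mod_cast hn.trans (Int.le_ceil _)
  -- `w n` is bounded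
  obtain ⟨R, hR, hRb⟩ := norm_bdd F.log (b1 + J)
  have hwR : ∀ᶠ n in atTop, ‖w n‖ ≤ R := by
    refine hJ.mono fun n hn => hRb _ (hwne n) ?_
    have h2 := hwt n
    have h3 := hb1 ⟨n, rfl⟩
    simp only at h3
    have h4 : ((a n).j : ℝ) ≤ J := by exact_mod_cast (Finset.mem_Icc.1 hn).2
    linarith
  obtain ⟨M, hM⟩ := pow_bdd D F.pow e.1 (fun n => (x n).1) hx1 J
  -- the translation part is bounded
  have hn : ∀ᶠ n in atTop, ‖((a n).n : P2)‖ ≤ ‖sg s • (m : P2)‖ + (R + 1) + M := by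
    filter_upwards [hJ, hwR] with n hn1 hn2
    have h1 : sg s • ((a n).n : P2) = sg s • (m : P2) + D.Psi (w n) - (D.Fe ^ (a n).j) (x n).1 := by
      rw [← hwx n, add_sub_cancel_left]
    have h2 : ‖sg s • ((a n).n : P2)‖ = ‖((a n).n : P2)‖ := by
      rw [norm_smul, Real.norm_eq_abs, sg_abs, one_mul]
    rw [← h2, h1]
    refine (norm_sub_le _ _).trans (add_le_add ((norm_add_le _ _).trans (add_le_add le_rfl ?_)) ?_)
    · exact (psi_norm D _).trans (by linarith)
    · exact hM _ hn1 n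
  -- conclusion
  have hfin := F.gam.fin (‖sg s • (m : P2)‖ + (R + 1) + M)
  have hfin' : {g : Gam | ‖(g : P2)‖ ≤ ‖sg s • (m : P2)‖ + (R + 1) + M}.Finite := by
    refine Set.Finite.of_finite_image (f := fun g : Gam => (g : P2)) (hfin.subset ?_)
      Subtype.val_injective.injOn
    rintro _ ⟨g, hg, rfl⟩
    exact ⟨g.2, hg⟩
  refine finite_range a ((fun p : Gam × ℤ => (⟨p.1, p.2⟩ : Grp)) ''
    ({g : Gam | ‖(g : P2)‖ ≤ ‖sg s • (m : P2)‖ + (R + 1) + M} ×ˢ (Finset.Icc (-J) J : Set ℤ)))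
    ((hfin'.prod (Finset.finite_toSet _)).image _) ?_
  filter_upwards [hJ, hn] with n hn1 hn2
  exact ⟨((a n).n, (a n).j), ⟨hn2, by simpa using hn1⟩, rfl⟩

end Pool.Agent.Work.MP_0d206b_gt.MPdAg

end
end

/-! ### from I_PdRA0.lean -/

section

/-!
# MP_0d206b_gt, module M: proper discontinuity of the action of flow 0 between the pieces `R` and `A`
-/

set_option autoImplicit false

open Set Filter Topology
open scoped ContDiff

noncomputable section

namespace Pool.Agent.Work.MP_0d206b_gt.MPdRA0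

/-- a sequence in the group is in a finite set if it is eventually bounded -/
theorem finite_of_eventually (hG : GamFacts) (a : ℕ → Grp) (R : ℝ) (J : ℤ)
    (h : ∀ᶠ n in atTop, ‖((a n).n : P2)‖ ≤ R ∧ |(a n).j| ≤ J) : (range a).Finite := by
  obtain ⟨N, hN⟩ := eventually_atTop.1 h
  have hfin1 : (a '' {n | n < N}).Finite := (finite_lt_nat N).image a
  have hfin2 : ({m : P2 | m ∈ Gam ∧ ‖m‖ ≤ R}).Finite := hG.fin R
  have hfin3 : (Icc (-J) J : Set ℤ).Finite := finite_Icc _ _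
  have hfin4 : ({b : Grp | ((b.n : P2) ∈ {m : P2 | m ∈ Gam ∧ ‖m‖ ≤ R}) ∧ b.j ∈ Icc (-J) J}).Finite := by
    refine Finite.of_injOn (f := fun b : Grp => ((b.n : P2), b.j)) (t := {m : P2 | m ∈ Gam ∧ ‖m‖ ≤ R} ×ˢ Icc (-J) J)
      (fun b hb => ⟨hb.1, hb.2⟩) ?_ (hfin2.prod hfin3)
    intro b _ b' _ hbb
    simp only [Prod.mk.injEq] at hbb
    exact Grp.ext (Subtype.ext hbb.1) hbb.2
  refine (hfin1.union hfin4).subset ?_
  rintro _ ⟨n, rfl⟩
  rcases lt_or_ge n N with hn | hn
  · exact Or.inl ⟨n, hn, rfl⟩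
  · right
    obtain ⟨h1, h2⟩ := hN n hn
    exact ⟨⟨(a n).n.2, h1⟩, abs_le.1 h2⟩

/-- the size of `Psi` -/
theorem norm_Psi_le (D : DA) (v : P2) : ‖D.Psi v‖ ≤ ‖v‖ + 1 / 8 := by
  rw [Prod.norm_def]
  refine max_le ?_ ?_
  · rw [D.Psi_fst]
    have := norm_fst_le v
    linarith
  · have h1 := D.Psi_bdd v
    rw [← Real.norm_eq_abs] at h1
    have h2 := norm_nonneg v
    linarith

/-- going back along the orbit -/
theorem back (D : DA) (hP : PowFacts D) (j : ℤ) (z : P2) (n m : P2) (hn : n ∈ Gam) (hm : m ∈ Gam)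
    (v : P2) (h : (D.Fe ^ j) z + n = m + D.Psi v) :
    z = (Lz (-j) m - Lz (-j) n) + D.Psi (lam ^ (-j) • v) := by
  have h1 := hP.psi (-j) m hm v
  have h2 := hP.add (-j) ((D.Fe ^ j) z) n hn
  rw [h, h1] at h2
  have h3 : (D.Fe ^ (-j)) ((D.Fe ^ j) z) = z := by
    rw [← Equiv.Perm.mul_apply, ← zpow_add]
    simp
  rw [h3] at h2
  have h4 : z = Lz (-j) m + D.Psi (lam ^ (-j) • v) - Lz (-j) n := by
    rw [h2]
    abel
  rw [h4]
  abel

theorem nsq_swap (v : P2) : nsq (v.2, v.1) = nsq v := by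
  unfold nsq
  ring

theorem prf : StPdRA0 := by
  intro D hF e e' x y a he he' hx hy hglue
  have hlog := hF.log
  have hP := hF.pow
  -- data
  have hdata : ∀ n, ∃ m ∈ Gam, ∃ v : P2, v ≠ 0 ∧
      (D.Fe ^ (a n).j) (x n).1 + ((a n).n : P2) = m + D.Psi v ∧
      (y n).1 = m + D.Psi (v.2, v.1) ∧
      (y n).2 = (x n).2 + (a n).j - llog (nsq v) := fun n => hglue n
  choose m hm v hv h1 h2 h3 using hdata
  -- the renormalised coordinate
  have hlam0 : (0 : ℝ) < lam := lam_pos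
  set w : ℕ → P2 := fun n => lam ^ (-(a n).j) • v n with hw
  have hw0 : ∀ n, w n ≠ 0 := by
    intro n
    exact smul_ne_zero (zpow_ne_zero _ hlam0.ne') (hv n)
  have hvw : ∀ n, v n = lam ^ ((a n).j) • w n := by
    intro n
    simp only [hw]
    rw [smul_smul, ← zpow_add₀ hlam0.ne']
    simp
  have hx1 : ∀ n, (x n).1 = (Lz (-(a n).j) (m n) - Lz (-(a n).j) ((a n).n : P2)) + D.Psi (w n) :=
    fun n => back D hP (a n).j (x n).1 ((a n).n : P2) (m n) (a n).n.2 (hm n) (v n) (h1 n)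
  have hmt : ∀ n, (Lz (-(a n).j) (m n) - Lz (-(a n).j) ((a n).n : P2)) ∈ Gam :=
    fun n => Gam.sub_mem (Lz_mem _ (hm n)) (Lz_mem _ (a n).n.2)
  have hllog : ∀ n, llog (nsq (v n)) = 2 * ((a n).j : ℝ) + llog (nsq (w n)) := by
    intro n
    have := hlog.llog_nsq (a n).j (w n) (hw0 n)
    rw [← hvw n] at this
    exact this
  -- limits
  have hx1t : Tendsto (fun n => (x n).1) atTop (𝓝 e.1) := (continuous_fst.tendsto e).comp hx
  have hy1t : Tendsto (fun n => (y n).1) atTop (𝓝 e'.1) := (continuous_fst.tendsto e').comp hy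
  have hx2t : Tendsto (fun n => (x n).2) atTop (𝓝 e.2) := (continuous_snd.tendsto e).comp hx
  have hy2t : Tendsto (fun n => (y n).2) atTop (𝓝 e'.2) := (continuous_snd.tendsto e').comp hy
  obtain ⟨c, hc, hcx⟩ := hF.proper.far e.1 he
  obtain ⟨c', hc', hcy⟩ := hF.proper.far e'.1 he'
  have hx_ev : ∀ᶠ n in atTop, c ≤ nsq (w n) := by
    filter_upwards [hx1t.eventually hcx] with n hn
    exact hn _ (hmt n) (w n) (hx1 n)
  have hy_ev : ∀ᶠ n in atTop, c' ≤ nsq (v n) := by
    filter_upwards [hy1t.eventually hcy] with n hn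
    have := hn (m n) (hm n) _ (h2 n)
    rwa [nsq_swap] at this
  have hll : 0 < Real.log lam := hlog.log_pos
  have hmono : ∀ r s : ℝ, 0 < r → r ≤ s → llog r ≤ llog s := by
    intro r s hr hrs
    unfold llog
    exact div_le_div_of_nonneg_right (Real.log_le_log hr hrs) hll.le
  -- second coordinates
  have hd_ev : ∀ᶠ n in atTop, |((x n).2 - (y n).2) - (e.2 - e'.2)| < 1 := by
    have ht : Tendsto (fun n => ((x n).2 - (y n).2) - (e.2 - e'.2)) atTop (𝓝 0) := by
      have := (hx2t.sub hy2t).sub_const (e.2 - e'.2)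
      simpa using this
    have := ht.abs
    rw [abs_zero] at this
    exact this.eventually (gt_mem_nhds one_pos)
  obtain ⟨B, hB⟩ : ∃ B : ℝ, ∀ᶠ n in atTop, |(x n).2 - (y n).2| ≤ B := by
    refine ⟨|e.2 - e'.2| + 1, ?_⟩
    filter_upwards [hd_ev] with n hn
    have h := abs_sub_abs_le_abs_sub ((x n).2 - (y n).2) (e.2 - e'.2)
    linarith
  have hj_ev : ∀ᶠ n in atTop, |((a n).j : ℝ)| ≤ B + (2 * B + |llog c'|) + |llog c| := by
    filter_upwards [hx_ev, hy_ev, hB] with n hn1 hn2 hn3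
    have e1 := hmono c (nsq (w n)) hc hn1
    have e2 := hmono c' (nsq (v n)) hc' hn2
    have e3 := hllog n
    have e4 := h3 n
    have e5 := abs_le.1 hn3
    have e6 := neg_abs_le (llog c)
    have e7 := neg_abs_le (llog c')
    have e8 := abs_nonneg (llog c)
    have e9 := abs_nonneg (llog c')
    rw [abs_le]
    constructor <;> linarith [e5.1, e5.2]
  have hlv_ev : ∀ᶠ n in atTop, llog (nsq (v n)) ≤ 2 * B + |llog c| := by
    filter_upwards [hx_ev, hB] with n hn1 hn3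
    have e1 := hmono c (nsq (w n)) hc hn1
    have e3 := hllog n
    have e4 := h3 n
    have e5 := abs_le.1 hn3
    have e6 := neg_abs_le (llog c)
    linarith [e5.1, e5.2]
  -- v is bounded
  obtain ⟨R, hR, hR'⟩ := hlog.llog_lt (2 * B + |llog c|)
  have hv_ev : ∀ᶠ n in atTop, ‖v n‖ ≤ R + 1 := by
    filter_upwards [hlv_ev] with n hn
    have e1 := hR' (nsq (v n)) (hlog.nsq_pos _ (hv n)) hn
    have e2 := hlog.le_nsq (v n)
    nlinarith [norm_nonneg (v n)]
  have hswap : ∀ u : P2, ‖((u.2, u.1) : P2)‖ = ‖u‖ := by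
    intro u
    rw [Prod.norm_def, Prod.norm_def, max_comm]
  -- m is bounded
  have hy1_ev : ∀ᶠ n in atTop, ‖(y n).1‖ ≤ ‖e'.1‖ + 1 := by
    filter_upwards [hy1t.norm.eventually (gt_mem_nhds (lt_add_one ‖e'.1‖))] with n hn
    exact hn.le
  have hm_ev : ∀ᶠ n in atTop, ‖m n‖ ≤ (‖e'.1‖ + 1) + ((R + 1) + 1 / 8) := by
    filter_upwards [hy1_ev, hv_ev] with n hn1 hn2
    have e1 : m n = (y n).1 - D.Psi ((v n).2, (v n).1) := by
      rw [h2 n]
      abel
    have e2 := norm_Psi_le D ((v n).2, (v n).1)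
    rw [hswap] at e2
    have e3 := norm_sub_le (y n).1 (D.Psi ((v n).2, (v n).1))
    rw [e1]
    linarith
  -- j is in a finite set
  obtain ⟨J, hJ⟩ : ∃ J : ℕ, B + (2 * B + |llog c'|) + |llog c| ≤ J := exists_nat_ge _
  have hj_ev' : ∀ᶠ n in atTop, |(a n).j| ≤ (J : ℤ) := by
    filter_upwards [hj_ev] with n hn
    have : (|((a n).j : ℝ)|) ≤ (J : ℝ) := hn.trans hJ
    exact_mod_cast this
  -- the images of the first coordinates are bounded
  have hbd : ∀ j : ℤ, ∀ᶠ n in atTop, ‖(D.Fe ^ j) (x n).1‖ ≤ ‖(D.Fe ^ j) e.1‖ + 1 := by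
    intro j
    have hc : Continuous fun z => (D.Fe ^ j) z := (hP.smooth j).continuous
    have ht : Tendsto (fun n => (D.Fe ^ j) (x n).1) atTop (𝓝 ((D.Fe ^ j) e.1)) :=
      (hc.tendsto e.1).comp hx1t
    filter_upwards [ht.norm.eventually (gt_mem_nhds (lt_add_one ‖(D.Fe ^ j) e.1‖))] with n hn
    exact hn.le
  have hbd' : ∀ᶠ n in atTop, ∀ j ∈ (Icc (-(J : ℤ)) J : Set ℤ),
      ‖(D.Fe ^ j) (x n).1‖ ≤ ‖(D.Fe ^ j) e.1‖ + 1 :=
    (eventually_all_finite (finite_Icc _ _)).2 fun j _ => hbd j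
  obtain ⟨M, hM⟩ : ∃ M : ℝ, ∀ j ∈ (Icc (-(J : ℤ)) J : Set ℤ), ‖(D.Fe ^ j) e.1‖ ≤ M := by
    have hfin : ((fun j : ℤ => ‖(D.Fe ^ j) e.1‖) '' (Icc (-(J : ℤ)) J : Set ℤ)).Finite :=
      (finite_Icc _ _).image _
    obtain ⟨M, hM⟩ := hfin.bddAbove
    exact ⟨M, fun j hj => hM (mem_image_of_mem _ hj)⟩
  refine finite_of_eventually hF.gam a
    (((‖e'.1‖ + 1) + ((R + 1) + 1 / 8)) + ((R + 1) + 1 / 8) + (M + 1)) J ?_
  filter_upwards [hm_ev, hv_ev, hj_ev', hbd'] with n hn1 hn2 hn3 hn4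
  refine ⟨?_, hn3⟩
  have hj : (a n).j ∈ (Icc (-(J : ℤ)) J : Set ℤ) := abs_le.1 hn3
  have e1 := hn4 _ hj
  have e2 := hM _ hj
  have e3 : ((a n).n : P2) = m n + D.Psi (v n) - (D.Fe ^ (a n).j) (x n).1 := by
    rw [← h1 n]
    abel
  have e4 := norm_Psi_le D (v n)
  have e5 := norm_sub_le (m n + D.Psi (v n)) ((D.Fe ^ (a n).j) (x n).1)
  have e6 := norm_add_le (m n) (D.Psi (v n))
  rw [e3]
  linarith

end Pool.Agent.Work.MP_0d206b_gt.MPdRA0

end
end

/-! ### from I_PdSelfA.lean -/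

section

set_option autoImplicit false

open Set Filter Topology
open scoped ContDiff

noncomputable section

namespace Pool.Agent.Work.MP_0d206b_gt.MPdSelfA

open MP0d206b.Et (shift)

theorem key (hG : GamFacts) (t : ℕ → ℝ) (l : ℝ) (ht : Tendsto t atTop (𝓝 l)) (a : ℕ → Grp)
    (hj : ∀ n, |((a n).j : ℝ)| = |t n|)
    (hn : ∀ j : ℤ, ∃ R : ℝ, ∀ n, (a n).j = j → ‖((a n).n : P2)‖ ≤ R) : (range a).Finite := by
  obtain ⟨B, hB⟩ := (Metric.isBounded_range_of_tendsto t ht).exists_norm_le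
  choose R hR using hn
  have hsub : range a ⊆ ⋃ j ∈ Icc (-⌈B⌉) ⌈B⌉, {g : Grp | g.j = j ∧ ‖(g.n : P2)‖ ≤ R j} := by
    rintro _ ⟨n, rfl⟩
    refine mem_iUnion₂.2 ⟨(a n).j, ?_, rfl, hR _ n rfl⟩
    have h1 : |((a n).j : ℝ)| ≤ ⌈B⌉ := by
      rw [hj n]
      exact (hB _ ⟨n, rfl⟩).trans (Int.le_ceil B)
    have h2 := abs_le.1 h1
    constructor
    · exact_mod_cast h2.1
    · exact_mod_cast h2.2
  refine Finite.subset ((finite_Icc _ _).biUnion fun j _ => ?_) hsub
  have hfin := hG.fin (R j)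
  refine Finite.of_finite_image (f := fun g : Grp => (g.n : P2)) (hfin.subset ?_) ?_
  · rintro _ ⟨g, hg, rfl⟩
    exact ⟨g.n.2, hg.2⟩
  · intro g hg g' hg' h
    apply Grp.ext
    · exact Subtype.ext h
    · exact hg.1.trans hg'.1.symm

theorem prf : StPdSelfA := by
  intro D hD
  refine ⟨?_, ?_, ?_⟩
  · intro e e' x y a _ _ hx hy hgl
    have hgl' : ∀ n, ((D.Fe ^ (a n).j) (x n).1 + ((a n).n : P2), (x n).2 + (a n).j) = y n := hgl
    have ht : Tendsto (fun n => (y n).2 - (x n).2) atTop (𝓝 (e'.2 - e.2)) :=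
      ((continuous_snd.tendsto _).comp hy).sub ((continuous_snd.tendsto _).comp hx)
    refine key hD.gam _ _ ht a ?_ ?_
    · intro n
      have h := congrArg Prod.snd (hgl' n)
      simp only at h
      rw [← h]
      congr 1
      ring
    · intro j
      have hc : Tendsto (fun n => (y n).1 - (D.Fe ^ j) (x n).1) atTop
          (𝓝 (e'.1 - (D.Fe ^ j) e.1)) :=
        ((continuous_fst.tendsto _).comp hy).sub
          (((hD.pow.smooth j).continuous.tendsto _).comp ((continuous_fst.tendsto _).comp hx))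
      obtain ⟨R, hR⟩ := (Metric.isBounded_range_of_tendsto _ hc).exists_norm_le
      refine ⟨R, fun n hn => ?_⟩
      have h := congrArg Prod.fst (hgl' n)
      simp only at h
      rw [hn] at h
      have h2 : ((a n).n : P2) = (y n).1 - (D.Fe ^ j) (x n).1 := by rw [← h]; abel
      rw [h2]
      exact hR _ ⟨n, rfl⟩
  · intro s s' e e' x y a _ _ hx hy hgl
    have hgl' : ∀ n, ((D.Fe ^ (a n).j) (x n).1 + sg s • ((a n).n : P2), (x n).2 - (a n).j) = y n :=
      fun n => (hgl n).2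
    have ht : Tendsto (fun n => (y n).2 - (x n).2) atTop (𝓝 (e'.2 - e.2)) :=
      ((continuous_snd.tendsto _).comp hy).sub ((continuous_snd.tendsto _).comp hx)
    refine key hD.gam _ _ ht a ?_ ?_
    · intro n
      have h := congrArg Prod.snd (hgl' n)
      simp only at h
      rw [← h, ← abs_neg]
      congr 1
      ring
    · intro j
      have hc : Tendsto (fun n => (y n).1 - (D.Fe ^ j) (x n).1) atTop
          (𝓝 (e'.1 - (D.Fe ^ j) e.1)) :=
        ((continuous_fst.tendsto _).comp hy).sub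
          (((hD.pow.smooth j).continuous.tendsto _).comp ((continuous_fst.tendsto _).comp hx))
      obtain ⟨R, hR⟩ := (Metric.isBounded_range_of_tendsto _ hc).exists_norm_le
      refine ⟨R, fun n hn => ?_⟩
      have h := congrArg Prod.fst (hgl' n)
      simp only at h
      rw [hn] at h
      have h2 : sg s • ((a n).n : P2) = (y n).1 - (D.Fe ^ j) (x n).1 := by rw [← h]; abel
      have h3 : ‖sg s • ((a n).n : P2)‖ = ‖((a n).n : P2)‖ := by
        rw [norm_smul]
        have : ‖sg s‖ = 1 := by cases s <;> simp [sg]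
        rw [this, one_mul]
      rw [← h3, h2]
      exact hR _ ⟨n, rfl⟩
  · intro m m' e e' x y a _ _ hx hy hgl
    have hgl1 : ∀ n, Grp.LG (a n).j m + (a n).n = m' := fun n => (hgl n).1
    have hgl' : ∀ n, ((lam ^ (-(a n).j) * (x n).1.1, lam ^ (a n).j * (x n).1.2),
        (x n).2 + (a n).j) = y n := fun n => (hgl n).2
    have ht : Tendsto (fun n => (y n).2 - (x n).2) atTop (𝓝 (e'.2 - e.2)) :=
      ((continuous_snd.tendsto _).comp hy).sub ((continuous_snd.tendsto _).comp hx)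
    refine key hD.gam _ _ ht a ?_ ?_
    · intro n
      have h := congrArg Prod.snd (hgl' n)
      simp only at h
      rw [← h]
      congr 1
      ring
    · intro j
      refine ⟨‖((m' - Grp.LG j m : Gam) : P2)‖, fun n hn => ?_⟩
      have h := hgl1 n
      rw [hn] at h
      have h2 : (a n).n = m' - Grp.LG j m := by rw [← h]; abel
      rw [h2]

end Pool.Agent.Work.MP_0d206b_gt.MPdSelfA

end
end

/-! ### from I_Psi.lean -/

section

/-!
# MP_0d206b_gt, module M: basic properties of the strips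
-/

set_option autoImplicit false

open Set Filter Topology
open scoped ContDiff

noncomputable section

namespace Pool.Agent.Work.MP_0d206b_gt.MPsi

variable (D : DA)

theorem diff (v : P2) : DifferentiableAt ℝ D.Psi v :=
  (D.Psi_smooth.differentiable (by simp)) v

theorem fst_fderiv (v u : P2) : (fderiv ℝ D.Psi v u).1 = u.1 := by
  have h := (diff D v).hasFDerivAt
  have h1 : HasFDerivAt (fun z => (D.Psi z).1)
      ((ContinuousLinearMap.fst ℝ ℝ ℝ).comp (fderiv ℝ D.Psi v)) v := h.fst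
  have h2 : HasFDerivAt (fun z : P2 => z.1) (ContinuousLinearMap.fst ℝ ℝ ℝ) v := hasFDerivAt_fst
  have h3 : (fun z => (D.Psi z).1) = fun z : P2 => z.1 := funext D.Psi_fst
  rw [h3] at h1
  have h4 := congrArg (fun L : P2 →L[ℝ] ℝ => L u) (h1.unique h2)
  simpa using h4

theorem fderiv_apply (v u : P2) :
    fderiv ℝ D.Psi v u = (u.1, u.1 * dx D.Psi v + u.2 * dy D.Psi v) := by
  have h : u = u.1 • ((1, 0) : P2) + u.2 • ((0, 1) : P2) := by ext <;> simp
  refine Prod.ext (fst_fderiv D v u) ?_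
  show (fderiv ℝ D.Psi v u).2 = u.1 * dx D.Psi v + u.2 * dy D.Psi v
  conv_lhs => rw [h]
  rw [map_add, map_smul, map_smul]
  simp only [dx, dy, Prod.snd_add, Prod.smul_snd, smul_eq_mul]

theorem hasDerivAt_snd (x t : ℝ) :
    HasDerivAt (fun t => (D.Psi (x, t)).2) (dy D.Psi (x, t)) t := by
  have h := (diff D (x, t)).hasFDerivAt
  have h2 : HasDerivAt (fun t : ℝ => ((x, t) : P2)) (0, 1) t :=
    (hasDerivAt_const t x).prodMk (hasDerivAt_id t)
  have h3 := h.comp_hasDerivAt t h2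
  exact h3.snd

theorem inj : Function.Injective D.Psi := by
  rintro ⟨x, y⟩ ⟨x', y'⟩ h
  have h1 : x = x' := by
    have := congrArg Prod.fst h
    rwa [D.Psi_fst, D.Psi_fst] at this
  subst h1
  have hm : StrictMono (fun t => (D.Psi (x, t)).2) :=
    strictMono_of_deriv_pos fun t => by
      rw [(hasDerivAt_snd D x t).deriv]
      exact D.dyPsi_pos _
  have h2 : y = y' := hm.injective (congrArg Prod.snd h)
  rw [h2]

theorem zero : D.Psi 0 = 0 := by
  obtain ⟨r, hr, h⟩ := D.Psi_near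
  exact h 0 (by simpa using hr)

theorem idx_lin {m : P2} (hm : m ∈ Gam) (v : P2) :
    D.idx (m + D.Psi v) = m ∧ D.lin (m + D.Psi v) = v := by
  have h : ∃ m' ∈ Gam, ∃ v', m + D.Psi v = m' + D.Psi v' := ⟨m, hm, v, rfl⟩
  have e1 : D.idx (m + D.Psi v) = h.choose := dif_pos h
  have e2 : D.lin (m + D.Psi v) = h.choose_spec.2.choose := dif_pos h
  have h3 := h.choose_spec.2.choose_spec
  have h4 := D.strips_disj m hm _ h.choose_spec.1 _ _ h3
  refine ⟨e1.trans h4.symm, ?_⟩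
  rw [e2]
  exact (inj D (add_left_cancel (h3.trans (congrArg (· + D.Psi _) h4.symm)))).symm

theorem exists_equiv (v : P2) : ∃ e : P2 ≃L[ℝ] P2, (e : P2 →L[ℝ] P2) = fderiv ℝ D.Psi v := by
  have hinj : Function.Injective (fderiv ℝ D.Psi v : P2 →ₗ[ℝ] P2) := by
    rw [injective_iff_map_eq_zero]
    intro u hu
    have hu' : fderiv ℝ D.Psi v u = 0 := hu
    rw [fderiv_apply] at hu'
    have h1 : u.1 = 0 := congrArg Prod.fst hu'
    have h2 : u.1 * dx D.Psi v + u.2 * dy D.Psi v = 0 := congrArg Prod.snd hu'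
    rw [h1, zero_mul, zero_add] at h2
    have h3 : u.2 = 0 := (mul_eq_zero.1 h2).resolve_right (D.dyPsi_pos v).ne'
    exact Prod.ext h1 h3
  refine ⟨(LinearEquiv.ofInjectiveEndo _ hinj).toContinuousLinearEquiv, ?_⟩
  ext <;> rfl

theorem near_smooth {m : P2} (hm : m ∈ Gam) (v : P2) :
    (∀ᶠ z in 𝓝 (m + D.Psi v), z = m + D.Psi (D.lin z)) ∧
      ContDiffAt ℝ ∞ D.lin (m + D.Psi v) := by
  obtain ⟨e, he⟩ := exists_equiv D v
  have hc : ContDiffAt ℝ ∞ D.Psi v := D.Psi_smooth.contDiffAt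
  have hd : HasFDerivAt D.Psi (e : P2 →L[ℝ] P2) v := by
    rw [he]
    exact (diff D v).hasFDerivAt
  have hn : (∞ : WithTop ℕ∞) ≠ 0 := by simp
  have hr : ∀ᶠ y in 𝓝 (D.Psi v), D.Psi (hc.localInverse hd hn y) = y :=
    (hc.hasStrictFDerivAt' hd hn).eventually_right_inverse
  have hs : ContDiffAt ℝ ∞ (hc.localInverse hd hn) (D.Psi v) := hc.to_localInverse hd hn
  have ht : Tendsto (fun z : P2 => z - m) (𝓝 (m + D.Psi v)) (𝓝 (D.Psi v)) := by
    have : Tendsto (fun z : P2 => z - m) (𝓝 (m + D.Psi v)) (𝓝 (m + D.Psi v - m)) :=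
      (continuous_id.sub continuous_const).tendsto _
    rwa [add_sub_cancel_left] at this
  have hev := ht.eventually hr
  have hz : ∀ᶠ z in 𝓝 (m + D.Psi v), z = m + D.Psi (hc.localInverse hd hn (z - m)) := by
    filter_upwards [hev] with z hz
    rw [hz, add_sub_cancel]
  have hl : ∀ᶠ z in 𝓝 (m + D.Psi v), D.lin z = hc.localInverse hd hn (z - m) := by
    filter_upwards [hz] with z hz
    conv_lhs => rw [hz]
    exact (idx_lin D hm _).2
  refine ⟨?_, ?_⟩
  · filter_upwards [hz, hl] with z h1 h2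
    rw [h2]
    exact h1
  · have h5 : ContDiffAt ℝ ∞ (fun z : P2 => hc.localInverse hd hn (z - m)) (m + D.Psi v) := by
      refine ContDiffAt.comp (g := hc.localInverse hd hn) (f := fun z : P2 => z - m)
        (m + D.Psi v) ?_ (contDiffAt_id.sub contDiffAt_const)
      show ContDiffAt ℝ ∞ (hc.localInverse hd hn) (m + D.Psi v - m)
      rw [add_sub_cancel_left]
      exact hs
    exact h5.congr_of_eventuallyEq hl

theorem dlin_comp {m : P2} (hm : m ∈ Gam) (v u : P2) :
    fderiv ℝ D.lin (m + D.Psi v) (fderiv ℝ D.Psi v u) = u := by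
  have h1 : HasFDerivAt D.lin (fderiv ℝ D.lin (m + D.Psi v)) (m + D.Psi v) :=
    ((near_smooth D hm v).2.differentiableAt (by simp)).hasFDerivAt
  have h2 : HasFDerivAt (fun w => m + D.Psi w) (fderiv ℝ D.Psi v) v :=
    (diff D v).hasFDerivAt.const_add m
  have h3 := HasFDerivAt.comp v h1 h2
  have h4 : (D.lin ∘ fun w => m + D.Psi w) = id := funext fun w => (idx_lin D hm w).2
  rw [h4] at h3
  have h5 := congrArg (fun L : P2 →L[ℝ] P2 => L u) (h3.unique (hasFDerivAt_id v))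
  simpa using h5

theorem dx_eq {m : P2} (hm : m ∈ Gam) (v : P2) : dx D.Psi v = D.S (m + D.Psi v) := by
  rw [D.dxPsi, add_comm, D.S_add _ m hm]

theorem prf : StPsi := by
  intro D _
  refine
    { inj := inj D
      zero := zero D
      mem_gam := ?_
      idx_eq := fun m hm v => (idx_lin D hm v).1
      lin_eq := fun m hm v => (idx_lin D hm v).2
      notLam := ?_
      inLam := fun m hm v h => h m hm v rfl
      Lam_gam := fun z hz hg => hz z hg 0 (by rw [zero, add_zero])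
      lin_smooth := fun m hm v => (near_smooth D hm v).2
      near := fun m hm v => (near_smooth D hm v).1
      Lam_closed := ?_
      dlin_fst := ?_
      dlin_snd := ?_
      dPsi_fst := ?_
      dPsi_snd := ?_ }
  · intro m hm v
    constructor
    · intro h
      have h1 : m + D.Psi v = (m + D.Psi v) + D.Psi 0 := by rw [zero, add_zero]
      have h2 := D.strips_disj m hm _ h v 0 h1
      have h3 : D.Psi v = D.Psi 0 := by
        rw [zero]
        exact left_eq_add.1 h2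
      exact inj D h3
    · rintro rfl
      rw [zero, add_zero]
      exact hm
  · intro z hz
    by_contra hcon
    push Not at hcon
    exact hz hcon
  · rw [← isOpen_compl_iff, isOpen_iff_mem_nhds]
    intro z hz
    have hex : ∃ m ∈ Gam, ∃ v, z = m + D.Psi v := by
      by_contra hcon
      push Not at hcon
      exact hz hcon
    obtain ⟨m, hm, v, rfl⟩ := hex
    filter_upwards [(near_smooth D hm v).1] with z' hz' h
    exact h m hm _ hz'
  · intro m hm v a
    have h : ((1, D.S (m + D.Psi v) + a * dy D.Psi v) : P2) = fderiv ℝ D.Psi v (1, a) := by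
      rw [fderiv_apply, ← dx_eq D hm, one_mul]
    rw [h]
    exact dlin_comp D hm v _
  · intro m hm v
    have h : ((0, 1) : P2) = fderiv ℝ D.Psi v (0, (dy D.Psi v)⁻¹) := by
      rw [fderiv_apply, zero_mul, zero_add, inv_mul_cancel₀ (D.dyPsi_pos v).ne']
    conv_lhs => rw [h]
    exact dlin_comp D hm v _
  · intro v m hm
    rw [fderiv_apply, dx_eq D hm]
    simp
  · intro v
    rw [fderiv_apply]
    simp

end Pool.Agent.Work.MP_0d206b_gt.MPsi

end
end
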