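import Pool.Agent.Work.MP_0d206b_gt.M.Stmts

/-! MP_0d206b_gt, module M: items, part 4 -/

/-! ### from I_Closed0.lean -/

section

/-!
# MP_0d206b_gt, module M: flow 0, the gluing relation is closed
-/

set_option autoImplicit false

open Set Filter Topology
open scoped ContDiff

namespace Pool.Agent.Work.MP_0d206b_gt.MClosed0

open Pool.Agent.Work.MP_0d206b_gt

theorem closed_RA (D : DA) (hF : Facts D) (e e' : E) (x y : ℕ → E) (he : e.1 ∉ Gam)
    (hx : Tendsto x atTop (𝓝 e)) (hy : Tendsto y atTop (𝓝 e'))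
    (h : ∀ n, glue0RA D (x n) (y n)) : glue0RA D e e' := by
  choose m hm v hv h1 h2 h3 using h
  have hx1 : Tendsto (fun n => (x n).1) atTop (𝓝 e.1) := (continuous_fst.tendsto e).comp hx
  have hx2 : Tendsto (fun n => (x n).2) atTop (𝓝 e.2) := (continuous_snd.tendsto e).comp hx
  have hy1 : Tendsto (fun n => (y n).1) atTop (𝓝 e'.1) := (continuous_fst.tendsto e').comp hy
  have hy2 : Tendsto (fun n => (y n).2) atTop (𝓝 e'.2) := (continuous_snd.tendsto e').comp hy
  have hl : ∀ n, llog (nsq (v n)) = (x n).2 - (y n).2 := fun n => by rw [h3 n]; ring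
  obtain ⟨b, hb⟩ := (hx2.sub hy2).bddAbove_range
  have hb' : ∀ n, llog (nsq (v n)) ≤ b := fun n => by
    rw [hl n]; exact hb ⟨n, rfl⟩
  obtain ⟨R, hR, hR'⟩ := hF.log.llog_lt b
  have hnorm : ∀ n, ‖v n‖ ≤ Real.sqrt R := fun n => by
    apply Real.le_sqrt_of_sq_le
    exact (hF.log.le_nsq (v n)).trans (hR' _ (hF.log.nsq_pos _ (hv n)) (hb' n))
  obtain ⟨m0, hm0, v0, he0, hev, hv0⟩ := hF.proper.proper e.1 (fun n => (x n).1) m v (Real.sqrt R)
    hx1 (fun n => ⟨hm n, h1 n⟩) hnorm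
  have hv0ne : v0 ≠ 0 := by
    intro h0
    apply he
    rw [he0]
    exact (hF.psi.mem_gam m0 hm0 v0).2 h0
  refine ⟨m0, hm0, v0, hv0ne, he0, ?_, ?_⟩
  · have hc : Continuous (fun w : P2 => m0 + D.Psi (w.2, w.1)) :=
      continuous_const.add (D.Psi_smooth.continuous.comp (continuous_snd.prodMk continuous_fst))
    have ht : Tendsto (fun n => m0 + D.Psi ((v n).2, (v n).1)) atTop
        (𝓝 (m0 + D.Psi (v0.2, v0.1))) := (hc.tendsto v0).comp hv0
    refine tendsto_nhds_unique hy1 (ht.congr' ?_)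
    filter_upwards [hev] with n hn
    rw [h2 n, hn]
  · have hpos : 0 < nsq v0 := hF.log.nsq_pos _ hv0ne
    have hc : ContinuousAt (fun w : P2 => llog (nsq w)) v0 := by
      have hn : ContinuousAt (fun w : P2 => nsq w) v0 :=
        ((continuous_fst.pow 2).add (continuous_snd.pow 2)).continuousAt
      have h4 : ContinuousAt (fun w : P2 => Real.log (nsq w)) v0 := hn.log hpos.ne'
      exact h4.div_const (Real.log lam)
    have ht : Tendsto (fun n => (x n).2 - llog (nsq (v n))) atTop (𝓝 (e.2 - llog (nsq v0))) :=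
      hx2.sub (hc.tendsto.comp hv0)
    refine tendsto_nhds_unique hy2 (ht.congr fun n => ?_)
    rw [h3 n]

theorem prf : StClosed0 := by
  intro D hF i j e e' x y he he' hx hy h
  cases i <;> cases j
  · have : y = x := funext fun n => (h n).symm
    subst this
    exact tendsto_nhds_unique hx hy
  · exact closed_RA D hF e e' x y he hx hy h
  · exact closed_RA D hF e' e y x he' hy hx h
  · have : y = x := funext fun n => (h n).symm
    subst this
    exact tendsto_nhds_unique hx hy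

end Pool.Agent.Work.MP_0d206b_gt.MClosed0

end

/-! ### from I_Comp0.lean -/

section

/-!
# MP_0d206b_gt, item Comp0: flow 0, compactness
-/

set_option autoImplicit false

open Set Filter Topology
open scoped ContDiff

noncomputable section

namespace Pool.Agent.Work.MP_0d206b_gt.MComp0

theorem lam_lt : lam < 3 := by
  rw [lam_mul_phi]
  have := Real.goldenRatio_lt_two
  linarith

/-- the key estimate -/
theorem key (hL : LogFacts) {ρ : ℝ} (hρ : 0 < ρ) (hρ1 : ρ ≤ 1 / 10) {v : P2} (hv : v ≠ 0) (hvρ : ‖v‖ < ρ)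
    (j : ℤ) (hj : -llog (nsq v) - 1 ≤ (j : ℝ)) : ρ ≤ lam ^ j * ‖v‖ := by
  have hn := hL.nsq_pos v hv
  have hv0 : 0 < ‖v‖ := norm_pos_iff.2 hv
  have hlp := hL.log_pos
  have hl0 : 0 < lam := lam_pos
  have h1 : 1 / (lam * nsq v) ≤ lam ^ j := by
    rw [← Real.log_le_log_iff (by positivity) (zpow_pos hl0 j), Real.log_zpow, one_div, Real.log_inv,
      Real.log_mul hl0.ne' hn.ne']
    have h2 : llog (nsq v) * Real.log lam = Real.log (nsq v) := by
      unfold llog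
      field_simp
    have h3 := mul_le_mul_of_nonneg_right hj hlp.le
    have h4 : (-llog (nsq v) - 1) * Real.log lam = -(Real.log lam + Real.log (nsq v)) := by
      rw [← h2]; ring
    rw [h4] at h3
    exact h3
  have h5 : nsq v ≤ 2 * ‖v‖ ^ 2 := hL.nsq_le v
  have h6 : ρ * (lam * nsq v) ≤ ‖v‖ := by
    have h7 : lam * nsq v ≤ 3 * (2 * ‖v‖ ^ 2) :=
      mul_le_mul lam_lt.le h5 hn.le (by norm_num)
    calc ρ * (lam * nsq v) ≤ ρ * (3 * (2 * ‖v‖ ^ 2)) := mul_le_mul_of_nonneg_left h7 hρ.le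
      _ = (6 * ρ * ‖v‖) * ‖v‖ := by ring
      _ ≤ 1 * ‖v‖ := by
          refine mul_le_mul_of_nonneg_right ?_ hv0.le
          have : ρ * ‖v‖ ≤ (1 / 10) * (1 / 10) :=
            mul_le_mul hρ1 (hvρ.le.trans hρ1) hv0.le (by norm_num)
          linarith
      _ = ‖v‖ := one_mul _
  have h8 : 0 < lam * nsq v := mul_pos hl0 hn
  calc ρ = ρ * (lam * nsq v) * (1 / (lam * nsq v)) := by
        field_simp
    _ ≤ ‖v‖ * (1 / (lam * nsq v)) := mul_le_mul_of_nonneg_right h6 (by positivity)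
    _ ≤ ‖v‖ * lam ^ j := mul_le_mul_of_nonneg_left h1 hv0.le
    _ = lam ^ j * ‖v‖ := mul_comm _ _

theorem norm_swap (v : P2) : ‖((v.2, v.1) : P2)‖ = ‖v‖ := by
  rw [Prod.norm_def, Prod.norm_def, max_comm]

theorem nsq_swap (v : P2) : nsq ((v.2, v.1) : P2) = nsq v := by
  unfold nsq; ring

theorem swap_ne {v : P2} (hv : v ≠ 0) : ((v.2, v.1) : P2) ≠ 0 := by
  intro h
  apply hv
  have h1 := congrArg Prod.fst h
  have h2 := congrArg Prod.snd h
  exact Prod.ext h2 h1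

/-- the point `Fe^j (m + Psi v) + n` is far from the lattice if `lam^j v` is large -/
theorem far {D : DA} (hF : Facts D) {r0 ρ : ℝ} (hρ : 0 < ρ) (hρr : ρ ≤ r0)
    (hd : ∀ ρ, 0 < ρ → ρ ≤ r0 → ∀ m ∈ Gam, ∀ v, ρ ≤ ‖v‖ → ∀ m' ∈ Gam, ρ ≤ dist (m + D.Psi v) m')
    (m n : P2) (hm : m ∈ Gam) (hn : n ∈ Gam) (v : P2) (j : ℤ) (h : ρ ≤ lam ^ j * ‖v‖) :
    ∀ m' ∈ Gam, ρ ≤ dist ((D.Fe ^ j) (m + D.Psi v) + n) m' := by
  intro m' hm'
  have e1 : (D.Fe ^ j) (m + D.Psi v) + n = (Lz j m + n) + D.Psi (lam ^ j • v) := by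
    rw [hF.pow.psi j m hm v]; abel
  rw [e1]
  refine hd ρ hρ hρr _ (Gam.add_mem (Lz_mem j hm) hn) _ ?_ m' hm'
  rw [norm_smul, Real.norm_eq_abs, abs_of_pos (zpow_pos lam_pos j)]
  exact h

theorem prf (hA : StAct0) (hG : StActGlue0) : StComp0 := by
  intro D hF
  obtain ⟨C, hC, hcov⟩ := hF.gam.cover
  obtain ⟨r1, hr1, hdist⟩ := hF.proper.dist_gam
  obtain ⟨r2, hr2, -, hnear⟩ := hF.proper.near_gam
  have hact := hA D hF
  have hglue := hG D hF
  set ρ : ℝ := min (min r1 r2) (1 / 10) with hρdef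
  have hρ : 0 < ρ := lt_min (lt_min hr1 hr2) (by norm_num)
  have hρ1 : ρ ≤ r1 := (min_le_left _ _).trans (min_le_left _ _)
  have hρ2 : ρ ≤ r2 := (min_le_left _ _).trans (min_le_right _ _)
  have hρ3 : ρ ≤ 1 / 10 := min_le_right _ _
  refine ⟨C, ρ, hρ, ?_⟩
  intro i e he
  cases i with
  | R =>
    obtain ⟨n1, hn1, hn1C⟩ := hcov ((D.Fe ^ (-⌊e.2⌋)) e.1)
    let a : Grp := ⟨⟨n1, hn1⟩, -⌊e.2⌋⟩
    let e1 : E := act0 D a .R e
    have he11 : e1.1 = (D.Fe ^ (-⌊e.2⌋)) e.1 + n1 := rfl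
    have he12 : e1.2 = e.2 - ⌊e.2⌋ := by
      show e.2 + ((-⌊e.2⌋ : ℤ) : ℝ) = e.2 - ⌊e.2⌋
      push_cast; ring
    have h0 : 0 ≤ e1.2 := by rw [he12]; have := Int.floor_le e.2; linarith
    have h1 : e1.2 ≤ 1 := by rw [he12]; have := (Int.lt_floor_add_one e.2).le; linarith
    by_cases hfar : ∀ m ∈ Gam, ρ ≤ dist e1.1 m
    · exact ⟨a, .R, e1, ⟨hn1C, hfar, h0, h1⟩, rfl⟩
    · push Not at hfar
      obtain ⟨m, hm, hmd⟩ := hfar
      have hz1 : e1.1 ∉ Gam := hact.act_dom a .R e he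
      set v : P2 := e1.1 - m with hvdef
      have hev : e1.1 = m + D.Psi v := hnear e1.1 m hm (hmd.trans_le hρ2)
      have hv0 : v ≠ 0 := by
        intro h
        apply hz1
        have : e1.1 = m := sub_eq_zero.1 h
        rw [this]; exact hm
      have hvρ : ‖v‖ < ρ := by rw [hvdef, ← dist_eq_norm]; exact hmd
      let e2 : E := (m + D.Psi (v.2, v.1), e1.2 - llog (nsq v))
      have hg12 : glue0 D .R e1 .A e2 := ⟨m, hm, v, hv0, hev, rfl, rfl⟩
      obtain ⟨n2, hn2, hn2C⟩ := hcov ((D.Fe ^ ⌊e2.2⌋) e2.1)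
      let b : Grp := ⟨⟨n2, hn2⟩, ⌊e2.2⌋⟩
      have hg := hglue .R .A b e1 e2 hg12
      refine ⟨b * a, .A, act0 D b .A e2, ⟨hn2C, ?_, ?_, ?_⟩, ?_⟩
      · refine far hF hρ hρ1 hdist m n2 hm hn2 (v.2, v.1) ⌊e2.2⌋ ?_
        rw [norm_swap]
        refine key hF.log hρ hρ3 hv0 hvρ _ ?_
        have hfl := (Int.lt_floor_add_one e2.2).le
        have : e2.2 = e1.2 - llog (nsq v) := rfl
        linarith
      · show 0 ≤ e2.2 - ⌊e2.2⌋
        have := Int.floor_le e2.2
        linarith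
      · show e2.2 - ⌊e2.2⌋ ≤ 1
        have := (Int.lt_floor_add_one e2.2).le
        linarith
      · rw [hact.act_mul b a .R e]
        exact hg
  | A =>
    obtain ⟨n1, hn1, hn1C⟩ := hcov ((D.Fe ^ ⌊e.2⌋) e.1)
    let a : Grp := ⟨⟨n1, hn1⟩, ⌊e.2⌋⟩
    let e1 : E := act0 D a .A e
    have he11 : e1.1 = (D.Fe ^ ⌊e.2⌋) e.1 + n1 := rfl
    have he12 : e1.2 = e.2 - ⌊e.2⌋ := rfl
    have h0 : 0 ≤ e1.2 := by rw [he12]; have := Int.floor_le e.2; linarith
    have h1 : e1.2 ≤ 1 := by rw [he12]; have := (Int.lt_floor_add_one e.2).le; linarith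
    by_cases hfar : ∀ m ∈ Gam, ρ ≤ dist e1.1 m
    · exact ⟨a, .A, e1, ⟨hn1C, hfar, h0, h1⟩, rfl⟩
    · push Not at hfar
      obtain ⟨m, hm, hmd⟩ := hfar
      have hz1 : e1.1 ∉ Gam := hact.act_dom a .A e he
      set v : P2 := e1.1 - m with hvdef
      have hev : e1.1 = m + D.Psi v := hnear e1.1 m hm (hmd.trans_le hρ2)
      have hv0 : v ≠ 0 := by
        intro h
        apply hz1
        have : e1.1 = m := sub_eq_zero.1 h
        rw [this]; exact hm
      have hvρ : ‖v‖ < ρ := by rw [hvdef, ← dist_eq_norm]; exact hmd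
      let e2 : E := (m + D.Psi (v.2, v.1), e1.2 + llog (nsq v))
      have hg12 : glue0 D .A e1 .R e2 := by
        refine ⟨m, hm, (v.2, v.1), swap_ne hv0, rfl, hev, ?_⟩
        rw [nsq_swap]
        show e1.2 = e1.2 + llog (nsq v) - llog (nsq v)
        ring
      obtain ⟨n2, hn2, hn2C⟩ := hcov ((D.Fe ^ (-⌊e2.2⌋)) e2.1)
      let b : Grp := ⟨⟨n2, hn2⟩, -⌊e2.2⌋⟩
      have hg := hglue .A .R b e1 e2 hg12
      have hb2 : (act0 D b .R e2).2 = e2.2 - ⌊e2.2⌋ := by
        show e2.2 + ((-⌊e2.2⌋ : ℤ) : ℝ) = e2.2 - ⌊e2.2⌋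
        push_cast; ring
      refine ⟨b * a, .R, act0 D b .R e2, ⟨hn2C, ?_, ?_, ?_⟩, ?_⟩
      · refine far hF hρ hρ1 hdist m n2 hm hn2 (v.2, v.1) (-⌊e2.2⌋) ?_
        rw [norm_swap]
        refine key hF.log hρ hρ3 hv0 hvρ _ ?_
        have hfl := Int.floor_le e2.2
        have : e2.2 = e1.2 + llog (nsq v) := rfl
        push_cast
        linarith
      · rw [hb2]
        have := Int.floor_le e2.2
        linarith
      · rw [hb2]
        have := (Int.lt_floor_add_one e2.2).le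
        linarith
      · rw [hact.act_mul b a .A e]
        exact hg

end Pool.Agent.Work.MP_0d206b_gt.MComp0

end
end

/-! ### from I_CompatRA.lean -/

section

/-!
# MP_0d206b_gt, item M CompatRA: the gluing map from the repeller to the attractors of flow a preserves
the line fields
-/

set_option autoImplicit false

open Set Filter Topology
open scoped ContDiff

noncomputable section

namespace Pool.Agent.Work.MP_0d206b_gt.MCompatRA

theorem sg_sq (s : Bool) : sg s * sg s = 1 := by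
  cases s <;> simp [sg]

theorem sg_ne (s : Bool) : sg s ≠ 0 := by
  cases s <;> simp [sg]

theorem sg_mem (s : Bool) {m : P2} (hm : m ∈ Gam) : sg s • m ∈ Gam := by
  cases s
  · have : sg false • m = -m := by simp [sg]
    rw [this]
    exact Gam.neg_mem hm
  · have : sg true • m = m := by simp [sg]
    rw [this]
    exact hm

/-- the derivative of `nsq` -/
def dn (v : P2) : P2 →L[ℝ] ℝ :=
  (2 * v.1) • ContinuousLinearMap.fst ℝ ℝ ℝ + (2 * v.2) • ContinuousLinearMap.snd ℝ ℝ ℝ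

theorem dn_apply (v w : P2) : dn v w = 2 * v.1 * w.1 + 2 * v.2 * w.2 := by
  simp [dn]

theorem hasFDerivAt_nsq (v : P2) : HasFDerivAt nsq (dn v) v := by
  have h1 : HasFDerivAt (fun w : P2 => w.1) (ContinuousLinearMap.fst ℝ ℝ ℝ) v := hasFDerivAt_fst
  have h2 : HasFDerivAt (fun w : P2 => w.2) (ContinuousLinearMap.snd ℝ ℝ ℝ) v := hasFDerivAt_snd
  have h3 := (h1.pow 2).add (h2.pow 2)
  have h4 : HasFDerivAt (fun w : P2 => w.1 ^ 2 + w.2 ^ 2) (dn v) v := by
    refine h3.congr_fderiv ?_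
    ext <;> simp [dn]
  exact h4

theorem nsq_smooth : ContDiff ℝ ∞ nsq := by
  unfold nsq
  fun_prop

/-- the derivative of `llog ∘ nsq` -/
def dN (v : P2) : P2 →L[ℝ] ℝ := (Real.log lam)⁻¹ • ((nsq v)⁻¹ • dn v)

theorem dN_apply (v w : P2) :
    dN v w = (Real.log lam)⁻¹ * ((nsq v)⁻¹ * (2 * v.1 * w.1 + 2 * v.2 * w.2)) := by
  simp [dN, dn_apply]

theorem hasFDerivAt_llog (v : P2) (hv : nsq v ≠ 0) :
    HasFDerivAt (fun w => llog (nsq w)) (dN v) v := by
  have h1 := (hasFDerivAt_nsq v).log hv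
  have h2 := h1.const_mul (Real.log lam)⁻¹
  refine (h2.congr_of_eventuallyEq (Filter.Eventually.of_forall fun w => ?_))
  simp only [llog, div_eq_inv_mul]

/-- the derivative of `gmap` -/
def dg (u : P2) : P2 →L[ℝ] P2 :=
  ((2 * u.1 / u.2) • ContinuousLinearMap.fst ℝ ℝ ℝ +
    (-(nsq u / u.2 ^ 2)) • ContinuousLinearMap.snd ℝ ℝ ℝ).prod
  ((2 : ℝ) • ContinuousLinearMap.fst ℝ ℝ ℝ)

theorem dg_apply (u a : P2) :
    dg u a = (2 * u.1 / u.2 * a.1 + -(nsq u / u.2 ^ 2) * a.2, 2 * a.1) := by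
  simp [dg]

theorem hasFDerivAt_gmap (u : P2) (hu : u.2 ≠ 0) : HasFDerivAt gmap (dg u) u := by
  have h1 : HasFDerivAt (fun w : P2 => w.1) (ContinuousLinearMap.fst ℝ ℝ ℝ) u := hasFDerivAt_fst
  have h2 : HasFDerivAt (fun w : P2 => w.2) (ContinuousLinearMap.snd ℝ ℝ ℝ) u := hasFDerivAt_snd
  have hi : HasFDerivAt (fun w : P2 => (w.2)⁻¹)
      ((-(u.2 ^ 2)⁻¹) • ContinuousLinearMap.snd ℝ ℝ ℝ) u :=
    HasDerivAt.comp_hasFDerivAt (f := fun w : P2 => w.2) u (hasDerivAt_inv hu) h2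
  have h3 := ((h1.pow 2).sub (h2.pow 2)).mul hi
  have h4 : HasFDerivAt (fun w : P2 => (w.1 ^ 2 - w.2 ^ 2) / w.2)
      ((2 * u.1 / u.2) • ContinuousLinearMap.fst ℝ ℝ ℝ +
        (-(nsq u / u.2 ^ 2)) • ContinuousLinearMap.snd ℝ ℝ ℝ) u := by
    refine HasFDerivAt.congr_fderiv (f' := _) (h3.congr_of_eventuallyEq
      (Filter.Eventually.of_forall fun w => ?_)) ?_
    · simp only [div_eq_mul_inv]
      rfl
    · ext
      · simp
        field_simp
      · simp [nsq]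
        field_simp
        ring
  exact h4.prodMk (h1.const_mul 2)

theorem contDiffAt_gmap (u : P2) (hu : u.2 ≠ 0) : ContDiffAt ℝ ∞ gmap u := by
  have h1 : ContDiffAt ℝ ∞ (fun w : P2 => w.1) u := contDiffAt_fst
  have h2 : ContDiffAt ℝ ∞ (fun w : P2 => w.2) u := contDiffAt_snd
  exact (((h1.pow 2).sub (h2.pow 2)).div h2 hu).prodMk (contDiffAt_const.mul h1)

/-- the gluing map -/
def gg (D : DA) (σ : ℝ) (m : P2) (z : E) : E :=
  (m + D.Psi (gmap (σ • D.lin z.1)), z.2 - llog (nsq (gmap (σ • D.lin z.1))))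

/-- its derivative, `T` the derivative of `gmap (σ • lin)` -/
def dG (D : DA) (T : P2 →L[ℝ] P2) (w : P2) : E →L[ℝ] E :=
  ((fderiv ℝ D.Psi w).comp (T.comp (ContinuousLinearMap.fst ℝ P2 ℝ))).prod
    (ContinuousLinearMap.snd ℝ P2 ℝ - (dN w).comp (T.comp (ContinuousLinearMap.fst ℝ P2 ℝ)))

theorem dG_apply (D : DA) (T : P2 →L[ℝ] P2) (w : P2) (a : P2) (t : ℝ) :
    dG D T w (a, t) = (fderiv ℝ D.Psi w (T a), t - dN w (T a)) := rfl

theorem hasFDerivAt_gg (D : DA) (σ : ℝ) (m : P2) (e : E) (v w : P2) (L : P2 →L[ℝ] P2)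
    (hlin : HasFDerivAt D.lin L e.1) (hv : D.lin e.1 = v) (hu : (σ • v).2 ≠ 0)
    (hw : gmap (σ • v) = w) (hn : nsq w ≠ 0) :
    HasFDerivAt (gg D σ m) (dG D ((dg (σ • v)).comp (σ • L)) w) e := by
  have h0 : HasFDerivAt (fun z : P2 => σ • D.lin z) (σ • L) e.1 := hlin.const_smul σ
  have h0' : HasFDerivAt (fun z : P2 => gmap (σ • D.lin z)) ((dg (σ • v)).comp (σ • L)) e.1 := by
    refine HasFDerivAt.comp (g := gmap) (f := fun z : P2 => σ • D.lin z) e.1 ?_ h0
    rw [hv]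
    exact hasFDerivAt_gmap _ hu
  have h1 : HasFDerivAt (fun z : E => gmap (σ • D.lin z.1))
      (((dg (σ • v)).comp (σ • L)).comp (ContinuousLinearMap.fst ℝ P2 ℝ)) e :=
    HasFDerivAt.comp (g := fun z : P2 => gmap (σ • D.lin z)) (f := fun z : E => z.1) e h0'
      hasFDerivAt_fst
  have hPsi : HasFDerivAt D.Psi (fderiv ℝ D.Psi w) (gmap (σ • D.lin e.1)) := by
    rw [hv, hw]
    exact ((D.Psi_smooth.differentiable (by simp)) w).hasFDerivAt
  have h3 : HasFDerivAt (fun z : E => D.Psi (gmap (σ • D.lin z.1)))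
      ((fderiv ℝ D.Psi w).comp
        (((dg (σ • v)).comp (σ • L)).comp (ContinuousLinearMap.fst ℝ P2 ℝ))) e :=
    HasFDerivAt.comp (g := D.Psi) (f := fun z : E => gmap (σ • D.lin z.1)) e hPsi h1
  have hN : HasFDerivAt (fun w => llog (nsq w)) (dN w) (gmap (σ • D.lin e.1)) := by
    rw [hv, hw]
    exact hasFDerivAt_llog w hn
  have h5 : HasFDerivAt (fun z : E => llog (nsq (gmap (σ • D.lin z.1))))
      ((dN w).comp (((dg (σ • v)).comp (σ • L)).comp (ContinuousLinearMap.fst ℝ P2 ℝ))) e :=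
    HasFDerivAt.comp (g := fun w => llog (nsq w)) (f := fun z : E => gmap (σ • D.lin z.1)) e hN h1
  exact (h3.const_add m).prodMk (hasFDerivAt_snd.sub h5)

theorem contDiffAt_gg (D : DA) (σ : ℝ) (m : P2) (e : E) (hlin : ContDiffAt ℝ ∞ D.lin e.1)
    (hu : (σ • D.lin e.1).2 ≠ 0) (hn : nsq (gmap (σ • D.lin e.1)) ≠ 0) :
    ContDiffAt ℝ ∞ (gg D σ m) e := by
  have h1 : ContDiffAt ℝ ∞ (fun z : E => D.lin z.1) e := hlin.comp e contDiffAt_fst
  have h1' : ContDiffAt ℝ ∞ (fun z : E => σ • D.lin z.1) e := h1.const_smul σ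
  have h2 : ContDiffAt ℝ ∞ (fun z : E => gmap (σ • D.lin z.1)) e :=
    ContDiffAt.comp (g := gmap) (f := fun z : E => σ • D.lin z.1) e (contDiffAt_gmap _ hu) h1'
  have h3 : ContDiffAt ℝ ∞ (fun z : E => nsq (gmap (σ • D.lin z.1))) e :=
    nsq_smooth.contDiffAt.comp e h2
  have h4 : ContDiffAt ℝ ∞ (fun z : E => llog (nsq (gmap (σ • D.lin z.1)))) e :=
    (h3.log hn).div_const _
  exact (contDiffAt_const.add (D.Psi_smooth.contDiffAt.comp e h2)).prodMk (contDiffAt_snd.sub h4)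

theorem prf : StCompatRA := by
  intro D hF s e e' _ hg
  obtain ⟨m, hm, v, hv, he1, he'1, he'2⟩ := hg
  have hm0 := sg_mem s hm
  have hsg := sg_sq s
  have hsn := sg_ne s
  have hu : (sg s • v).2 ≠ 0 := hv.ne'
  have hv2 : v.2 ≠ 0 := fun h => hu (by show sg s * v.2 = 0; rw [h, mul_zero])
  set w : P2 := gmap (sg s • v) with hw
  have hwne : w ≠ 0 := hF.g.gmap_ne _ hu
  have hlin : D.lin e.1 = v := by rw [he1]; exact hF.psi.lin_eq m hm v
  have hn : 0 < nsq w := hF.log.nsq_pos w hwne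
  have hvne : v ≠ 0 := fun h => hv2 (by rw [h]; rfl)
  have hnv : 0 < nsq v := hF.log.nsq_pos v hvne
  have hlog : Real.log lam ≠ 0 := hF.log.log_pos.ne'
  have hnu : nsq (sg s • v) = nsq v := by
    rw [hF.log.nsq_smul, sq, hsg, one_mul]
  have hnw : nsq w = nsq v ^ 2 / v.2 ^ 2 := by
    rw [hw, hF.g.nsq_gmap _ hu, hnu]
    congr 1
    show (sg s * v.2) ^ 2 = v.2 ^ 2
    rw [mul_pow, sq, hsg, one_mul]
  have hsm : ContDiffAt ℝ ∞ D.lin e.1 := by rw [he1]; exact hF.psi.lin_smooth m hm v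
  have hder : HasFDerivAt (gg D (sg s) (sg s • m))
      (dG D ((dg (sg s • v)).comp (sg s • fderiv ℝ D.lin e.1)) w) e :=
    hasFDerivAt_gg D (sg s) (sg s • m) e v w _ ((hsm.differentiableAt (by simp)).hasFDerivAt)
      hlin hu rfl hn.ne'
  refine ⟨gg D (sg s) (sg s • m), contDiffAt_gg D (sg s) (sg s • m) e hsm
    (by rw [hlin]; exact hu) (by rw [hlin]; exact hn.ne'), ?_, ?_, ?_, ?_⟩
  · have h : gg D (sg s) (sg s • m) e = (sg s • m + D.Psi w, e.2 - llog (nsq w)) := by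
      unfold gg
      rw [hlin]
    rw [h]
    exact Prod.ext he'1.symm he'2.symm
  · have h1 : ∀ᶠ z in 𝓝 e.1, z = m + D.Psi (D.lin z) := by
      have := hF.psi.near m hm v
      rwa [← he1] at this
    have h2 : ∀ᶠ z in 𝓝 e.1, 0 < sg s * (D.lin z).2 := by
      have hc : ContinuousAt (fun z => sg s * (D.lin z).2) e.1 :=
        continuousAt_const.mul (continuousAt_snd.comp hsm.continuousAt)
      have h0 : 0 < sg s * (D.lin e.1).2 := by rw [hlin]; exact hv
      exact hc.eventually (lt_mem_nhds h0)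
    have h3 : Tendsto (fun z : E => z.1) (𝓝 e) (𝓝 e.1) := continuous_fst.continuousAt
    filter_upwards [h3.eventually h1, h3.eventually h2] with z hz1 hz2
    exact ⟨m, hm, D.lin z.1, hz2, hz1, rfl, rfl⟩
  · refine ⟨2 * sg s * dy D.Psi w, mul_ne_zero (mul_ne_zero two_ne_zero hsn)
      (D.dyPsi_pos _).ne', ?_⟩
    rw [hder.fderiv]
    have hL : fderiv ℝ D.lin e.1 (1, D.sigma e.1) = (1, S0 v) := by
      have h1 := hF.psi.dlin_fst m hm v (S0 v)
      have h2 := hF.sig.sigma_psi m hm v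
      rw [← he1] at h1 h2
      rw [h2, mul_comm (dy D.Psi v)]
      exact h1
    have hT : ((dg (sg s • v)).comp (sg s • fderiv ℝ D.lin e.1)) (1, D.sigma e.1) =
        ((0 : ℝ), 2 * sg s) := by
      rw [ContinuousLinearMap.comp_apply, ContinuousLinearMap.smul_apply, hL, dg_apply, hnu]
      refine Prod.ext ?_ ?_
      · show 2 * (sg s * v.1) / (sg s * v.2) * (sg s * 1) +
          -(nsq v / (sg s * v.2) ^ 2) * (sg s * S0 v) = 0
        unfold S0
        have h5 := hnv.ne'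
        have h6 : sg s ^ 2 = 1 := by rw [sq, hsg]
        field_simp
        ring_nf
        try rw [h6]
        try ring
      · show 2 * (sg s * 1) = 2 * sg s
        ring
    have hPs : fderiv ℝ D.Psi w ((0 : ℝ), 2 * sg s) = (0, 2 * sg s * dy D.Psi w) := by
      have h : (((0 : ℝ), 2 * sg s) : P2) = (2 * sg s) • ((0 : ℝ), (1 : ℝ)) := by simp
      rw [h, map_smul, hF.psi.dPsi_snd]
      simp
    have hK : D.Ka e.1 = 8 * v.1 * v.2 ^ 2 / (Real.log lam * nsq v ^ 2) := by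
      rw [he1]; exact hF.sig.Ka_psi m hm v
    have hw2 : w.2 = 2 * (sg s * v.1) := rfl
    show dG D _ w ((1, D.sigma e.1), D.Ka e.1) = _
    rw [dG_apply, hT, hPs, dN_apply, hK, hw2, hnw]
    show ((((0 : ℝ), 2 * sg s * dy D.Psi w) : P2), _) =
      (2 * sg s * dy D.Psi w) • (((0 : ℝ), (1 : ℝ)), (0 : ℝ))
    refine Prod.ext ?_ ?_
    · refine Prod.ext ?_ ?_
      · simp
      · simp
    · have h5 := hnv.ne'
      have h6 : sg s ^ 2 = 1 := by rw [sq, hsg]
      simp only [Prod.smul_mk, smul_eq_mul, mul_zero, zero_add]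
      have h7 : 2 * (2 * (sg s * v.1)) * (2 * sg s) = 8 * v.1 := by
        linear_combination 8 * v.1 * h6
      rw [h7]
      field_simp
      ring
  · set q : ℝ := -(nsq v / (sg s * v.2) ^ 2) * (sg s * (dy D.Psi v)⁻¹) with hq
    have hdv : (dy D.Psi v)⁻¹ ≠ 0 := (inv_pos.mpr (D.dyPsi_pos v)).ne'
    have hq0 : q ≠ 0 := by
      rw [hq]
      refine mul_ne_zero (neg_ne_zero.2 (div_ne_zero hnv.ne' (pow_ne_zero 2 hu))) ?_
      exact mul_ne_zero hsn hdv
    refine ⟨q, hq0, ?_⟩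
    rw [hder.fderiv]
    have hL : fderiv ℝ D.lin e.1 (0, 1) = (0, (dy D.Psi v)⁻¹) := by
      rw [he1]; exact hF.psi.dlin_snd m hm v
    have hT : ((dg (sg s • v)).comp (sg s • fderiv ℝ D.lin e.1)) (0, 1) = (q, (0 : ℝ)) := by
      rw [ContinuousLinearMap.comp_apply, ContinuousLinearMap.smul_apply, hL, dg_apply, hnu]
      refine Prod.ext ?_ ?_
      · show 2 * (sg s * v.1) / (sg s * v.2) * (sg s * 0) +
          -(nsq v / (sg s * v.2) ^ 2) * (sg s * (dy D.Psi v)⁻¹) = q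
        rw [hq]
        ring
      · show 2 * (sg s * 0) = (0 : ℝ)
        ring
    have hP : fderiv ℝ D.Psi w (q, 0) = q • ((1 : ℝ), D.S e'.1) := by
      have h : ((q, 0) : P2) = q • ((1 : ℝ), (0 : ℝ)) := by simp
      have h1 := hF.psi.dPsi_fst w _ hm0
      rw [h, map_smul, h1, he'1]
    have hK : D.K0 e'.1 = 2 * w.1 / (Real.log lam * nsq w) := by
      rw [he'1]
      exact hF.sig.K0_psi _ hm0 w
    show dG D _ w ((0, 1), 0) = _
    rw [dG_apply, hT, hP, dN_apply]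
    show _ = q • (((1 : ℝ), D.S e'.1), - D.K0 e'.1)
    rw [hK]
    refine Prod.ext rfl ?_
    have h5 := hn.ne'
    simp only [mul_zero, add_zero, Prod.smul_mk, smul_eq_mul]
    field_simp
    ring

end Pool.Agent.Work.MP_0d206b_gt.MCompatRA

end
end

/-! ### from I_CompatRg.lean -/

section

/-!
# MP_0d206b_gt, item CompatRg: the gluing map from `R` to `g m` preserves the lines
-/

set_option autoImplicit false

open Set Filter Topology
open scoped ContDiff

noncomputable section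

namespace Pool.Agent.Work.MP_0d206b_gt.MCompatRg

open Pool.Agent.Work.MP_0d206b_gt

/-- the gluing map in the linear coordinate -/
def q (w : P2) : P2 := (w.2 / (w.1 ^ 2 - w.2 ^ 2), 2 * w.1)

theorem q_smooth (v : P2) (hv : v.1 ^ 2 - v.2 ^ 2 ≠ 0) : ContDiffAt ℝ ∞ q v := by
  unfold q
  refine ContDiffAt.prodMk ?_ ?_
  · refine ContDiffAt.div contDiffAt_snd ?_ hv
    exact (contDiffAt_fst.pow 2).sub (contDiffAt_snd.pow 2)
  · exact contDiffAt_const.mul contDiffAt_fst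

theorem q_der (v : P2) (hv : v.1 ^ 2 - v.2 ^ 2 ≠ 0) (a b : ℝ) :
    fderiv ℝ q v (a, b) =
      ((b * nsq v - 2 * v.1 * v.2 * a) / (v.1 ^ 2 - v.2 ^ 2) ^ 2, 2 * a) := by
  have h1 : HasFDerivAt (fun w : P2 => w.1) (ContinuousLinearMap.fst ℝ ℝ ℝ) v :=
    hasFDerivAt_fst
  have h2 : HasFDerivAt (fun w : P2 => w.2) (ContinuousLinearMap.snd ℝ ℝ ℝ) v :=
    hasFDerivAt_snd
  have h3 : HasFDerivAt (fun w : P2 => w.1 ^ 2 - w.2 ^ 2) _ v := (h1.pow 2).sub (h2.pow 2)
  have h4 : HasFDerivAt (fun w : P2 => (w.1 ^ 2 - w.2 ^ 2)⁻¹) _ v :=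
    (hasDerivAt_inv hv).comp_hasFDerivAt v h3
  have h5 := h2.mul h4
  have h6 := h1.const_mul 2
  have h7 := h5.prodMk h6
  have h8 : HasFDerivAt q _ v := h7.congr_of_eventuallyEq (Eventually.of_forall fun w => by
    simp only [q, div_eq_mul_inv]
    rfl)
  rw [h8.fderiv]
  simp only [ContinuousLinearMap.prod_apply, ContinuousLinearMap.add_apply,
    ContinuousLinearMap.smul_apply, ContinuousLinearMap.sub_apply,
    ContinuousLinearMap.coe_fst', ContinuousLinearMap.coe_snd', smul_eq_mul, nsq,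
    ContinuousLinearMap.neg_apply]
  ext
  · simp
    field_simp
    ring
  · simp

theorem prf : StCompatRg := by
  intro D hD m e e' he hg
  obtain ⟨v, hv, h1, h2, h3⟩ := hg
  have hP := hD.psi
  have hS := hD.sig
  have hm : (m : P2) ∈ Gam := m.2
  have hv1 : v.1 ^ 2 - v.2 ^ 2 ≠ 0 := by
    have := sq_lt_sq.mpr hv
    linarith
  have hv0 : v.1 ≠ 0 := by
    intro h
    rw [h, abs_zero] at hv
    exact absurd hv (not_lt.mpr (abs_nonneg _))
  have hn : 0 < nsq v := by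
    have : 0 < v.1 ^ 2 := by positivity
    unfold nsq
    nlinarith [sq_nonneg v.2]
  have hlin : ContDiffAt ℝ ∞ D.lin ((m : P2) + D.Psi v) := hP.lin_smooth m hm v
  have hlv : D.lin ((m : P2) + D.Psi v) = v := hP.lin_eq m hm v
  have hq : ContDiffAt ℝ ∞ q v := q_smooth v hv1
  have hlin1 : ContDiffAt ℝ ∞ (fun z : E => D.lin z.1) e := by
    have : ContDiffAt ℝ ∞ D.lin e.1 := by rw [h1]; exact hlin
    exact this.comp e contDiffAt_fst
  have hq1 : ContDiffAt ℝ ∞ q (D.lin e.1) := by rw [h1, hlv]; exact hq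
  have hder : fderiv ℝ (fun z : E => (q (D.lin z.1), z.2)) e =
      (((fderiv ℝ q v).comp (fderiv ℝ D.lin ((m : P2) + D.Psi v))).comp
        (ContinuousLinearMap.fst ℝ P2 ℝ)).prod (ContinuousLinearMap.snd ℝ P2 ℝ) := by
    have a1 : HasFDerivAt D.lin (fderiv ℝ D.lin ((m : P2) + D.Psi v)) e.1 := by
      rw [h1]
      exact (hlin.differentiableAt (by simp)).hasFDerivAt
    have a2 : HasFDerivAt q (fderiv ℝ q v) (D.lin e.1) := by
      rw [h1, hlv]
      exact (hq.differentiableAt (by simp)).hasFDerivAt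
    have a3 : HasFDerivAt (fun z : E => z.1) (ContinuousLinearMap.fst ℝ P2 ℝ) e :=
      hasFDerivAt_fst
    have a4 : HasFDerivAt (fun z : E => z.2) (ContinuousLinearMap.snd ℝ P2 ℝ) e :=
      hasFDerivAt_snd
    have a5 := (a2.comp e.1 a1).comp e a3
    exact (a5.prodMk a4).fderiv
  refine ⟨fun z => (q (D.lin z.1), z.2), ?_, ?_, ?_, ?_, ?_⟩
  · exact (hq1.comp e hlin1).prodMk contDiffAt_snd
  · ext1
    · show q (D.lin e.1) = e'.1
      rw [h1, hlv, h2]
      rfl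
    · exact h3.symm
  · have e1 : ∀ᶠ z in 𝓝 e, z.1 = (m : P2) + D.Psi (D.lin z.1) := by
      have := hP.near m hm v
      rw [← h1] at this
      exact (continuous_fst.tendsto e).eventually this
    have e2 : ∀ᶠ z in 𝓝 e, |(D.lin z.1).2| < |(D.lin z.1).1| := by
      have hc : ContinuousAt (fun z : E => D.lin z.1) e := hlin1.continuousAt
      have c1 : ContinuousAt (fun z : E => |(D.lin z.1).2|) e :=
        (continuous_abs.comp continuous_snd).continuousAt.comp hc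
      have c2 : ContinuousAt (fun z : E => |(D.lin z.1).1|) e :=
        (continuous_abs.comp continuous_fst).continuousAt.comp hc
      apply c1.eventually_lt c2
      rw [h1, hlv]
      exact hv
    filter_upwards [e1, e2] with z z1 z2
    exact ⟨D.lin z.1, z2, z1, rfl, rfl⟩
  · refine ⟨2, two_ne_zero, ?_⟩
    rw [hder]
    have e1 : esA D .R e = ((1, D.sigma e.1), D.Ka e.1) := rfl
    rw [e1, h1, hS.sigma_psi m hm v, hS.Ka_psi m hm v]
    simp only [ContinuousLinearMap.prod_apply, ContinuousLinearMap.comp_apply,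
      ContinuousLinearMap.coe_fst', ContinuousLinearMap.coe_snd']
    rw [mul_comm (dy D.Psi v), hP.dlin_fst m hm v, q_der v hv1]
    have e2 : esA D (.g m) e' = ((0, 1), 2 * e'.1.2 * e'.1.1 ^ 2 /
      (Real.log lam * (1 + e'.1.1 ^ 2 * e'.1.2 ^ 2))) := rfl
    rw [e2, h2]
    have hlog := hD.log.log_pos.ne'
    have hn' := hn.ne'
    have e3 : S0 v * nsq v - 2 * v.1 * v.2 * 1 = 0 := by
      unfold S0
      field_simp
      ring
    rw [e3, zero_div]
    have e4 : 1 + (v.2 / (v.1 ^ 2 - v.2 ^ 2)) ^ 2 * (2 * v.1) ^ 2 =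
        nsq v ^ 2 / (v.1 ^ 2 - v.2 ^ 2) ^ 2 := by
      unfold nsq
      field_simp
      ring
    ext
    · simp
    · simp
    · simp only [Prod.smul_mk, smul_eq_mul]
      rw [e4]
      field_simp
      ring
  · refine ⟨(dy D.Psi v)⁻¹ * nsq v / (v.1 ^ 2 - v.2 ^ 2) ^ 2, ?_, ?_⟩
    · exact div_ne_zero (mul_ne_zero (inv_ne_zero (D.dyPsi_pos v).ne') hn.ne')
        (pow_ne_zero 2 hv1)
    · rw [hder]
      have e1 : euA D .R e = ((0, 1), 0) := rfl
      have e2 : euA D (.g m) e' = ((1, 0), 0) := rfl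
      rw [e1, e2]
      simp only [ContinuousLinearMap.prod_apply, ContinuousLinearMap.comp_apply,
        ContinuousLinearMap.coe_fst', ContinuousLinearMap.coe_snd']
      rw [hP.dlin_snd m hm v, q_der v hv1]
      ext <;> simp

end Pool.Agent.Work.MP_0d206b_gt.MCompatRg

end
end

/-! ### from I_CompatSymm.lean -/

section

set_option autoImplicit false

open Set Filter Topology
open scoped ContDiff

noncomputable section

namespace Pool.Agent.Work.MP_0d206b_gt.MCompatSymm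

open Pool.Agent.Work.MP_0d206b_gt
open MP0d206b.Et (shift shift_zero shift_eq_add)

/-- decomposition in a basis `a, b, (0, 1)` -/
theorem decomp (a b v : E) (hd : a.1.1 * b.1.2 - a.1.2 * b.1.1 ≠ 0) :
    ∃ p q r : ℝ, v = p • a + q • b + r • ((0, 1) : E) := by
  refine ⟨(v.1.1 * b.1.2 - v.1.2 * b.1.1) / (a.1.1 * b.1.2 - a.1.2 * b.1.1),
    (a.1.1 * v.1.2 - a.1.2 * v.1.1) / (a.1.1 * b.1.2 - a.1.2 * b.1.1),
    v.2 - (v.1.1 * b.1.2 - v.1.2 * b.1.1) / (a.1.1 * b.1.2 - a.1.2 * b.1.1) * a.2 -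
      (a.1.1 * v.1.2 - a.1.2 * v.1.1) / (a.1.1 * b.1.2 - a.1.2 * b.1.1) * b.2, ?_⟩
  refine Prod.ext (Prod.ext ?_ ?_) ?_
  · simp only [Prod.fst_add, Prod.smul_fst, Prod.fst_zero, smul_eq_mul, mul_zero, add_zero]
    rw [div_mul_eq_mul_div, div_mul_eq_mul_div, ← add_div, eq_div_iff hd]
    ring
  · simp only [Prod.fst_add, Prod.smul_fst, Prod.snd_add, Prod.smul_snd, Prod.snd_zero,
      smul_eq_mul, mul_zero, add_zero]
    rw [div_mul_eq_mul_div, div_mul_eq_mul_div, ← add_div, eq_div_iff hd]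
    ring
  · simp only [Prod.snd_add, Prod.smul_snd, smul_eq_mul, mul_one]
    ring

theorem indep0 (a b : E) (p q r : ℝ) (hd : a.1.1 * b.1.2 - a.1.2 * b.1.1 ≠ 0)
    (h : p • a + q • b + r • ((0, 1) : E) = 0) : p = 0 ∧ q = 0 ∧ r = 0 := by
  have h1 := congrArg (fun z : E => z.1.1) h
  have h2 := congrArg (fun z : E => z.1.2) h
  have h3 := congrArg (fun z : E => z.2) h
  simp only [Prod.fst_add, Prod.smul_fst, Prod.fst_zero, Prod.snd_zero, Prod.snd_add, Prod.smul_snd,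
    smul_eq_mul, mul_zero, add_zero, mul_one] at h1 h2 h3
  have hp : p * (a.1.1 * b.1.2 - a.1.2 * b.1.1) = 0 := by linear_combination b.1.2 * h1 - b.1.1 * h2
  have hq : q * (a.1.1 * b.1.2 - a.1.2 * b.1.1) = 0 := by linear_combination a.1.1 * h2 - a.1.2 * h1
  have hp0 := (mul_eq_zero.1 hp).resolve_right hd
  have hq0 := (mul_eq_zero.1 hq).resolve_right hd
  refine ⟨hp0, hq0, ?_⟩
  rw [hp0, hq0] at h3
  linarith

theorem prf : StCompatSymm := by
  intro ι dom glue es eu hA hT hF i j h e e' he hee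
  have hs : glue i e' j e := hA.glue_symm _ _ _ _ hee
  have he' : e' ∈ dom i := hA.glue_dom _ _ _ _ he hee
  obtain ⟨g, hg, hge, hev, ⟨c, hc, hcs⟩, ⟨c', hc', hcu⟩⟩ := h e' e he' hs
  have hgd : DifferentiableAt ℝ g e' := hg.differentiableAt (by simp)
  have hgf : HasFDerivAt g (fderiv ℝ g e') e' := hgd.hasFDerivAt
  have hd := hF.indep i e' he'
  have hd' := hF.indep j e he
  -- the flow direction
  have hL : fderiv ℝ g e' ((0, 1) : E) = ((0, 1) : E) := by
    have hk : ∀ x : E, HasDerivAt (fun s : ℝ => shift s x) ((0, 1) : E) 0 := by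
      intro x
      have h1 : (fun s : ℝ => shift s x) = fun s : ℝ => x + s • ((0, 1) : E) := by
        funext s
        rw [shift_eq_add]
        congr 1
        refine Prod.ext ?_ ?_
        · simp
        · simp
      rw [h1]
      have h2 := ((hasDerivAt_id (0 : ℝ)).smul_const ((0, 1) : E)).const_add x
      simpa using h2
    have hc0 : Tendsto (fun s : ℝ => shift s e') (𝓝 0) (𝓝 e') := by
      have h1 := (hk e').continuousAt.tendsto
      rwa [shift_zero] at h1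
    have hev2 : (fun s : ℝ => g (shift s e')) =ᶠ[𝓝 0] fun s => shift s e := by
      filter_upwards [hc0.eventually hev] with s hs1
      have h2 := hA.glue_shift _ _ _ _ s hs
      have h3 := hT _ _ _ _ _ _ (hA.glue_symm _ _ _ _ hs1) h2
      exact (hA.glue_self _ _ _).1 h3
    have h1 : HasDerivAt (fun s : ℝ => g (shift s e')) (fderiv ℝ g e' ((0, 1) : E)) 0 := by
      have h2 : HasFDerivAt g (fderiv ℝ g e') (shift 0 e') := by rw [shift_zero]; exact hgf
      exact h2.comp_hasDerivAt (0 : ℝ) (hk e')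
    exact h1.unique ((hk e).congr_of_eventuallyEq hev2)
  -- injectivity
  have hinj : Function.Injective (fderiv ℝ g e') := by
    rw [injective_iff_map_eq_zero]
    intro v hv
    obtain ⟨p, q, r, hpq⟩ := decomp (es i e') (eu i e') v hd
    have h1 : (p * c) • es j e + (q * c') • eu j e + r • ((0, 1) : E) = 0 := by
      rw [← hv, hpq, map_add, map_add, map_smul, map_smul, map_smul, hcs, hcu, hL, smul_smul,
        smul_smul]
    obtain ⟨h2, h3, h4⟩ := indep0 _ _ _ _ _ hd' h1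
    have h5 := (mul_eq_zero.1 h2).resolve_right hc
    have h6 := (mul_eq_zero.1 h3).resolve_right hc'
    rw [hpq, h5, h6, h4]
    simp
  let L' : E ≃L[ℝ] E := (LinearEquiv.ofInjectiveEndo (fderiv ℝ g e').toLinearMap hinj).toContinuousLinearEquiv
  have hL' : (L' : E →L[ℝ] E) = fderiv ℝ g e' := by
    ext <;> rfl
  have hgf' : HasFDerivAt g (L' : E →L[ℝ] E) e' := by rw [hL']; exact hgf
  have hn : (∞ : WithTop ℕ∞) ≠ 0 := by simp
  have hst := hg.hasStrictFDerivAt' hgf' hn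
  have hk1 := hg.to_localInverse hgf' hn
  have hk2 := hg.localInverse_apply_image hgf' hn
  have hk3 : ∀ᶠ z in 𝓝 (g e'), g (hg.localInverse hgf' hn z) = z := hst.eventually_right_inverse
  rw [hge] at hk1 hk2 hk3
  have hkd : HasFDerivAt (hg.localInverse hgf' hn) (fderiv ℝ (hg.localInverse hgf' hn) e) e :=
    (hk1.differentiableAt (by simp)).hasFDerivAt
  have hcomp : ∀ v : E, fderiv ℝ g e' (fderiv ℝ (hg.localInverse hgf' hn) e v) = v := by
    intro v
    have h1 : HasFDerivAt g (fderiv ℝ g e') (hg.localInverse hgf' hn e) := by rw [hk2]; exact hgf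
    have h2 := h1.comp e hkd
    have h3 : HasFDerivAt (fun z : E => z) (ContinuousLinearMap.id ℝ E) e := hasFDerivAt_id e
    have h4 := h3.congr_of_eventuallyEq (f₁ := g ∘ hg.localInverse hgf' hn) hk3
    have h5 := h2.unique h4
    exact congrArg (fun A : E →L[ℝ] E => A v) h5
  refine ⟨hg.localInverse hgf' hn, hk1, hk2, ?_, ⟨c⁻¹, inv_ne_zero hc, ?_⟩, ⟨c'⁻¹, inv_ne_zero hc', ?_⟩⟩
  · have hcont : Tendsto (hg.localInverse hgf' hn) (𝓝 e) (𝓝 e') := by
      have h1 := hk1.continuousAt.tendsto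
      rwa [hk2] at h1
    filter_upwards [hk3, hcont.eventually hev] with z hz1 hz2
    rw [hz1] at hz2
    exact hA.glue_symm _ _ _ _ hz2
  · apply hinj
    rw [hcomp, map_smul, hcs, smul_smul, inv_mul_cancel₀ hc, one_smul]
  · apply hinj
    rw [hcomp, map_smul, hcu, smul_smul, inv_mul_cancel₀ hc', one_smul]

end Pool.Agent.Work.MP_0d206b_gt.MCompatSymm

end
end

/-! ### from I_ContrSA.lean -/

section

/-! MP_0d206b_gt, module M: flow a, pointwise contraction of `E^s`. -/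

set_option autoImplicit false

open Set Filter Topology
open scoped ContDiff

noncomputable section

namespace Pool.Agent.Work.MP_0d206b_gt.MContrSA

open MP0d206b.Et (shift)

/-- the assertion for one point -/
def Good1 (D : DA) (i : IdxA) (e : E) : Prop :=
  ∃ (j : IdxA) (K : Set E), IsCompact K ∧ K ⊆ domA j ∧ ∀ δ > 0, ∃ t > 0, ∃ a : Grp,
    iactA a i = j ∧ actA D a i (shift (1 * t) e) ∈ K ∧
      ∃ c : ℝ, |c| < δ ∧ fderiv ℝ (actA D a i) (shift (1 * t) e) (esA D i e) =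
        c • esA D j (actA D a i (shift (1 * t) e))

lemma der (g : P2 → P2) (hg : Differentiable ℝ g) (m : P2) (s : ℝ) (p u : E) :
    fderiv ℝ (fun e : E => ((g e.1 + m, e.2 + s) : E)) p u = (fderiv ℝ g p.1 u.1, u.2) := by
  have h1 : HasFDerivAt (fun e : E => g e.1 + m)
      ((fderiv ℝ g p.1).comp (ContinuousLinearMap.fst ℝ P2 ℝ)) p :=
    (((hg p.1).hasFDerivAt).comp p hasFDerivAt_fst).add_const m
  have h2 : HasFDerivAt (fun e : E => e.2 + s) (ContinuousLinearMap.snd ℝ P2 ℝ) p :=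
    hasFDerivAt_snd.add_const s
  rw [(h1.prodMk h2).fderiv]
  rfl

lemma diff {D : DA} (P : PowFacts D) (j : ℤ) : Differentiable ℝ (fun z => (D.Fe ^ j) z) :=
  (P.smooth j).differentiable (by simp)

lemma sg_smul_mem (s : Bool) {m : P2} (hm : m ∈ Gam) : sg s • m ∈ Gam := by
  cases s
  · have : sg false • m = -m := by simp [sg]
    rw [this]
    exact Gam.neg_mem hm
  · have : sg true • m = m := by simp [sg]
    rw [this]
    exact hm

lemma sg_sq (s : Bool) : sg s * sg s = 1 := by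
  cases s <;> simp [sg]

lemma sg_smul_smul (s : Bool) (m : P2) : sg s • (sg s • m) = m := by
  rw [smul_smul, sg_sq, one_smul]

lemma caseA (D : DA) (F : Facts D) (s : Bool) (e : E) (he : e.1 ∉ Gam) :
    Good1 D (.A s) e := by
  obtain ⟨K1, hc, hs, hK⟩ := F.orb.fwd e.1 he
  refine ⟨.A s, K1 ×ˢ {e.2}, hc.prod isCompact_singleton, fun x hx => hs hx.1, ?_⟩
  intro δ hδ
  have h1 := (Metric.tendsto_nhds.mp (D.contr e.1 he) δ hδ).and (eventually_ge_atTop 1)
  obtain ⟨n, hn, hn1⟩ := h1.exists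
  obtain ⟨m, hm⟩ := hK n
  refine ⟨n, by exact_mod_cast hn1, ⟨⟨sg s • (m : P2), sg_smul_mem s m.2⟩, n⟩, rfl, ?_, ?_⟩
  · refine ⟨?_, ?_⟩
    · show (D.Fe ^ (n : ℤ)) e.1 + sg s • (sg s • (m : P2)) ∈ K1
      rw [sg_smul_smul]
      exact hm
    · show e.2 + 1 * (n : ℝ) - (((n : ℤ) : ℝ)) = e.2
      push_cast
      ring
  · refine ⟨∏ k ∈ Finset.range n, dy D.F (D.F^[k] e.1), ?_, ?_⟩
    · rwa [Real.dist_eq, sub_zero] at hn
    · have hfun : actA D ⟨⟨sg s • (m : P2), sg_smul_mem s m.2⟩, n⟩ (.A s)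
          = fun x : E => ((D.Fe ^ (n : ℤ)) x.1 + sg s • (sg s • (m : P2)),
            x.2 + -(((n : ℤ) : ℝ))) := by
        funext x
        show ((D.Fe ^ (n : ℤ)) x.1 + sg s • (sg s • (m : P2)), x.2 - (((n : ℤ) : ℝ))) = _
        rw [sub_eq_add_neg]
      have h2 := der (fun z => (D.Fe ^ (n : ℤ)) z) (diff F.pow n) (sg s • (sg s • (m : P2)))
        (-(((n : ℤ) : ℝ))) (shift (1 * (n : ℝ)) e) (esA D (.A s) e)
      rw [hfun, h2]
      show (fderiv ℝ (fun z => (D.Fe ^ (n : ℤ)) z) e.1 (0, 1), (0 : ℝ)) = _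
      rw [F.pow.der_v_nat n e.1]
      show _ = (∏ k ∈ Finset.range n, dy D.F (D.F^[k] e.1)) • (((0, 1), 0) : E)
      simp [Prod.smul_mk]

lemma exN (F : LogFacts) {δ : ℝ} (hδ : 0 < δ) : ∃ n : ℕ, |lam ^ (-(n : ℤ))| < δ ∧ 1 ≤ n := by
  have hl := F.one_lt
  have hl0 : (0 : ℝ) < lam := zero_lt_one.trans hl
  have h1 := (Metric.tendsto_nhds.mp (tendsto_pow_atTop_nhds_zero_of_lt_one
    (inv_nonneg.mpr hl0.le) (inv_lt_one_of_one_lt₀ hl)) δ hδ).and (eventually_ge_atTop 1)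
  obtain ⟨n, hn, hn1⟩ := h1.exists
  refine ⟨n, ?_, hn1⟩
  rw [zpow_neg, zpow_natCast, ← inv_pow]
  simpa [Real.dist_eq] using hn

lemma caseR (D : DA) (F : Facts D) (e : E) (he : e.1 ∈ D.Lam) : Good1 D .R e := by
  obtain ⟨K2, hc, hs, hK⟩ := F.orb.bwd
  refine ⟨.R, K2 ×ˢ {e.2}, hc.prod isCompact_singleton, fun x hx => hs hx.1, ?_⟩
  intro δ hδ
  obtain ⟨n, hn, hn1⟩ := exN F.log hδ
  obtain ⟨m, hm⟩ := hK e.1 he (-(n : ℤ))
  refine ⟨n, by exact_mod_cast hn1, ⟨m, -(n : ℤ)⟩, rfl, ?_, ?_⟩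
  · refine ⟨hm, ?_⟩
    show e.2 + 1 * (n : ℝ) + (((-(n : ℤ) : ℤ) : ℝ)) = e.2
    push_cast
    ring
  · refine ⟨lam ^ (-(n : ℤ)), hn, ?_⟩
    have hfun : actA D ⟨m, -(n : ℤ)⟩ .R
        = fun x : E => ((D.Fe ^ (-(n : ℤ))) x.1 + (m : P2), x.2 + (((-(n : ℤ) : ℤ) : ℝ))) := rfl
    have h2 := der (fun z => (D.Fe ^ (-(n : ℤ))) z) (diff F.pow _) (m : P2)
      (((-(n : ℤ) : ℤ) : ℝ)) (shift (1 * (n : ℝ)) e) (esA D .R e)
    rw [hfun, h2]
    have hL : (D.Fe ^ (-(n : ℤ))) e.1 ∈ D.Lam := (F.pow.Lam _ _).mpr he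
    have hG := F.psi.Lam_gam _ hL
    show (fderiv ℝ (fun z => (D.Fe ^ (-(n : ℤ))) z) e.1 (1, D.sigma e.1), D.Ka e.1)
      = lam ^ (-(n : ℤ)) • (((1, D.sigma ((D.Fe ^ (-(n : ℤ))) e.1 + (m : P2))),
        D.Ka ((D.Fe ^ (-(n : ℤ))) e.1 + (m : P2))) : E)
    rw [F.sig.sigma_add _ hG _ m.2, F.sig.sigma_lam _ he, F.sig.sigma_lam _ hL, F.pow.der_S,
      F.sig.Ka_lam _ he, F.sig.Ka_add _ hG _ m.2, F.sig.Ka_lam _ hL]
    simp [Prod.smul_mk]

lemma caseG (D : DA) (F : Facts D) (m : Gam) (e : E) (he : e.1.1 = 0) : Good1 D (.g m) e := by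
  refine ⟨.g 0, ({0} ×ˢ Icc (-|e.1.2|) |e.1.2|) ×ˢ {e.2},
    (isCompact_singleton.prod isCompact_Icc).prod isCompact_singleton, fun _ _ => mem_univ _, ?_⟩
  intro δ hδ
  obtain ⟨n, hn, hn1⟩ := exN F.log hδ
  have hl := F.log.one_lt
  have hl0 : (0 : ℝ) < lam := zero_lt_one.trans hl
  have hle : |lam ^ (-(n : ℤ))| ≤ 1 := by
    rw [abs_of_pos (zpow_pos hl0 _), zpow_neg, zpow_natCast]
    exact inv_le_one_of_one_le₀ (one_le_pow₀ hl.le)
  refine ⟨n, by exact_mod_cast hn1, ⟨-Grp.LG (-(n : ℤ)) m, -(n : ℤ)⟩, ?_, ?_, ?_⟩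
  · show IdxA.g (Grp.LG (-(n : ℤ)) m + -Grp.LG (-(n : ℤ)) m) = IdxA.g 0
    rw [add_neg_cancel]
  · refine ⟨⟨?_, ?_⟩, ?_⟩
    · show lam ^ (-(-(n : ℤ))) * e.1.1 = 0
      rw [he, mul_zero]
    · show lam ^ (-(n : ℤ)) * e.1.2 ∈ Icc (-|e.1.2|) |e.1.2|
      rw [mem_Icc, ← abs_le, abs_mul]
      exact mul_le_of_le_one_left (abs_nonneg _) hle
    · show e.2 + 1 * (n : ℝ) + (((-(n : ℤ) : ℤ) : ℝ)) = e.2
      push_cast
      ring
  · refine ⟨lam ^ (-(n : ℤ)), hn, ?_⟩
    have hfun : actA D ⟨-Grp.LG (-(n : ℤ)) m, -(n : ℤ)⟩ (.g m)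
        = fun x : E => (((lam ^ (-(-(n : ℤ))) * x.1.1, lam ^ (-(n : ℤ)) * x.1.2) : P2) + 0,
          x.2 + (((-(n : ℤ) : ℤ) : ℝ))) := by
      funext x
      rw [add_zero]
      rfl
    have hd : ∀ (a b : ℝ) (z : P2), HasFDerivAt (fun x : P2 => ((a * x.1, b * x.2) : P2))
        ((a • ContinuousLinearMap.fst ℝ ℝ ℝ).prod (b • ContinuousLinearMap.snd ℝ ℝ ℝ)) z := by
      intro a b z
      exact (hasFDerivAt_fst.const_mul a).prodMk (hasFDerivAt_snd.const_mul b)
    have h2 := der (fun x : P2 => (lam ^ (-(-(n : ℤ))) * x.1, lam ^ (-(n : ℤ)) * x.2))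
      (fun z => (hd _ _ z).differentiableAt) 0
      (((-(n : ℤ) : ℤ) : ℝ)) (shift (1 * (n : ℝ)) e) (esA D (.g m) e)
    rw [hfun, h2, (hd _ _ _).fderiv]
    have h3 : ∀ (m : Gam) (x : E), x.1.1 = 0 → esA D (.g m) x = ((0, 1), 0) := by
      intro m x hx
      show (((0, 1), 2 * x.1.2 * x.1.1 ^ 2 / (Real.log lam * (1 + x.1.1 ^ 2 * x.1.2 ^ 2))) : E)
        = ((0, 1), 0)
      rw [hx]
      simp
    rw [h3 m e he, h3 0 _ (by
      show lam ^ (-(-(n : ℤ))) * e.1.1 + 0 = 0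
      rw [he, mul_zero, add_zero])]
    simp [Prod.smul_mk]

lemma exSg {x : ℝ} (hx : x ≠ 0) : ∃ s : Bool, 0 < sg s * x := by
  rcases lt_or_gt_of_ne hx with h | h
  · exact ⟨false, by simp [sg]; exact h⟩
  · exact ⟨true, by simp [sg]; exact h⟩

theorem prf : StContrSA := by
  intro D F i e he
  rcases i with _ | s | m
  · by_cases hL : e.1 ∈ D.Lam
    · exact ⟨.R, e, rfl, caseR D F e hL⟩
    · obtain ⟨m, hm, v, hv⟩ := F.psi.notLam _ hL
      have hv0 : v ≠ 0 := by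
        intro h
        exact he (show e.1 ∈ Gam by rw [hv]; exact (F.psi.mem_gam m hm v).mpr h)
      by_cases h2 : v.2 = 0
      · have h1 : v.1 ≠ 0 := fun h1 => hv0 (Prod.ext h1 h2)
        refine ⟨.g ⟨m, hm⟩, ((v.2 / (v.1 ^ 2 - v.2 ^ 2), 2 * v.1), e.2),
          ⟨v, ?_, hv, rfl, rfl⟩, caseG D F _ _ ?_⟩
        · rw [h2, abs_zero]
          exact abs_pos.2 h1
        · show v.2 / (v.1 ^ 2 - v.2 ^ 2) = 0
          rw [h2, zero_div]
      · obtain ⟨s, hs⟩ := exSg h2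
        have h3 : (sg s • v).2 ≠ 0 := by
          show sg s * v.2 ≠ 0
          exact hs.ne'
        have hG : (sg s • m + D.Psi (gmap (sg s • v))) ∉ Gam := fun h =>
          F.g.gmap_ne _ h3 ((F.psi.mem_gam _ (sg_smul_mem s hm) _).mp h)
        exact ⟨.A s, (sg s • m + D.Psi (gmap (sg s • v)), e.2 - llog (nsq (gmap (sg s • v)))),
          ⟨m, hm, v, hs, hv, rfl, rfl⟩, caseA D F s _ hG⟩
  · exact ⟨.A s, e, ⟨rfl, rfl⟩, caseA D F s e he⟩
  · by_cases h0 : e.1.1 = 0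
    · exact ⟨.g m, e, ⟨rfl, rfl⟩, caseG D F m e h0⟩
    · obtain ⟨s, hs⟩ := exSg h0
      have hsg := sg_sq s
      have hs0 : sg s ≠ 0 := fun h => by rw [h] at hsg; simp at hsg
      have hw1 : 0 < sg s / e.1.1 := by
        have : sg s / e.1.1 = (sg s * e.1.1) / (e.1.1 ^ 2) := by
          field_simp
        rw [this]
        positivity
      have hG : (sg s • (m : P2) + D.Psi (sg s / e.1.1, sg s * e.1.2)) ∉ Gam := fun h => by
        have := (F.psi.mem_gam _ (sg_smul_mem s m.2) _).mp h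
        have h1 : sg s / e.1.1 = 0 := congrArg Prod.fst this
        exact hw1.ne' h1
      refine ⟨.A s, (sg s • (m : P2) + D.Psi (sg s / e.1.1, sg s * e.1.2),
        e.2 - llog (nsq (sg s / e.1.1, sg s * e.1.2))),
        ⟨(sg s / e.1.1, sg s * e.1.2), hw1, rfl, ?_, ?_⟩, caseA D F s _ hG⟩
      · refine Prod.ext ?_ ?_
        · show e.1.1 = sg s / (sg s / e.1.1)
          field_simp
        · show e.1.2 = sg s * (sg s * e.1.2)
          rw [← mul_assoc, hsg, one_mul]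
      · show e.2 = e.2 - llog (nsq (sg s / e.1.1, sg s * e.1.2))
          + llog (nsq (sg s / e.1.1, sg s * e.1.2))
        ring

end Pool.Agent.Work.MP_0d206b_gt.MContrSA

end
end

/-! ### from I_ContrUA.lean -/

section

/-! Item ContrUA: flow a, pointwise contraction of the unstable field in negative time. -/

set_option autoImplicit false

open Set Filter Topology
open scoped ContDiff

noncomputable section

namespace Pool.Agent.Work.MP_0d206b_gt.MContrUA

open MP0d206b.Et (shift)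

/-- derivative of a map of the form `(T z + m, τ + s)` -/
theorem fderiv_act (T : P2 → P2) (hT : ContDiff ℝ ∞ T) (m : P2) (s : ℝ) (p v : E) :
    fderiv ℝ (fun e : E => ((T e.1 + m, e.2 + s) : E)) p v = (fderiv ℝ T p.1 v.1, v.2) := by
  have h0 : HasFDerivAt T (fderiv ℝ T p.1) p.1 :=
    ((hT.differentiable (by simp)) p.1).hasFDerivAt
  have h1 : HasFDerivAt (fun e : E => T e.1 + m)
      ((fderiv ℝ T p.1).comp (ContinuousLinearMap.fst ℝ P2 ℝ)) p :=
    (h0.comp p hasFDerivAt_fst).add_const m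
  have h2 : HasFDerivAt (fun e : E => e.2 + s) (ContinuousLinearMap.snd ℝ P2 ℝ) p :=
    hasFDerivAt_snd.add_const s
  rw [(h1.prodMk h2).fderiv]
  rfl

/-- derivative of a diagonal map -/
theorem fderiv_diag (x y s : ℝ) (p v : E) :
    fderiv ℝ (fun e : E => (((x * e.1.1, y * e.1.2), e.2 + s) : E)) p v =
      ((x * v.1.1, y * v.1.2), v.2) := by
  have h11 : HasFDerivAt (fun e : E => e.1.1)
      ((ContinuousLinearMap.fst ℝ ℝ ℝ).comp (ContinuousLinearMap.fst ℝ P2 ℝ)) p :=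
    ((ContinuousLinearMap.fst ℝ ℝ ℝ).comp (ContinuousLinearMap.fst ℝ P2 ℝ)).hasFDerivAt
  have h12 : HasFDerivAt (fun e : E => e.1.2)
      ((ContinuousLinearMap.snd ℝ ℝ ℝ).comp (ContinuousLinearMap.fst ℝ P2 ℝ)) p :=
    ((ContinuousLinearMap.snd ℝ ℝ ℝ).comp (ContinuousLinearMap.fst ℝ P2 ℝ)).hasFDerivAt
  have h2 : HasFDerivAt (fun e : E => e.2 + s) (ContinuousLinearMap.snd ℝ P2 ℝ) p :=
    hasFDerivAt_snd.add_const s
  rw [(((h11.const_mul x).prodMk (h12.const_mul y)).prodMk h2).fderiv]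
  rfl

theorem sg_sq (s : Bool) : sg s * sg s = 1 := by
  cases s <;> simp [sg]

theorem sg_smul_sg (s : Bool) (m : P2) : sg s • sg s • m = m := by
  rw [smul_smul, sg_sq, one_smul]

theorem sg_mem (s : Bool) {m : P2} (hm : m ∈ Gam) : sg s • m ∈ Gam := by
  cases s
  · have : sg false • m = -m := by simp [sg]
    rw [this]
    exact Gam.neg_mem hm
  · have : sg true • m = m := by simp [sg]
    rw [this]
    exact hm

/-- powers of `1 / λ` are small -/
theorem small (hF : LogFacts) {δ : ℝ} (hδ : 0 < δ) : ∃ n : ℕ, |lam ^ (-((n + 1 : ℕ) : ℤ))| < δ := by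
  have hlam := hF.one_lt
  have hlt : Tendsto (fun n : ℕ => lam⁻¹ ^ n) atTop (𝓝 0) :=
    tendsto_pow_atTop_nhds_zero_of_lt_one (by positivity) (inv_lt_one_of_one_lt₀ hlam)
  rw [Metric.tendsto_atTop] at hlt
  obtain ⟨n₀, hn₀⟩ := hlt δ hδ
  have hn := hn₀ (n₀ + 1) (Nat.le_succ n₀)
  refine ⟨n₀, ?_⟩
  rw [Real.dist_eq, sub_zero] at hn
  rw [zpow_neg, zpow_natCast, ← inv_pow]
  exact hn

/-- the conclusion of the contraction property at one point -/
def Con (D : DA) (i : IdxA) (e : E) : Prop := ∃ (j : IdxA) (K : Set E), IsCompact K ∧ K ⊆ domA j ∧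
  ∀ δ > 0, ∃ t > 0, ∃ a : Grp, iactA a i = j ∧ actA D a i (shift (-1 * t) e) ∈ K ∧
    ∃ c : ℝ, |c| < δ ∧ fderiv ℝ (actA D a i) (shift (-1 * t) e) (euA D i e) =
      c • euA D j (actA D a i (shift (-1 * t) e))

theorem caseR (D : DA) (hF : Facts D) (e : E) (he : e.1 ∉ Gam) : Con D .R e := by
  obtain ⟨K, hK, hKG, hKn⟩ := hF.orb.fwd e.1 he
  refine ⟨.R, K ×ˢ {e.2}, hK.prod isCompact_singleton, ?_, ?_⟩
  · rintro x ⟨hx, -⟩
    exact hKG hx
  · intro δ hδ
    have hc := D.contr e.1 he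
    rw [Metric.tendsto_atTop] at hc
    obtain ⟨n₀, hn₀⟩ := hc δ hδ
    have hn := hn₀ (n₀ + 1) (Nat.le_succ n₀)
    obtain ⟨m, hm⟩ := hKn (n₀ + 1)
    refine ⟨((n₀ + 1 : ℕ) : ℝ), by positivity, ⟨m, ((n₀ + 1 : ℕ) : ℤ)⟩, rfl, ?_, ?_⟩
    · refine ⟨hm, ?_⟩
      simp only [actA, shift, mem_singleton_iff]
      push_cast
      ring
    · refine ⟨∏ k ∈ Finset.range (n₀ + 1), dy D.F (D.F^[k] e.1), ?_, ?_⟩
      · rw [Real.dist_eq, sub_zero] at hn
        exact hn
      · have h1 : actA D (⟨m, ((n₀ + 1 : ℕ) : ℤ)⟩ : Grp) .R =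
            fun e : E => (((D.Fe ^ ((n₀ + 1 : ℕ) : ℤ)) e.1 + (m : P2),
              e.2 + (((n₀ + 1 : ℕ) : ℤ) : ℝ)) : E) := rfl
        rw [h1, fderiv_act (fun z => (D.Fe ^ ((n₀ + 1 : ℕ) : ℤ)) z) (hF.pow.smooth _)]
        simp only [euA, shift]
        rw [hF.pow.der_v_nat]
        ext <;> simp

theorem caseg (D : DA) (hF : Facts D) (m : Gam) (e : E) (he : e.1.2 = 0) : Con D (.g m) e := by
  refine ⟨.g 0, (Icc (-|e.1.1|) |e.1.1| ×ˢ {0}) ×ˢ {e.2},
    (isCompact_Icc.prod isCompact_singleton).prod isCompact_singleton, subset_univ _, ?_⟩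
  intro δ hδ
  obtain ⟨n, hn⟩ := small hF.log hδ
  have hle : |lam ^ (-((n + 1 : ℕ) : ℤ))| ≤ 1 := by
    have h1 : 1 ≤ lam ^ (n + 1) := one_le_pow₀ hF.log.one_lt.le
    rw [zpow_neg, zpow_natCast, abs_inv, abs_of_pos (by positivity)]
    exact inv_le_one_of_one_le₀ h1
  refine ⟨((n + 1 : ℕ) : ℝ), by positivity, ⟨-Grp.LG ((n + 1 : ℕ) : ℤ) m, ((n + 1 : ℕ) : ℤ)⟩,
    ?_, ?_, ?_⟩
  · show IdxA.g (Grp.LG ((n + 1 : ℕ) : ℤ) m + -Grp.LG ((n + 1 : ℕ) : ℤ) m) = IdxA.g 0
    rw [add_neg_cancel]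
  · refine ⟨⟨?_, ?_⟩, ?_⟩
    · show lam ^ (-((n + 1 : ℕ) : ℤ)) * e.1.1 ∈ Icc (-|e.1.1|) |e.1.1|
      rw [mem_Icc, ← abs_le, abs_mul]
      exact mul_le_of_le_one_left (abs_nonneg _) hle
    · show lam ^ ((n + 1 : ℕ) : ℤ) * e.1.2 = 0
      rw [he, mul_zero]
    · show e.2 + -1 * ((n + 1 : ℕ) : ℝ) + (((n + 1 : ℕ) : ℤ) : ℝ) = e.2
      push_cast
      ring
  · refine ⟨lam ^ (-((n + 1 : ℕ) : ℤ)), hn, ?_⟩
    have h1 : actA D (⟨-Grp.LG ((n + 1 : ℕ) : ℤ) m, ((n + 1 : ℕ) : ℤ)⟩ : Grp) (.g m) =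
        fun e : E => (((lam ^ (-((n + 1 : ℕ) : ℤ)) * e.1.1, lam ^ ((n + 1 : ℕ) : ℤ) * e.1.2),
          e.2 + (((n + 1 : ℕ) : ℤ) : ℝ)) : E) := rfl
    rw [h1, fderiv_diag]
    ext <;> simp [euA]

theorem caseLam (D : DA) (hF : Facts D) (s : Bool) (e : E) (hL : e.1 ∈ D.Lam) :
    Con D (.A s) e := by
  obtain ⟨K, hK, hKG, hKn⟩ := hF.orb.bwd
  refine ⟨.A s, K ×ˢ {e.2}, hK.prod isCompact_singleton, ?_, ?_⟩
  · rintro x ⟨hx, -⟩
    exact hKG hx
  · intro δ hδ
    obtain ⟨n, hn⟩ := small hF.log hδ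
    obtain ⟨m, hm⟩ := hKn e.1 hL (-((n + 1 : ℕ) : ℤ))
    refine ⟨((n + 1 : ℕ) : ℝ), by positivity,
      ⟨⟨sg s • (m : P2), sg_mem s m.2⟩, -((n + 1 : ℕ) : ℤ)⟩, rfl, ?_, ?_⟩
    · refine ⟨?_, ?_⟩
      · show (D.Fe ^ (-((n + 1 : ℕ) : ℤ))) e.1 + sg s • sg s • (m : P2) ∈ K
        rw [sg_smul_sg]
        exact hm
      · show e.2 + -1 * ((n + 1 : ℕ) : ℝ) - ((-((n + 1 : ℕ) : ℤ) : ℤ) : ℝ) = e.2
        push_cast
        ring
    · refine ⟨lam ^ (-((n + 1 : ℕ) : ℤ)), hn, ?_⟩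
      have h1 : actA D (⟨⟨sg s • (m : P2), sg_mem s m.2⟩, -((n + 1 : ℕ) : ℤ)⟩ : Grp) (.A s) =
          fun e : E => (((D.Fe ^ (-((n + 1 : ℕ) : ℤ))) e.1 + (m : P2),
            e.2 + -(((-((n + 1 : ℕ) : ℤ) : ℤ)) : ℝ)) : E) := by
        funext e
        simp only [actA, sub_eq_add_neg, sg_smul_sg]
      have hz' : (D.Fe ^ (-((n + 1 : ℕ) : ℤ))) e.1 ∈ D.Lam := (hF.pow.Lam _ _).2 hL
      have hz'G : (D.Fe ^ (-((n + 1 : ℕ) : ℤ))) e.1 ∉ Gam := hF.psi.Lam_gam _ hz'
      rw [h1, fderiv_act (fun z => (D.Fe ^ (-((n + 1 : ℕ) : ℤ))) z) (hF.pow.smooth _)]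
      simp only [euA, shift]
      rw [hF.pow.der_S, hF.sig.K0_lam _ hL, D.S_add _ _ m.2,
        hF.sig.K0_add _ hz'G _ m.2, hF.sig.K0_lam _ hz']
      ext <;> simp

/-- solution of the gluing equation of a saddle piece -/
theorem solve (ξ v : ℝ) (hv : v ≠ 0) : ∃ t : ℝ, |t| < |v| ∧ t / (v ^ 2 - t ^ 2) = ξ := by
  set r : ℝ := Real.sqrt (1 + 4 * ξ ^ 2 * v ^ 2) with hr
  have hrr : r ^ 2 = 1 + 4 * ξ ^ 2 * v ^ 2 := Real.sq_sqrt (by positivity)
  have hr0 : 0 ≤ r := Real.sqrt_nonneg _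
  have hr1 : 0 < 1 + r := by positivity
  have hv2 : 0 < v ^ 2 := by positivity
  refine ⟨2 * ξ * v ^ 2 / (1 + r), ?_, ?_⟩
  · rw [← sq_lt_sq, div_pow, div_lt_iff₀ (by positivity)]
    have h1 : (2 * ξ * v ^ 2) ^ 2 = v ^ 2 * (r ^ 2 - 1) := by rw [hrr]; ring
    rw [h1]
    nlinarith [mul_pos hv2 hr1, mul_nonneg hv2.le hr0]
  · have hne : v ^ 2 - (2 * ξ * v ^ 2 / (1 + r)) ^ 2 = 2 * v ^ 2 / (1 + r) := by
      have h1 : (2 * ξ * v ^ 2) ^ 2 = v ^ 2 * (r ^ 2 - 1) := by rw [hrr]; ring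
      rw [div_pow, h1]
      field_simp
      ring
    rw [hne]
    field_simp

theorem prf : StContrUA := by
  intro D hF i e he
  show ∃ i' e', glueA D i e i' e' ∧ Con D i' e'
  cases i with
  | R => exact ⟨.R, e, rfl, caseR D hF e he⟩
  | g m =>
    by_cases h0 : e.1.2 = 0
    · exact ⟨.g m, e, ⟨rfl, rfl⟩, caseg D hF m e h0⟩
    · have hv : e.1.2 / 2 ≠ 0 := div_ne_zero h0 two_ne_zero
      obtain ⟨t, ht1, ht2⟩ := solve e.1.1 (e.1.2 / 2) hv
      refine ⟨.R, ((m : P2) + D.Psi (e.1.2 / 2, t), e.2), ⟨(e.1.2 / 2, t), ht1, rfl, ?_, rfl⟩, ?_⟩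
      · refine Prod.ext ht2.symm ?_
        show e.1.2 = 2 * (e.1.2 / 2)
        ring
      · apply caseR D hF
        intro h
        have h1 := (hF.psi.mem_gam (m : P2) m.2 _).1 h
        exact hv (congrArg Prod.fst h1)
  | A s =>
    by_cases hL : e.1 ∈ D.Lam
    · exact ⟨.A s, e, ⟨rfl, rfl⟩, caseLam D hF s e hL⟩
    · obtain ⟨m, hm, w, hw⟩ := hF.psi.notLam e.1 hL
      have hw0 : w ≠ 0 := by
        intro h
        exact he (by rw [hw]; exact (hF.psi.mem_gam m hm w).2 h)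
      by_cases hs : w.2 ≠ 0 ∨ w.1 < 0
      · obtain ⟨hp, hg⟩ := hF.g.gmap_gminv w hs
        refine ⟨.R, (sg s • m + D.Psi (sg s • gminv w), e.2 + llog (nsq w)),
          ⟨sg s • m, sg_mem s hm, sg s • gminv w, ?_, rfl, ?_, ?_⟩, ?_⟩
        · show 0 < sg s * (sg s * (gminv w).2)
          rw [← mul_assoc, sg_sq, one_mul]
          exact hp
        · rw [sg_smul_sg, sg_smul_sg, hg]
          exact hw
        · rw [sg_smul_sg, hg]
          ring
        · apply caseR D hF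
          intro h
          have h1 := (hF.psi.mem_gam _ (sg_mem s hm) _).1 h
          have h2 : sg s * (gminv w).2 = 0 := congrArg Prod.snd h1
          rcases mul_eq_zero.1 h2 with h3 | h3
          · have h4 := sg_sq s
            rw [h3] at h4
            norm_num at h4
          · exact hp.ne' h3
      · push Not at hs
        obtain ⟨hw2, hw1⟩ := hs
        have hw1' : 0 < w.1 := lt_of_le_of_ne hw1 (fun h => hw0 (Prod.ext h.symm hw2))
        refine ⟨.g ⟨sg s • m, sg_mem s hm⟩, ((sg s / w.1, sg s * w.2), e.2 + llog (nsq w)),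
          ⟨w, hw1', ?_, rfl, rfl⟩, caseg D hF _ _ ?_⟩
        · show e.1 = sg s • sg s • m + D.Psi w
          rw [sg_smul_sg]
          exact hw
        · show sg s * w.2 = 0
          rw [hw2, mul_zero]

end Pool.Agent.Work.MP_0d206b_gt.MContrUA

end
end

/-! ### from I_FieldA.lean -/

section

/-!
# MP_0d206b_gt, module M: flow a, the line fields are continuous and independent
-/

set_option autoImplicit false

open Set Filter Topology
open scoped ContDiff

noncomputable section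

namespace Pool.Agent.Work.MP_0d206b_gt.MFieldA

open Pool.Agent.Work.MP_0d206b_gt
open MP0d206b.Et (shift)

theorem prf : StFieldA := by
  intro D hF
  have hlog : Real.log lam ≠ 0 := hF.log.log_pos.ne'
  have hm : MapsTo (fun e : E => e.1) {e : E | e.1 ∉ Gam} (Gam : Set P2)ᶜ := fun e he => he
  have hfst : ContinuousOn (fun e : E => e.1) {e : E | e.1 ∉ Gam} := continuous_fst.continuousOn
  refine ⟨?_, ?_, ?_, ?_, ?_⟩
  · intro i
    cases i with
    | R =>
      have h1 : ContinuousOn (fun e : E => D.sigma e.1) {e : E | e.1 ∉ Gam} :=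
        hF.sig.sigma_cont.comp hfst hm
      have h2 : ContinuousOn (fun e : E => D.Ka e.1) {e : E | e.1 ∉ Gam} :=
        hF.sig.Ka_cont.comp hfst hm
      exact (continuousOn_const.prodMk h1).prodMk h2
    | A s => exact continuousOn_const
    | g m =>
      have hne : ∀ e : E, Real.log lam * (1 + e.1.1 ^ 2 * e.1.2 ^ 2) ≠ 0 := by
        intro e
        have : 0 < 1 + e.1.1 ^ 2 * e.1.2 ^ 2 := by positivity
        exact mul_ne_zero hlog this.ne'
      have c1 : Continuous (fun e : E => e.1.1) := continuous_fst.fst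
      have c2 : Continuous (fun e : E => e.1.2) := continuous_fst.snd
      have h2 : Continuous (fun e : E => 2 * e.1.2 * e.1.1 ^ 2 /
          (Real.log lam * (1 + e.1.1 ^ 2 * e.1.2 ^ 2))) :=
        ((continuous_const.mul c2).mul (c1.pow 2)).div
          (continuous_const.mul (continuous_const.add ((c1.pow 2).mul (c2.pow 2)))) hne
      exact (continuous_const.prodMk h2).continuousOn
  · intro i
    cases i with
    | R => exact continuousOn_const
    | A s =>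
      have h1 : ContinuousOn (fun e : E => D.S e.1) {e : E | e.1 ∉ Gam} :=
        D.S_cont.comp_continuousOn hfst
      have h2 : ContinuousOn (fun e : E => - D.K0 e.1) {e : E | e.1 ∉ Gam} :=
        (hF.sig.K0_cont.comp hfst hm).neg
      exact (continuousOn_const.prodMk h1).prodMk h2
    | g m => exact continuousOn_const
  · intro i e s
    cases i <;> rfl
  · intro i e s
    cases i <;> rfl
  · intro i e _
    cases i with
    | R =>
      show (1 : ℝ) * 1 - D.sigma e.1 * 0 ≠ 0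
      simp
    | A s =>
      show (0 : ℝ) * D.S e.1 - 1 * 1 ≠ 0
      simp
    | g m =>
      show (0 : ℝ) * 0 - 1 * 1 ≠ 0
      simp

end Pool.Agent.Work.MP_0d206b_gt.MFieldA

end
end

/-! ### from I_FieldAct0.lean -/

section

/-!
# [0d206b M FieldAct0] flow 0: the action preserves the line fields
-/

set_option autoImplicit false

open Set Filter Topology
open scoped ContDiff

noncomputable section

namespace Pool.Agent.Work.MP_0d206b_gt.MFieldAct0

theorem fderiv_act {D : DA} (H : Facts D) (j : ℤ) (n : P2) (c : ℝ) (e w : E) :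
    fderiv ℝ (fun e : E => (((D.Fe ^ j) e.1 + n, e.2 + c) : E)) e w =
      (fderiv ℝ (fun z => (D.Fe ^ j) z) e.1 w.1, w.2) := by
  have h1 : HasFDerivAt (fun z => (D.Fe ^ j) z) (fderiv ℝ (fun z => (D.Fe ^ j) z) e.1) e.1 :=
    ((H.pow.smooth j).differentiable (by simp) e.1).hasFDerivAt
  have h2 : HasFDerivAt (fun e : E => (D.Fe ^ j) e.1)
      ((fderiv ℝ (fun z => (D.Fe ^ j) z) e.1).comp (ContinuousLinearMap.fst ℝ P2 ℝ)) e :=
    HasFDerivAt.comp e h1 (hasFDerivAt_fst (p := e))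
  have h3 : HasFDerivAt (fun e : E => e.2) (ContinuousLinearMap.snd ℝ P2 ℝ) e :=
    hasFDerivAt_snd (p := e)
  have h4 := (h2.add_const n).prodMk (h3.add_const c)
  rw [h4.fderiv]
  rfl

theorem prf : StFieldAct0 := by
  intro D H
  have hl : ∀ j : ℤ, lam ^ j ≠ 0 := fun j => zpow_ne_zero j lam_pos.ne'
  have key : ∀ (a : Grp) (e : E), e.1 ∉ Gam → ∀ s : ℝ,
      (fderiv ℝ (fun z => (D.Fe ^ a.j) z) e.1 (1, D.S e.1), s * D.K0 e.1) =
        lam ^ a.j • ((1, D.S ((D.Fe ^ a.j) e.1 + (a.n : P2))),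
          s * D.K0 ((D.Fe ^ a.j) e.1 + (a.n : P2))) := by
    intro a e he s
    have he' : (D.Fe ^ a.j) e.1 ∉ Gam := fun h => he ((H.pow.gam a.j e.1).1 h)
    rw [H.sig.K0_add _ he' _ a.n.2, H.sig.K0_F a.j e.1 he, D.S_add _ _ a.n.2, H.pow.der_S]
    have h1 : lam ^ a.j * lam ^ (-a.j) = 1 := by
      rw [← zpow_add₀ lam_pos.ne']; simp
    refine Prod.ext rfl ?_
    simp only [Prod.smul_mk, smul_eq_mul]
    linear_combination (-(s * D.K0 e.1)) * h1
  refine ⟨?_, ?_⟩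
  · rintro a (_ | _) e he
    · refine ⟨lam ^ a.j, hl _, ?_⟩
      have h1 := fderiv_act H a.j (a.n : P2) (a.j : ℝ) e (es0 D .R e)
      have h2 := key a e he 1
      simp only [one_mul] at h2
      exact h1.trans h2
    · obtain ⟨c, hc, h⟩ := H.pow.der_v a.j e.1
      refine ⟨c, hc.ne', ?_⟩
      have h1 := fderiv_act H a.j (a.n : P2) (-(a.j : ℝ)) e (es0 D .A e)
      simp only [← sub_eq_add_neg] at h1
      refine h1.trans ?_
      simp only [es0, h, iact0]
      ext <;> simp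
  · rintro a (_ | _) e he
    · obtain ⟨c, hc, h⟩ := H.pow.der_v a.j e.1
      refine ⟨c, hc.ne', ?_⟩
      have h1 := fderiv_act H a.j (a.n : P2) (a.j : ℝ) e (eu0 D .R e)
      refine h1.trans ?_
      simp only [eu0, h, iact0]
      ext <;> simp
    · refine ⟨lam ^ a.j, hl _, ?_⟩
      have h1 := fderiv_act H a.j (a.n : P2) (-(a.j : ℝ)) e (eu0 D .A e)
      simp only [← sub_eq_add_neg] at h1
      have h2 := key a e he (-1)
      simp only [neg_one_mul] at h2
      exact h1.trans h2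

end Pool.Agent.Work.MP_0d206b_gt.MFieldAct0

end
end

/-! ### from I_PdRA.lean -/

section

/-! # MP_0d206b_gt, module M: proper discontinuity between `R` and `A s` (flow a) -/

set_option autoImplicit false

open Set Filter Topology
open scoped ContDiff

noncomputable section

namespace Pool.Agent.Work.MP_0d206b_gt.MPdRA

/-- a sequence of group elements with bounded exponents and bounded values on a convergent sequence has
finite range -/
theorem fin_of (D : DA) (hF : Facts D) (x : ℕ → P2) (z : P2) (hx : Tendsto x atTop (𝓝 z))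
    (a : ℕ → Grp) (N0 : ℕ) (M C : ℝ)
    (h : ∀ n ≥ N0, |((a n).j : ℝ)| ≤ M ∧ ‖(D.Fe ^ (a n).j) (x n) + ((a n).n : P2)‖ ≤ C) :
    (range a).Finite := by
  have hb : ∀ J : ℤ, ∃ B : ℝ, ∀ n, ‖(D.Fe ^ J) (x n)‖ ≤ B := by
    intro J
    have hc : Continuous (fun z => (D.Fe ^ J) z) := (hF.pow.smooth J).continuous
    have ht : Tendsto (fun n => (D.Fe ^ J) (x n)) atTop (𝓝 ((D.Fe ^ J) z)) :=
      (hc.tendsto z).comp hx
    obtain ⟨B, hB⟩ := (Metric.isBounded_range_of_tendsto _ ht).exists_norm_le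
    exact ⟨B, fun n => hB _ (mem_range_self n)⟩
  choose B hB using hb
  have hsub : range a ⊆ (a '' {n | n < N0}) ∪
      ⋃ J ∈ (Finset.Icc (-⌈M⌉) ⌈M⌉ : Finset ℤ), {b : Grp | b.j = J ∧ ‖(b.n : P2)‖ ≤ C + B J} := by
    rintro _ ⟨n, rfl⟩
    by_cases hn : n < N0
    · exact Or.inl ⟨n, hn, rfl⟩
    · right
      push Not at hn
      obtain ⟨h1, h2⟩ := h n hn
      simp only [mem_iUnion]
      refine ⟨(a n).j, ?_, rfl, ?_⟩
      · have h3 := abs_le.1 h1
        have h4 : ((a n).j : ℝ) ≤ ⌈M⌉ := h3.2.trans (Int.le_ceil M)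
        have h5 : -(⌈M⌉ : ℝ) ≤ (a n).j := by linarith [h3.1, Int.le_ceil M]
        rw [Finset.mem_Icc]
        constructor
        · exact_mod_cast h5
        · exact_mod_cast h4
      · have h3 : ((a n).n : P2) = ((D.Fe ^ (a n).j) (x n) + ((a n).n : P2)) - (D.Fe ^ (a n).j) (x n) := by
          abel
        rw [h3]
        calc _ ≤ ‖(D.Fe ^ (a n).j) (x n) + ((a n).n : P2)‖ + ‖(D.Fe ^ (a n).j) (x n)‖ := norm_sub_le _ _
          _ ≤ C + B (a n).j := add_le_add h2 (hB _ _)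
  refine Set.Finite.subset ?_ hsub
  refine ((Set.finite_lt_nat N0).image a).union (Set.Finite.biUnion (Finset.finite_toSet _) ?_)
  intro J _
  refine Set.Finite.of_injOn (f := fun b : Grp => (b.n : P2)) (t := {m : P2 | m ∈ Gam ∧ ‖m‖ ≤ C + B J})
    ?_ ?_ (hF.gam.fin _)
  · intro b hb
    exact ⟨b.n.2, hb.2⟩
  · intro b hb c hc hbc
    exact Grp.ext (Subtype.ext hbc) (hb.1.trans hc.1.symm)

theorem sg_sq (s : Bool) : sg s ^ 2 = 1 := by
  cases s <;> simp [sg]

theorem sg_ne (s : Bool) : sg s ≠ 0 := by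
  cases s <;> simp [sg]

theorem sg_abs (s : Bool) : |sg s| = 1 := by
  cases s <;> simp [sg]

theorem nsq_sg (s : Bool) (v : P2) : nsq (sg s • v) = nsq v := by
  have h := sg_sq s
  simp only [nsq, Prod.smul_fst, Prod.smul_snd, smul_eq_mul, mul_pow, h, one_mul]

theorem llog_mono {D : DA} (hF : Facts D) {r r' : ℝ} (hr : 0 < r) (h : r ≤ r') : llog r ≤ llog r' :=
  div_le_div_of_nonneg_right (Real.log_le_log hr h) hF.log.log_pos.le

theorem prf : StPdRA := by
  intro D hF s e e' x y a he he' hx hy hg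
  have hx1 : Tendsto (fun n => (x n).1) atTop (𝓝 e.1) := (continuous_fst.tendsto e).comp hx
  have hy1 : Tendsto (fun n => (y n).1) atTop (𝓝 e'.1) := (continuous_fst.tendsto e').comp hy
  have hg' : ∀ n, ∃ m ∈ Gam, ∃ v : P2, 0 < sg s * v.2 ∧
      (D.Fe ^ (a n).j) (x n).1 + ((a n).n : P2) = m + D.Psi v ∧
      (y n).1 = sg s • m + D.Psi (gmap (sg s • v)) ∧
      (y n).2 = (x n).2 + (a n).j - llog (nsq (gmap (sg s • v))) := hg
  choose m hm v hv h1 h2 h3 using hg'
  -- bounds for the two sequences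
  obtain ⟨B1, hB1⟩ := (Metric.isBounded_range_of_tendsto _ hx).exists_norm_le
  obtain ⟨B2, hB2⟩ := (Metric.isBounded_range_of_tendsto _ hy).exists_norm_le
  have hBx : ∀ n, |(x n).2| ≤ B1 := fun n =>
    (norm_snd_le (x n)).trans (hB1 _ (mem_range_self n))
  have hBy : ∀ n, |(y n).2| ≤ B2 := fun n =>
    (norm_snd_le (y n)).trans (hB2 _ (mem_range_self n))
  have hBy1 : ∀ n, ‖(y n).1‖ ≤ B2 := fun n =>
    (norm_fst_le (y n)).trans (hB2 _ (mem_range_self n))
  -- far from the lattice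
  obtain ⟨c1, hc1, hf1⟩ := hF.proper.far e.1 he
  obtain ⟨c2, hc2, hf2⟩ := hF.proper.far e'.1 he'
  obtain ⟨N1, hN1⟩ := eventually_atTop.1 (hx1.eventually hf1)
  obtain ⟨N2, hN2⟩ := eventually_atTop.1 (hy1.eventually hf2)
  -- basic facts on the coordinates
  have hl : 0 < lam := lam_pos
  have hv2 : ∀ n, (sg s • v n).2 ≠ 0 := fun n => by
    simp only [Prod.smul_snd, smul_eq_mul]
    exact (hv n).ne'
  have hw0 : ∀ n, gmap (sg s • v n) ≠ 0 := fun n => hF.g.gmap_ne _ (hv2 n)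
  have hsgm : ∀ n, sg s • m n ∈ Gam := by
    intro n
    cases s
    · simp only [sg, Bool.false_eq_true, if_false, neg_smul, one_smul]
      exact Gam.neg_mem (hm n)
    · simp only [sg, if_true, one_smul]
      exact hm n
  -- pulled back coordinates
  have hxt : ∀ n, (x n).1 = Lz (-(a n).j) (m n - ((a n).n : P2)) + D.Psi (lam ^ (-(a n).j) • v n) := by
    intro n
    have hmm : m n - ((a n).n : P2) ∈ Gam := Gam.sub_mem (hm n) (a n).n.2
    rw [← hF.pow.psi (-(a n).j) _ hmm (v n)]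
    have h4 : m n - ((a n).n : P2) + D.Psi (v n) = (D.Fe ^ (a n).j) (x n).1 := by
      have := h1 n
      calc m n - ((a n).n : P2) + D.Psi (v n) = (m n + D.Psi (v n)) - ((a n).n : P2) := by abel
        _ = _ := by rw [← this]; abel
    rw [h4, ← Equiv.Perm.mul_apply, ← zpow_add]
    simp
  have hfar1 : ∀ n ≥ N1, c1 ≤ nsq (lam ^ (-(a n).j) • v n) := fun n hn =>
    hN1 n hn _ (Lz_mem _ (Gam.sub_mem (hm n) (a n).n.2)) _ (hxt n)
  have hfar2 : ∀ n ≥ N2, c2 ≤ nsq (gmap (sg s • v n)) := fun n hn =>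
    hN2 n hn _ (hsgm n) _ (h2 n)
  -- nsq of wt
  have hwt : ∀ n, c1 ≤ nsq (lam ^ (-(a n).j) • v n) →
      c1 ≤ nsq (lam ^ (-(a n).j) • gmap (sg s • v n)) := by
    intro n hn
    have hz : (lam ^ (-(a n).j) : ℝ) ≠ 0 := (zpow_pos hl _).ne'
    rw [← hF.g.gmap_smul _ _ (hv2 n) hz, smul_comm]
    refine hn.trans ?_
    rw [← nsq_sg s]
    refine hF.g.nsq_le _ ?_
    rw [smul_comm]
    simp only [Prod.smul_snd, smul_eq_mul]
    exact mul_ne_zero hz (by simpa using hv2 n)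
  have hlog : ∀ n, llog (nsq (lam ^ (-(a n).j) • gmap (sg s • v n))) =
      -2 * (a n).j + llog (nsq (gmap (sg s • v n))) := by
    intro n
    rw [hF.log.llog_nsq _ _ (hw0 n)]
    push_cast
    ring
  -- the estimate for the logarithms
  obtain ⟨R, hR0, hR⟩ := hF.log.llog_lt (2 * (B1 + B2) - llog c1)
  have key : ∀ n ≥ max N1 N2, |((a n).j : ℝ)| ≤ B1 + B2 + |2 * (B1 + B2) - llog c1| + |llog c2| ∧
      nsq (gmap (sg s • v n)) ≤ R := by
    intro n hn
    have hn1 : N1 ≤ n := (le_max_left _ _).trans hn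
    have hn2 : N2 ≤ n := (le_max_right _ _).trans hn
    have h4 := hwt n (hfar1 n hn1)
    have h5 := hfar2 n hn2
    have h6 := llog_mono hF hc1 h4
    have h7 := llog_mono hF hc2 h5
    rw [hlog n] at h6
    have h8 := h3 n
    have h9 := abs_le.1 (hBx n)
    have h10 := abs_le.1 (hBy n)
    have h11 : llog (nsq (gmap (sg s • v n))) ≤ 2 * (B1 + B2) - llog c1 := by
      linarith [h9.1, h9.2, h10.1, h10.2]
    refine ⟨?_, hR _ (lt_of_lt_of_le hc2 h5) h11⟩
    have h12 := le_abs_self (2 * (B1 + B2) - llog c1)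
    have h13 := neg_abs_le (llog c2)
    have h14 := abs_nonneg (2 * (B1 + B2) - llog c1)
    have h15 := abs_nonneg (llog c2)
    rw [abs_le]
    constructor <;> linarith [h9.1, h9.2, h10.1, h10.2]
  have hnorm : ∀ w : P2, nsq w ≤ R → ‖D.Psi w‖ ≤ R + 2 := by
    intro w hw
    have h4 := hF.log.le_nsq w
    have h5 : ‖w‖ ≤ R + 1 := by
      by_contra hcon
      push Not at hcon
      nlinarith
    have h6 : ‖D.Psi w‖ = max |(D.Psi w).1| |(D.Psi w).2| := rfl
    rw [h6, D.Psi_fst]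
    refine max_le ((norm_fst_le w).trans (by linarith)) ((D.Psi_bdd w).trans (by linarith))
  refine fin_of D hF (fun n => (x n).1) e.1 hx1 a (max N1 N2)
    (B1 + B2 + |2 * (B1 + B2) - llog c1| + |llog c2|) (B2 + (R + 2) + (R + 2)) ?_
  intro n hn
  obtain ⟨k1, k2⟩ := key n hn
  refine ⟨k1, ?_⟩
  rw [h1 n]
  have hm1 : ‖m n‖ ≤ B2 + (R + 2) := by
    have h4 : ‖sg s • m n‖ = ‖m n‖ := by
      rw [norm_smul, Real.norm_eq_abs, sg_abs, one_mul]
    rw [← h4]
    have h5 : sg s • m n = (y n).1 - D.Psi (gmap (sg s • v n)) := by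
      rw [h2 n]; abel
    rw [h5]
    exact (norm_sub_le _ _).trans (add_le_add (hBy1 n) (hnorm _ k2))
  have hv1 : nsq (v n) ≤ R := by
    have h4 := hF.g.nsq_le _ (hv2 n)
    rw [nsq_sg] at h4
    exact h4.trans k2
  exact (norm_add_le _ _).trans (add_le_add hm1 (hnorm _ hv1))

end Pool.Agent.Work.MP_0d206b_gt.MPdRA

end
end

/-! ### from I_PdSelf0.lean -/

section

/-!
# MP_0d206b_gt, item M PdSelf0: flow 0, proper discontinuity inside a piece
-/

set_option autoImplicit false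

open Set Filter Topology
open scoped ContDiff

noncomputable section

namespace Pool.Agent.Work.MP_0d206b_gt.MPdSelf0

open Pool.Agent.Work.MP_0d206b_gt

/-- convergent sequences are bounded -/
lemma bdd_of_tendsto {X : Type} [NormedAddCommGroup X] {u : ℕ → X} {l : X}
    (h : Tendsto u atTop (𝓝 l)) : ∃ R : ℝ, ∀ n, ‖u n‖ ≤ R := by
  obtain ⟨R, hR⟩ := isBounded_iff_forall_norm_le.1 (Metric.isBounded_range_of_tendsto u h)
  exact ⟨R, fun n => hR _ (mem_range_self n)⟩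

/-- Common form of the two cases: `s = 1` for the piece `R`, `s = -1` for the piece `A`. -/
theorem key (D : DA) (h : Facts D) (s : ℝ) (hs : s * s = 1) (e e' : E) (x y : ℕ → E) (a : ℕ → Grp)
    (hx : Tendsto x atTop (𝓝 e)) (hy : Tendsto y atTop (𝓝 e'))
    (h1 : ∀ n, (D.Fe ^ (a n).j) (x n).1 + ((a n).n : P2) = (y n).1)
    (h2 : ∀ n, (x n).2 + s * (a n).j = (y n).2) : (range a).Finite := by
  have hx1 : Tendsto (fun n => (x n).1) atTop (𝓝 e.1) := (continuous_fst.tendsto e).comp hx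
  have hx2 : Tendsto (fun n => (x n).2) atTop (𝓝 e.2) := (continuous_snd.tendsto e).comp hx
  have hy1 : Tendsto (fun n => (y n).1) atTop (𝓝 e'.1) := (continuous_fst.tendsto e').comp hy
  have hy2 : Tendsto (fun n => (y n).2) atTop (𝓝 e'.2) := (continuous_snd.tendsto e').comp hy
  -- the integers are bounded
  have hj : ∀ n, (((a n).j : ℤ) : ℝ) = s * ((y n).2 - (x n).2) := by
    intro n
    have := h2 n
    rw [← this]
    linear_combination (-((a n).j : ℝ)) * hs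
  obtain ⟨B, hB⟩ := bdd_of_tendsto ((hy2.sub hx2).const_mul s)
  have hJ : ∀ n, (a n).j ∈ Set.Icc (-⌈B⌉) ⌈B⌉ := by
    intro n
    have h3 := hB n
    rw [← hj n, Real.norm_eq_abs, abs_le] at h3
    have h4 : B ≤ ⌈B⌉ := Int.le_ceil B
    constructor
    · have : ((-⌈B⌉ : ℤ) : ℝ) ≤ ((a n).j : ℝ) := by push_cast; linarith
      exact_mod_cast this
    · have : ((a n).j : ℝ) ≤ ((⌈B⌉ : ℤ) : ℝ) := by linarith
      exact_mod_cast this
  -- the lattice points are bounded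
  have hF : ∀ j : ℤ, ∃ R : ℝ, ∀ n, ‖(D.Fe ^ j) (x n).1‖ ≤ R := by
    intro j
    have hc : Continuous (fun z => (D.Fe ^ j) z) := (h.pow.smooth j).continuous
    exact bdd_of_tendsto ((hc.tendsto e.1).comp hx1)
  choose R hR using hF
  obtain ⟨Y, hY⟩ := bdd_of_tendsto hy1
  have hfinJ : (Set.Icc (-⌈B⌉) ⌈B⌉).Finite := Set.finite_Icc _ _
  obtain ⟨M, hM⟩ := (hfinJ.image R).bddAbove
  have hn : ∀ n, ‖((a n).n : P2)‖ ≤ Y + M := by
    intro n
    have h3 : ((a n).n : P2) = (y n).1 - (D.Fe ^ (a n).j) (x n).1 := by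
      rw [← h1 n]; simp
    rw [h3]
    refine (norm_sub_le _ _).trans (add_le_add (hY n) ((hR _ n).trans ?_))
    exact hM (mem_image_of_mem R (hJ n))
  -- conclusion
  have hfin : (({m : P2 | m ∈ Gam ∧ ‖m‖ ≤ Y + M}) ×ˢ (Set.Icc (-⌈B⌉) ⌈B⌉)).Finite :=
    (h.gam.fin (Y + M)).prod hfinJ
  have hinj : Function.Injective (fun a : Grp => ((a.n : P2), a.j)) := by
    intro a b hab
    simp only [Prod.mk.injEq] at hab
    exact Grp.ext (Subtype.ext hab.1) hab.2
  refine (hfin.preimage hinj.injOn).subset ?_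
  rintro _ ⟨n, rfl⟩
  exact ⟨⟨(a n).n.2, hn n⟩, hJ n⟩

theorem prf : StPdSelf0 := by
  intro D h i e e' x y a he he' hx hy hg
  cases i with
  | R =>
    refine key D h 1 (by norm_num) e e' x y a hx hy ?_ ?_
    · intro n
      have h1 : act0 D (a n) .R (x n) = y n := hg n
      rw [← h1]
      rfl
    · intro n
      have h1 : act0 D (a n) .R (x n) = y n := hg n
      rw [← h1, one_mul]
      rfl
  | A =>
    refine key D h (-1) (by norm_num) e e' x y a hx hy ?_ ?_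
    · intro n
      have h1 : act0 D (a n) .A (x n) = y n := hg n
      rw [← h1]
      rfl
    · intro n
      have h1 : act0 D (a n) .A (x n) = y n := hg n
      rw [← h1]
      show (x n).2 + -1 * ((a n).j : ℝ) = (x n).2 - ((a n).j : ℝ)
      ring

end Pool.Agent.Work.MP_0d206b_gt.MPdSelf0

end
end

/-! ### from I_Pow.lean -/

section

/-! # MP_0d206b_gt, module M: powers of `F` -/

set_option autoImplicit false

open Set Filter Topology
open scoped ContDiff

noncomputable section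

namespace Pool.Agent.Work.MP_0d206b_gt.MPow

open Pool.Agent.Work.MP_0d206b_gt

variable (D : DA)

theorem succ_apply (j : ℤ) (z : P2) : (D.Fe ^ (j + 1)) z = D.F ((D.Fe ^ j) z) := by
  rw [add_comm, zpow_one_add]
  rfl

theorem pred_apply (j : ℤ) (z : P2) : (D.Fe ^ (j - 1)) z = D.Finv ((D.Fe ^ j) z) := by
  rw [sub_eq_add_neg, add_comm, zpow_add, zpow_neg_one]
  rfl

theorem zero_apply (z : P2) : (D.Fe ^ (0 : ℤ)) z = z := by
  rw [zpow_zero]
  rfl

theorem neg_apply (j : ℤ) (z : P2) : (D.Fe ^ (-j)) ((D.Fe ^ j) z) = z := by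
  have h : (D.Fe ^ (-j) * D.Fe ^ j) z = z := by
    rw [← zpow_add, neg_add_cancel]
    exact zero_apply D z
  exact h

theorem Finv_add (z : P2) {m : P2} (hm : m ∈ Gam) : D.Finv (z + m) = D.Finv z + Lz (-1) m := by
  have h : D.F (D.Finv z + Lz (-1) m) = z + m := by
    rw [D.F_add _ _ (Lz_negone_mem hm), D.F_Finv, Lz_comp]
    norm_num
    exact Lz_zero' m
  rw [← h, D.Finv_F]

theorem add (j : ℤ) (z : P2) (m : P2) (hm : m ∈ Gam) :
    (D.Fe ^ j) (z + m) = (D.Fe ^ j) z + Lz j m := by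
  induction j using Int.induction_on with
  | zero => rw [zero_apply, zero_apply, Lz_zero']
  | succ i ih => rw [succ_apply, succ_apply, ih, D.F_add _ _ (Lz_mem _ hm), Lz_comp, add_comm (1 : ℤ)]
  | pred i ih =>
    rw [pred_apply, pred_apply, ih, Finv_add D _ (Lz_mem _ hm), Lz_comp, sub_eq_add_neg,
      add_comm (-1 : ℤ)]

theorem psi0 (j : ℤ) (v : P2) : (D.Fe ^ j) (D.Psi v) = D.Psi (lam ^ j • v) := by
  have h0 := lam_pos.ne'
  induction j using Int.induction_on with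
  | zero => rw [zero_apply, zpow_zero, one_smul]
  | succ i ih => rw [succ_apply, ih, D.F_Psi, smul_smul, zpow_add_one₀ h0, mul_comm]
  | pred i ih =>
    rw [pred_apply, ih]
    have h : D.F (D.Psi (lam ^ (-(i : ℤ) - 1) • v)) = D.Psi (lam ^ (-(i : ℤ)) • v) := by
      rw [D.F_Psi, smul_smul]
      congr 2
      rw [mul_comm, ← zpow_add_one₀ h0, sub_add_cancel]
    rw [← h, D.Finv_F]

theorem psi (j : ℤ) (m : P2) (hm : m ∈ Gam) (v : P2) :
    (D.Fe ^ j) (m + D.Psi v) = Lz j m + D.Psi (lam ^ j • v) := by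
  rw [add_comm m, add D j _ m hm, psi0, add_comm]

theorem gam1 (hz : D.Psi 0 = 0) (j : ℤ) (z : P2) (h : z ∈ Gam) : (D.Fe ^ j) z ∈ Gam := by
  have h1 := psi D j z h 0
  rw [hz, add_zero, smul_zero, hz, add_zero] at h1
  rw [h1]
  exact Lz_mem j h

theorem lam1 (j : ℤ) (z : P2) (h : (D.Fe ^ j) z ∈ D.Lam) : z ∈ D.Lam := by
  intro m hm v hzv
  refine h (Lz j m) (Lz_mem j hm) (lam ^ j • v) ?_
  rw [hzv, psi D j m hm v]

theorem smooth (j : ℤ) : ContDiff ℝ ∞ (fun z => (D.Fe ^ j) z) := by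
  induction j using Int.induction_on with
  | zero =>
    have h : (fun z => (D.Fe ^ (0 : ℤ)) z) = id := by
      funext z
      exact zero_apply D z
    rw [h]
    exact contDiff_id
  | succ i ih =>
    have h : (fun z => (D.Fe ^ ((i : ℤ) + 1)) z) = fun z => D.F ((D.Fe ^ (i : ℤ)) z) := by
      funext z
      exact succ_apply D _ z
    rw [h]
    exact D.F_smooth.comp ih
  | pred i ih =>
    have h : (fun z => (D.Fe ^ (-(i : ℤ) - 1)) z) = fun z => D.Finv ((D.Fe ^ (-(i : ℤ))) z) := by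
      funext z
      exact pred_apply D _ z
    rw [h]
    exact D.Finv_smooth.comp ih

theorem diff (j : ℤ) (z : P2) : DifferentiableAt ℝ (fun z => (D.Fe ^ j) z) z :=
  ((smooth D j).differentiable (by simp)) z

theorem F_diff (z : P2) : DifferentiableAt ℝ D.F z := (D.F_smooth.differentiable (by simp)) z

theorem Finv_diff (z : P2) : DifferentiableAt ℝ D.Finv z :=
  (D.Finv_smooth.differentiable (by simp)) z

theorem succ_fderiv (j : ℤ) (z u : P2) : fderiv ℝ (fun z => (D.Fe ^ (j + 1)) z) z u =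
    fderiv ℝ D.F ((D.Fe ^ j) z) (fderiv ℝ (fun z => (D.Fe ^ j) z) z u) := by
  have h : (fun z => (D.Fe ^ (j + 1)) z) = D.F ∘ fun z => (D.Fe ^ j) z := by
    funext z
    exact succ_apply D _ z
  rw [h, fderiv_comp z (F_diff D _) (diff D j z)]
  rfl

theorem pred_fderiv (j : ℤ) (z u : P2) : fderiv ℝ (fun z => (D.Fe ^ (j - 1)) z) z u =
    fderiv ℝ D.Finv ((D.Fe ^ j) z) (fderiv ℝ (fun z => (D.Fe ^ j) z) z u) := by
  have h : (fun z => (D.Fe ^ (j - 1)) z) = D.Finv ∘ fun z => (D.Fe ^ j) z := by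
    funext z
    exact pred_apply D _ z
  rw [h, fderiv_comp z (Finv_diff D _) (diff D j z)]
  rfl

theorem zero_fderiv (z u : P2) : fderiv ℝ (fun z => (D.Fe ^ (0 : ℤ)) z) z u = u := by
  have h : (fun z => (D.Fe ^ (0 : ℤ)) z) = fun z => z := by
    funext z
    exact zero_apply D z
  rw [h, fderiv_fun_id]
  rfl

theorem F_fderiv_fst (z u : P2) : (fderiv ℝ D.F z u).1 = lam * u.1 := by
  have h1 : HasFDerivAt (fun z => (D.F z).1) ((ContinuousLinearMap.fst ℝ ℝ ℝ).comp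
      (fderiv ℝ D.F z)) z := (F_diff D z).hasFDerivAt.fst
  have h2 : HasFDerivAt (fun z : P2 => lam * z.1) (lam • ContinuousLinearMap.fst ℝ ℝ ℝ) z := by
    have h3 : HasFDerivAt (fun z : P2 => z.1) (ContinuousLinearMap.fst ℝ ℝ ℝ) z :=
      (ContinuousLinearMap.fst ℝ ℝ ℝ).hasFDerivAt
    exact h3.const_mul lam
  have h4 : (fun z => (D.F z).1) = fun z : P2 => lam * z.1 := by
    funext z
    exact D.F_fst z
  rw [h4] at h1
  have h5 := h1.unique h2
  have h6 := congrArg (fun A : P2 →L[ℝ] ℝ => A u) h5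
  exact h6

theorem F_der_v (z : P2) : fderiv ℝ D.F z (0, 1) = (0, dy D.F z) := by
  ext
  · rw [F_fderiv_fst]
    simp
  · rfl

theorem F_der_h (z : P2) : fderiv ℝ D.F z (1, 0) = (lam, dx D.F z) := by
  ext
  · rw [F_fderiv_fst]
    simp
  · rfl

theorem F_der_S (z : P2) : fderiv ℝ D.F z (1, D.S z) = lam • ((1, D.S (D.F z)) : P2) := by
  have h1 : ((1, D.S z) : P2) = (1, 0) + D.S z • ((0, 1) : P2) := by
    ext <;> simp
  rw [h1, map_add, map_smul, F_der_v, F_der_h, D.S_F]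
  have h0 := lam_pos.ne'
  ext
  · simp
  · simp only [Prod.snd_add, Prod.smul_snd, smul_eq_mul]
    field_simp

theorem inv_fderiv (w u : P2) :
    fderiv ℝ D.Finv w (fderiv ℝ D.F (D.Finv w) u) = u := by
  have h : (D.Finv ∘ D.F) = id := by
    funext z
    exact D.Finv_F z
  have h1 : fderiv ℝ (D.Finv ∘ D.F) (D.Finv w) u = u := by
    rw [h, fderiv_id]
    rfl
  rw [fderiv_comp _ (Finv_diff D _) (F_diff D _), D.F_Finv] at h1
  exact h1

theorem Finv_der_v (w : P2) : fderiv ℝ D.Finv w (0, 1) = (0, (dy D.F (D.Finv w))⁻¹) := by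
  have h1 := inv_fderiv D w (0, 1)
  have hp := D.dyF_pos (D.Finv w)
  rw [F_der_v] at h1
  have h2 : ((0, dy D.F (D.Finv w)) : P2) = dy D.F (D.Finv w) • ((0, 1) : P2) := by
    ext <;> simp
  rw [h2, map_smul] at h1
  have h3 := congrArg (fun x : P2 => (dy D.F (D.Finv w))⁻¹ • x) h1
  simp only [smul_smul, inv_mul_cancel₀ hp.ne', one_smul] at h3
  rw [h3]
  ext <;> simp

theorem Finv_der_S (w : P2) :
    fderiv ℝ D.Finv w (1, D.S w) = lam⁻¹ • ((1, D.S (D.Finv w)) : P2) := by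
  have h1 := inv_fderiv D w (1, D.S (D.Finv w))
  have h0 := lam_pos.ne'
  rw [F_der_S, D.F_Finv, map_smul] at h1
  rw [← h1, smul_smul, inv_mul_cancel₀ h0, one_smul]

theorem der_v (j : ℤ) (z : P2) :
    ∃ c > 0, fderiv ℝ (fun z => (D.Fe ^ j) z) z (0, 1) = (0, c) := by
  induction j using Int.induction_on with
  | zero =>
    refine ⟨1, one_pos, ?_⟩
    rw [zero_fderiv]
  | succ i ih =>
    obtain ⟨c, hc, h⟩ := ih
    refine ⟨c * dy D.F ((D.Fe ^ (i : ℤ)) z), mul_pos hc (D.dyF_pos _), ?_⟩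
    have h2 : ((0, c) : P2) = c • ((0, 1) : P2) := by
      ext <;> simp
    rw [succ_fderiv, h, h2, map_smul, F_der_v]
    ext <;> simp
  | pred i ih =>
    obtain ⟨c, hc, h⟩ := ih
    refine ⟨c * (dy D.F (D.Finv ((D.Fe ^ (-(i : ℤ))) z)))⁻¹, mul_pos hc (inv_pos.mpr (D.dyF_pos _)),
      ?_⟩
    have h2 : ((0, c) : P2) = c • ((0, 1) : P2) := by
      ext <;> simp
    rw [pred_fderiv, h, h2, map_smul, Finv_der_v]
    ext <;> simp

theorem nat (n : ℕ) (z : P2) : (D.Fe ^ (n : ℤ)) z = D.F^[n] z := by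
  induction n with
  | zero => exact zero_apply D z
  | succ n ih =>
    rw [Function.iterate_succ_apply', ← ih]
    have h := succ_apply D (n : ℤ) z
    exact_mod_cast h

theorem der_v_nat (n : ℕ) (z : P2) : fderiv ℝ (fun z => (D.Fe ^ (n : ℤ)) z) z (0, 1) =
    (0, ∏ k ∈ Finset.range n, dy D.F (D.F^[k] z)) := by
  induction n with
  | zero =>
    have h := zero_fderiv D z (0, 1)
    simpa using h
  | succ n ih =>
    have h := succ_fderiv D (n : ℤ) z (0, 1)
    have h2 : ((0, ∏ k ∈ Finset.range n, dy D.F (D.F^[k] z)) : P2) =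
        (∏ k ∈ Finset.range n, dy D.F (D.F^[k] z)) • ((0, 1) : P2) := by
      ext <;> simp
    rw [ih, h2, map_smul, F_der_v, nat] at h
    rw [Nat.cast_succ, h, Finset.prod_range_succ]
    ext <;> simp

theorem der_S (j : ℤ) (z : P2) : fderiv ℝ (fun z => (D.Fe ^ j) z) z (1, D.S z) =
    lam ^ j • ((1, D.S ((D.Fe ^ j) z)) : P2) := by
  have h0 := lam_pos.ne'
  induction j using Int.induction_on with
  | zero => rw [zero_fderiv, zero_apply, zpow_zero, one_smul]
  | succ i ih =>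
    rw [succ_fderiv, ih, map_smul, F_der_S, smul_smul, succ_apply, zpow_add_one₀ h0]
  | pred i ih =>
    rw [pred_fderiv, ih, map_smul, Finv_der_S, smul_smul, pred_apply, zpow_sub_one₀ h0]

theorem prf : StPow := by
  intro D _ hΨ
  refine ⟨add D, psi D, ?_, ?_, smooth D, der_v D, der_v_nat D, nat D, der_S D⟩
  · intro j z
    constructor
    · intro h
      have h1 := gam1 D hΨ.zero (-j) _ h
      rw [neg_apply] at h1
      exact h1
    · exact gam1 D hΨ.zero j z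
  · intro j z
    constructor
    · exact lam1 D j z
    · intro h
      apply lam1 D (-j)
      rw [neg_apply]
      exact h

end Pool.Agent.Work.MP_0d206b_gt.MPow

end
end

/-! ### from I_SigCont.lean -/

section

/-!
# MP_0d206b_gt, module M: continuity of `sigma`, `K0`, `Ka` off the lattice
-/

set_option autoImplicit false

open Set Filter Topology
open scoped ContDiff

noncomputable section

namespace Pool.Agent.Work.MP_0d206b_gt.MSigCont

open Pool.Agent.Work.MP_0d206b_gt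

variable {D : DA}

theorem sigma_mem {z : P2} (h : z ∈ D.Lam) : D.sigma z = D.S z := by
  unfold DA.sigma; rw [if_pos h]

theorem sigma_nmem {z : P2} (h : z ∉ D.Lam) :
    D.sigma z = D.S z + dy D.Psi (D.lin z) * S0 (D.lin z) := by
  unfold DA.sigma; rw [if_neg h]

theorem K0_mem {z : P2} (h : z ∈ D.Lam) : D.K0 z = 0 := by
  unfold DA.K0; rw [if_pos h]

theorem K0_nmem {z : P2} (h : z ∉ D.Lam) :
    D.K0 z = 2 * (D.lin z).1 / (Real.log lam * nsq (D.lin z)) := by
  unfold DA.K0; rw [if_neg h]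

theorem Ka_mem {z : P2} (h : z ∈ D.Lam) : D.Ka z = 0 := by
  unfold DA.Ka; rw [if_pos h]

theorem Ka_nmem {z : P2} (h : z ∉ D.Lam) :
    D.Ka z = 8 * (D.lin z).1 * (D.lin z).2 ^ 2 / (Real.log lam * nsq (D.lin z) ^ 2) := by
  unfold DA.Ka; rw [if_neg h]

theorem dy_cont : Continuous (dy D.Psi) := by
  have h1 : Continuous (fderiv ℝ D.Psi) := D.Psi_smooth.continuous_fderiv (by simp)
  have h2 : Continuous (fun z => fderiv ℝ D.Psi z (0, 1)) := h1.clm_apply continuous_const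
  exact h2.snd

theorem nsq_cont : Continuous nsq := by
  unfold nsq
  fun_prop

/-- the regular case -/
theorem reg (hL : LogFacts) (hP : PsiFacts D) {z : P2} (hz : z ∉ Gam) (hzL : z ∉ D.Lam) :
    ContinuousAt D.sigma z ∧ ContinuousAt D.K0 z ∧ ContinuousAt D.Ka z := by
  obtain ⟨m, hm, v, rfl⟩ := hP.notLam z hzL
  have hv : v ≠ 0 := fun h => hz ((hP.mem_gam m hm v).2 h)
  have hlin : ContinuousAt D.lin (m + D.Psi v) := (hP.lin_smooth m hm v).continuousAt
  have hlv : D.lin (m + D.Psi v) = v := hP.lin_eq m hm v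
  have hev : ∀ᶠ z' in 𝓝 (m + D.Psi v), z' ∉ D.Lam := by
    filter_upwards [hP.near m hm v] with z' hz'
    rw [hz']
    exact hP.inLam m hm _
  have hn : nsq (D.lin (m + D.Psi v)) ≠ 0 := by
    rw [hlv]; exact (hL.nsq_pos v hv).ne'
  have hlog : Real.log lam ≠ 0 := hL.log_pos.ne'
  have c1 : ContinuousAt (fun z' => (D.lin z').1) (m + D.Psi v) := hlin.fst
  have c2 : ContinuousAt (fun z' => (D.lin z').2) (m + D.Psi v) := hlin.snd
  have cn : ContinuousAt (fun z' => nsq (D.lin z')) (m + D.Psi v) :=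
    nsq_cont.continuousAt.comp hlin
  have cd : ContinuousAt (fun z' => dy D.Psi (D.lin z')) (m + D.Psi v) :=
    dy_cont.continuousAt.comp hlin
  refine ⟨?_, ?_, ?_⟩
  · have h : ContinuousAt (fun z' => D.S z' + dy D.Psi (D.lin z') * S0 (D.lin z'))
        (m + D.Psi v) := by
      refine D.S_cont.continuousAt.add (cd.mul ?_)
      unfold S0
      exact ((continuousAt_const.mul c1).mul c2).div cn hn
    refine h.congr ?_
    filter_upwards [hev] with z' hz'
    exact (sigma_nmem hz').symm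
  · have h : ContinuousAt (fun z' => 2 * (D.lin z').1 / (Real.log lam * nsq (D.lin z')))
        (m + D.Psi v) :=
      (continuousAt_const.mul c1).div (continuousAt_const.mul cn) (mul_ne_zero hlog hn)
    refine h.congr ?_
    filter_upwards [hev] with z' hz'
    exact (K0_nmem hz').symm
  · have h : ContinuousAt (fun z' => 8 * (D.lin z').1 * (D.lin z').2 ^ 2 /
        (Real.log lam * nsq (D.lin z') ^ 2)) (m + D.Psi v) :=
      ((continuousAt_const.mul c1).mul (c2.pow 2)).div (continuousAt_const.mul (cn.pow 2))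
        (mul_ne_zero hlog (pow_ne_zero 2 hn))
    refine h.congr ?_
    filter_upwards [hev] with z' hz'
    exact (Ka_nmem hz').symm

/-- near `Lam` the linear coordinate is large -/
theorem big (hP : PsiFacts D) (hR : ProperFacts D) {z : P2} (hz : z ∈ D.Lam) (R : ℝ) :
    ∀ᶠ z' in 𝓝 z, z' ∈ D.Lam ∨ R < ‖D.lin z'‖ := by
  by_contra hcon
  rw [Filter.not_eventually] at hcon
  obtain ⟨x, hx, hx'⟩ := exists_seq_forall_of_frequently hcon
  have hx1 : ∀ n, ∃ m ∈ Gam, ∃ v, x n = m + D.Psi v := fun n =>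
    hP.notLam _ (fun h => hx' n (Or.inl h))
  choose m hm v hv using hx1
  have hnv : ∀ n, ‖v n‖ ≤ R := by
    intro n
    have h1 := hx' n
    push Not at h1
    have h2 : D.lin (x n) = v n := by rw [hv n]; exact hP.lin_eq _ (hm n) _
    rw [← h2]; exact h1.2
  obtain ⟨m0, hm0, v0, hz0, -, -⟩ := hR.proper z x m v R hx (fun n => ⟨hm n, hv n⟩) hnv
  exact hP.inLam m0 hm0 v0 (hz0 ▸ hz)

theorem tendsto_zero {z : P2} {f : P2 → ℝ} (h : ∀ ε > 0, ∀ᶠ z' in 𝓝 z, |f z'| < ε) :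
    Tendsto f (𝓝 z) (𝓝 0) := by
  rw [Metric.tendsto_nhds]
  intro ε hε
  filter_upwards [h ε hε] with z' hz'
  rw [Real.dist_eq, sub_zero]; exact hz'

theorem abs_fst_le (v : P2) : |v.1| ≤ ‖v‖ := by
  have := norm_fst_le v
  rwa [Real.norm_eq_abs] at this

theorem abs_S0_le (v : P2) : |S0 v| ≤ 1 := by
  unfold S0
  rw [abs_div]
  have h0 : 0 ≤ nsq v := by unfold nsq; positivity
  rw [abs_of_nonneg h0]
  apply div_le_one_of_le₀ _ h0
  unfold nsq
  rw [abs_le]
  constructor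
  · nlinarith [sq_nonneg (v.1 + v.2)]
  · nlinarith [sq_nonneg (v.1 - v.2)]

theorem K0_est (hL : LogFacts) {v : P2} (hv : v ≠ 0) :
    |2 * v.1 / (Real.log lam * nsq v)| ≤ 8 / Real.log lam * ‖v‖⁻¹ := by
  have hl := hL.log_pos
  have hn := hL.nsq_pos v hv
  have hv0 : 0 < ‖v‖ := norm_pos_iff.2 hv
  have h1 := hL.le_nsq v
  have h2 := abs_fst_le v
  have e : 8 / Real.log lam * ‖v‖⁻¹ = 8 / (Real.log lam * ‖v‖) := by field_simp
  rw [abs_div, abs_of_pos (mul_pos hl hn), abs_mul, abs_two, e,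
    div_le_div_iff₀ (mul_pos hl hn) (mul_pos hl hv0)]
  have h3 : |v.1| * ‖v‖ ≤ nsq v := by
    calc |v.1| * ‖v‖ ≤ ‖v‖ * ‖v‖ := by gcongr
      _ = ‖v‖ ^ 2 := by ring
      _ ≤ _ := h1
  calc 2 * |v.1| * (Real.log lam * ‖v‖) = 2 * (Real.log lam * (|v.1| * ‖v‖)) := by ring
    _ ≤ 2 * (Real.log lam * nsq v) := by gcongr
    _ ≤ 8 * (Real.log lam * nsq v) := by
      have := mul_pos hl hn
      linarith

theorem Ka_est (hL : LogFacts) {v : P2} (hv : v ≠ 0) :
    |8 * v.1 * v.2 ^ 2 / (Real.log lam * nsq v ^ 2)| ≤ 8 / Real.log lam * ‖v‖⁻¹ := by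
  have hl := hL.log_pos
  have hn := hL.nsq_pos v hv
  have hv0 : 0 < ‖v‖ := norm_pos_iff.2 hv
  have h1 := hL.le_nsq v
  have h2 := abs_fst_le v
  have h4 : v.2 ^ 2 ≤ nsq v := by unfold nsq; linarith [sq_nonneg v.1]
  have e : 8 / Real.log lam * ‖v‖⁻¹ = 8 / (Real.log lam * ‖v‖) := by field_simp
  have hn2 : 0 < Real.log lam * nsq v ^ 2 := by positivity
  rw [abs_div, abs_of_pos hn2, abs_mul, abs_mul, abs_of_nonneg (sq_nonneg v.2), e,
    div_le_div_iff₀ hn2 (mul_pos hl hv0), abs_of_pos (by norm_num : (0 : ℝ) < 8)]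
  have h3 : |v.1| * ‖v‖ ≤ nsq v := by
    calc |v.1| * ‖v‖ ≤ ‖v‖ * ‖v‖ := by gcongr
      _ = ‖v‖ ^ 2 := by ring
      _ ≤ _ := h1
  calc 8 * |v.1| * v.2 ^ 2 * (Real.log lam * ‖v‖)
      = 8 * (Real.log lam * ((|v.1| * ‖v‖) * v.2 ^ 2)) := by ring
    _ ≤ 8 * (Real.log lam * (nsq v * nsq v)) := by gcongr
    _ = _ := by ring

/-- the case of `Lam` -/
theorem sing (hL : LogFacts) (hP : PsiFacts D) (hR : ProperFacts D) {z : P2}
    (hz : z ∈ D.Lam) :
    ContinuousAt D.sigma z ∧ ContinuousAt D.K0 z ∧ ContinuousAt D.Ka z := by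
  have hl := hL.log_pos
  have hb : ∀ ε > 0, ∀ᶠ z' in 𝓝 z, z' ∈ D.Lam ∨
      (D.lin z' ≠ 0 ∧ 8 / Real.log lam * ‖D.lin z'‖⁻¹ < ε) := by
    intro ε hε
    filter_upwards [big hP hR hz (8 / Real.log lam / ε)] with z' hz'
    rcases hz' with h | h
    · exact Or.inl h
    · right
      have hpos : 0 < 8 / Real.log lam / ε := by positivity
      have h0 : 0 < ‖D.lin z'‖ := hpos.trans h
      refine ⟨norm_pos_iff.1 h0, ?_⟩
      rw [div_lt_iff₀ hε] at h
      rw [← div_eq_mul_inv, div_lt_iff₀ h0, mul_comm]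
      exact h
  refine ⟨?_, ?_, ?_⟩
  · have h1 : Tendsto (fun z' => D.sigma z' - D.S z') (𝓝 z) (𝓝 0) := by
      apply tendsto_zero
      intro ε hε
      obtain ⟨δ, hδ, hδ'⟩ := D.dyPsi_tendsto z hz ε hε
      filter_upwards [Metric.ball_mem_nhds z hδ] with z' hz'
      by_cases hzL : z' ∈ D.Lam
      · rw [sigma_mem hzL, sub_self, abs_zero]; exact hε
      · rw [sigma_nmem hzL, add_sub_cancel_left]
        obtain ⟨m, hm, v, rfl⟩ := hP.notLam z' hzL
        rw [hP.lin_eq m hm v, abs_mul, abs_of_pos (D.dyPsi_pos v)]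
        have h2 := hδ' m hm v hz'
        calc dy D.Psi v * |S0 v| ≤ dy D.Psi v * 1 :=
              mul_le_mul_of_nonneg_left (abs_S0_le v) (D.dyPsi_pos v).le
          _ < ε := by rw [mul_one]; exact h2
    have h3 : Tendsto (fun z' => (D.sigma z' - D.S z') + D.S z') (𝓝 z) (𝓝 (0 + D.S z)) :=
      h1.add D.S_cont.continuousAt
    simp only [sub_add_cancel, zero_add] at h3
    unfold ContinuousAt
    rw [sigma_mem hz]
    exact h3
  · unfold ContinuousAt
    rw [K0_mem hz]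
    apply tendsto_zero
    intro ε hε
    filter_upwards [hb ε hε] with z' hz'
    by_cases hzL : z' ∈ D.Lam
    · rw [K0_mem hzL, abs_zero]; exact hε
    · rcases hz' with h | ⟨h1, h2⟩
      · exact absurd h hzL
      · rw [K0_nmem hzL]
        exact (K0_est hL h1).trans_lt h2
  · unfold ContinuousAt
    rw [Ka_mem hz]
    apply tendsto_zero
    intro ε hε
    filter_upwards [hb ε hε] with z' hz'
    by_cases hzL : z' ∈ D.Lam
    · rw [Ka_mem hzL, abs_zero]; exact hε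
    · rcases hz' with h | ⟨h1, h2⟩
      · exact absurd h hzL
      · rw [Ka_nmem hzL]
        exact (Ka_est hL h1).trans_lt h2

theorem prf : StSigCont := by
  intro D _ hL hP hR
  have h : ∀ z : P2, z ∉ Gam → ContinuousAt D.sigma z ∧ ContinuousAt D.K0 z ∧
      ContinuousAt D.Ka z := by
    intro z hz
    by_cases hzL : z ∈ D.Lam
    · exact sing hL hP hR hzL
    · exact reg hL hP hz hzL
  exact ⟨fun z hz => (h z hz).1.continuousWithinAt, fun z hz => (h z hz).2.1.continuousWithinAt,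
    fun z hz => (h z hz).2.2.continuousWithinAt⟩

end Pool.Agent.Work.MP_0d206b_gt.MSigCont

end
end

/-! ### from I_Trans0.lean -/

section

/-!
# MP_0d206b_gt, item M Trans0: the gluing relation of flow 0 is transitive
-/

set_option autoImplicit false

noncomputable section

namespace Pool.Agent.Work.MP_0d206b_gt.MTrans0

open Pool.Agent.Work.MP_0d206b_gt

/-- the point of the piece `A` determines the point of the piece `R` -/
theorem left_unique {D : DA} (hD : Facts D) {e e' e'' : E} (h : glue0RA D e e')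
    (h' : glue0RA D e'' e') : e = e'' := by
  obtain ⟨m, hm, v, -, h1, h2, h3⟩ := h
  obtain ⟨n, hn, w, -, h1', h2', h3'⟩ := h'
  have hmn : m = n := by
    rw [← hD.psi.idx_eq m hm (v.2, v.1), ← h2, h2', hD.psi.idx_eq n hn]
  have hvw : (v.2, v.1) = (w.2, w.1) := by
    rw [← hD.psi.lin_eq m hm (v.2, v.1), ← h2, h2', hD.psi.lin_eq n hn]
  have hv : v = w := by
    have ha := congrArg Prod.fst hvw
    have hb := congrArg Prod.snd hvw
    exact Prod.ext hb ha
  subst hmn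
  subst hv
  refine Prod.ext (h1.trans h1'.symm) ?_
  linarith

/-- the point of the piece `R` determines the point of the piece `A` -/
theorem right_unique {D : DA} (hD : Facts D) {e e' e'' : E} (h : glue0RA D e' e)
    (h' : glue0RA D e' e'') : e = e'' := by
  obtain ⟨m, hm, v, -, h1, h2, h3⟩ := h
  obtain ⟨n, hn, w, -, h1', h2', h3'⟩ := h'
  have hmn : m = n := by
    rw [← hD.psi.idx_eq m hm v, ← h1, h1', hD.psi.idx_eq n hn]
  have hvw : v = w := by
    rw [← hD.psi.lin_eq m hm v, ← h1, h1', hD.psi.lin_eq n hn]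
  subst hmn
  subst hvw
  refine Prod.ext (h2.trans h2'.symm) ?_
  linarith

theorem prf : StTrans0 := by
  intro D hD i e j e' k e'' h h'
  cases i <;> cases j <;> cases k
  · have h1 : e = e' := h
    rw [h1]; exact h'
  · have h1 : e = e' := h
    rw [h1]; exact h'
  · exact left_unique hD h h'
  · have h1 : e' = e'' := h'
    rw [← h1]; exact h
  · have h1 : e' = e'' := h'
    rw [← h1]; exact h
  · exact right_unique hD h h'
  · have h1 : e = e' := h
    rw [h1]; exact h'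
  · have h1 : e = e' := h
    rw [h1]; exact h'

end Pool.Agent.Work.MP_0d206b_gt.MTrans0

end
end

/-! ### from I_TransA.lean -/

section

/-! # MP_0d206b_gt, module M: transitivity of the gluing of flow a -/

set_option autoImplicit false

open Set Filter Topology
open scoped ContDiff

noncomputable section

namespace Pool.Agent.Work.MP_0d206b_gt.MTransA

open Pool.Agent.Work.MP_0d206b_gt

theorem sg_sq (s : Bool) : sg s * sg s = 1 := by
  cases s <;> simp [sg]

theorem sg_ne (s : Bool) : sg s ≠ 0 := by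
  cases s <;> simp [sg]

theorem sg_mem (s : Bool) {m : P2} (hm : m ∈ Gam) : sg s • m ∈ Gam := by
  cases s
  · have h : sg false • m = -m := by simp [sg]
    rw [h]
    exact Gam.neg_mem hm
  · have h : sg true • m = m := by simp [sg]
    rw [h]
    exact hm

theorem sg_inj (s : Bool) {a b : P2} (h : sg s • a = sg s • b) : a = b :=
  smul_right_injective P2 (sg_ne s) h

theorem uniq {D : DA} (hD : Facts D) {m m' v v' : P2} (hm : m ∈ Gam) (hm' : m' ∈ Gam)
    (h : m + D.Psi v = m' + D.Psi v') : m = m' ∧ v = v' := by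
  have h1 := hD.psi.idx_eq m hm v
  have h2 := hD.psi.idx_eq m' hm' v'
  have h3 := hD.psi.lin_eq m hm v
  have h4 := hD.psi.lin_eq m' hm' v'
  rw [h] at h1 h3
  exact ⟨h1.symm.trans h2, h3.symm.trans h4⟩

theorem sq_pos {v : P2} (h : |v.2| < |v.1|) : 0 < v.1 ^ 2 - v.2 ^ 2 := by
  have := sq_lt_sq.mpr h
  linarith

/-- `g` on the sector -/
theorem key (s : Bool) (v : P2) (h : 0 < sg s * v.2) (h2 : |v.2| < |v.1|) :
    0 < (gmap (sg s • v)).1 ∧ sg s / (gmap (sg s • v)).1 = v.2 / (v.1 ^ 2 - v.2 ^ 2) ∧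
      sg s * (gmap (sg s • v)).2 = 2 * v.1 := by
  have h3 := sq_pos h2
  have hs := sg_sq s
  have hne := sg_ne s
  have hv : v.2 ≠ 0 := by
    intro h0
    rw [h0, mul_zero] at h
    exact lt_irrefl _ h
  have e1 : (gmap (sg s • v)).1 = (v.1 ^ 2 - v.2 ^ 2) / (sg s * v.2) := by
    show ((sg s * v.1) ^ 2 - (sg s * v.2) ^ 2) / (sg s * v.2) = _
    congr 1
    linear_combination (v.1 ^ 2 - v.2 ^ 2) * hs
  have e2 : (gmap (sg s • v)).2 = 2 * (sg s * v.1) := rfl
  refine ⟨?_, ?_, ?_⟩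
  · rw [e1]
    exact div_pos h3 h
  · rw [e1]
    field_simp
    linear_combination hs
  · rw [e2]
    linear_combination (2 * v.1) * hs

theorem key' (s : Bool) (v : P2) (h : 0 < sg s * v.2) (h2 : 0 < (gmap (sg s • v)).1) :
    |v.2| < |v.1| := by
  have hs := sg_sq s
  have e1 : (gmap (sg s • v)).1 = (v.1 ^ 2 - v.2 ^ 2) / (sg s * v.2) := by
    show ((sg s * v.1) ^ 2 - (sg s * v.2) ^ 2) / (sg s * v.2) = _
    congr 1
    linear_combination (v.1 ^ 2 - v.2 ^ 2) * hs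
  rw [e1] at h2
  have h3 : 0 < v.1 ^ 2 - v.2 ^ 2 := by
    rcases div_pos_iff.mp h2 with h4 | h4
    · exact h4.1
    · exact absurd h4.2 (not_lt.mpr h.le)
  apply sq_lt_sq.mp
  linarith

variable {D : DA} (hD : Facts D)

include hD

theorem l1 {s : Bool} {e e' f : E} (h : glueRA D s e f) (h' : glueRA D s e' f) : e = e' := by
  obtain ⟨m, hm, v, hv, h1, h2, h3⟩ := h
  obtain ⟨m', hm', v', hv', h1', h2', h3'⟩ := h'
  rw [h2] at h2'
  obtain ⟨ha, hb⟩ := uniq hD (sg_mem s hm) (sg_mem s hm') h2'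
  have hc := sg_inj s ha
  have hd : sg s • v = sg s • v' := by
    rw [← hD.g.gminv_gmap (sg s • v) hv, ← hD.g.gminv_gmap (sg s • v') hv', hb]
  have he := sg_inj s hd
  subst hc
  subst he
  apply Prod.ext
  · rw [h1, h1']
  · linarith

theorem l5 {s s' : Bool} {e f f' : E} (h : glueRA D s e f) (h' : glueRA D s' e f') :
    s = s' ∧ f = f' := by
  obtain ⟨m, hm, v, hv, h1, h2, h3⟩ := h
  obtain ⟨m', hm', v', hv', h1', h2', h3'⟩ := h'
  rw [h1] at h1'
  obtain ⟨ha, hb⟩ := uniq hD hm hm' h1'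
  subst ha
  subst hb
  have hs : s = s' := by
    cases s <;> cases s' <;> first | rfl | (exfalso; simp only [sg] at hv hv'; norm_num at hv hv'; linarith)
  subst hs
  refine ⟨rfl, ?_⟩
  apply Prod.ext
  · rw [h2, h2']
  · rw [h3, h3']

theorem l10 {m m' : Gam} {e h h' : E} (a : glueRg D m e h) (a' : glueRg D m' e h') :
    m = m' ∧ h = h' := by
  obtain ⟨v, hv, h1, h2, h3⟩ := a
  obtain ⟨v', hv', h1', h2', h3'⟩ := a'
  rw [h1] at h1'
  obtain ⟨ha, hb⟩ := uniq hD m.2 m'.2 h1'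
  have hm : m = m' := Subtype.ext ha
  subst hm
  subst hb
  refine ⟨rfl, ?_⟩
  apply Prod.ext
  · rw [h2, h2']
  · rw [h3, h3']

theorem l12 {s : Bool} {m m' : Gam} {f h h' : E} (a : glueAg D s m f h)
    (a' : glueAg D s m' f h') : m = m' ∧ h = h' := by
  obtain ⟨w, hw, h1, h2, h3⟩ := a
  obtain ⟨w', hw', h1', h2', h3'⟩ := a'
  rw [h1] at h1'
  obtain ⟨ha, hb⟩ := uniq hD (sg_mem s m.2) (sg_mem s m'.2) h1'
  have hm : m = m' := Subtype.ext (sg_inj s ha)
  subst hm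
  subst hb
  refine ⟨rfl, ?_⟩
  apply Prod.ext
  · rw [h2, h2']
  · rw [h3, h3']

theorem l6 {s : Bool} {m : Gam} {e f h : E} (a : glueRA D s e f) (b : glueRg D m e h) :
    glueAg D s m f h := by
  obtain ⟨m0, hm0, v, hv, h1, h2, h3⟩ := a
  obtain ⟨v', hv', h1', h2', h3'⟩ := b
  rw [h1] at h1'
  obtain ⟨ha, hb⟩ := uniq hD hm0 m.2 h1'
  subst hb
  rw [ha] at h2
  obtain ⟨k1, k2, k3⟩ := key s v hv hv'
  refine ⟨gmap (sg s • v), k1, h2, ?_, ?_⟩
  · rw [k2, k3]
    exact h2'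
  · rw [h3', h3]
    ring

theorem l2 {s : Bool} {m : Gam} {e f h : E} (a : glueRA D s e f) (b : glueAg D s m f h) :
    glueRg D m e h := by
  obtain ⟨m0, hm0, v, hv, h1, h2, h3⟩ := a
  obtain ⟨w, hw, h1', h2', h3'⟩ := b
  rw [h2] at h1'
  obtain ⟨ha, hb⟩ := uniq hD (sg_mem s hm0) (sg_mem s m.2) h1'
  have hc := sg_inj s ha
  rw [← hb] at hw h2' h3'
  have hlt := key' s v hv hw
  obtain ⟨k1, k2, k3⟩ := key s v hv hlt
  refine ⟨v, hlt, ?_, ?_, ?_⟩
  · rw [h1, hc]
  · rw [h2', k2, k3]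
  · rw [h3', h3]
    ring

omit hD in
theorem l3 {m : Gam} {e e' f : E} (a : glueRg D m e f) (b : glueRg D m e' f) : e = e' := by
  obtain ⟨v, hv, h1, h2, h3⟩ := a
  obtain ⟨v', hv', h1', h2', h3'⟩ := b
  rw [h2] at h2'
  have hx := congrArg Prod.fst h2'
  have hy := congrArg Prod.snd h2'
  have hy' : 2 * v.1 = 2 * v'.1 := hy
  have hv1 : v.1 = v'.1 := by linarith
  have p1 := sq_pos hv
  have p2 := sq_pos hv'
  have hx' : v.2 / (v.1 ^ 2 - v.2 ^ 2) = v'.2 / (v'.1 ^ 2 - v'.2 ^ 2) := hx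
  rw [div_eq_div_iff p1.ne' p2.ne', ← hv1] at hx'
  rw [← hv1] at p2
  have hprod : (v.2 - v'.2) * (v.1 ^ 2 + v.2 * v'.2) = 0 := by
    linear_combination hx'
  have hpos : 0 < v.1 ^ 2 + v.2 * v'.2 := by
    nlinarith [sq_nonneg (v.2 + v'.2)]
  have hv2 : v.2 = v'.2 := by
    rcases mul_eq_zero.mp hprod with h0 | h0
    · linarith
    · exact absurd h0 hpos.ne'
  have hvv : v = v' := Prod.ext hv1 hv2
  subst hvv
  apply Prod.ext
  · rw [h1, h1']
  · rw [← h3, ← h3']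

omit hD in
theorem l8 {s s' : Bool} {m : Gam} {f f' h : E} (a : glueAg D s m f h)
    (b : glueAg D s' m f' h) : s = s' ∧ f = f' := by
  obtain ⟨w, hw, h1, h2, h3⟩ := a
  obtain ⟨w', hw', h1', h2', h3'⟩ := b
  rw [h2] at h2'
  have hx : sg s / w.1 = sg s' / w'.1 := congrArg Prod.fst h2'
  have hy : sg s * w.2 = sg s' * w'.2 := congrArg Prod.snd h2'
  rw [div_eq_div_iff hw.ne' hw'.ne'] at hx
  have hs : s = s' := by
    cases s <;> cases s' <;> first | rfl | (exfalso; simp only [sg] at hx; norm_num at hx; linarith)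
  subst hs
  have hw1 : w.1 = w'.1 := (mul_left_cancel₀ (sg_ne s) hx).symm
  have hw2 : w.2 = w'.2 := mul_left_cancel₀ (sg_ne s) hy
  have hww : w = w' := Prod.ext hw1 hw2
  subst hww
  refine ⟨rfl, ?_⟩
  apply Prod.ext
  · rw [h1, h1']
  · linarith

omit hD in
theorem l4 {s : Bool} {m : Gam} {e f h : E} (a : glueRg D m e h) (b : glueAg D s m f h) :
    glueRA D s e f := by
  obtain ⟨v, hv, h1, h2, h3⟩ := a
  obtain ⟨w, hw, h1', h2', h3'⟩ := b
  rw [h2] at h2'
  have hx : v.2 / (v.1 ^ 2 - v.2 ^ 2) = sg s / w.1 := congrArg Prod.fst h2'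
  have hy : 2 * v.1 = sg s * w.2 := congrArg Prod.snd h2'
  have p := sq_pos hv
  have hs := sg_sq s
  have hx2 : v.2 * w.1 = sg s * (v.1 ^ 2 - v.2 ^ 2) := by
    rw [div_eq_div_iff p.ne' hw.ne'] at hx
    exact hx
  have hx3 : (sg s * v.2) * w.1 = v.1 ^ 2 - v.2 ^ 2 := by
    linear_combination (sg s) * hx2 + (v.1 ^ 2 - v.2 ^ 2) * hs
  have hpos : 0 < sg s * v.2 := by
    by_contra hcon
    have h4 : (sg s * v.2) * w.1 ≤ 0 := mul_nonpos_of_nonpos_of_nonneg (not_lt.mp hcon) hw.le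
    linarith
  have hg : gmap (sg s • v) = w := by
    apply Prod.ext
    · show ((sg s * v.1) ^ 2 - (sg s * v.2) ^ 2) / (sg s * v.2) = w.1
      rw [div_eq_iff hpos.ne']
      linear_combination (v.1 ^ 2 - v.2 ^ 2) * hs - hx3
    · show 2 * (sg s * v.1) = w.2
      linear_combination (sg s) * hy + w.2 * hs
  refine ⟨m, m.2, v, hpos, h1, ?_, ?_⟩
  · rw [hg]
    exact h1'
  · rw [hg]
    linarith

omit hD in
theorem prf : StTransA := by
  intro D hD i e j e' k e'' h h'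
  cases i with
  | R =>
    cases j with
    | R =>
      have h0 : e = e' := h
      rw [h0]
      exact h'
    | A s =>
      cases k with
      | R => exact l1 hD h h'
      | A s' =>
        obtain ⟨h1, h2⟩ : s = s' ∧ e' = e'' := h'
        rw [← h1, ← h2]
        exact h
      | g m => exact l2 hD h h'
    | g m =>
      cases k with
      | R => exact l3 h h'
      | A s => exact l4 h h'
      | g m' =>
        obtain ⟨h1, h2⟩ : m = m' ∧ e' = e'' := h'
        rw [← h1, ← h2]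
        exact h
  | A s =>
    cases j with
    | R =>
      cases k with
      | R =>
        have h0 : e' = e'' := h'
        rw [← h0]
        exact h
      | A s' => exact l5 hD h h'
      | g m => exact l6 hD h h'
    | A s' =>
      obtain ⟨h1, h2⟩ : s = s' ∧ e = e' := h
      rw [h1, h2]
      exact h'
    | g m =>
      cases k with
      | R => exact l4 h' h
      | A s' => exact l8 h h'
      | g m' =>
        obtain ⟨h1, h2⟩ : m = m' ∧ e' = e'' := h'
        rw [← h1, ← h2]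
        exact h
  | g m =>
    cases j with
    | R =>
      cases k with
      | R =>
        have h0 : e' = e'' := h'
        rw [← h0]
        exact h
      | A s => exact l6 hD h' h
      | g m' => exact l10 hD h h'
    | A s =>
      cases k with
      | R => exact l2 hD h' h
      | A s' =>
        obtain ⟨h1, h2⟩ : s = s' ∧ e' = e'' := h'
        rw [← h1, ← h2]
        exact h
      | g m' => exact l12 hD h h'
    | g m' =>
      obtain ⟨h1, h2⟩ : m = m' ∧ e = e' := h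
      rw [h1, h2]
      exact h'

end Pool.Agent.Work.MP_0d206b_gt.MTransA

end
end
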