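import Pool.Agent.Work.MP_0d206b_gt.M.Stmts

/-! MP_0d206b_gt, module M: items, part 1 -/

/-! ### from I_ActGlue0.lean -/

section

/-! # MP_0d206b_gt, module M: the action preserves the gluing of flow 0 -/

set_option autoImplicit false

open Set Filter Topology
open scoped ContDiff

noncomputable section

namespace Pool.Agent.Work.MP_0d206b_gt.MActGlue0

open Pool.Agent.Work.MP_0d206b_gt

theorem glueRA (D : DA) (hD : Facts D) (a : Grp) (e e' : E) (h : glue0RA D e e') :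
    glue0RA D (act0 D a .R e) (act0 D a .A e') := by
  obtain ⟨m, hm, v, hv, h1, h2, h3⟩ := h
  have hj : (lam ^ a.j : ℝ) ≠ 0 := zpow_ne_zero _ lam_pos.ne'
  refine ⟨Lz a.j m + (a.n : P2), Gam.add_mem (Lz_mem a.j hm) a.n.2, lam ^ a.j • v,
    smul_ne_zero hj hv, ?_, ?_, ?_⟩
  · show (D.Fe ^ a.j) e.1 + (a.n : P2) = _
    rw [h1, hD.pow.psi a.j m hm v]
    abel
  · show (D.Fe ^ a.j) e'.1 + (a.n : P2) = _
    rw [h2, hD.pow.psi a.j m hm (v.2, v.1)]
    have h4 : lam ^ a.j • ((v.2, v.1) : P2) = ((lam ^ a.j • v).2, (lam ^ a.j • v).1) := rfl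
    rw [h4]
    abel
  · show e'.2 - (a.j : ℝ) = (e.2 + a.j) - llog (nsq (lam ^ a.j • v))
    rw [h3, hD.log.llog_nsq a.j v hv]
    ring

theorem prf : StActGlue0 := by
  intro D hD i j a e e' h
  cases i <;> cases j
  · have h' : e = e' := h
    rw [h']
    rfl
  · exact glueRA D hD a e e' h
  · exact glueRA D hD a e' e h
  · have h' : e = e' := h
    rw [h']
    rfl

end Pool.Agent.Work.MP_0d206b_gt.MActGlue0

end
end

/-! ### from I_AlgA.lean -/

section

/-! MP_0d206b_gt, module M: algebra of the gluing relation of flow a. -/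

set_option autoImplicit false

open Set Filter Topology
open scoped ContDiff

noncomputable section

namespace Pool.Agent.Work.MP_0d206b_gt.MAlgA

open MP0d206b.Et (shift)

theorem sg_smul_mem (s : Bool) {m : P2} (hm : m ∈ Gam) : sg s • m ∈ Gam := by
  unfold sg
  cases s
  · simpa using Gam.neg_mem hm
  · simpa using hm

theorem isOpen_R (hG : GamFacts) : IsOpen {e : E | e.1 ∉ Gam} :=
  (hG.closed.isOpen_compl).preimage continuous_fst

theorem prf : StAlgA := by
  intro D hF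
  have key : ∀ m ∈ Gam, ∀ v : P2, v ≠ 0 → m + D.Psi v ∉ Gam := fun m hm v hv h =>
    hv ((hF.psi.mem_gam m hm v).mp h)
  refine ⟨?_, ?_, ?_, ?_, ?_, ?_⟩
  · intro i
    cases i with
    | R => exact isOpen_R hF.gam
    | A s => exact isOpen_R hF.gam
    | g m => exact isOpen_univ
  · intro i e s h
    cases i with
    | R => exact h
    | A s => exact h
    | g m => exact mem_univ _
  · intro i e e'
    cases i with
    | R => exact Iff.rfl
    | A s => exact ⟨fun h => h.2, fun h => ⟨rfl, h⟩⟩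
    | g m => exact ⟨fun h => h.2, fun h => ⟨rfl, h⟩⟩
  · intro i e j e' hd h
    cases i with
    | R =>
      cases j with
      | R =>
        have h' : e = e' := h
        exact h' ▸ hd
      | A s =>
        obtain ⟨m, hm, v, hv, _, h2, _⟩ := h
        show e'.1 ∉ Gam
        rw [h2]
        refine key _ (sg_smul_mem s hm) _ (hF.g.gmap_ne _ ?_)
        show sg s * v.2 ≠ 0
        exact hv.ne'
      | g m => exact mem_univ _
    | A s =>
      cases j with
      | R =>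
        obtain ⟨m, hm, v, hv, h1, _, _⟩ := h
        show e'.1 ∉ Gam
        rw [h1]
        refine key _ hm _ ?_
        rintro rfl
        simp at hv
      | A s' =>
        obtain ⟨_, h'⟩ := h
        exact h' ▸ hd
      | g m => exact mem_univ _
    | g m =>
      cases j with
      | R =>
        obtain ⟨v, hv, h1, _, _⟩ := h
        show e'.1 ∉ Gam
        rw [h1]
        refine key _ m.2 _ ?_
        rintro rfl
        simp at hv
      | A s =>
        obtain ⟨w, hw, h1, _, _⟩ := h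
        show e'.1 ∉ Gam
        rw [h1]
        refine key _ (sg_smul_mem s m.2) _ ?_
        rintro rfl
        simp at hw
      | g m' => exact mem_univ _
  · intro i e j e' h
    cases i with
    | R =>
      cases j with
      | R => exact Eq.symm h
      | A s => exact h
      | g m => exact h
    | A s =>
      cases j with
      | R => exact h
      | A s' => exact ⟨h.1.symm, h.2.symm⟩
      | g m => exact h
    | g m =>
      cases j with
      | R => exact h
      | A s => exact h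
      | g m' => exact ⟨h.1.symm, h.2.symm⟩
  · have hRA : ∀ (s : Bool) (e e' : E) (t : ℝ), glueRA D s e e' →
        glueRA D s (shift t e) (shift t e') := by
      rintro s e e' t ⟨m, hm, v, hv, h1, h2, h3⟩
      refine ⟨m, hm, v, hv, h1, h2, ?_⟩
      show e'.2 + t = e.2 + t - llog (nsq (gmap (sg s • v)))
      rw [h3]; ring
    have hRg : ∀ (m : Gam) (e e' : E) (t : ℝ), glueRg D m e e' →
        glueRg D m (shift t e) (shift t e') := by
      rintro m e e' t ⟨v, hv, h1, h2, h3⟩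
      refine ⟨v, hv, h1, h2, ?_⟩
      show e'.2 + t = e.2 + t
      rw [h3]
    have hAg : ∀ (s : Bool) (m : Gam) (e e' : E) (t : ℝ), glueAg D s m e e' →
        glueAg D s m (shift t e) (shift t e') := by
      rintro s m e e' t ⟨w, hw, h1, h2, h3⟩
      refine ⟨w, hw, h1, h2, ?_⟩
      show e'.2 + t = e.2 + t + llog (nsq w)
      rw [h3]; ring
    intro i e j e' t h
    cases i with
    | R =>
      cases j with
      | R =>
        have h' : e = e' := h
        subst h'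
        rfl
      | A s => exact hRA s e e' t h
      | g m => exact hRg m e e' t h
    | A s =>
      cases j with
      | R => exact hRA s e' e t h
      | A s' =>
        obtain ⟨h1, h2⟩ := h
        subst h2
        exact ⟨h1, rfl⟩
      | g m => exact hAg s m e e' t h
    | g m =>
      cases j with
      | R => exact hRg m e' e t h
      | A s => exact hAg s m e' e t h
      | g m' =>
        obtain ⟨h1, h2⟩ := h
        subst h2
        exact ⟨h1, rfl⟩

end Pool.Agent.Work.MP_0d206b_gt.MAlgA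

end
end

/-! ### from I_ClosedAg.lean -/

section

/-!
# MP_0d206b_gt, module M, item ClosedAg: the gluing relation of flow a between an attractor piece and a saddle
piece is closed
-/

set_option autoImplicit false

open Set Filter Topology
open scoped ContDiff

noncomputable section

namespace Pool.Agent.Work.MP_0d206b_gt.MClosedAg

open Pool.Agent.Work.MP_0d206b_gt

theorem sg_sq (s : Bool) : sg s * sg s = 1 := by cases s <;> simp [sg]

theorem sg_ne (s : Bool) : sg s ≠ 0 := by cases s <;> simp [sg]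

theorem sg_mem (s : Bool) {m : P2} (hm : m ∈ Gam) : sg s • m ∈ Gam := by
  cases s
  · simpa [sg] using hm
  · simpa [sg] using hm

theorem nsq_cont : Continuous nsq := by unfold nsq; fun_prop

theorem llog_nsq_tendsto (F : LogFacts) {w : ℕ → P2} {v : P2} (hv : v ≠ 0)
    (h : Tendsto w atTop (𝓝 v)) : Tendsto (fun n => llog (nsq (w n))) atTop (𝓝 (llog (nsq v))) := by
  have h1 : Tendsto (fun n => nsq (w n)) atTop (𝓝 (nsq v)) := (nsq_cont.tendsto v).comp h
  have h2 : Tendsto (fun n => Real.log (nsq (w n))) atTop (𝓝 (Real.log (nsq v))) :=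
    h1.log (F.nsq_pos v hv).ne'
  exact h2.div_const _

/-- a bound for `w` from a bound for the logarithm -/
theorem norm_bdd (F : LogFacts) (b : ℝ) :
    ∃ R > 0, ∀ w : P2, w ≠ 0 → llog (nsq w) ≤ b → ‖w‖ ≤ R := by
  obtain ⟨R, hR, h⟩ := F.llog_lt b
  refine ⟨R + 1, by linarith, fun w hw hb => ?_⟩
  have h1 := h (nsq w) (F.nsq_pos w hw) hb
  have h2 := F.le_nsq w
  by_contra hc
  push Not at hc
  nlinarith [norm_nonneg w]

theorem prf : StClosedAg := by
  intro D F s m e e' x y he he' hx hy hg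
  have he1 : e.1 ∉ Gam := he
  have hg' : ∀ n, ∃ w : P2, 0 < w.1 ∧ (x n).1 = sg s • (m : P2) + D.Psi w ∧
    (y n).1 = (sg s / w.1, sg s * w.2) ∧ (y n).2 = (x n).2 + llog (nsq w) := hg
  choose w hw1 hwx hwy hwt using hg'
  have hwne : ∀ n, w n ≠ 0 := fun n h => by
    have := hw1 n
    rw [h] at this
    exact lt_irrefl _ this
  have hx1 : Tendsto (fun n => (x n).1) atTop (𝓝 e.1) := (continuous_fst.tendsto _).comp hx
  have hx2 : Tendsto (fun n => (x n).2) atTop (𝓝 e.2) := (continuous_snd.tendsto _).comp hx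
  have hy1 : Tendsto (fun n => (y n).1) atTop (𝓝 e'.1) := (continuous_fst.tendsto _).comp hy
  have hy2 : Tendsto (fun n => (y n).2) atTop (𝓝 e'.2) := (continuous_snd.tendsto _).comp hy
  have hlim : Tendsto (fun n => llog (nsq (w n))) atTop (𝓝 (e'.2 - e.2)) := by
    have h1 : (fun n => llog (nsq (w n))) = fun n => (y n).2 - (x n).2 := by
      funext n; rw [hwt n]; ring
    rw [h1]
    exact hy2.sub hx2
  obtain ⟨b, hb⟩ := hlim.bddAbove_range
  obtain ⟨R, hR, hRb⟩ := norm_bdd F.log b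
  have hwR : ∀ n, ‖w n‖ ≤ R := fun n => hRb _ (hwne n) (hb ⟨n, rfl⟩)
  obtain ⟨m0, hm0, v0, hev, hm, hwv⟩ := F.proper.proper e.1 (fun n => (x n).1)
    (fun _ => sg s • (m : P2)) w R hx1 (fun n => ⟨sg_mem s m.2, hwx n⟩) hwR
  obtain ⟨_, hm⟩ := hm.exists
  subst hm
  have hv0 : v0 ≠ 0 := fun h => he1 (by rw [hev]; exact (F.psi.mem_gam _ hm0 v0).2 h)
  have hw1v : Tendsto (fun n => (w n).1) atTop (𝓝 v0.1) := (continuous_fst.tendsto _).comp hwv
  have hw2v : Tendsto (fun n => (w n).2) atTop (𝓝 v0.2) := (continuous_snd.tendsto _).comp hwv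
  have hy11 : Tendsto (fun n => (y n).1.1) atTop (𝓝 e'.1.1) := (continuous_fst.tendsto _).comp hy1
  have hy12 : Tendsto (fun n => (y n).1.2) atTop (𝓝 e'.1.2) := (continuous_snd.tendsto _).comp hy1
  have hprod : e'.1.1 * v0.1 = sg s := by
    have h1 : Tendsto (fun n => (y n).1.1 * (w n).1) atTop (𝓝 (e'.1.1 * v0.1)) := hy11.mul hw1v
    have h2 : (fun n => (y n).1.1 * (w n).1) = fun _ => sg s := by
      funext n
      rw [hwy n]
      exact div_mul_cancel₀ _ (hw1 n).ne'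
    rw [h2] at h1
    exact tendsto_nhds_unique h1 tendsto_const_nhds
  have hv1 : 0 < v0.1 := by
    have h0 : 0 ≤ v0.1 := ge_of_tendsto' hw1v (fun n => (hw1 n).le)
    rcases h0.lt_or_eq with h | h
    · exact h
    · rw [← h, mul_zero] at hprod
      exact absurd hprod.symm (sg_ne s)
  refine ⟨v0, hv1, hev, ?_, ?_⟩
  · ext
    · exact (eq_div_iff hv1.ne').2 hprod
    · have h1 : Tendsto (fun n => (y n).1.2) atTop (𝓝 (sg s * v0.2)) := by
        have h2 : (fun n => (y n).1.2) = fun n => sg s * (w n).2 := by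
          funext n; rw [hwy n]
        rw [h2]
        exact hw2v.const_mul _
      exact tendsto_nhds_unique hy12 h1
  · have h1 : Tendsto (fun n => (y n).2) atTop (𝓝 (e.2 + llog (nsq v0))) := by
      have h2 : (fun n => (y n).2) = fun n => (x n).2 + llog (nsq (w n)) := by
        funext n; rw [hwt n]
      rw [h2]
      exact hx2.add (llog_nsq_tendsto F.log hv0 hwv)
    exact tendsto_nhds_unique hy2 h1

end Pool.Agent.Work.MP_0d206b_gt.MClosedAg

end
end

/-! ### from I_CompAs.lean -/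

section

/-! Item CompAs: compactness, the points of the attractor pieces. -/

set_option autoImplicit false

open Set Filter Topology
open scoped ContDiff

noncomputable section

namespace Pool.Agent.Work.MP_0d206b_gt.MCompAs

lemma sg_smul_mem (s : Bool) {m : P2} (hm : m ∈ Gam) : sg s • m ∈ Gam := by
  cases s
  · have : sg false • m = -m := by simp [sg]
    rw [this]
    exact Gam.neg_mem hm
  · have : sg true • m = m := by simp [sg]
    rw [this]
    exact hm

lemma sg_mul_self (s : Bool) : sg s * sg s = 1 := by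
  cases s <;> simp [sg]

lemma abs_sg (s : Bool) : |sg s| = 1 := by
  cases s <;> simp [sg]

lemma lam_lt_three : lam < 3 := by
  rw [lam_mul_phi]
  linarith [Real.goldenRatio_lt_two]

lemma one_le_of_llog (hL : LogFacts) {r : ℝ} (hr : 0 < r) (h : 0 ≤ llog r) : 1 ≤ r := by
  unfold llog at h
  have h1 : 0 ≤ Real.log r := by
    by_contra hcon
    push Not at hcon
    exact absurd h (not_le.mpr (div_neg_of_neg_of_pos hcon hL.log_pos))
  exact (Real.log_nonneg_iff hr).mp h1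

lemma le_lam_of_llog (hL : LogFacts) {r : ℝ} (hr : 0 < r) (h : llog r ≤ 1) : r ≤ lam := by
  unfold llog at h
  rw [div_le_one hL.log_pos] at h
  exact (Real.log_le_log_iff hr lam_pos).mp h

/-- the normalised point of the repeller piece is not small -/
lemma size_est (hL : LogFacts) {ρ t q x W : ℝ} (hρ : 0 < ρ) (hq : 0 < q) (hW : q ^ 2 = W)
    {v : P2} (hv : nsq v = q * (q - x) / 2) (j : ℤ) (ht : t ≤ 1) (hj : 0 ≤ t + llog W + j)
    (hbig : 4 * ρ ^ 2 * lam ^ 2 * q ^ 3 ≤ q - x) : ρ ≤ ‖lam ^ j • v‖ := by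
  have hl0 := lam_pos
  have hW0 : 0 < W := by rw [← hW]; positivity
  have hlj : 0 < lam ^ j := zpow_pos hl0 j
  have h1 : 0 ≤ llog (lam ^ (j + 1) * W) := by
    rw [hL.llog_zpow _ _ hW0]
    push_cast
    linarith
  have h2 : 1 ≤ lam ^ (j + 1) * W := one_le_of_llog hL (by positivity) h1
  rw [zpow_add_one₀ hl0.ne'] at h2
  have h3 : nsq (lam ^ j • v) = (lam ^ j) ^ 2 * nsq v := hL.nsq_smul _ _
  have h4 := hL.nsq_le (lam ^ j • v)
  rw [h3, hv] at h4
  have h5 : 1 ≤ (lam ^ j * lam * W) ^ 2 := one_le_pow₀ h2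
  have h6 : 2 * ρ ^ 2 ≤ (lam ^ j) ^ 2 * (q * (q - x) / 2) := by
    have h7 : (lam ^ j) ^ 2 * (q * (4 * ρ ^ 2 * lam ^ 2 * q ^ 3) / 2) =
        2 * ρ ^ 2 * (lam ^ j * lam * W) ^ 2 := by
      rw [← hW]
      ring
    have h8 : q * (4 * ρ ^ 2 * lam ^ 2 * q ^ 3) / 2 ≤ q * (q - x) / 2 := by
      have := mul_le_mul_of_nonneg_left hbig hq.le
      linarith
    have h9 := mul_le_mul_of_nonneg_left h8 (sq_nonneg (lam ^ j))
    rw [h7] at h9
    have h10 : 2 * ρ ^ 2 * 1 ≤ 2 * ρ ^ 2 * (lam ^ j * lam * W) ^ 2 :=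
      mul_le_mul_of_nonneg_left h5 (by positivity)
    linarith
  have h11 : ρ ^ 2 ≤ ‖lam ^ j • v‖ ^ 2 := by linarith
  exact (pow_le_pow_iff_left₀ hρ.le (norm_nonneg _) two_ne_zero).mp h11

/-- the estimates near the half line -/
lemma saddle_est {ρ q x y : ℝ} (hρ : 0 < ρ) (hρ1 : ρ ≤ 1 / 100) (hq : 0 < q)
    (hqq : q ^ 2 = x ^ 2 + y ^ 2) (hq1 : q ^ 2 ≤ 2 * ρ ^ 2)
    (h : q - x < 4 * ρ ^ 2 * lam ^ 2 * q ^ 3) :
    q / 2 < x ∧ q ≤ 1 / 50 ∧ |y| ≤ 3 * ρ * lam * q ^ 2 := by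
  have hl := lam_lt_three
  have hl0 := lam_pos
  have hρ2 : ρ ^ 2 ≤ 1 / 10000 := by nlinarith
  have hq2 : q ≤ 1 / 50 := by
    by_contra hcon
    push Not at hcon
    nlinarith
  have hl2 : lam ^ 2 ≤ 9 := by nlinarith
  have hxq : x ≤ q := by
    by_contra hcon
    push Not at hcon
    nlinarith [sq_nonneg y]
  refine ⟨?_, hq2, ?_⟩
  · have h1 : 4 * ρ ^ 2 * lam ^ 2 * q ^ 3 ≤ q / 2 := by
      have h2 : ρ ^ 2 * lam ^ 2 ≤ 1 / 10000 * 9 :=
        mul_le_mul hρ2 hl2 (by positivity) (by norm_num)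
      have h3 : q ^ 2 ≤ 1 := by nlinarith
      have h4 : ρ ^ 2 * lam ^ 2 * q ^ 2 ≤ 1 / 10000 * 9 * 1 :=
        mul_le_mul h2 h3 (by positivity) (by norm_num)
      have h5 : 4 * ρ ^ 2 * lam ^ 2 * q ^ 3 = 4 * (ρ ^ 2 * lam ^ 2 * q ^ 2) * q := by ring
      rw [h5]
      have := mul_le_mul_of_nonneg_right h4 hq.le
      nlinarith
    linarith
  · have h1 : y ^ 2 = (q - x) * (q + x) := by linarith
    have h2 : y ^ 2 ≤ (4 * ρ ^ 2 * lam ^ 2 * q ^ 3) * (2 * q) := by
      rw [h1]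
      apply mul_le_mul h.le (by linarith) _ (by positivity)
      have : -q ≤ x := by
        by_contra hcon
        push Not at hcon
        nlinarith [sq_nonneg y]
      linarith
    have h3 : |y| ^ 2 ≤ (3 * ρ * lam * q ^ 2) ^ 2 := by
      rw [sq_abs]
      refine h2.trans ?_
      have : 0 ≤ (ρ * lam * q ^ 2) ^ 2 := sq_nonneg _
      nlinarith
    exact (pow_le_pow_iff_left₀ (abs_nonneg _) (by positivity) two_ne_zero).mp h3

theorem prf (hAct : StActA) (hGlue : StActGlueA) : StCompAs := by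
  intro D hD
  obtain ⟨C1, hC1, hcov⟩ := hD.gam.cover
  obtain ⟨r1, hr1, hr1h, hnear⟩ := hD.proper.near_gam
  obtain ⟨r2, hr2, hdist⟩ := hD.proper.dist_gam
  refine ⟨min (min r1 r2) (1 / 100), by positivity, max C1 1, ?_⟩
  intro ρ hρ hρ0 C hC s e he
  have hρ1 : ρ ≤ r1 := hρ0.trans ((min_le_left _ _).trans (min_le_left _ _))
  have hρ2 : ρ ≤ r2 := hρ0.trans ((min_le_left _ _).trans (min_le_right _ _))
  have hρ3 : ρ ≤ 1 / 100 := hρ0.trans (min_le_right _ _)
  have hCC1 : C1 ≤ C := (le_max_left _ _).trans hC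
  have hCC2 : 1 ≤ C := (le_max_right _ _).trans hC
  -- normalise
  obtain ⟨n0, hn0, hn0b⟩ := hcov ((D.Fe ^ ⌊e.2⌋) e.1)
  have hdom : actA D ⟨⟨sg s • n0, sg_smul_mem s hn0⟩, ⌊e.2⌋⟩ (.A s) e ∈ domA (.A s) :=
    (hAct D hD).act_dom ⟨⟨sg s • n0, sg_smul_mem s hn0⟩, ⌊e.2⌋⟩ (.A s) e he
  have h11 : (actA D ⟨⟨sg s • n0, sg_smul_mem s hn0⟩, ⌊e.2⌋⟩ (.A s) e).1 =
      (D.Fe ^ ⌊e.2⌋) e.1 + n0 := by
    show (D.Fe ^ ⌊e.2⌋) e.1 + sg s • (sg s • n0) = (D.Fe ^ ⌊e.2⌋) e.1 + n0
    rw [smul_smul, sg_mul_self, one_smul]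
  have h12 : (actA D ⟨⟨sg s • n0, sg_smul_mem s hn0⟩, ⌊e.2⌋⟩ (.A s) e).2 =
      e.2 - ((⌊e.2⌋ : ℤ) : ℝ) := rfl
  have hmul := (hAct D hD).act_mul
  generalize ha0 : (⟨⟨sg s • n0, sg_smul_mem s hn0⟩, ⌊e.2⌋⟩ : Grp) = a0 at hdom h11 h12
  generalize he1 : actA D a0 (.A s) e = e1 at hdom h11 h12
  have hnorm : ‖e1.1‖ ≤ C := by
    rw [h11]
    exact hn0b.trans hCC1
  have ht0 : 0 ≤ e1.2 := by
    rw [h12]
    linarith [Int.floor_le e.2]
  have ht1 : e1.2 ≤ 1 := by
    rw [h12]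
    linarith [Int.lt_floor_add_one e.2]
  by_cases hfar : ∀ m ∈ Gam, ρ ≤ dist e1.1 m
  · exact ⟨a0, .A s, e1, ⟨hnorm, hfar, ht0, ht1⟩, rfl, he1⟩
  push Not at hfar
  obtain ⟨m', hm', hmd⟩ := hfar
  have hw := hnear e1.1 m' hm' (hmd.trans_le hρ1)
  have hwn : ‖e1.1 - m'‖ < ρ := by rwa [← dist_eq_norm]
  have hw0 : e1.1 - m' ≠ 0 := by
    intro h0
    apply hdom
    rw [sub_eq_zero.mp h0]
    exact hm'
  generalize e1.1 - m' = w at hw hwn hw0
  -- the index on the other side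
  have hm : sg s • m' ∈ Gam := sg_smul_mem s hm'
  have hmm : sg s • (sg s • m') = m' := by
    rw [smul_smul, sg_mul_self, one_smul]
  generalize sg s • m' = m at hm hmm
  have hl0 := lam_pos
  have hW := hD.log.nsq_pos w hw0
  have hq0 : 0 < Real.sqrt (nsq w) := Real.sqrt_pos.mpr hW
  have hqq : Real.sqrt (nsq w) ^ 2 = nsq w := Real.sq_sqrt hW.le
  have hWle : nsq w ≤ 2 * ρ ^ 2 := by
    have h1 := hD.log.nsq_le w
    have h2 : ‖w‖ ^ 2 ≤ ρ ^ 2 := pow_le_pow_left₀ (norm_nonneg _) hwn.le 2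
    linarith
  have hnsq : nsq w = w.1 ^ 2 + w.2 ^ 2 := rfl
  -- the new time
  have hfl1 := Int.floor_le (e1.2 + llog (nsq w))
  have hfl2 := Int.lt_floor_add_one (e1.2 + llog (nsq w))
  by_cases hcase : 4 * ρ ^ 2 * lam ^ 2 * Real.sqrt (nsq w) ^ 3 ≤ Real.sqrt (nsq w) - w.1
  · -- repeller
    have hpos : 0 < Real.sqrt (nsq w) - w.1 :=
      lt_of_lt_of_le (by positivity) hcase
    have hslit : w.2 ≠ 0 ∨ w.1 < 0 := by
      by_contra hcon
      push Not at hcon
      have h1 : nsq w = w.1 ^ 2 := by rw [hnsq, hcon.1]; ring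
      rw [h1, Real.sqrt_sq hcon.2] at hpos
      linarith
    obtain ⟨hg2, hgg⟩ := hD.g.gmap_gminv w hslit
    have hv2 : sg s * (sg s • gminv w).2 = (gminv w).2 := by
      show sg s * (sg s * (gminv w).2) = (gminv w).2
      rw [← mul_assoc, sg_mul_self, one_mul]
    have hsv : sg s • (sg s • gminv w) = gminv w := by
      rw [smul_smul, sg_mul_self, one_smul]
    have hnv : nsq (sg s • gminv w) = Real.sqrt (nsq w) * (Real.sqrt (nsq w) - w.1) / 2 := by
      have h1 : nsq (sg s • gminv w) = nsq (gminv w) := by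
        rw [hD.log.nsq_smul, sq, sg_mul_self, one_mul]
      have h2 : nsq (gminv w) = (w.2 / 2) ^ 2 + ((Real.sqrt (nsq w) - w.1) / 2) ^ 2 := rfl
      rw [h1, h2]
      linear_combination (-1 / 4) * hqq + (-1 / 4) * hnsq
    rw [← hsv] at hgg
    rw [← hv2] at hg2
    generalize sg s • gminv w = v at hg2 hgg hnv
    have hg : glueA D (.A s) e1 .R (m + D.Psi v, e1.2 + llog (nsq w)) := by
      refine ⟨m, hm, v, hg2, rfl, ?_, ?_⟩
      · rw [hmm, hgg]
        exact hw
      · rw [hgg]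
        show e1.2 = e1.2 + llog (nsq w) - llog (nsq w)
        ring
    obtain ⟨n1, hn1, hn1b⟩ := hcov ((D.Fe ^ (-⌊e1.2 + llog (nsq w)⌋)) (m + D.Psi v))
    have hj0 : 0 ≤ e1.2 + llog (nsq w) + ((-⌊e1.2 + llog (nsq w)⌋ : ℤ) : ℝ) := by
      push_cast
      linarith
    have hj1 : e1.2 + llog (nsq w) + ((-⌊e1.2 + llog (nsq w)⌋ : ℤ) : ℝ) ≤ 1 := by
      push_cast
      linarith
    have hpsi := hD.pow.psi (-⌊e1.2 + llog (nsq w)⌋) m hm v
    have hgl := hGlue D hD (.A s) .R ⟨⟨n1, hn1⟩, -⌊e1.2 + llog (nsq w)⌋⟩ _ _ hg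
    generalize -⌊e1.2 + llog (nsq w)⌋ = j at *
    have hsz : ρ ≤ ‖lam ^ j • v‖ := size_est hD.log hρ hq0 hqq hnv j ht1 hj0 hcase
    refine ⟨⟨⟨n1, hn1⟩, j⟩ * a0, .R,
      actA D ⟨⟨n1, hn1⟩, j⟩ .R (m + D.Psi v, e1.2 + llog (nsq w)), ⟨?_, ?_, ?_, ?_⟩, ?_⟩
    · show ‖(D.Fe ^ j) (m + D.Psi v) + n1‖ ≤ C
      exact hn1b.trans hCC1
    · intro m'' hm''
      show ρ ≤ dist ((D.Fe ^ j) (m + D.Psi v) + n1) m''
      rw [hpsi]
      have h1 := hdist ρ hρ hρ2 (Lz j m) (Lz_mem j hm) (lam ^ j • v) hsz (m'' - n1)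
        (Gam.sub_mem hm'' hn1)
      have h2 : dist (Lz j m + D.Psi (lam ^ j • v) + n1) m'' =
          dist (Lz j m + D.Psi (lam ^ j • v)) (m'' - n1) := by
        rw [dist_eq_norm, dist_eq_norm]
        congr 1
        abel
      rw [h2]
      exact h1
    · exact hj0
    · exact hj1
    · show glueA D (.A s) (actA D (⟨⟨n1, hn1⟩, j⟩ * a0) (.A s) e) .R _
      rw [hmul]
      show glueA D (.A s) (actA D ⟨⟨n1, hn1⟩, j⟩ (.A s) (actA D a0 (.A s) e)) .R _
      rw [he1]
      exact hgl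
  · -- saddle
    push Not at hcase
    obtain ⟨hx, hq1, hy⟩ := saddle_est hρ hρ3 hq0 (hqq.trans hnsq) (hqq.trans_le hWle) hcase
    have hx0 : 0 < w.1 := by linarith
    have hg : glueA D (.A s) e1 (.g ⟨m, hm⟩) ((sg s / w.1, sg s * w.2), e1.2 + llog (nsq w)) := by
      refine ⟨w, hx0, ?_, rfl, rfl⟩
      show e1.1 = sg s • m + D.Psi w
      rw [hmm]
      exact hw
    have hj0 : 0 ≤ e1.2 + llog (nsq w) + ((-⌊e1.2 + llog (nsq w)⌋ : ℤ) : ℝ) := by
      push_cast
      linarith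
    have hj1 : e1.2 + llog (nsq w) + ((-⌊e1.2 + llog (nsq w)⌋ : ℤ) : ℝ) ≤ 1 := by
      push_cast
      linarith
    have hgl := hGlue D hD (.A s) (.g ⟨m, hm⟩)
      ⟨-Grp.LG (-⌊e1.2 + llog (nsq w)⌋) ⟨m, hm⟩, -⌊e1.2 + llog (nsq w)⌋⟩ _ _ hg
    generalize -⌊e1.2 + llog (nsq w)⌋ = j at *
    have hlj : 0 < lam ^ j := zpow_pos hl0 j
    -- `lam ^ j * nsq w ≤ lam`
    have hup : lam ^ j * nsq w ≤ lam := by
      refine le_lam_of_llog hD.log (by positivity) ?_
      rw [hD.log.llog_zpow _ _ hW]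
      linarith
    have hlow : 1 ≤ lam ^ j * lam * nsq w := by
      rw [← zpow_add_one₀ hl0.ne']
      refine one_le_of_llog hD.log (by positivity) ?_
      rw [hD.log.llog_zpow _ _ hW]
      push_cast
      linarith
    have hl3 := lam_lt_three
    refine ⟨⟨-Grp.LG j ⟨m, hm⟩, j⟩ * a0, .g (Grp.LG j ⟨m, hm⟩ + -Grp.LG j ⟨m, hm⟩),
      actA D ⟨-Grp.LG j ⟨m, hm⟩, j⟩ (.g ⟨m, hm⟩)
        ((sg s / w.1, sg s * w.2), e1.2 + llog (nsq w)), ⟨?_, ?_, ?_, ?_⟩, ?_⟩
    · rw [add_neg_cancel]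
    · show ‖((lam ^ (-j) * (sg s / w.1), lam ^ j * (sg s * w.2)) : P2)‖ ≤ C
      rw [Prod.norm_def]
      refine (max_le ?_ ?_).trans hCC2
      · show |lam ^ (-j) * (sg s / w.1)| ≤ 1
        rw [abs_mul, abs_div, abs_sg, abs_of_pos hx0, zpow_neg, abs_of_pos (inv_pos.mpr hlj),
          one_div, ← mul_inv]
        have h1 : lam * nsq w ≤ w.1 := by
          rw [← hqq]
          nlinarith
        have h2 : 1 ≤ lam ^ j * w.1 := by
          have h3 := mul_le_mul_of_nonneg_left h1 hlj.le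
          linarith
        exact inv_le_one_of_one_le₀ h2
      · show |lam ^ j * (sg s * w.2)| ≤ 1
        rw [abs_mul, abs_mul, abs_sg, one_mul, abs_of_pos hlj]
        rw [hqq] at hy
        calc lam ^ j * |w.2| ≤ lam ^ j * (3 * ρ * lam * nsq w) :=
              mul_le_mul_of_nonneg_left hy hlj.le
          _ = 3 * ρ * lam * (lam ^ j * nsq w) := by ring
          _ ≤ 3 * ρ * lam * lam := mul_le_mul_of_nonneg_left hup (by positivity)
          _ ≤ 1 := by nlinarith
    · exact hj0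
    · exact hj1
    · show glueA D (.A s) (actA D (⟨-Grp.LG j ⟨m, hm⟩, j⟩ * a0) (.A s) e) (.g _) _
      rw [hmul]
      show glueA D (.A s) (actA D ⟨-Grp.LG j ⟨m, hm⟩, j⟩ (.A s) (actA D a0 (.A s) e)) (.g _) _
      rw [he1]
      exact hgl

end Pool.Agent.Work.MP_0d206b_gt.MCompAs

end
end

/-! ### from I_ConnA.lean -/

section

/-!
# [0d206b M ConnA] flow a: connectedness
-/

set_option autoImplicit false

open Set Filter Topology

noncomputable section

namespace Pool.Agent.Work.MP_0d206b_gt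

namespace MConnA

/-- The relation of the chain. -/
def Rel (D : DA) (i j : IdxA) : Prop := ∃ e ∈ domA i, ∃ e' ∈ domA j, glueA D i e j e'

theorem psi_notMem {D : DA} (hF : Facts D) (m : Gam) {v : P2} (hv : v ≠ 0) :
    (m : P2) + D.Psi v ∉ Gam := fun h => hv ((hF.psi.mem_gam m m.2 v).1 h)

theorem baseA {D : DA} (hF : Facts D) (s : Bool) :
    ((D.Psi (0, sg s), 0) : E) ∈ domA .R ∧
      ((D.Psi (gmap (sg s • (0, sg s))), - llog (nsq (gmap (sg s • (0, sg s))))) : E) ∈
        domA (.A s) ∧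
      glueRA D s (D.Psi (0, sg s), 0)
        (D.Psi (gmap (sg s • (0, sg s))), - llog (nsq (gmap (sg s • (0, sg s))))) := by
  have hs : sg s * sg s = 1 := by cases s <;> simp [sg]
  have h1 : ((0, sg s) : P2) ≠ 0 := by
    intro h
    have := congrArg Prod.snd h
    simp only [Prod.snd_zero] at this
    rw [this] at hs
    norm_num at hs
  have h2 : gmap (sg s • ((0, sg s) : P2)) ≠ 0 := by
    intro h
    have := congrArg Prod.fst h
    simp [gmap, hs] at this
  refine ⟨?_, ?_, 0, Gam.zero_mem, (0, sg s), ?_, ?_, ?_, ?_⟩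
  · have := psi_notMem hF 0 h1
    simpa [domA] using this
  · have := psi_notMem hF 0 h2
    simpa [domA] using this
  · simp [hs]
  · simp
  · simp
  · simp

theorem baseg {D : DA} (hF : Facts D) (m : Gam) :
    (((m : P2) + D.Psi (1, 0), 0) : E) ∈ domA .R ∧ (((0, 2), 0) : E) ∈ domA (.g m) ∧
      glueRg D m ((m : P2) + D.Psi (1, 0), 0) ((0, 2), 0) := by
  have h1 : ((1, 0) : P2) ≠ 0 := by
    intro h; have := congrArg Prod.fst h; simp at this
  refine ⟨psi_notMem hF m h1, mem_univ _, (1, 0), by simp, rfl, ?_, rfl⟩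
  simp

theorem relR {D : DA} (hF : Facts D) (j : IdxA) : Relation.ReflTransGen (Rel D) .R j := by
  cases j with
  | R => exact Relation.ReflTransGen.refl
  | A s =>
    obtain ⟨h1, h2, h3⟩ := baseA hF s
    exact Relation.ReflTransGen.single ⟨_, h1, _, h2, h3⟩
  | g m =>
    obtain ⟨h1, h2, h3⟩ := baseg hF m
    exact Relation.ReflTransGen.single ⟨_, h1, _, h2, h3⟩

theorem relL {D : DA} (hF : Facts D) (j : IdxA) : Relation.ReflTransGen (Rel D) j .R := by
  cases j with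
  | R => exact Relation.ReflTransGen.refl
  | A s =>
    obtain ⟨h1, h2, h3⟩ := baseA hF s
    exact Relation.ReflTransGen.single ⟨_, h2, _, h1, h3⟩
  | g m =>
    obtain ⟨h1, h2, h3⟩ := baseg hF m
    exact Relation.ReflTransGen.single ⟨_, h2, _, h1, h3⟩

theorem prf : StConnA := by
  intro D hF
  refine ⟨⟨.R⟩, ?_, fun i j => (relL hF i).trans (relR hF j)⟩
  have h := hF.gam.path.prod (isPathConnected_univ (X := ℝ))
  have he : {e : E | e.1 ∉ Gam} = ((Gam : Set P2)ᶜ) ×ˢ (univ : Set ℝ) := by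
    ext e
    simp
  rintro (_ | s | m)
  · show IsPathConnected {e : E | e.1 ∉ Gam}
    rw [he]
    exact h
  · show IsPathConnected {e : E | e.1 ∉ Gam}
    rw [he]
    exact h
  · exact isPathConnected_univ (X := E)

end MConnA

end Pool.Agent.Work.MP_0d206b_gt

end
end

/-! ### from I_ContrU0.lean -/

section

/-! Item ContrU0: flow 0, pointwise contraction of the unstable field in negative time. -/

set_option autoImplicit false

open Set Filter Topology
open scoped ContDiff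

noncomputable section

namespace Pool.Agent.Work.MP_0d206b_gt.MContrU0

open MP0d206b.Et (shift)

/-- derivative of a map of the form `(T z + m, τ + s)` -/
theorem fderiv_act (T : P2 → P2) (hT : ContDiff ℝ ∞ T) (m : P2) (s : ℝ) (p v : E) :
    fderiv ℝ (fun e : E => ((T e.1 + m, e.2 + s) : E)) p v = (fderiv ℝ T p.1 v.1, v.2) := by
  have h0 : HasFDerivAt T (fderiv ℝ T p.1) p.1 :=
    ((hT.differentiable (by simp)) p.1).hasFDerivAt
  have h1 : HasFDerivAt (fun e : E => T e.1 + m)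
      ((fderiv ℝ T p.1).comp (ContinuousLinearMap.fst ℝ P2 ℝ)) p :=
    (h0.comp p hasFDerivAt_fst).add_const m
  have h2 : HasFDerivAt (fun e : E => e.2 + s) (ContinuousLinearMap.snd ℝ P2 ℝ) p :=
    hasFDerivAt_snd.add_const s
  rw [(h1.prodMk h2).fderiv]
  rfl

theorem caseR (D : DA) (hF : Facts D) (e : E) (he : e.1 ∉ Gam) :
    ∃ (j : Idx0) (K : Set E), IsCompact K ∧ K ⊆ dom0 j ∧ ∀ δ > 0, ∃ t > 0, ∃ a : Grp,
      iact0 a .R = j ∧ act0 D a .R (shift (-1 * t) e) ∈ K ∧
      ∃ c : ℝ, |c| < δ ∧ fderiv ℝ (act0 D a .R) (shift (-1 * t) e) (eu0 D .R e) =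
        c • eu0 D j (act0 D a .R (shift (-1 * t) e)) := by
  obtain ⟨K, hK, hKG, hKn⟩ := hF.orb.fwd e.1 he
  refine ⟨.R, K ×ˢ {e.2}, hK.prod isCompact_singleton, ?_, ?_⟩
  · rintro x ⟨hx, -⟩
    exact hKG hx
  · intro δ hδ
    have hc := D.contr e.1 he
    rw [Metric.tendsto_atTop] at hc
    obtain ⟨n₀, hn₀⟩ := hc δ hδ
    have hn := hn₀ (n₀ + 1) (Nat.le_succ n₀)
    obtain ⟨m, hm⟩ := hKn (n₀ + 1)
    refine ⟨((n₀ + 1 : ℕ) : ℝ), by positivity, ⟨m, ((n₀ + 1 : ℕ) : ℤ)⟩, rfl, ?_, ?_⟩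
    · refine ⟨hm, ?_⟩
      simp only [act0, shift, mem_singleton_iff]
      push_cast
      ring
    · refine ⟨∏ k ∈ Finset.range (n₀ + 1), dy D.F (D.F^[k] e.1), ?_, ?_⟩
      · rw [Real.dist_eq, sub_zero] at hn
        exact hn
      · have h1 : act0 D (⟨m, ((n₀ + 1 : ℕ) : ℤ)⟩ : Grp) .R =
            fun e : E => (((D.Fe ^ ((n₀ + 1 : ℕ) : ℤ)) e.1 + (m : P2),
              e.2 + (((n₀ + 1 : ℕ) : ℤ) : ℝ)) : E) := rfl
        rw [h1, fderiv_act (fun z => (D.Fe ^ ((n₀ + 1 : ℕ) : ℤ)) z) (hF.pow.smooth _)]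
        simp only [eu0, shift]
        rw [hF.pow.der_v_nat]
        ext <;> simp

theorem prf : StContrU0 := by
  intro D hF i e he
  cases i with
  | R => exact ⟨.R, e, rfl, caseR D hF e he⟩
  | A =>
    by_cases hL : e.1 ∈ D.Lam
    · refine ⟨.A, e, rfl, ?_⟩
      obtain ⟨K, hK, hKG, hKn⟩ := hF.orb.bwd
      refine ⟨.A, K ×ˢ {e.2}, hK.prod isCompact_singleton, ?_, ?_⟩
      · rintro x ⟨hx, -⟩
        exact hKG hx
      · intro δ hδ
        have hlam := hF.log.one_lt
        have hlt : Tendsto (fun n : ℕ => lam⁻¹ ^ n) atTop (𝓝 0) :=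
          tendsto_pow_atTop_nhds_zero_of_lt_one (by positivity) (inv_lt_one_of_one_lt₀ hlam)
        rw [Metric.tendsto_atTop] at hlt
        obtain ⟨n₀, hn₀⟩ := hlt δ hδ
        have hn := hn₀ (n₀ + 1) (Nat.le_succ n₀)
        obtain ⟨m, hm⟩ := hKn e.1 hL (-((n₀ + 1 : ℕ) : ℤ))
        refine ⟨((n₀ + 1 : ℕ) : ℝ), by positivity, ⟨m, -((n₀ + 1 : ℕ) : ℤ)⟩, rfl, ?_, ?_⟩
        · refine ⟨hm, ?_⟩
          simp only [act0, shift, mem_singleton_iff]
          push_cast
          ring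
        · refine ⟨lam ^ (-((n₀ + 1 : ℕ) : ℤ)), ?_, ?_⟩
          · rw [Real.dist_eq, sub_zero] at hn
            rw [zpow_neg, zpow_natCast, ← inv_pow]
            exact hn
          · have h1 : act0 D (⟨m, -((n₀ + 1 : ℕ) : ℤ)⟩ : Grp) .A =
                fun e : E => (((D.Fe ^ (-((n₀ + 1 : ℕ) : ℤ))) e.1 + (m : P2),
                  e.2 + -(((-((n₀ + 1 : ℕ) : ℤ) : ℤ)) : ℝ)) : E) := by
              funext e
              simp only [act0, sub_eq_add_neg]
            have hz' : (D.Fe ^ (-((n₀ + 1 : ℕ) : ℤ))) e.1 ∈ D.Lam := (hF.pow.Lam _ _).2 hL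
            have hz'G : (D.Fe ^ (-((n₀ + 1 : ℕ) : ℤ))) e.1 ∉ Gam := hF.psi.Lam_gam _ hz'
            rw [h1, fderiv_act (fun z => (D.Fe ^ (-((n₀ + 1 : ℕ) : ℤ))) z) (hF.pow.smooth _)]
            simp only [eu0, shift]
            rw [hF.pow.der_S, hF.sig.K0_lam _ hL, D.S_add _ _ m.2,
              hF.sig.K0_add _ hz'G _ m.2, hF.sig.K0_lam _ hz']
            ext <;> simp
    · obtain ⟨m, hm, w, hw⟩ := hF.psi.notLam e.1 hL
      have hw0 : w ≠ 0 := by
        intro h
        exact he (by rw [hw]; exact (hF.psi.mem_gam m hm w).2 h)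
      have hv0 : ((w.2, w.1) : P2) ≠ 0 := by
        intro h
        apply hw0
        have h1 : w.2 = 0 := congrArg Prod.fst h
        have h2 : w.1 = 0 := congrArg Prod.snd h
        exact Prod.ext h2 h1
      refine ⟨.R, (m + D.Psi (w.2, w.1), e.2 + llog (nsq (w.2, w.1))), ?_, ?_⟩
      · refine ⟨m, hm, (w.2, w.1), hv0, rfl, hw, ?_⟩
        simp
      · apply caseR D hF
        intro h
        exact hv0 ((hF.psi.mem_gam m hm _).1 h)

end Pool.Agent.Work.MP_0d206b_gt.MContrU0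

end
end

/-! ### from I_PdRg.lean -/

section

/-!
# MP_0d206b_gt, module M, item PdRg: proper discontinuity of the action of flow a between the repeller piece and
a saddle piece
-/

set_option autoImplicit false

open Set Filter Topology
open scoped ContDiff

noncomputable section

namespace Pool.Agent.Work.MP_0d206b_gt.MPdRg

open Pool.Agent.Work.MP_0d206b_gt

theorem finite_range {α : Type} (a : ℕ → α) (T : Set α) (hT : T.Finite) (h : ∀ n, a n ∈ T) :
    (range a).Finite := hT.subset (range_subset_iff.2 h)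

theorem psi_norm (D : DA) (v : P2) : ‖D.Psi v‖ ≤ ‖v‖ + 1 := by
  rw [Prod.norm_def (D.Psi v)]
  refine max_le ?_ ?_
  · rw [D.Psi_fst]
    have := norm_fst_le v
    linarith
  · have h1 := D.Psi_bdd v
    have h2 := norm_nonneg v
    rw [Real.norm_eq_abs]
    linarith

/-- the powers of `F` with exponent in a bounded interval are bounded along a convergent sequence -/
theorem pow_bdd (D : DA) (F : PowFacts D) (z : P2) (x : ℕ → P2) (hx : Tendsto x atTop (𝓝 z)) (J : ℤ) :
    ∃ M : ℝ, ∀ j ∈ Finset.Icc (-J) J, ∀ n, ‖(D.Fe ^ j) (x n)‖ ≤ M := by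
  have hK : IsCompact (insert z (range x)) := hx.isCompact_insert_range
  have h1 : ∀ j : ℤ, ∃ M : ℝ, ∀ n, ‖(D.Fe ^ j) (x n)‖ ≤ M := by
    intro j
    obtain ⟨M, hM⟩ := hK.exists_bound_of_continuousOn (F.smooth j).continuous.continuousOn
    exact ⟨M, fun n => hM _ (Or.inr ⟨n, rfl⟩)⟩
  choose M hM using h1
  refine ⟨∑ j ∈ Finset.Icc (-J) J, |M j|, fun j hj n => (hM j n).trans ((le_abs_self _).trans ?_)⟩
  exact Finset.single_le_sum (f := fun j => |M j|) (fun i _ => abs_nonneg (M i)) hj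

theorem prf : StPdRg := by
  intro D F m e e' x y a he he' hx hy hg
  have hg' : ∀ n, ∃ v : P2, |v.2| < |v.1| ∧
      (D.Fe ^ (a n).j) (x n).1 + ((a n).n : P2) = (m : P2) + D.Psi v ∧
    (y n).1 = (v.2 / (v.1 ^ 2 - v.2 ^ 2), 2 * v.1) ∧ (y n).2 = (x n).2 + ((a n).j : ℝ) := hg
  choose v hv hvx hvy hvt using hg'
  have hx1 : Tendsto (fun n => (x n).1) atTop (𝓝 e.1) := (continuous_fst.tendsto _).comp hx
  have hx2 : Tendsto (fun n => (x n).2) atTop (𝓝 e.2) := (continuous_snd.tendsto _).comp hx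
  have hy1 : Tendsto (fun n => (y n).1) atTop (𝓝 e'.1) := (continuous_fst.tendsto _).comp hy
  have hy2 : Tendsto (fun n => (y n).2) atTop (𝓝 e'.2) := (continuous_snd.tendsto _).comp hy
  have hy12 : Tendsto (fun n => (y n).1.2) atTop (𝓝 e'.1.2) := (continuous_snd.tendsto _).comp hy1
  -- `v n` is bounded
  obtain ⟨B, hB⟩ := hy12.abs.bddAbove_range
  have hvB : ∀ n, ‖v n‖ ≤ B := by
    intro n
    have h1 := hB ⟨n, rfl⟩
    simp only at h1
    rw [hvy n] at h1
    simp only at h1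
    rw [abs_mul, abs_two] at h1
    have h2 := abs_nonneg (v n).1
    have h3 := hv n
    rw [Prod.norm_def, Real.norm_eq_abs, Real.norm_eq_abs]
    exact max_le (by linarith) (by linarith)
  -- the exponent is bounded
  obtain ⟨b, hb⟩ := (hy2.sub hx2).abs.bddAbove_range
  have hj : ∀ n, |((a n).j : ℝ)| ≤ b := by
    intro n
    have h1 := hb ⟨n, rfl⟩
    simp only at h1
    rw [hvt n, add_sub_cancel_left] at h1
    exact h1
  have hJ : ∀ n, (a n).j ∈ Finset.Icc (-⌈b⌉) ⌈b⌉ := by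
    intro n
    have h1 := abs_le.1 (hj n)
    have h2 := Int.le_ceil b
    rw [Finset.mem_Icc]
    constructor
    · have h3 : ((-⌈b⌉ : ℤ) : ℝ) ≤ (a n).j := by push_cast; linarith [h1.1]
      exact_mod_cast h3
    · have h3 : ((a n).j : ℝ) ≤ (⌈b⌉ : ℤ) := by linarith [h1.2]
      exact_mod_cast h3
  obtain ⟨M, hM⟩ := pow_bdd D F.pow e.1 (fun n => (x n).1) hx1 ⌈b⌉
  -- the translation part is bounded
  have hn : ∀ n, ‖((a n).n : P2)‖ ≤ ‖(m : P2)‖ + (B + 1) + M := by
    intro n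
    have h1 : ((a n).n : P2) = (m : P2) + D.Psi (v n) - (D.Fe ^ (a n).j) (x n).1 := by
      rw [← hvx n, add_sub_cancel_left]
    rw [h1]
    refine (norm_sub_le _ _).trans (add_le_add ((norm_add_le _ _).trans (add_le_add le_rfl ?_)) ?_)
    · exact (psi_norm D _).trans (by linarith [hvB n])
    · exact hM _ (hJ n) n
  -- conclusion
  have hfin := F.gam.fin (‖(m : P2)‖ + (B + 1) + M)
  have hfin' : {g : Gam | ‖(g : P2)‖ ≤ ‖(m : P2)‖ + (B + 1) + M}.Finite := by
    refine Set.Finite.of_finite_image (f := fun g : Gam => (g : P2)) (hfin.subset ?_)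
      Subtype.val_injective.injOn
    rintro _ ⟨g, hg, rfl⟩
    exact ⟨g.2, hg⟩
  refine finite_range a ((fun p : Gam × ℤ => (⟨p.1, p.2⟩ : Grp)) ''
    ({g : Gam | ‖(g : P2)‖ ≤ ‖(m : P2)‖ + (B + 1) + M} ×ˢ (Finset.Icc (-⌈b⌉) ⌈b⌉ : Set ℤ)))
    ((hfin'.prod (Finset.finite_toSet _)).image _) ?_
  intro n
  exact ⟨((a n).n, (a n).j), ⟨hn n, by simpa using hJ n⟩, rfl⟩

end Pool.Agent.Work.MP_0d206b_gt.MPdRg

end
end

/-! ### from I_PdSymm.lean -/

section

/-!
# MP_0d206b_gt, module M: proper discontinuity is symmetric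
-/

set_option autoImplicit false

open Set Filter Topology
open scoped ContDiff

noncomputable section

namespace Pool.Agent.Work.MP_0d206b_gt.MPdSymm

open Pool.Agent.Work.MP_0d206b_gt

theorem prf : StPdSymm := by
  intro ι Γ _ dom glue iact act hG hA hAct i j hPd e e' x y a he he' hx hy hgl
  have h1 : (range fun n => (a n)⁻¹).Finite := by
    refine hPd e' e y x (fun n => (a n)⁻¹) he' he hy hx fun n => ?_
    have h2 := hAct (iact (a n) j) i (a n)⁻¹ _ _ (hgl n)
    rw [← hA.iact_mul, ← hA.act_mul, inv_mul_cancel, hA.iact_one, hA.act_one] at h2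
    exact hG.glue_symm _ _ _ _ h2
  refine (h1.image fun g => g⁻¹).subset ?_
  rintro _ ⟨n, rfl⟩
  exact ⟨(a n)⁻¹, ⟨n, rfl⟩, inv_inv _⟩

end Pool.Agent.Work.MP_0d206b_gt.MPdSymm

end
end

/-! ### from I_Proper.lean -/

section

/-! MP_0d206b_gt, module M: properness of the strips (D10). -/

set_option autoImplicit false

open Set Filter Topology
open scoped ContDiff

noncomputable section

namespace Pool.Agent.Work.MP_0d206b_gt.MProper

theorem sq_norm_le (v : P2) : ‖v‖ ^ 2 ≤ nsq v := by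
  unfold nsq
  rw [Prod.norm_def, Real.norm_eq_abs, Real.norm_eq_abs]
  rcases le_total |v.1| |v.2| with h | h
  · rw [max_eq_right h, sq_abs]
    linarith [sq_nonneg v.1]
  · rw [max_eq_left h, sq_abs]
    linarith [sq_nonneg v.2]

theorem small {D : DA} {m m' v u : P2} (hm : m ∈ Gam) (hm' : m' ∈ Gam)
    (hP : PsiFacts D) (h : m + D.Psi v = m' + D.Psi u) : m = m' ∧ v = u := by
  have h1 := D.strips_disj m hm m' hm' v u h
  subst h1
  exact ⟨rfl, hP.inj (add_left_cancel h)⟩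

theorem prf : StProper := by
  intro D hG hP
  obtain ⟨r, hr, hnear⟩ := D.Psi_near
  refine ⟨?_, ?_, ?_, ?_⟩
  · -- proper
    intro z x m v R hx hmv hv
    have hcont : Continuous D.Psi := D.Psi_smooth.continuous
    -- boundedness of `m`
    obtain ⟨B, hB⟩ : ∃ B, ∀ n, ‖D.Psi (v n)‖ ≤ B := by
      obtain ⟨B, hB⟩ := ((isCompact_closedBall (0 : P2) R).image hcont).isBounded.exists_norm_le
      exact ⟨B, fun n => hB _ ⟨v n, by simpa using hv n, rfl⟩⟩
    obtain ⟨B', hB'⟩ : ∃ B', ∀ n, ‖x n‖ ≤ B' := by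
      obtain ⟨B', hB'⟩ := (Metric.isBounded_range_of_tendsto x hx).exists_norm_le
      exact ⟨B', fun n => hB' _ ⟨n, rfl⟩⟩
    have hm : ∀ n, ‖m n‖ ≤ B' + B := by
      intro n
      have h1 : m n = x n - D.Psi (v n) := by rw [(hmv n).2]; abel
      rw [h1]
      exact (norm_sub_le _ _).trans (add_le_add (hB' n) (hB n))
    set F : Set P2 := {m : P2 | m ∈ Gam ∧ ‖m‖ ≤ B' + B} with hF
    have hK : IsCompact (F ×ˢ Metric.closedBall (0 : P2) R) :=
      (hG.fin _).isCompact.prod (isCompact_closedBall _ _)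
    have hsub : ∀ ns : ℕ → ℕ, Tendsto ns atTop atTop → ∃ φ : ℕ → ℕ, ∃ m1 ∈ Gam, ∃ v1,
        z = m1 + D.Psi v1 ∧ Tendsto (fun n => (m (ns (φ n)), v (ns (φ n)))) atTop (𝓝 (m1, v1)) := by
      intro ns hns
      obtain ⟨a, ha, φ, hφ, hlim⟩ := hK.tendsto_subseq
        (x := fun n => (m (ns n), v (ns n))) (fun n => ⟨⟨(hmv _).1, hm _⟩, by simpa using hv _⟩)
      refine ⟨φ, a.1, ha.1.1, a.2, ?_, hlim⟩
      have h1 : Tendsto (fun n => m (ns (φ n)) + D.Psi (v (ns (φ n)))) atTop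
          (𝓝 (a.1 + D.Psi a.2)) :=
        ((continuous_fst.tendsto a).comp hlim).add
          (((hcont.comp continuous_snd).tendsto a).comp hlim)
      have h2 : Tendsto (fun n => x (ns (φ n))) atTop (𝓝 z) :=
        hx.comp (hns.comp hφ.tendsto_atTop)
      refine tendsto_nhds_unique h2 ?_
      have h3 : (fun n => x (ns (φ n))) = fun n => m (ns (φ n)) + D.Psi (v (ns (φ n))) := by
        funext n
        exact (hmv _).2
      rw [h3]
      exact h1
    obtain ⟨φ0, m0, hm0, v0, hz0, _⟩ := hsub id tendsto_id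
    have hlim : Tendsto (fun n => (m n, v n)) atTop (𝓝 (m0, v0)) := by
      refine tendsto_of_subseq_tendsto fun ns hns => ?_
      obtain ⟨φ, m1, hm1, v1, hz1, h1⟩ := hsub ns hns
      obtain ⟨e1, e2⟩ := small hm1 hm0 hP (hz1.symm.trans hz0)
      rw [e1, e2] at h1
      exact ⟨φ, h1⟩
    have hlm : Tendsto m atTop (𝓝 m0) := (continuous_fst.tendsto (m0, v0)).comp hlim
    refine ⟨m0, hm0, v0, hz0, ?_, (continuous_snd.tendsto (m0, v0)).comp hlim⟩
    filter_upwards [hlm.eventually (Metric.ball_mem_nhds m0 one_pos)] with n hn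
    by_contra hne
    have h1 := hG.sep _ (hmv n).1 _ hm0 hne
    have h2 : dist (m n) m0 < 1 := hn
    linarith
  · -- far
    intro z hz
    have h1 : ((Gam : Set P2)ᶜ) ∈ 𝓝 z := hG.closed.isOpen_compl.mem_nhds hz
    obtain ⟨d, hd, hball⟩ := Metric.mem_nhds_iff.mp h1
    have hd2 : 0 < d / 2 := by positivity
    refine ⟨(min r (d / 2)) ^ 2, by positivity, ?_⟩
    filter_upwards [Metric.ball_mem_nhds z hd2] with z' hz' m hm v hv
    have hle : min r (d / 2) ≤ ‖v‖ := by
      by_contra hc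
      push Not at hc
      have h2 := hnear v (hc.trans_le (min_le_left _ _))
      have h3 : dist z' m < d / 2 := by
        rw [hv, h2, dist_eq_norm, add_sub_cancel_left]
        exact hc.trans_le (min_le_right _ _)
      have h4 : dist m z < d := by
        have h5 := dist_triangle m z' z
        rw [dist_comm m z'] at h5
        have h6 : dist z' z < d / 2 := hz'
        linarith
      exact hball h4 hm
    have h0 : 0 ≤ min r (d / 2) := le_min hr.le hd2.le
    exact (pow_le_pow_left₀ h0 hle 2).trans (sq_norm_le v)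
  · -- dist_gam
    refine ⟨r, hr, ?_⟩
    intro ρ hρ hρr m hm v hv m' hm'
    by_contra hc
    push Not at hc
    have h1 : ‖m + D.Psi v - m'‖ < r := by
      rw [← dist_eq_norm]; linarith
    have h2 := hnear _ h1
    have h3 : m + D.Psi v = m' + D.Psi (m + D.Psi v - m') := by rw [h2]; abel
    obtain ⟨_, e2⟩ := small hm hm' hP h3
    rw [dist_eq_norm] at hc
    rw [← e2] at hc
    linarith
  · -- near_gam
    refine ⟨min r (1 / 2), lt_min hr (by norm_num), min_le_right _ _, ?_⟩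
    intro z m _ hz
    rw [dist_eq_norm] at hz
    rw [hnear _ (hz.trans_le (min_le_left _ _))]
    abel

end Pool.Agent.Work.MP_0d206b_gt.MProper

end
end
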