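import Pool.Agent.Work.MP_0d206b_gt.Good

/-!
# MP_0d206b_gt, modules M and H: statements of the items

`Facts D` collects the consequences of the interface `DA` which are used in the verification of `Good` for
flow 0 and flow a.  See the items of the block [0d206b M ..] for the proofs.
-/

set_option autoImplicit false

open Set Filter Topology
open scoped ContDiff

noncomputable section

namespace Pool.Agent.Work.MP_0d206b_gt

open MP0d206b.Et (shift)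

/-! ### Facts about the lattice, the logarithm and the DA map -/

/-- (Γ1), (Γ2) -/
structure GamFacts : Prop where
  /-- the norm of a nonzero element of `ℤ[φ]` is at least one in absolute value -/
  norm : ∀ m ∈ Gam, m ≠ 0 → 1 ≤ |m.1 * m.2|
  sep : ∀ m ∈ Gam, ∀ m' ∈ Gam, m ≠ m' → 1 ≤ dist m m'
  fin : ∀ R : ℝ, {m : P2 | m ∈ Gam ∧ ‖m‖ ≤ R}.Finite
  closed : IsClosed (Gam : Set P2)
  cover : ∃ C > 0, ∀ z : P2, ∃ m ∈ Gam, ‖z + m‖ ≤ C
  path : IsPathConnected ((Gam : Set P2)ᶜ)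

/-- the logarithm to the base `λ` -/
structure LogFacts : Prop where
  one_lt : 1 < lam
  log_pos : 0 < Real.log lam
  llog_zpow : ∀ (j : ℤ) (r : ℝ), 0 < r → llog (lam ^ j * r) = j + llog r
  /-- `nsq` is homogeneous of degree 2 -/
  nsq_smul : ∀ (r : ℝ) (v : P2), nsq (r • v) = r ^ 2 * nsq v
  llog_nsq : ∀ (j : ℤ) (v : P2), v ≠ 0 → llog (nsq (lam ^ j • v)) = 2 * j + llog (nsq v)
  nsq_pos : ∀ v : P2, v ≠ 0 → 0 < nsq v
  nsq_le : ∀ v : P2, nsq v ≤ 2 * ‖v‖ ^ 2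
  le_nsq : ∀ v : P2, ‖v‖ ^ 2 ≤ nsq v
  /-- logarithms bounded above / below -/
  llog_lt : ∀ b : ℝ, ∃ R > 0, ∀ r > 0, llog r ≤ b → r ≤ R
  lt_llog : ∀ b : ℝ, ∃ R > 0, ∀ r > 0, b ≤ llog r → R ≤ r

/-- the gluing map of flow a and its inverse -/
structure GFacts : Prop where
  /-- the first coordinate of `g v` and the logarithm -/
  nsq_gmap : ∀ v : P2, v.2 ≠ 0 → nsq (gmap v) = nsq v ^ 2 / v.2 ^ 2
  gmap_smul : ∀ (r : ℝ) (v : P2), v.2 ≠ 0 → r ≠ 0 → gmap (r • v) = r • gmap v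
  gmap_ne : ∀ v : P2, v.2 ≠ 0 → gmap v ≠ 0
  /-- the image of the upper half plane is the slit plane -/
  slit : ∀ v : P2, 0 < v.2 → ((gmap v).2 ≠ 0 ∨ (gmap v).1 < 0)
  gminv_gmap : ∀ v : P2, 0 < v.2 → gminv (gmap v) = v
  gmap_gminv : ∀ w : P2, (w.2 ≠ 0 ∨ w.1 < 0) → 0 < (gminv w).2 ∧ gmap (gminv w) = w
  /-- sizes -/
  nsq_le : ∀ v : P2, v.2 ≠ 0 → nsq v ≤ nsq (gmap v)
  gminv_cont : Continuous gminv

/-- basic properties of the strips `m + Psi(ℝ²)` -/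
structure PsiFacts (D : DA) : Prop where
  inj : Function.Injective D.Psi
  zero : D.Psi 0 = 0
  mem_gam : ∀ m ∈ Gam, ∀ v, (m + D.Psi v ∈ Gam ↔ v = 0)
  idx_eq : ∀ m ∈ Gam, ∀ v, D.idx (m + D.Psi v) = m
  lin_eq : ∀ m ∈ Gam, ∀ v, D.lin (m + D.Psi v) = v
  /-- off the set `Lam` a point is in a strip -/
  notLam : ∀ z, z ∉ D.Lam → ∃ m ∈ Gam, ∃ v, z = m + D.Psi v
  inLam : ∀ m ∈ Gam, ∀ v, m + D.Psi v ∉ D.Lam
  Lam_gam : ∀ z ∈ D.Lam, z ∉ Gam
  /-- the coordinate in a strip is smooth -/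
  lin_smooth : ∀ m ∈ Gam, ∀ v, ContDiffAt ℝ ∞ D.lin (m + D.Psi v)
  near : ∀ m ∈ Gam, ∀ v, ∀ᶠ z in 𝓝 (m + D.Psi v), z = m + D.Psi (D.lin z)
  Lam_closed : IsClosed D.Lam
  /-- the derivative of `lin` -/
  dlin_fst : ∀ m ∈ Gam, ∀ (v : P2) (a : ℝ),
    fderiv ℝ D.lin (m + D.Psi v) (1, D.S (m + D.Psi v) + a * dy D.Psi v) = (1, a)
  dlin_snd : ∀ m ∈ Gam, ∀ v : P2,
    fderiv ℝ D.lin (m + D.Psi v) (0, 1) = (0, (dy D.Psi v)⁻¹)
  /-- the derivative of `Psi` -/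
  dPsi_fst : ∀ v : P2, ∀ m ∈ Gam, fderiv ℝ D.Psi v (1, 0) = (1, D.S (m + D.Psi v))
  dPsi_snd : ∀ v : P2, fderiv ℝ D.Psi v (0, 1) = (0, dy D.Psi v)

/-- (D10) properness of the strips -/
structure ProperFacts (D : DA) : Prop where
  /-- bounded sequences in the linear coordinate converge -/
  proper : ∀ (z : P2) (x m v : ℕ → P2) (R : ℝ), Tendsto x atTop (𝓝 z) →
    (∀ n, m n ∈ Gam ∧ x n = m n + D.Psi (v n)) → (∀ n, ‖v n‖ ≤ R) →
    ∃ m0 ∈ Gam, ∃ v0, z = m0 + D.Psi v0 ∧ (∀ᶠ n in atTop, m n = m0) ∧ Tendsto v atTop (𝓝 v0)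
  /-- near a point off the lattice the linear coordinate is bounded away from `0` -/
  far : ∀ z, z ∉ Gam → ∃ c > 0, ∀ᶠ z' in 𝓝 z, ∀ m ∈ Gam, ∀ v, z' = m + D.Psi v → c ≤ nsq v
  /-- the same in the normalised form: the distance of `m + Psi v` to the lattice is controlled by `‖v‖` -/
  dist_gam : ∃ r0 > 0, ∀ ρ, 0 < ρ → ρ ≤ r0 → ∀ m ∈ Gam, ∀ v, ρ ≤ ‖v‖ → ∀ m' ∈ Gam,
    ρ ≤ dist (m + D.Psi v) m'
  near_gam : ∃ r0 > 0, r0 ≤ 1 / 2 ∧ ∀ z, ∀ m ∈ Gam, dist z m < r0 → z = m + D.Psi (z - m)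

/-- the powers of `F` -/
structure PowFacts (D : DA) : Prop where
  add : ∀ (j : ℤ) (z : P2), ∀ m ∈ Gam, (D.Fe ^ j) (z + m) = (D.Fe ^ j) z + Lz j m
  psi : ∀ (j : ℤ), ∀ m ∈ Gam, ∀ v, (D.Fe ^ j) (m + D.Psi v) = Lz j m + D.Psi (lam ^ j • v)
  gam : ∀ (j : ℤ) (z : P2), (D.Fe ^ j) z ∈ Gam ↔ z ∈ Gam
  Lam : ∀ (j : ℤ) (z : P2), (D.Fe ^ j) z ∈ D.Lam ↔ z ∈ D.Lam
  smooth : ∀ j : ℤ, ContDiff ℝ ∞ (fun z => (D.Fe ^ j) z)
  /-- the derivative on the vertical direction -/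
  der_v : ∀ (j : ℤ) (z : P2), ∃ c > 0, fderiv ℝ (fun z => (D.Fe ^ j) z) z (0, 1) = (0, c)
  der_v_nat : ∀ (n : ℕ) (z : P2), fderiv ℝ (fun z => (D.Fe ^ (n : ℤ)) z) z (0, 1) =
    (0, ∏ k ∈ Finset.range n, dy D.F (D.F^[k] z))
  nat : ∀ (n : ℕ) (z : P2), (D.Fe ^ (n : ℤ)) z = D.F^[n] z
  /-- the derivative on the direction of the slope field -/
  der_S : ∀ (j : ℤ) (z : P2), fderiv ℝ (fun z => (D.Fe ^ j) z) z (1, D.S z) =
    lam ^ j • (1, D.S ((D.Fe ^ j) z))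

/-- the functions `sigma`, `K0`, `Ka` -/
structure SigFacts (D : DA) : Prop where
  sigma_lam : ∀ z ∈ D.Lam, D.sigma z = D.S z
  K0_lam : ∀ z ∈ D.Lam, D.K0 z = 0
  Ka_lam : ∀ z ∈ D.Lam, D.Ka z = 0
  sigma_psi : ∀ m ∈ Gam, ∀ v, D.sigma (m + D.Psi v) = D.S (m + D.Psi v) + dy D.Psi v * S0 v
  K0_psi : ∀ m ∈ Gam, ∀ v, D.K0 (m + D.Psi v) = 2 * v.1 / (Real.log lam * nsq v)
  Ka_psi : ∀ m ∈ Gam, ∀ v, D.Ka (m + D.Psi v) =
    8 * v.1 * v.2 ^ 2 / (Real.log lam * nsq v ^ 2)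
  sigma_cont : ContinuousOn D.sigma (Gam : Set P2)ᶜ
  K0_cont : ContinuousOn D.K0 (Gam : Set P2)ᶜ
  Ka_cont : ContinuousOn D.Ka (Gam : Set P2)ᶜ
  K0_F : ∀ (j : ℤ) (z : P2), z ∉ Gam → D.K0 ((D.Fe ^ j) z) = lam ^ (-j) * D.K0 z
  Ka_F : ∀ (j : ℤ) (z : P2), z ∉ Gam → D.Ka ((D.Fe ^ j) z) = lam ^ (-j) * D.Ka z
  K0_add : ∀ z, z ∉ Gam → ∀ m ∈ Gam, D.K0 (z + m) = D.K0 z
  Ka_add : ∀ z, z ∉ Gam → ∀ m ∈ Gam, D.Ka (z + m) = D.Ka z
  sigma_add : ∀ z, z ∉ Gam → ∀ m ∈ Gam, D.sigma (z + m) = D.sigma z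
  der_sigma : ∀ (j : ℤ) (z : P2), z ∉ Gam →
    fderiv ℝ (fun z => (D.Fe ^ j) z) z (1, D.sigma z) =
      lam ^ j • (1, D.sigma ((D.Fe ^ j) z))

/-- orbits which stay in a compact set modulo the lattice -/
structure OrbFacts (D : DA) : Prop where
  fwd : ∀ z, z ∉ Gam → ∃ K : Set P2, IsCompact K ∧ K ⊆ (Gam : Set P2)ᶜ ∧
    ∀ n : ℕ, ∃ m : Gam, (D.Fe ^ (n : ℤ)) z + (m : P2) ∈ K
  bwd : ∃ K : Set P2, IsCompact K ∧ K ⊆ (Gam : Set P2)ᶜ ∧
    ∀ z ∈ D.Lam, ∀ j : ℤ, ∃ m : Gam, (D.Fe ^ j) z + (m : P2) ∈ K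

/-- all facts -/
structure Facts (D : DA) : Prop where
  gam : GamFacts
  log : LogFacts
  g : GFacts
  psi : PsiFacts D
  proper : ProperFacts D
  pow : PowFacts D
  sig : SigFacts D
  orb : OrbFacts D

/-! ### Local versions of the properties in `Good`, for a pair of pieces -/

section Local

variable {ι : Type} {Γ : Type} [Group Γ]

/-- closedness of the relation between the pieces `i` and `j` -/
def ClosedAt (dom : ι → Set E) (glue : ι → E → ι → E → Prop) (i j : ι) : Prop :=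
  ∀ (e e' : E) (x y : ℕ → E), e ∈ dom i → e' ∈ dom j → Tendsto x atTop (𝓝 e) →
    Tendsto y atTop (𝓝 e') → (∀ n, glue i (x n) j (y n)) → glue i e j e'

/-- compatibility of the line fields between the pieces `i` and `j` -/
def CompatAt (dom : ι → Set E) (glue : ι → E → ι → E → Prop) (es eu : ι → E → E) (i j : ι) : Prop :=
  ∀ e e', e ∈ dom i → glue i e j e' → ∃ g : E → E, ContDiffAt ℝ ∞ g e ∧ g e = e' ∧
    (∀ᶠ z in 𝓝 e, glue i z j (g z)) ∧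
    (∃ c : ℝ, c ≠ 0 ∧ fderiv ℝ g e (es i e) = c • es j e') ∧
    (∃ c : ℝ, c ≠ 0 ∧ fderiv ℝ g e (eu i e) = c • eu j e')

/-- proper discontinuity between the pieces `i` and `j` -/
def PdAt (dom : ι → Set E) (glue : ι → E → ι → E → Prop) (iact : Γ → ι → ι) (act : Γ → ι → E → E)
    (i j : ι) : Prop :=
  ∀ (e e' : E) (x y : ℕ → E) (a : ℕ → Γ), e ∈ dom i → e' ∈ dom j →
    Tendsto x atTop (𝓝 e) → Tendsto y atTop (𝓝 e') →
    (∀ n, glue (iact (a n) i) (act (a n) i (x n)) j (y n)) → (range a).Finite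

/-- the algebraic part of `GoodGlue` -/
structure AlgGlue (dom : ι → Set E) (glue : ι → E → ι → E → Prop) : Prop where
  isOpen_dom : ∀ i, IsOpen (dom i)
  dom_shift : ∀ i e s, e ∈ dom i → shift s e ∈ dom i
  glue_self : ∀ i e e', glue i e i e' ↔ e = e'
  glue_dom : ∀ i e j e', e ∈ dom i → glue i e j e' → e' ∈ dom j
  glue_symm : ∀ i e j e', glue i e j e' → glue j e' i e
  glue_shift : ∀ i e j e' s, glue i e j e' → glue i (shift s e) j (shift s e')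

/-- transitivity -/
def TransGlue (glue : ι → E → ι → E → Prop) : Prop :=
  ∀ i e j e' k e'', glue i e j e' → glue j e' k e'' → glue i e k e''

/-- the algebraic part of `GoodAct` -/
structure AlgAct (dom : ι → Set E) (glue : ι → E → ι → E → Prop) (iact : Γ → ι → ι)
    (act : Γ → ι → E → E) : Prop where
  act_dom : ∀ a i e, e ∈ dom i → act a i e ∈ dom (iact a i)
  act_smooth : ∀ a i e, e ∈ dom i → ContDiffAt ℝ ∞ (act a i) e
  iact_one : ∀ i, iact 1 i = i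
  act_one : ∀ i e, act 1 i e = e
  iact_mul : ∀ a b i, iact (a * b) i = iact a (iact b i)
  act_mul : ∀ a b i e, act (a * b) i e = act a (iact b i) (act b i e)
  act_shift : ∀ a i e s, act a i (shift s e) = shift s (act a i e)

/-- the action preserves the relation between the pieces `i` and `j` -/
def ActGlueAt (glue : ι → E → ι → E → Prop) (iact : Γ → ι → ι) (act : Γ → ι → E → E) (i j : ι) :
    Prop :=
  ∀ a e e', glue i e j e' → glue (iact a i) (act a i e) (iact a j) (act a j e')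

/-- the independent and continuous part of `GoodField` -/
structure AlgField (dom : ι → Set E) (es eu : ι → E → E) : Prop where
  es_cont : ∀ i, ContinuousOn (es i) (dom i)
  eu_cont : ∀ i, ContinuousOn (eu i) (dom i)
  es_shift : ∀ i e s, es i (shift s e) = es i e
  eu_shift : ∀ i e s, eu i (shift s e) = eu i e
  indep : ∀ i e, e ∈ dom i → (es i e).1.1 * (eu i e).1.2 - (es i e).1.2 * (eu i e).1.1 ≠ 0

/-- invariance of the line fields under the group -/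
structure FieldAct (dom : ι → Set E) (iact : Γ → ι → ι) (act : Γ → ι → E → E) (es eu : ι → E → E) :
    Prop where
  es_act : ∀ a i e, e ∈ dom i →
    ∃ c : ℝ, c ≠ 0 ∧ fderiv ℝ (act a i) e (es i e) = c • es (iact a i) (act a i e)
  eu_act : ∀ a i e, e ∈ dom i →
    ∃ c : ℝ, c ≠ 0 ∧ fderiv ℝ (act a i) e (eu i e) = c • eu (iact a i) (act a i e)

/-- freeness -/
def FreeAct (dom : ι → Set E) (glue : ι → E → ι → E → Prop) (iact : Γ → ι → ι)
    (act : Γ → ι → E → E) : Prop :=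
  ∀ a i e, e ∈ dom i → glue (iact a i) (act a i e) i e → a = 1

/-- `K` is a family of compact sets and every point of the piece `i` in the set `P` is equivalent to a point
of one of these sets -/
def Reach (glue : ι → E → ι → E → Prop) (iact : Γ → ι → ι) (act : Γ → ι → E → E)
    (K : ι → Set E) (i : ι) (e : E) : Prop :=
  ∃ a j, ∃ e' ∈ K j, glue (iact a i) (act a i e) j e'

/-! ### Symmetry lemmas -/

def StPdSymm : Prop := ∀ {ι Γ : Type} [Group Γ] (dom : ι → Set E) (glue : ι → E → ι → E → Prop)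
    (iact : Γ → ι → ι) (act : Γ → ι → E → E), AlgGlue dom glue → AlgAct dom glue iact act →
    (∀ i j, ActGlueAt glue iact act i j) → ∀ i j, PdAt dom glue iact act i j →
    PdAt dom glue iact act j i

def StCompatSymm : Prop := ∀ {ι : Type} (dom : ι → Set E) (glue : ι → E → ι → E → Prop)
    (es eu : ι → E → E), AlgGlue dom glue → TransGlue glue → AlgField dom es eu →
    ∀ i j, CompatAt dom glue es eu i j → CompatAt dom glue es eu j i

end Local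

/-! ### Facts -/

def StGam : Prop := GamFacts
def StLog : Prop := LogFacts
def StG : Prop := GFacts
def StPsi : Prop := ∀ D : DA, GamFacts → PsiFacts D
def StProper : Prop := ∀ D : DA, GamFacts → PsiFacts D → ProperFacts D
def StPow : Prop := ∀ D : DA, GamFacts → PsiFacts D → PowFacts D
def StSigCont : Prop := ∀ D : DA, GamFacts → LogFacts → PsiFacts D → ProperFacts D →
  ContinuousOn D.sigma (Gam : Set P2)ᶜ ∧ ContinuousOn D.K0 (Gam : Set P2)ᶜ ∧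
    ContinuousOn D.Ka (Gam : Set P2)ᶜ
def StSig : Prop := ∀ D : DA, GamFacts → LogFacts → PsiFacts D → ProperFacts D → PowFacts D →
  (ContinuousOn D.sigma (Gam : Set P2)ᶜ ∧ ContinuousOn D.K0 (Gam : Set P2)ᶜ ∧
    ContinuousOn D.Ka (Gam : Set P2)ᶜ) → SigFacts D
def StOrb : Prop := ∀ D : DA, GamFacts → PsiFacts D → PowFacts D → OrbFacts D

/-! ### Flow 0 -/

def StAlg0 : Prop := ∀ D : DA, Facts D → AlgGlue dom0 (glue0 D)
def StTrans0 : Prop := ∀ D : DA, Facts D → TransGlue (glue0 D)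
def StClosed0 : Prop := ∀ D : DA, Facts D → ∀ i j, ClosedAt dom0 (glue0 D) i j
def StField0 : Prop := ∀ D : DA, Facts D → AlgField dom0 (es0 D) (eu0 D)
def StCompat0 : Prop := ∀ D : DA, Facts D → CompatAt dom0 (glue0 D) (es0 D) (eu0 D) .R .A
def StAct0 : Prop := ∀ D : DA, Facts D → AlgAct dom0 (glue0 D) iact0 (act0 D)
def StActGlue0 : Prop := ∀ D : DA, Facts D → ∀ i j, ActGlueAt (glue0 D) iact0 (act0 D) i j
def StFieldAct0 : Prop := ∀ D : DA, Facts D → FieldAct dom0 iact0 (act0 D) (es0 D) (eu0 D)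
def StFree0 : Prop := ∀ D : DA, Facts D → FreeAct dom0 (glue0 D) iact0 (act0 D)
def StPdSelf0 : Prop := ∀ D : DA, Facts D → ∀ i, PdAt dom0 (glue0 D) iact0 (act0 D) i i
def StPdRA0 : Prop := ∀ D : DA, Facts D → PdAt dom0 (glue0 D) iact0 (act0 D) .R .A

/-- the compact sets of flow 0 -/
def K0set (C ρ : ℝ) : Idx0 → Set E := fun _ =>
  {e | ‖e.1‖ ≤ C ∧ (∀ m ∈ Gam, ρ ≤ dist e.1 m) ∧ 0 ≤ e.2 ∧ e.2 ≤ 1}

def StComp0 : Prop := ∀ D : DA, Facts D → ∃ C ρ : ℝ, 0 < ρ ∧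
  ∀ i, ∀ e ∈ dom0 i, Reach (glue0 D) iact0 (act0 D) (K0set C ρ) i e
def StContrS0 : Prop := ∀ D : DA, Facts D → GoodContr dom0 (glue0 D) iact0 (act0 D) (es0 D) 1
def StContrU0 : Prop := ∀ D : DA, Facts D → GoodContr dom0 (glue0 D) iact0 (act0 D) (eu0 D) (-1)
def StConn0 : Prop := ∀ D : DA, Facts D → GoodConn dom0 (glue0 D)

/-- everything for flow 0 (assembly) -/
def StGood0 : Prop := ∀ D : DA, Facts D → Good dom0 (glue0 D) iact0 (act0 D) (es0 D) (eu0 D)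

/-! ### Flow a -/

def StAlgA : Prop := ∀ D : DA, Facts D → AlgGlue domA (glueA D)
def StTransA : Prop := ∀ D : DA, Facts D → TransGlue (glueA D)
def StClosedRA : Prop := ∀ D : DA, Facts D → ∀ s, ClosedAt domA (glueA D) .R (.A s)
def StClosedRg : Prop := ∀ D : DA, Facts D → ∀ m, ClosedAt domA (glueA D) .R (.g m)
def StClosedAg : Prop := ∀ D : DA, Facts D → ∀ s m, ClosedAt domA (glueA D) (.A s) (.g m)
def StFieldA : Prop := ∀ D : DA, Facts D → AlgField domA (esA D) (euA D)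
def StCompatRA : Prop := ∀ D : DA, Facts D → ∀ s,
  CompatAt domA (glueA D) (esA D) (euA D) .R (.A s)
def StCompatRg : Prop := ∀ D : DA, Facts D → ∀ m,
  CompatAt domA (glueA D) (esA D) (euA D) .R (.g m)
def StCompatAg : Prop := ∀ D : DA, Facts D → ∀ s m,
  CompatAt domA (glueA D) (esA D) (euA D) (.A s) (.g m)
def StActA : Prop := ∀ D : DA, Facts D → AlgAct domA (glueA D) iactA (actA D)
def StActGlueA : Prop := ∀ D : DA, Facts D → ∀ i j, ActGlueAt (glueA D) iactA (actA D) i j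
def StFieldActA : Prop := ∀ D : DA, Facts D → FieldAct domA iactA (actA D) (esA D) (euA D)
def StFreeA : Prop := ∀ D : DA, Facts D → FreeAct domA (glueA D) iactA (actA D)
def StPdSelfA : Prop := ∀ D : DA, Facts D →
  PdAt domA (glueA D) iactA (actA D) .R .R ∧
  (∀ s s', PdAt domA (glueA D) iactA (actA D) (.A s) (.A s')) ∧
  (∀ m m', PdAt domA (glueA D) iactA (actA D) (.g m) (.g m'))
def StPdRA : Prop := ∀ D : DA, Facts D → ∀ s, PdAt domA (glueA D) iactA (actA D) .R (.A s)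
def StPdRg : Prop := ∀ D : DA, Facts D → ∀ m, PdAt domA (glueA D) iactA (actA D) .R (.g m)
def StPdAg : Prop := ∀ D : DA, Facts D → ∀ s m,
  PdAt domA (glueA D) iactA (actA D) (.A s) (.g m)

/-- the compact sets of flow a -/
def KAset (C ρ : ℝ) : IdxA → Set E
  | .R => {e | ‖e.1‖ ≤ C ∧ (∀ m ∈ Gam, ρ ≤ dist e.1 m) ∧ 0 ≤ e.2 ∧ e.2 ≤ 1}
  | .A _ => {e | ‖e.1‖ ≤ C ∧ (∀ m ∈ Gam, ρ ≤ dist e.1 m) ∧ 0 ≤ e.2 ∧ e.2 ≤ 1}
  | .g m => {e | m = 0 ∧ ‖e.1‖ ≤ C ∧ 0 ≤ e.2 ∧ e.2 ≤ 1}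

/-- (M4), points of the pieces `R`: for all small `ρ` and all large `C` -/
def StCompR : Prop := ∀ D : DA, Facts D → ∃ ρ0 > 0, ∃ C0, ∀ ρ, 0 < ρ → ρ ≤ ρ0 → ∀ C, C0 ≤ C →
  ∀ e ∈ domA .R, Reach (glueA D) iactA (actA D) (KAset C ρ) .R e
def StCompAs : Prop := ∀ D : DA, Facts D → ∃ ρ0 > 0, ∃ C0, ∀ ρ, 0 < ρ → ρ ≤ ρ0 → ∀ C, C0 ≤ C →
  ∀ s, ∀ e ∈ domA (.A s), Reach (glueA D) iactA (actA D) (KAset C ρ) (.A s) e
/-- for the piece `γ` the radius `ρ` depends on `C` -/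
def StCompg : Prop := ∀ D : DA, Facts D → ∃ C0, ∀ C, C0 ≤ C → ∃ ρ0 > 0, ∀ ρ, 0 < ρ → ρ ≤ ρ0 →
  ∀ m, ∀ e ∈ domA (.g m), Reach (glueA D) iactA (actA D) (KAset C ρ) (.g m) e

def StContrSA : Prop := ∀ D : DA, Facts D → GoodContr domA (glueA D) iactA (actA D) (esA D) 1
def StContrUA : Prop := ∀ D : DA, Facts D → GoodContr domA (glueA D) iactA (actA D) (euA D) (-1)
def StConnA : Prop := ∀ D : DA, Facts D → GoodConn domA (glueA D)

/-- everything for flow a (assembly) -/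
def StGoodA : Prop := ∀ D : DA, Facts D → Good domA (glueA D) iactA (actA D) (esA D) (euA D)

end Pool.Agent.Work.MP_0d206b_gt
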